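import Pool.Agent.Lib.MP_3a0263_al.R.Base
import Pool.Agent.Lib.MP_3a0263_al.TypeA

namespace Pool.Agent.Lib.MP_3a0263_al.R

open Matrix

attribute [local instance 100] LieRing.ofAssociativeRing

universe u

set_option linter.unusedSectionVars false
set_option linter.unusedVariables false

variable {k : Type u} [Field k] {n : Type} [Fintype n] [DecidableEq n]
variable {L : LieSubalgebra k (Matrix n n k)} {π : Matrix n n k →ₗ[k] Matrix n n k}
variable {t : Submodule k (n → k)}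

theorem adm_apply (x y : Matrix n n k) : adm x y = ⁅x, y⁆ := rfl

theorem adm_pow_succ (x y : Matrix n n k) (j : ℕ) :
    (adm x ^ (j + 1)) y = ⁅x, (adm x ^ j) y⁆ := by
  rw [pow_succ', Module.End.mul_apply]; rfl

theorem adm_pow_succ' (x y : Matrix n n k) (j : ℕ) :
    (adm x ^ (j + 1)) y = (adm x ^ j) ⁅x, y⁆ := by
  rw [pow_succ, Module.End.mul_apply]; rfl

theorem adm_pow_mem {x y : Matrix n n k} (hx : x ∈ L) (hy : y ∈ L) (j : ℕ) :
    (adm x ^ j) y ∈ L := by
  induction j with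
  | zero => simpa using hy
  | succ j ih => rw [adm_pow_succ]; exact L.lie_mem hx ih

theorem adm_pow_p (p : ℕ) [Fact p.Prime] [CharP k p] (x y : Matrix n n k) :
    (adm x ^ p) y = ⁅x ^ p, y⁆ := by
  have := adr_pow_q (k := k) (p := p) x y 1
  rw [pow_one] at this
  exact this

theorem lie_one' (x : Matrix n n k) : ⁅x, (1 : Matrix n n k)⁆ = 0 := by simp [Ring.lie_def]

theorem one_lie' (x : Matrix n n k) : ⁅(1 : Matrix n n k), x⁆ = 0 := by simp [Ring.lie_def]

theorem scalar_of_gen (hn : Nonempty n) (hg : Algebra.adjoin k (L : Set (Matrix n n k)) = ⊤)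
    {z : Matrix n n k} (hz : ∀ x ∈ L, ⁅x, z⁆ = 0) : ∃ c : k, z = c • 1 := by
  have h : ∀ a : Matrix n n k, a * z = z * a := by
    intro a
    have ha : a ∈ Algebra.adjoin k (L : Set (Matrix n n k)) := by rw [hg]; trivial
    have hle : Algebra.adjoin k (L : Set (Matrix n n k)) ≤ Subalgebra.centralizer k {z} := by
      refine Algebra.adjoin_le fun x hx => ?_
      rw [SetLike.mem_coe, Subalgebra.mem_centralizer_iff]
      rintro _ rfl
      exact (sub_eq_zero.1 (hz x hx)).symm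
    exact ((Subalgebra.mem_centralizer_iff k).1 (hle ha) z rfl).symm
  exact scalar_of_comm z fun i j _ => h _

theorem Rich.cent (h : Rich L π) {z : Matrix n n k} (hz : ∀ x ∈ L, ⁅x, z⁆ = 0) :
    ∃ c : k, z = c • 1 := scalar_of_gen h.ne h.gen hz

theorem Rich.norm (h : Rich L π) {M : Matrix n n k} (hM : ∀ x ∈ L, ⁅x, M⁆ ∈ L) :
    ∃ y ∈ L, ∃ c : k, M = y + c • 1 := by
  obtain ⟨c, hc⟩ := h.cent (z := M - π M) fun x hx => by
    rw [lie_sub, ← h.equi x hx, h.left _ (hM x hx), sub_self]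
  exact ⟨π M, h.mem M, c, by rw [← hc]; abel⟩

theorem Rich.pow (h : Rich L π) (p : ℕ) [Fact p.Prime] [CharP k p] {x : Matrix n n k}
    (hx : x ∈ L) : ∃ y ∈ L, ∃ c : k, x ^ p = y + c • 1 :=
  h.norm fun z hz => by
    rw [← lie_skew, ← adm_pow_p]; exact L.neg_mem (adm_pow_mem hx hz p)

theorem Rich.equi' (h : Rich L π) {x : Matrix n n k} (hx : x ∈ L) (a : Matrix n n k) :
    π ⁅a, x⁆ = ⁅π a, x⁆ := by
  rw [← lie_skew, map_neg, h.equi x hx, lie_skew]

theorem Rich.equi_pow (h : Rich L π) {x : Matrix n n k} (hx : x ∈ L) (j : ℕ) (a : Matrix n n k) :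
    π ((adm x ^ j) a) = (adm x ^ j) (π a) := by
  induction j with
  | zero => simp
  | succ j ih => rw [adm_pow_succ, adm_pow_succ, h.equi x hx, ih]

theorem Rich.pi_one (h : Rich L π) : ∃ c : k, π 1 = c • 1 :=
  h.cent fun x hx => by rw [← h.equi x hx, lie_one', map_zero]

theorem exists_lie_of_nilp [Infinite k] {a : Matrix n n k} (ha : IsNilpotent a) :
    ∃ M : Matrix n n k, ⁅M, a⁆ = a := by
  obtain ⟨m, hm⟩ := ha
  obtain ⟨s, -, M, hM⟩ := exists_comm_pen (0 : Matrix n n k) a (m + 1) fun s => by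
    rw [zero_add, smul_pow, pow_succ a, hm, zero_mul, smul_zero]
  refine ⟨s • M, ?_⟩
  rw [Ring.lie_def]
  conv_rhs => rw [hM]
  simp

theorem diag_lie_apply (d : n → k) (x : Matrix n n k) (i j : n) :
    ⁅diagonal d, x⁆ i j = (d i - d j) * x i j := by
  simp [Ring.lie_def, diagonal_mul, mul_diagonal]; ring

theorem mem_wA {γ : t →ₗ[k] k} {x : Matrix n n k} :
    x ∈ wA t γ ↔ ∀ d : t, ⁅diagonal d.1, x⁆ = γ d • x := Iff.rfl

theorem mem_wA_iff {γ : t →ₗ[k] k} {x : Matrix n n k} :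
    x ∈ wA t γ ↔ ∀ i j, x i j ≠ 0 → ∀ d : t, d.1 i - d.1 j = γ d := by
  constructor
  · intro h i j hij d
    have := congrFun (congrFun (h d) i) j
    rw [diag_lie_apply, Matrix.smul_apply, smul_eq_mul] at this
    exact mul_right_cancel₀ hij this
  · intro h d
    ext i j
    rw [diag_lie_apply, Matrix.smul_apply, smul_eq_mul]
    by_cases hij : x i j = 0
    · simp [hij]
    · rw [h i j hij d]

theorem mem_wsp {γ : t →ₗ[k] k} {x : Matrix n n k} : x ∈ wsp L t γ ↔ x ∈ L ∧ x ∈ wA t γ :=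
  Iff.rfl

theorem wA_mul {β γ : t →ₗ[k] k} {x y : Matrix n n k} (hx : x ∈ wA t β) (hy : y ∈ wA t γ) :
    x * y ∈ wA t (β + γ) := by
  intro d
  have h : ⁅diagonal d.1, x * y⁆ = ⁅diagonal d.1, x⁆ * y + x * ⁅diagonal d.1, y⁆ := by
    simp only [Ring.lie_def]; noncomm_ring
  rw [h, hx d, hy d]
  simp [add_smul]

theorem wA_lie {β γ : t →ₗ[k] k} {x y : Matrix n n k} (hx : x ∈ wA t β) (hy : y ∈ wA t γ) :
    ⁅x, y⁆ ∈ wA t (β + γ) :=
  (wA t (β + γ)).sub_mem (wA_mul hx hy) (add_comm γ β ▸ wA_mul hy hx)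

theorem wsp_lie {β γ : t →ₗ[k] k} {x y : Matrix n n k} (hx : x ∈ wsp L t β) (hy : y ∈ wsp L t γ) :
    ⁅x, y⁆ ∈ wsp L t (β + γ) := ⟨L.lie_mem hx.1 hy.1, wA_lie hx.2 hy.2⟩

theorem diagonal_mem_wA (d : n → k) : diagonal d ∈ wA t 0 := by
  rw [mem_wA_iff]
  intro i j hij d'
  by_cases h : i = j
  · simp [h]
  · exact absurd (diagonal_apply_ne d h) hij

theorem one_mem_wA : (1 : Matrix n n k) ∈ wA t 0 := diagonal_mem_wA fun _ => 1

theorem wA_pow {β : t →ₗ[k] k} {x : Matrix n n k} (hx : x ∈ wA t β) (j : ℕ) :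
    x ^ j ∈ wA t ((j : k) • β) := by
  induction j with
  | zero => simpa using one_mem_wA
  | succ j ih => rw [pow_succ, Nat.cast_succ, add_smul, one_smul]; exact wA_mul ih hx

theorem wA_adm_pow {β γ : t →ₗ[k] k} {x y : Matrix n n k} (hx : x ∈ wA t β) (hy : y ∈ wA t γ)
    (j : ℕ) : (adm x ^ j) y ∈ wA t ((j : k) • β + γ) := by
  induction j with
  | zero => simpa using hy
  | succ j ih =>
    rw [adm_pow_succ, Nat.cast_succ, add_smul, one_smul, add_comm _ β, add_assoc]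
    exact wA_lie hx ih

theorem wA_disj {β γ : t →ₗ[k] k} {x : Matrix n n k} (hx : x ∈ wA t β) (hy : x ∈ wA t γ)
    (h : β ≠ γ) : x = 0 := by
  by_contra h0
  apply h
  ext d
  have := (hx d).symm.trans (hy d)
  exact smul_left_injective k h0 this

theorem comp_apply (γ : t →ₗ[k] k) (a : Matrix n n k) (i j : n)
    [Decidable (∀ d : t, d.1 i - d.1 j = γ d)] :
    comp t γ a i j = if ∀ d : t, d.1 i - d.1 j = γ d then a i j else 0 := by
  simp only [comp, LinearMap.coe_mk, AddHom.coe_mk, of_apply]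
  split_ifs <;> rfl

theorem comp_mem_wA (γ : t →ₗ[k] k) (a : Matrix n n k) : comp t γ a ∈ wA t γ := by
  classical
  rw [mem_wA_iff]
  intro i j hij
  rw [comp_apply] at hij
  by_contra h
  exact hij (if_neg h)

theorem comp_of_mem {γ : t →ₗ[k] k} {a : Matrix n n k} (ha : a ∈ wA t γ) : comp t γ a = a := by
  classical
  ext i j
  rw [comp_apply]
  split_ifs with h
  · rfl
  · by_contra h0
    exact h (mem_wA_iff.1 ha i j (Ne.symm h0))

theorem comp_of_ne {β γ : t →ₗ[k] k} {a : Matrix n n k} (ha : a ∈ wA t β) (h : β ≠ γ) :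
    comp t γ a = 0 := by
  classical
  ext i j
  rw [comp_apply]
  split_ifs with h'
  · by_contra h0
    exact h (LinearMap.ext fun d => (mem_wA_iff.1 ha i j h0 d).symm.trans (h' d))
  · rfl

/-- the weight of the matrix unit `E i j` -/
def wE (t : Submodule k (n → k)) (i j : n) : t →ₗ[k] k where
  toFun d := d.1 i - d.1 j
  map_add' a b := by simp only [Submodule.coe_add, Pi.add_apply]; ring
  map_smul' c a := by simp only [Submodule.coe_smul, Pi.smul_apply, smul_eq_mul, RingHom.id_apply]; ring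

theorem wE_apply (i j : n) (d : t) : wE t i j d = d.1 i - d.1 j := rfl

theorem single_mem_wA (i j : n) (c : k) : single i j c ∈ wA t (wE t i j) := by
  rw [mem_wA_iff]
  intro i' j' h d
  by_cases h' : i = i' ∧ j = j'
  · rw [← h'.1, ← h'.2]; rfl
  · exact absurd (single_apply_of_ne _ _ _ _ _ h') h

theorem eq_wE {γ : t →ₗ[k] k} {x : Matrix n n k} (hx : x ∈ wA t γ) (h0 : x ≠ 0) :
    ∃ i j, γ = wE t i j := by
  obtain ⟨i, j, hij⟩ : ∃ i j, x i j ≠ 0 := by
    by_contra h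
    push Not at h
    exact h0 (Matrix.ext h)
  exact ⟨i, j, LinearMap.ext fun d => (mem_wA_iff.1 hx i j hij d).symm⟩

theorem comp_map (f : Matrix n n k →ₗ[k] Matrix n n k) (α : t →ₗ[k] k)
    (hf : ∀ β, ∀ x ∈ wA t β, f x ∈ wA t (α + β)) (γ : t →ₗ[k] k) (a : Matrix n n k) :
    comp t (α + γ) (f a) = f (comp t γ a) := by
  induction a using Matrix.induction_on' with
  | h_zero => simp
  | h_add a b ha hb => simp only [map_add, ha, hb]
  | h_std_basis i j c =>
    have h1 := single_mem_wA (t := t) i j c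
    by_cases h : wE t i j = γ
    · rw [h] at h1
      rw [comp_of_mem h1, comp_of_mem (hf _ _ h1)]
    · rw [comp_of_ne h1 h, map_zero, comp_of_ne (hf _ _ h1) fun e => h (add_left_cancel e)]

theorem comp_lie {α : t →ₗ[k] k} {x : Matrix n n k} (hx : x ∈ wA t α) (γ : t →ₗ[k] k)
    (a : Matrix n n k) : comp t (α + γ) ⁅x, a⁆ = ⁅x, comp t γ a⁆ :=
  comp_map (adm x) α (fun _ _ hy => wA_lie hx hy) γ a

theorem comp_lie' {α : t →ₗ[k] k} {x : Matrix n n k} (hx : x ∈ wA t α) (γ : t →ₗ[k] k)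
    (a : Matrix n n k) : comp t (γ + α) ⁅a, x⁆ = ⁅comp t γ a, x⁆ := by
  rw [← lie_skew, map_neg, add_comm, comp_lie hx, lie_skew]

theorem Rich.pi_wA (h : Rich L π) (hD : Diag L t) {β : t →ₗ[k] k} {a : Matrix n n k}
    (ha : a ∈ wA t β) : π a ∈ wsp L t β :=
  ⟨h.mem a, fun d => by rw [← h.equi _ (hD.mem _ d.2), ha d, map_smul]⟩

theorem Rich.comp_pi (h : Rich L π) (hD : Diag L t) (γ : t →ₗ[k] k) (a : Matrix n n k) :
    comp t γ (π a) = π (comp t γ a) := by
  have := comp_map π 0 (fun β x hx => by rw [zero_add]; exact (h.pi_wA hD hx).2) γ a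
  rwa [zero_add] at this

theorem Rich.comp_mem (h : Rich L π) (hD : Diag L t) (γ : t →ₗ[k] k) {x : Matrix n n k}
    (hx : x ∈ L) : comp t γ x ∈ wsp L t γ := by
  refine ⟨?_, comp_mem_wA γ x⟩
  rw [← h.left x hx, h.comp_pi hD]
  exact h.mem _

open Classical in
theorem sum_comp (a : Matrix n n k) :
    ∑ γ ∈ (Finset.univ : Finset (n × n)).image (fun ij => wE t ij.1 ij.2), comp t γ a = a := by
  ext i j
  rw [Matrix.sum_apply, Finset.sum_eq_single (wE t i j)]
  · rw [comp_apply]; exact if_pos fun d => rfl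
  · intro γ _ hγ
    rw [comp_apply, if_neg fun h => hγ (LinearMap.ext fun d => (h d).symm)]
  · intro h
    exact absurd (Finset.mem_image.2 ⟨(i, j), Finset.mem_univ _, rfl⟩) h

theorem Rich.le_of_wsp (h : Rich L π) (hD : Diag L t) (J : Submodule k (Matrix n n k))
    (hJ : ∀ γ, wsp L t γ ≤ J) {x : Matrix n n k} (hx : x ∈ L) : x ∈ J := by
  rw [← sum_comp (t := t) x]
  exact J.sum_mem fun γ _ => hJ γ (h.comp_mem hD γ hx)

theorem Diag.zero (hD : Diag L t) {x : Matrix n n k} (hx : x ∈ wsp L t 0) :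
    ∃ d : t, x = diagonal d.1 := by
  obtain ⟨d, hd, e⟩ := hD.cent x hx.1 fun d hd => by simpa using hx.2 ⟨d, hd⟩
  exact ⟨⟨d, hd⟩, e⟩

theorem Diag.mem_wsp (hD : Diag L t) (d : t) : diagonal d.1 ∈ wsp L t 0 :=
  ⟨hD.mem _ d.2, diagonal_mem_wA _⟩

/-- a weight zero element of `L + k 1` -/
theorem Rich.pow_wt (h : Rich L π) (hD : Diag L t) (p : ℕ) [Fact p.Prime] [CharP k p]
    {γ : t →ₗ[k] k} {x : Matrix n n k} (hx : x ∈ wsp L t γ) :
    ∃ d : t, ∃ c : k, x ^ p = diagonal d.1 + c • 1 := by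
  obtain ⟨y, hy, c, e⟩ := h.pow p hx.1
  have h1 : x ^ p ∈ wA t 0 := by
    have := wA_pow hx.2 p
    rwa [CharP.cast_eq_zero, zero_smul] at this
  have h2 : y ∈ wA t 0 := by
    have : y = x ^ p - c • 1 := by rw [e]; abel
    rw [this]
    exact (wA t 0).sub_mem h1 ((wA t 0).smul_mem c one_mem_wA)
  obtain ⟨d, hd⟩ := hD.zero ⟨hy, h2⟩
  exact ⟨d, c, by rw [e, hd]⟩

theorem Rich.central_diag (h : Rich L π) (hD : Diag L t) (d : t)
    (hd : ∀ β, wsp L t β ≠ ⊥ → β d = 0) : ∃ c : k, diagonal d.1 = c • 1 := by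
  refine h.cent fun x hx => ?_
  have := h.le_of_wsp hD (LinearMap.ker (adm (diagonal d.1))) (fun γ y hy => by
    by_cases h0 : y = 0
    · simp [h0]
    · rw [LinearMap.mem_ker, adm_apply, hy.2 d,
        hd γ fun e => h0 (by rw [e] at hy; exact hy), zero_smul]) hx
  rw [← lie_skew, show ⁅diagonal d.1, x⁆ = 0 from this, neg_zero]

section carry

variable {p : ℕ} {h : t} {ν : n → ℤ}

theorem W_apply (a : ℤ) (x : Matrix n n k) (i j : n) :
    W p ν a x i j = (((ν i - ν j - a) / p : ℤ) : k) * x i j := rfl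

theorem W_mem (a : ℤ) {β : t →ₗ[k] k} {x : Matrix n n k} (hx : x ∈ wA t β) :
    W p ν a x ∈ wA t β := by
  rw [mem_wA_iff] at hx ⊢
  intro i j hij
  exact hx i j fun e => hij (by rw [W_apply, e, mul_zero])

theorem toral_dvd [CharP k p] (hν : IsToral h.1 ν) {β : t →ₗ[k] k} {a : ℤ} (ha : β h = a)
    {x : Matrix n n k} (hx : x ∈ wA t β) {i j : n} (hij : x i j ≠ 0) :
    (p : ℤ) ∣ ν i - ν j - a := by
  rw [← CharP.intCast_eq_zero_iff k p, Int.cast_sub, ← hν, mem_wA_iff.1 hx i j hij h, ha, sub_self]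

theorem exists_lift (hν : IsToral h.1 ν) {β : t →ₗ[k] k} {x : Matrix n n k} (hx : x ∈ wA t β)
    (h0 : x ≠ 0) : ∃ b : ℤ, β h = b := by
  obtain ⟨i, j, rfl⟩ := eq_wE hx h0
  exact ⟨_, hν i j⟩

theorem W_mul [CharP k p] (hν : IsToral h.1 ν) {β γ : t →ₗ[k] k} {a b : ℤ} (ha : β h = a)
    (hb : γ h = b) {x y : Matrix n n k} (hx : x ∈ wA t β) (hy : y ∈ wA t γ) :
    W p ν (a + b) (x * y) = W p ν a x * y + x * W p ν b y := by
  ext i j
  simp only [W_apply, Matrix.add_apply, Matrix.mul_apply, Finset.mul_sum, ← Finset.sum_add_distrib]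
  refine Finset.sum_congr rfl fun l _ => ?_
  by_cases h1 : x i l = 0
  · simp [h1]
  by_cases h2 : y l j = 0
  · simp [h2]
  have e : ν i - ν j - (a + b) = (ν i - ν l - a) + (ν l - ν j - b) := by ring
  rw [e, Int.add_ediv_of_dvd_left (toral_dvd hν ha hx h1)]
  push_cast
  ring

theorem del_apply (a : ℤ) (x : Matrix n n k) : del π p ν a x = π (W p ν a x) := rfl

theorem Rich.del_mem (hR : Rich L π) (hD : Diag L t) (a : ℤ) {β : t →ₗ[k] k} {x : Matrix n n k}
    (hx : x ∈ wA t β) : del π p ν a x ∈ wsp L t β := hR.pi_wA hD (W_mem a hx)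

theorem Rich.del_lie [CharP k p] (hR : Rich L π) (hν : IsToral h.1 ν) {β γ : t →ₗ[k] k} {a b : ℤ}
    (ha : β h = a) (hb : γ h = b) {x y : Matrix n n k} (hx : x ∈ wsp L t β) (hy : y ∈ wsp L t γ) :
    del π p ν (a + b) ⁅x, y⁆ = ⁅del π p ν a x, y⁆ + ⁅x, del π p ν b y⁆ := by
  have h1 := W_mul (p := p) hν ha hb hx.2 hy.2
  have h2 := W_mul (p := p) hν hb ha hy.2 hx.2
  rw [add_comm b a] at h2
  have h3 : W p ν (a + b) ⁅x, y⁆ = ⁅W p ν a x, y⁆ + ⁅x, W p ν b y⁆ := by
    rw [Ring.lie_def, map_sub, h1, h2, Ring.lie_def, Ring.lie_def]; abel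
  rw [del_apply, h3, map_add, hR.equi' hy.1, hR.equi x hx.1]
  rfl

theorem Rich.del_shift [Fact p.Prime] (hR : Rich L π) (a j : ℤ) {x : Matrix n n k} (hx : x ∈ L) :
    del π p ν (a + j * p) x = del π p ν a x - (j : k) • x := by
  have hp : (p : ℤ) ≠ 0 := Int.natCast_ne_zero.2 (Fact.out : p.Prime).ne_zero
  have : W p ν (a + j * p) x = W p ν a x - (j : k) • x := by
    ext i l
    have e : ν i - ν l - (a + j * p) = (ν i - ν l - a) + (-j) * p := by ring
    rw [Matrix.sub_apply, W_apply, W_apply, e, Int.add_mul_ediv_right _ _ hp]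
    push_cast
    simp; ring
  rw [del_apply, this, map_sub, map_smul, hR.left x hx]
  rfl

theorem del_zero (d : n → k) : del π p ν 0 (diagonal d) = 0 := by
  have : W p ν 0 (diagonal d) = 0 := by
    ext i j
    rw [W_apply]
    by_cases h : i = j
    · simp [h]
    · simp [diagonal_apply_ne d h]
  rw [del_apply, this, map_zero]

theorem IsToral.add {h h' : n → k} {ν ν' : n → ℤ} (h1 : IsToral h ν) (h2 : IsToral h' ν') :
    IsToral (h + h') (ν + ν') := fun i j => by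
  have := h1 i j
  have := h2 i j
  simp only [Pi.add_apply]
  push_cast at *
  linear_combination ‹h i - h j = _› + ‹h' i - h' j = _›

theorem del_add [CharP k p] (hν : IsToral h.1 ν) (ν' : n → ℤ) {β : t →ₗ[k] k} {a : ℤ} (a' : ℤ)
    (ha : β h = a) {x : Matrix n n k} (hx : x ∈ wA t β) :
    del π p (ν + ν') (a + a') x = del π p ν a x + del π p ν' a' x := by
  have : W p (ν + ν') (a + a') x = W p ν a x + W p ν' a' x := by
    ext i j
    simp only [W_apply, Matrix.add_apply, Pi.add_apply]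
    by_cases h1 : x i j = 0
    · simp [h1]
    have e : ν i + ν' i - (ν j + ν' j) - (a + a') = (ν i - ν j - a) + (ν' i - ν' j - a') := by ring
    rw [e, Int.add_ediv_of_dvd_left (toral_dvd hν ha hx h1)]
    push_cast
    ring
  rw [del_apply, this, map_add]
  rfl

theorem Rich.del_eig_lie [CharP k p] (hR : Rich L π) (hν : IsToral h.1 ν) {β γ : t →ₗ[k] k}
    {a b : ℤ} (ha : β h = a) (hb : γ h = b) {x y : Matrix n n k} (hx : x ∈ wsp L t β)
    (hy : y ∈ wsp L t γ) {ξ η : k} (h1 : del π p ν a x = ξ • x) (h2 : del π p ν b y = η • y) :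
    del π p ν (a + b) ⁅x, y⁆ = (ξ + η) • ⁅x, y⁆ := by
  rw [hR.del_lie hν ha hb hx hy, h1, h2, smul_lie, lie_smul, add_smul]

theorem Rich.del_eig_pow [CharP k p] (hR : Rich L π) (hν : IsToral h.1 ν) {β γ : t →ₗ[k] k}
    {a b : ℤ} (ha : β h = a) (hb : γ h = b) {x y : Matrix n n k} (hx : x ∈ wsp L t β)
    (hy : y ∈ wsp L t γ) {ξ η : k} (h1 : del π p ν a x = ξ • x) (h2 : del π p ν b y = η • y)
    (j : ℕ) : del π p ν (j * a + b) ((adm x ^ j) y) = (j * ξ + η) • (adm x ^ j) y := by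
  induction j with
  | zero => simpa using h2
  | succ j ih =>
    have := hR.del_eig_lie (p := p) hν ha (b := j * a + b) (γ := (j : k) • β + γ)
      (by simp [ha, hb]) hx ⟨adm_pow_mem hx.1 hy.1 j, wA_adm_pow hx.2 hy.2 j⟩ h1 ih
    rw [adm_pow_succ]
    push_cast
    rw [show (j + 1) * a + b = a + (j * a + b) by ring, this]
    congr 1; ring

end carry

end Pool.Agent.Lib.MP_3a0263_al.R
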