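import Pool.Agent.Lib.MP_3a0263_al.R.Blue
import Pool.Agent.Lib.MP_3a0263_al.R.Basic

namespace Pool.Agent.Lib.MP_3a0263_al.R

open Matrix

attribute [local instance 100] LieRing.ofAssociativeRing

universe u

set_option linter.unusedSectionVars false

namespace DiagB

variable {k : Type u} [Field k] {n : Type} [Fintype n] [DecidableEq n]

section frob

variable (p : ℕ) [Fact p.Prime] [CharP k p]

open Classical in
/-- size of the support -/
noncomputable def sc (w : n → k) : ℕ := (Finset.univ.filter fun i => w i ≠ 0).card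

theorem sc_lt {v w : n → k} (h : ∀ i, w i = 0 → v i = 0) {i0 : n} (h0 : w i0 ≠ 0) (h1 : v i0 = 0) :
    sc v < sc w := by
  classical
  refine Finset.card_lt_card ⟨fun i hi => ?_, fun hs => ?_⟩
  · simp only [Finset.mem_filter, Finset.mem_univ, true_and] at hi ⊢
    exact fun e => hi (h i e)
  · have := hs (Finset.mem_filter.2 ⟨Finset.mem_univ i0, h0⟩)
    exact (Finset.mem_filter.1 this).2 h1

theorem exists_fixed (U : Submodule k (n → k)) (hU : ∀ w ∈ U, w ^ p ∈ U) :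
    ∀ (m : ℕ) (w : n → k), sc w ≤ m → w ∈ U → w ≠ 0 →
      ∃ v ∈ U, v ≠ 0 ∧ v ^ p = v ∧ ∀ i, w i = 0 → v i = 0 := by
  have hp : p ≠ 0 := (Fact.out : p.Prime).ne_zero
  intro m
  induction m using Nat.strong_induction_on with
  | _ m ih =>
    intro w hm hw h0
    obtain ⟨i0, hi0⟩ := Function.ne_iff.1 h0
    have hi0' : w i0 ≠ 0 := hi0
    set v := (w i0)⁻¹ • w with hv
    have hv1 : v i0 = 1 := by simp [hv, hi0']
    have hvU : v ∈ U := U.smul_mem _ hw
    have hvs : ∀ i, w i = 0 → v i = 0 := fun i e => by simp [hv, e]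
    by_cases hf : v ^ p = v
    · exact ⟨v, hvU, fun e => by simp [e] at hv1, hf, hvs⟩
    · have hs : ∀ i, w i = 0 → (v ^ p - v) i = 0 := fun i e => by simp [hvs i e, hp]
      have hlt : sc (v ^ p - v) < sc w := sc_lt hs hi0' (by simp [hv1])
      obtain ⟨v', h1, h2, h3, h4⟩ := ih (sc (v ^ p - v)) (hlt.trans_le hm) (v ^ p - v) le_rfl
        (U.sub_mem (hU v hvU) hvU) (sub_ne_zero.2 hf)
      exact ⟨v', h1, h2, h3, fun i e => h4 i (hs i e)⟩

theorem le_of_fixed (U : Submodule k (n → k)) (hU : ∀ w ∈ U, w ^ p ∈ U) (J : Submodule k (n → k))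
    (hJ : ∀ v ∈ U, v ^ p = v → v ∈ J) : ∀ w ∈ U, w ∈ J := by
  suffices h : ∀ (m : ℕ) (w : n → k), sc w ≤ m → w ∈ U → w ∈ J from fun w hw => h _ w le_rfl hw
  intro m
  induction m using Nat.strong_induction_on with
  | _ m ih =>
    intro w hm hw
    by_cases h0 : w = 0
    · rw [h0]; exact J.zero_mem
    obtain ⟨v, h1, h2, h3, h4⟩ := exists_fixed p U hU _ w le_rfl hw h0
    obtain ⟨i0, hi0⟩ := Function.ne_iff.1 h2
    have hi0' : v i0 ≠ 0 := hi0
    have hlt : sc (w - (w i0 / v i0) • v) < sc w :=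
      sc_lt (fun i e => by simp [e, h4 i e]) (fun e => hi0' (h4 i0 e)) (by simp [hi0'])
    have h5 := ih _ (hlt.trans_le hm) _ le_rfl (U.sub_mem hw (U.smul_mem (w i0 / v i0) h1))
    have h6 := J.add_mem h5 (J.smul_mem (w i0 / v i0) (hJ v h1 h3))
    rwa [sub_add_cancel] at h6

theorem root_mem [IsAlgClosed k] (U : Submodule k (n → k)) (hU : ∀ w ∈ U, w ^ p ∈ U) {d : n → k}
    (hd : d ^ p ∈ U) : d ∈ U := by
  have hp : 0 < p := (Fact.out : p.Prime).pos
  let J : Submodule k (n → k) :=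
    { carrier := {w | ∃ v ∈ U, v ^ p = w}
      zero_mem' := ⟨0, U.zero_mem, zero_pow hp.ne'⟩
      add_mem' := by
        rintro _ _ ⟨a, ha, rfl⟩ ⟨b, hb, rfl⟩
        exact ⟨a + b, U.add_mem ha hb, funext fun i => add_pow_char (a i) (b i) p⟩
      smul_mem' := by
        rintro c _ ⟨a, ha, rfl⟩
        obtain ⟨z, rfl⟩ := IsAlgClosed.exists_pow_nat_eq c hp
        exact ⟨z • a, U.smul_mem z ha, smul_pow z a p⟩ }
  obtain ⟨v, hv, e⟩ := le_of_fixed p U hU J (fun v hv e => ⟨v, hv, e⟩) _ hd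
  have : v = d := funext fun i => frobenius_inj k p (congrFun e i)
  exact this ▸ hv

theorem root_mem_pow [IsAlgClosed k] (U : Submodule k (n → k)) (hU : ∀ w ∈ U, w ^ p ∈ U) (m : ℕ) :
    ∀ d : n → k, d ^ p ^ m ∈ U → d ∈ U := by
  induction m with
  | zero => intro d hd; simpa using hd
  | succ m ih =>
    intro d hd
    rw [pow_succ, pow_mul] at hd
    exact ih d (root_mem p U hU hd)

end frob

/-- semisimple matrices -/
def SS (x : Matrix n n k) : Prop := Module.End.IsSemisimple (toLinAlgEquiv' x)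

theorem SS.map {x : Matrix n n k} (h : SS x) (θ : Matrix n n k ≃ₐ[k] Matrix n n k) : SS (θ x) := by
  refine Module.End.isSemisimple_of_squarefree_aeval_eq_zero h.minpoly_squarefree ?_
  have h1 := congrArg (((toLinAlgEquiv' (R := k) (n := n)).symm.trans θ).trans toLinAlgEquiv')
    (minpoly.aeval k (toLinAlgEquiv' x))
  rw [map_zero, ← Polynomial.aeval_algHom_apply] at h1
  simpa using h1

theorem ss_scalar (c : k) : SS (c • (1 : Matrix n n k)) := by
  unfold SS
  rw [map_smul, map_one]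
  exact Module.End.IsSemisimple_smul c Module.End.isSemisimple_id

theorem SS.smul {x : Matrix n n k} (h : SS x) (c : k) : SS (c • x) := by
  unfold SS
  rw [map_smul]
  exact Module.End.IsSemisimple_smul c h

theorem SS.add [IsAlgClosed k] {x y : Matrix n n k} (hx : SS x) (hy : SS y) (h : Commute x y) :
    SS (x + y) := by
  unfold SS
  rw [map_add]
  exact Module.End.IsSemisimple.add_of_commute (h.map _) hx hy

theorem exists_diag [IsAlgClosed k] (S : Set (Matrix n n k)) (hS : ∀ x ∈ S, SS x)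
    (hc : ∀ x ∈ S, ∀ y ∈ S, Commute x y) :
    ∃ θ : Matrix n n k ≃ₐ[k] Matrix n n k, ∀ x ∈ S, ∃ d, θ x = diagonal d := by
  let f : S → Module.End k (n → k) := fun x => toLinAlgEquiv' x.1
  have h1 := Module.End.iSup_iInf_maxGenEigenspace_eq_top_of_iSup_maxGenEigenspace_eq_top_of_commute f
    (fun x y _ => (hc _ x.2 _ y.2).map _) fun x => Module.End.iSup_maxGenEigenspace_eq_top _
  let E : Set (n → k) := {v | ∀ x : S, ∃ c : k, f x v = c • v}
  have h2 : Submodule.span k E = ⊤ := by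
    rw [eq_top_iff, ← h1]
    refine iSup_le fun χ v hv => Submodule.subset_span fun x => ⟨χ x, ?_⟩
    have := (Submodule.mem_iInf _).1 hv x
    rw [(hS _ x.2).isFinitelySemisimple.maxGenEigenspace_eq_eigenspace] at this
    exact Module.End.mem_eigenspace_iff.1 this
  obtain ⟨b, hb, hsp, hli⟩ := exists_linearIndependent k E
  let B0 : Module.Basis b k (n → k) := Module.Basis.mk hli (by rw [Subtype.range_coe, hsp, h2])
  let B : Module.Basis n k (n → k) := B0.reindex (B0.indexEquiv (Pi.basisFun k n))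
  have hB : ∀ i, B i ∈ E := fun i => by
    rw [Module.Basis.reindex_apply, Module.Basis.mk_apply]
    exact hb (Subtype.prop _)
  refine ⟨toLinAlgEquiv'.trans (LinearMap.toMatrixAlgEquiv B), fun x hx => ?_⟩
  choose d hd using fun i => hB i ⟨x, hx⟩
  refine ⟨d, ?_⟩
  ext i j
  rw [AlgEquiv.trans_apply, LinearMap.toMatrixAlgEquiv_apply, show toLinAlgEquiv' x (B j) = _ from hd j]
  by_cases h : i = j
  · simp [h]
  · simp [h]

theorem ss_mem [IsAlgClosed k] (p : ℕ) [Fact p.Prime] [CharP k p] (U : Submodule k (Matrix n n k))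
    (hU : ∀ w ∈ U, w ^ p ∈ U) {s : Matrix n n k} (hs : SS s) (m : ℕ) (h : s ^ p ^ m ∈ U) : s ∈ U := by
  obtain ⟨θ, hθ⟩ := exists_diag {s} (by simpa using hs) (by simp)
  obtain ⟨d, hd⟩ := hθ s rfl
  have e : s = θ.symm (diagonal d) := by rw [← hd, θ.symm_apply_apply]
  let U' : Submodule k (n → k) := U.comap (θ.symm.toLinearMap ∘ₗ diagonalLinearMap n k k)
  have hm : ∀ w, w ∈ U' ↔ θ.symm (diagonal w) ∈ U := fun w => Iff.rfl
  rw [e] at h ⊢
  refine (hm d).1 (root_mem_pow p U' (fun w hw => ?_) m d ?_)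
  · rw [hm, ← diagonal_pow, map_pow]; exact hU _ hw
  · rw [hm, ← diagonal_pow, map_pow]; exact h

variable {L : LieSubalgebra k (Matrix n n k)} {π : Matrix n n k →ₗ[k] Matrix n n k}
variable {t : Submodule k (n → k)}

theorem lie_zero_iff {x y : Matrix n n k} : ⁅x, y⁆ = 0 ↔ Commute x y := sub_eq_zero

/-- `L + k 1` -/
def ext1 (L : LieSubalgebra k (Matrix n n k)) : Submodule k (Matrix n n k) where
  carrier := {u | ∃ y ∈ L, ∃ c : k, u = y + c • 1}
  zero_mem' := ⟨0, L.zero_mem, 0, by simp⟩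
  add_mem' := by
    rintro _ _ ⟨a, ha, c, rfl⟩ ⟨b, hb, c', rfl⟩
    exact ⟨a + b, L.add_mem ha hb, c + c', by rw [add_smul]; abel⟩
  smul_mem' := by
    rintro c _ ⟨a, ha, c', rfl⟩
    exact ⟨c • a, L.smul_mem c ha, c * c', by rw [smul_add, smul_smul]⟩

theorem ext1_pow (p : ℕ) [Fact p.Prime] [CharP k p] (h : Rich L π) :
    ∀ w ∈ ext1 L, w ^ p ∈ ext1 L := by
  rintro _ ⟨a, ha, c, rfl⟩
  have := h.ne
  obtain ⟨y, hy, c', e⟩ := h.pow p ha
  refine ⟨y, hy, c' + c ^ p, ?_⟩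
  rw [add_pow_char_of_commute p ((Commute.one_right a).smul_right c), e, smul_pow, one_pow, add_smul]
  abel

theorem dec [IsAlgClosed k] (p : ℕ) [Fact p.Prime] [CharP k p] (h : Rich L π)
    (hmax : ∀ y ∈ L, SS y → (∀ d ∈ t, ⁅diagonal d, y⁆ = 0) → ∃ d ∈ t, y = diagonal d)
    {x : Matrix n n k} (hx : x ∈ L) (hc : ∀ d ∈ t, ⁅diagonal d, x⁆ = 0) :
    ∃ d ∈ t, ∃ (c : k) (ν : Matrix n n k), IsNilpotent ν ∧ x = diagonal d + c • 1 + ν := by
  have := h.ne
  obtain ⟨ν, hν, s, hs, hn, hss, e⟩ := Module.End.exists_isNilpotent_isSemisimple (f := toLinAlgEquiv' x)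
  obtain ⟨ν, rfl⟩ := (toLinAlgEquiv' (R := k) (n := n)).surjective ν
  obtain ⟨s, rfl⟩ := (toLinAlgEquiv' (R := k) (n := n)).surjective s
  have e' : x = ν + s := toLinAlgEquiv'.injective (by rw [map_add]; exact e)
  have hn' : IsNilpotent ν := by simpa using hn.map (toLinAlgEquiv' (R := k) (n := n)).symm
  have hcs : ∀ y, Commute y x → Commute y s := fun y hy => by
    have := (Algebra.commute_of_mem_adjoin_singleton_of_commute hs
      (hy.map (toLinAlgEquiv' (R := k) (n := n)))).map (toLinAlgEquiv' (R := k) (n := n)).symm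
    simpa using this
  have hνs : Commute ν s := by
    have h1 : ν = x - s := by rw [e']; abel
    rw [h1]
    exact (hcs x (Commute.refl x)).sub_left (Commute.refl s)
  obtain ⟨m, hm⟩ := hn'
  have hle : m ≤ p ^ m := (Nat.lt_pow_self (Fact.out : p.Prime).one_lt).le
  have hpow : ∀ j, x ^ p ^ j ∈ ext1 L := fun j => by
    induction j with
    | zero => exact ⟨x, hx, 0, by simp⟩
    | succ j ih => rw [pow_succ, pow_mul]; exact ext1_pow p h _ ih
  have h2 : s ^ p ^ m ∈ ext1 L := by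
    have := hpow m
    rwa [e', add_pow_char_pow_of_commute p m hνs, pow_eq_zero_of_le hle hm, zero_add] at this
  obtain ⟨y, hy, c, ey⟩ := ss_mem p (ext1 L) (ext1_pow p h) hss m h2
  have ey' : y = s + (-c) • 1 := by rw [ey, neg_smul]; abel
  obtain ⟨d, hd, ed⟩ := hmax y hy
    (ey' ▸ SS.add hss (ss_scalar _) ((Commute.one_right s).smul_right _)) fun d hd => by
      rw [ey', lie_zero_iff]
      exact (hcs _ (lie_zero_iff.1 (hc d hd))).add_right ((Commute.one_right _).smul_right _)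
  exact ⟨d, hd, c, ν, ⟨m, hm⟩, by rw [e', ey, ed]; abel⟩

theorem comp_mem' (h : Rich L π) (hm : ∀ d ∈ t, diagonal d ∈ L) {x : Matrix n n k} (hx : x ∈ L) :
    comp t 0 x ∈ L := by
  have := comp_map (t := t) π 0 (fun β a ha => by
    rw [zero_add]
    exact fun d => by rw [← h.equi _ (hm _ d.2), ha d, map_smul]) 0 x
  rw [zero_add, h.left x hx] at this
  rw [this]
  exact h.mem _

theorem wA_zero {x : Matrix n n k} : x ∈ wA t 0 ↔ ∀ d ∈ t, ⁅diagonal d, x⁆ = 0 :=
  ⟨fun h d hd => by simpa using h ⟨d, hd⟩, fun h d => by simpa using h d.1 d.2⟩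

theorem cent [IsAlgClosed k] (p : ℕ) [Fact p.Prime] [CharP k p] (h : Rich L π)
    (hm : ∀ d ∈ t, diagonal d ∈ L)
    (hmax : ∀ y ∈ L, SS y → (∀ d ∈ t, ⁅diagonal d, y⁆ = 0) → ∃ d ∈ t, y = diagonal d)
    {x : Matrix n n k} (hx : x ∈ L) (hc : ∀ d ∈ t, ⁅diagonal d, x⁆ = 0) :
    ∃ d ∈ t, x = diagonal d := by
  obtain ⟨d, hd, c, ν, hν, e⟩ := dec p h hmax hx hc
  obtain ⟨M, hM⟩ := exists_lie_of_nilp hν
  obtain ⟨c', hc'⟩ := h.pi_one
  set z := x - diagonal d with hz
  have hzL : z ∈ L := L.sub_mem hx (hm d hd)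
  have hzν : z = c • 1 + ν := by rw [hz, e]; abel
  have hz0 : z ∈ wA t 0 := (wA t 0).sub_mem (wA_zero.2 hc) (diagonal_mem_wA d)
  set z' := z - (c * c') • 1 with hz'
  have hz'0 : z' ∈ wA t 0 := (wA t 0).sub_mem hz0 ((wA t 0).smul_mem _ one_mem_wA)
  have h1 : ⁅M, z⁆ = z - c • 1 := by
    rw [hzν, lie_add, lie_smul, lie_one', hM]; simp
  have h2 : ⁅π M, z'⁆ = z' := by
    have := h.equi' hzL M
    rw [h1, map_sub, map_smul, h.left z hzL, hc', smul_smul] at this
    rw [hz', lie_sub, lie_smul, lie_one', smul_zero, sub_zero, ← this]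
  have h3 : ⁅comp t 0 (π M), z'⁆ = z' := by
    have := comp_lie' hz'0 0 (π M)
    rw [add_zero, h2, comp_of_mem hz'0] at this
    exact this.symm
  obtain ⟨d', hd', c'', ν', hν', e'⟩ := dec p h hmax (comp_mem' h hm (h.mem M))
    (wA_zero.1 (comp_mem_wA 0 _))
  have h4 : ⁅ν', z'⁆ = z' := by
    rw [e', add_lie, add_lie, smul_lie, one_lie', wA_zero.1 hz'0 d' hd'] at h3
    simpa using h3
  obtain ⟨m, hm'⟩ := LieAlgebra.ad_nilpotent_of_nilpotent (R := k) hν'
  have h5 : ∀ j, (adm ν' ^ j) z' = z' := fun j => by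
    induction j with
    | zero => simp
    | succ j ih => rw [adm_pow_succ, ih, h4]
  have h6 : z' = 0 := by rw [← h5 m, hm']; rfl
  have h7 : z = (c * c') • 1 := sub_eq_zero.1 h6
  obtain ⟨d'', hd'', e''⟩ := hmax z hzL (h7 ▸ ss_scalar _) (wA_zero.1 hz0)
  refine ⟨d + d'', t.add_mem hd hd'', ?_⟩
  have : diagonal (d + d'') = diagonal d + diagonal d'' := (diagonal_add d d'').symm
  rw [this, ← e'', hz]
  abel

theorem toral (p : ℕ) [Fact p.Prime] [CharP k p] (h : Rich L π) (hm : ∀ d ∈ t, diagonal d ∈ L)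
    (hc : ∀ x ∈ L, (∀ d ∈ t, ⁅diagonal d, x⁆ = 0) → ∃ d ∈ t, x = diagonal d)
    (γ : t →ₗ[k] k) (hγ : γ ≠ 0) : ∃ (h : t) (ν : n → ℤ), IsToral h.1 ν ∧ γ h ≠ 0 := by
  by_contra hcon
  push Not at hcon
  have key : ∀ w, diagonal w ∈ ext1 L → ∃ d ∈ t, ∃ c : k, w = d + c • 1 := by
    rintro w ⟨y, hy, c, e⟩
    have ey : y = diagonal w - c • 1 := by rw [e]; abel
    obtain ⟨d, hd, ed⟩ := hc y hy (wA_zero.1 (ey ▸ (wA t 0).sub_mem (diagonal_mem_wA w)
      ((wA t 0).smul_mem _ one_mem_wA)))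
    refine ⟨d, hd, c, funext fun i => ?_⟩
    have := congrFun (congrFun e i) i
    rw [ed] at this
    simpa using this
  let U : Submodule k (n → k) := (ext1 L).comap (diagonalLinearMap n k k)
  have hU : ∀ w, w ∈ U ↔ diagonal w ∈ ext1 L := fun w => Iff.rfl
  let J : Submodule k (n → k) := (LinearMap.ker γ).map t.subtype ⊔ Submodule.span k {1}
  have hJ := le_of_fixed p U (fun w hw => by
    rw [hU, ← diagonal_pow]; exact ext1_pow p h _ hw) J fun v hv e => by
      obtain ⟨d, hd, c, rfl⟩ := key v hv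
      have h1 : ∀ i, ∃ z : ℤ, (z : k) = d i + c := fun i =>
        (mem_bot_iff_intCast p k).1 ((Subfield.mem_bot_iff_pow_eq_self k p).2 (by
          simpa using congrFun e i))
      choose ν hν using h1
      have h2 := hcon ⟨d, hd⟩ ν fun i j => by
        push_cast
        rw [hν, hν]
        ring
      exact Submodule.add_mem_sup ⟨⟨d, hd⟩, h2, rfl⟩
        (Submodule.smul_mem _ c (Submodule.mem_span_singleton_self _))
  apply hγ
  ext d
  obtain ⟨_, ⟨a, ha, rfl⟩, b, hb, e⟩ := Submodule.mem_sup.1 (hJ d.1 ⟨_, hm _ d.2, 0, by simp⟩)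
  obtain ⟨c, rfl⟩ := Submodule.mem_span_singleton.1 hb
  have hd : (d - a).1 = c • 1 := by rw [Submodule.coe_sub, ← e]; simp
  have h3 := hcon (d - a) 0 fun i j => by simp [hd]
  rw [map_sub, LinearMap.mem_ker.1 ha, sub_zero] at h3
  exact h3

theorem map_lie' (θ : Matrix n n k ≃ₐ[k] Matrix n n k) (x y : Matrix n n k) :
    θ ⁅x, y⁆ = ⁅θ x, θ y⁆ := by simp [Ring.lie_def]

/-- transport of a Lie subalgebra -/
def tr (θ : Matrix n n k ≃ₐ[k] Matrix n n k) (L : LieSubalgebra k (Matrix n n k)) :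
    LieSubalgebra k (Matrix n n k) where
  toSubmodule := L.toSubmodule.comap θ.symm.toLinearMap
  lie_mem' := fun {x y} hx hy => by
    change θ.symm ⁅x, y⁆ ∈ L
    rw [map_lie']
    exact L.lie_mem hx hy

theorem mem_tr (θ : Matrix n n k ≃ₐ[k] Matrix n n k) {x : Matrix n n k} :
    x ∈ tr θ L ↔ θ.symm x ∈ L := Iff.rfl

theorem rich_tr (θ : Matrix n n k ≃ₐ[k] Matrix n n k) (h : Rich L π) :
    Rich (tr θ L) (θ.toLinearMap ∘ₗ π ∘ₗ θ.symm.toLinearMap) where
  ne := h.ne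
  mem := fun a => by
    rw [mem_tr]
    simpa using h.mem _
  left := fun x hx => by
    change θ (π (θ.symm x)) = x
    rw [h.left _ ((mem_tr θ).1 hx), θ.apply_symm_apply]
  equi := fun x hx a => by
    change θ (π (θ.symm ⁅x, a⁆)) = ⁅x, θ (π (θ.symm a))⁆
    rw [map_lie', h.equi _ ((mem_tr θ).1 hx), map_lie', θ.apply_symm_apply]
  gen := by
    have e : (tr θ L : Set (Matrix n n k)) =
        (θ : Matrix n n k →ₐ[k] Matrix n n k) '' (L : Set (Matrix n n k)) := by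
      ext x
      constructor
      · exact fun hx => ⟨θ.symm x, hx, θ.apply_symm_apply x⟩
      · rintro ⟨y, hy, rfl⟩
        change θ.symm (θ y) ∈ L
        rwa [θ.symm_apply_apply]
    rw [e, ← AlgHom.map_adjoin, h.gen, Algebra.map_top, AlgHom.range_eq_top]
    exact θ.surjective

theorem exists_max [IsAlgClosed k] (L : LieSubalgebra k (Matrix n n k)) :
    ∃ T : Submodule k (Matrix n n k), (∀ x ∈ T, x ∈ L) ∧ (∀ x ∈ T, SS x) ∧
      (∀ x ∈ T, ∀ y ∈ T, Commute x y) ∧ ∀ y ∈ L, SS y → (∀ x ∈ T, Commute x y) → y ∈ T := by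
  obtain ⟨T, ⟨h1, h2, h3⟩, hT⟩ := set_has_maximal_iff_noetherian.2
    (inferInstance : IsNoetherian k (Matrix n n k))
    {T | (∀ x ∈ T, x ∈ L) ∧ (∀ x ∈ T, SS x) ∧ ∀ x ∈ T, ∀ y ∈ T, Commute x y}
    ⟨⊥, fun x hx => by rw [(Submodule.mem_bot k).1 hx]; exact L.zero_mem,
      fun x hx => by rw [(Submodule.mem_bot k).1 hx]; simpa using ss_scalar (k := k) (n := n) 0,
      fun x hx y _ => by rw [(Submodule.mem_bot k).1 hx]; exact Commute.zero_left y⟩
  refine ⟨T, h1, h2, h3, fun y hy hs hc => ?_⟩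
  by_contra hn
  have hm : ∀ x ∈ T ⊔ Submodule.span k {y}, ∃ a ∈ T, ∃ c : k, x = a + c • y := fun x hx => by
    obtain ⟨a, ha, b, hb, rfl⟩ := Submodule.mem_sup.1 hx
    obtain ⟨c, rfl⟩ := Submodule.mem_span_singleton.1 hb
    exact ⟨a, ha, c, rfl⟩
  refine hT (T ⊔ Submodule.span k {y}) ⟨fun x hx => ?_, fun x hx => ?_, fun x hx x' hx' => ?_⟩
    (lt_of_le_of_ne le_sup_left fun e => hn ?_)
  · obtain ⟨a, ha, c, rfl⟩ := hm x hx
    exact L.add_mem (h1 a ha) (L.smul_mem c hy)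
  · obtain ⟨a, ha, c, rfl⟩ := hm x hx
    exact (h2 a ha).add (hs.smul c) ((hc a ha).smul_right c)
  · obtain ⟨a, ha, c, rfl⟩ := hm x hx
    obtain ⟨a', ha', c', rfl⟩ := hm x' hx'
    exact ((h3 a ha a' ha').add_right ((hc a ha).smul_right c')).add_left
      ((((hc a' ha').symm.add_right ((Commute.refl y).smul_right c'))).smul_left c)
  · rw [e]
    exact Submodule.mem_sup_right (Submodule.mem_span_singleton_self y)

end DiagB

open DiagB in
theorem st_diag (k : Type u) [Field k] [IsAlgClosed k] (p : ℕ) [Fact p.Prime] [CharP k p] :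
    S_diag k := by
  intro n _ _ L π h
  obtain ⟨T, h1, h2, h3, h4⟩ := exists_max L
  obtain ⟨θ, hθ⟩ := exists_diag (T : Set (Matrix n n k)) h2 h3
  let t : Submodule k (n → k) := T.comap (θ.symm.toLinearMap ∘ₗ diagonalLinearMap n k k)
  have ht : ∀ d, d ∈ t ↔ θ.symm (diagonal d) ∈ T := fun d => Iff.rfl
  have hm : ∀ d ∈ t, diagonal d ∈ tr θ L := fun d hd => h1 _ hd
  have hmax : ∀ y ∈ tr θ L, SS y → (∀ d ∈ t, ⁅diagonal d, y⁆ = 0) → ∃ d ∈ t, y = diagonal d := by
    intro y hy hs hc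
    have h5 : θ.symm y ∈ T := h4 _ hy (hs.map θ.symm) fun x hx => by
      obtain ⟨d, hd⟩ := hθ x hx
      have e : x = θ.symm (diagonal d) := by rw [← hd, θ.symm_apply_apply]
      rw [e]
      exact (lie_zero_iff.1 (hc d ((ht d).2 (e ▸ hx)))).map θ.symm
    obtain ⟨d, hd⟩ := hθ _ h5
    rw [θ.apply_symm_apply] at hd
    exact ⟨d, (ht d).2 (hd ▸ h5), hd⟩
  have hc : ∀ x ∈ tr θ L, (∀ d ∈ t, ⁅diagonal d, x⁆ = 0) → ∃ d ∈ t, x = diagonal d :=
    fun x hx hc => cent p (rich_tr θ h) hm hmax hx hc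
  exact ⟨θ, tr θ L, _, t, fun x => by rw [mem_tr, θ.symm_apply_apply], rich_tr θ h,
    hm, hc, toral p (rich_tr θ h) hm hc⟩

end Pool.Agent.Lib.MP_3a0263_al.R
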