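import Pool.Agent.Lib.MP_3a0263_al.R.Blue

namespace Pool.Agent.Lib.MP_3a0263_al.R

attribute [local instance 100] LieRing.ofAssociativeRing

universe u

namespace Kol

section General

variable (k : Type u) [Field k] {R : Type*} [Ring R] [Algebra k R]

/-- the span of the elements `g - 1` -/
def aug (M : Submonoid R) : Submodule k R := Submodule.span k {x | ∃ g ∈ M, x = g - 1}

variable {k} {M : Submonoid R}

theorem lie_sub_one (x y : R) : (x - 1) * (y - 1) - (y - 1) * (x - 1) = x * y - y * x := by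
  noncomm_ring

theorem mul_sub_one' (x y : R) : x * y - 1 = (x - 1) * y + (y - 1) := by noncomm_ring

theorem mem_aug {g : R} (hg : g ∈ M) : g - 1 ∈ aug k M := Submodule.subset_span ⟨g, hg, rfl⟩

theorem aug_mul {x g : R} (hx : x ∈ aug k M) (hg : g ∈ M) : x * g ∈ aug k M := by
  induction hx using Submodule.span_induction with
  | mem x hx =>
    obtain ⟨h, hh, rfl⟩ := hx
    rw [show (h - 1) * g = (h * g - 1) - (g - 1) by noncomm_ring]
    exact sub_mem (mem_aug (mul_mem hh hg)) (mem_aug hg)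
  | zero => simp
  | add x y _ _ hx hy => rw [add_mul]; exact add_mem hx hy
  | smul c x _ hx => rw [smul_mul_assoc]; exact Submodule.smul_mem _ _ hx

theorem pow_mul_mem {x g : R} {j : ℕ} (hx : x ∈ aug k M ^ (j + 1)) (hg : g ∈ M) :
    x * g ∈ aug k M ^ (j + 1) := by
  rw [pow_succ] at hx ⊢
  refine Submodule.mul_induction_on hx (fun a ha b hb => ?_) fun a b ha hb => ?_
  · rw [mul_assoc]; exact Submodule.mul_mem_mul ha (aug_mul hb hg)
  · rw [add_mul]; exact add_mem ha hb

theorem map_pow_mem (φ : R →ₐ[k] R) (hφ : ∀ g ∈ M, φ g ∈ M) {x : R} {j : ℕ}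
    (hx : x ∈ aug k M ^ j) : φ x ∈ aug k M ^ j := by
  have h1 : (aug k M).map φ.toLinearMap ≤ aug k M := by
    rw [aug, Submodule.map_span_le]
    rintro _ ⟨g, hg, rfl⟩
    rw [AlgHom.toLinearMap_apply, map_sub, map_one]
    exact mem_aug (hφ g hg)
  have h2 := pow_le_pow_left' h1 j
  rw [← Submodule.map_pow] at h2
  exact h2 ⟨x, hx, rfl⟩

theorem kolchin_top [IsAlgClosed k] [FiniteDimensional k R]
    (hM : Submodule.span k (M : Set R) = ⊤) (h : ∀ g ∈ M, IsNilpotent (g - 1)) :
    ∃ N, aug k M ^ (N + 1) = ⊥ := by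
  have : IsArtinianRing R := IsArtinianRing.of_finite k R
  obtain ⟨m, d, -, ⟨e⟩⟩ :=
    IsSemisimpleRing.exists_algEquiv_pi_matrix_of_isAlgClosed k (R ⧸ Ring.jacobson R)
  let π : R →ₐ[k] _ := e.toAlgHom.comp (Ideal.Quotient.mkₐ k (Ring.jacobson R))
  have hs : Function.Surjective π := e.surjective.comp Ideal.Quotient.mk_surjective
  have tr : ∀ x ∈ aug k M, ∀ i, (π x i).trace = 0 := fun x hx i => by
    induction hx using Submodule.span_induction with
    | mem x hx =>
      obtain ⟨g, hg, rfl⟩ := hx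
      exact (Matrix.isNilpotent_trace_of_isNilpotent
        (((h g hg).map π).map (Pi.evalRingHom _ i))).eq_zero
    | zero => simp
    | add x y _ _ hx hy => simp [hx, hy]
    | smul c x _ hx => simp [hx]
  have ml : ∀ x ∈ aug k M, ∀ y, x * y ∈ aug k M := fun x hx y => by
    have hy : y ∈ Submodule.span k (M : Set R) := hM ▸ Submodule.mem_top
    induction hy using Submodule.span_induction with
    | mem g hg => exact aug_mul hx hg
    | zero => simp
    | add y z _ _ hy hz => rw [mul_add]; exact add_mem hy hz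
    | smul c y _ hy => rw [mul_smul_comm]; exact Submodule.smul_mem _ _ hy
  have le : aug k M ≤ (Ring.jacobson R).restrictScalars k := fun x hx => by
    have : π x = 0 := funext fun i => Matrix.ext_iff_trace_mul_right.2 fun y => by
      obtain ⟨z, hz⟩ := hs (Pi.single i y)
      have := tr _ (ml x hx z) i
      rw [map_mul, hz, Pi.mul_apply, Pi.single_eq_same] at this
      simp [this]
    exact Ideal.Quotient.eq_zero_iff_mem.1 (e.map_eq_zero_iff.1 this)
  obtain ⟨N, hN⟩ := IsSemiprimaryRing.isNilpotent (R := R)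
  refine ⟨N, le_bot_iff.1 ((pow_le_pow_left' le _).trans ?_)⟩
  rw [← Submodule.restrictScalars_pow N.succ_ne_zero, Submodule.pow_succ, hN]
  simp

/-- Kolchin: the augmentation span of a monoid of unipotent elements is nilpotent -/
theorem kolchin [IsAlgClosed k] [FiniteDimensional k R] (h : ∀ g ∈ M, IsNilpotent (g - 1)) :
    ∃ N, aug k M ^ (N + 1) = ⊥ := by
  let E := Algebra.adjoin k (M : Set R)
  let M' : Submonoid E := M.comap E.val
  have inj : Function.Injective E.val.toLinearMap := Subtype.val_injective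
  have : FiniteDimensional k E := FiniteDimensional.of_injective _ inj
  obtain ⟨N, hN⟩ := kolchin_top (k := k) (M := M') (by
    refine Submodule.map_injective_of_injective inj ?_
    rw [Submodule.map_span, Submodule.map_top]
    have e1 : E.val.toLinearMap '' M' = M := by
      ext x
      exact ⟨by rintro ⟨y, hy, rfl⟩; exact hy, fun hx => ⟨⟨x, Algebra.subset_adjoin hx⟩, hx, rfl⟩⟩
    have e2 := Algebra.adjoin_eq_span (R := k) (s := (M : Set R))
    rw [Submonoid.closure_eq] at e2
    rw [e1, ← e2]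
    ext x
    exact ⟨fun hx => ⟨⟨x, hx⟩, rfl⟩, by rintro ⟨y, rfl⟩; exact y.2⟩) fun g hg => by
      obtain ⟨j, hj⟩ := h _ hg
      exact ⟨j, Subtype.ext (by simpa using hj)⟩
  have le : aug k M ≤ (aug k M').map E.val.toLinearMap := by
    rw [aug, Submodule.span_le]
    rintro _ ⟨g, hg, rfl⟩
    exact ⟨_, mem_aug (g := ⟨g, Algebra.subset_adjoin hg⟩) hg, rfl⟩
  refine ⟨N, le_bot_iff.1 ((pow_le_pow_left' le _).trans ?_)⟩
  rw [← Submodule.map_pow, hN, Submodule.map_bot]

end General

section Mat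

variable {k : Type u} [Field k] {n : Type} [Fintype n] [DecidableEq n]

theorem prime {x e : Matrix n n k} (he : e ≠ 0) (h : ∀ a, x * a * e = 0) : x = 0 := by
  obtain ⟨j, l, hj⟩ : ∃ j l, e j l ≠ 0 := by
    by_contra! c
    exact he (Matrix.ext c)
  ext r i
  have := congrFun (congrFun (h (Matrix.single i j 1)) r) l
  rw [mul_assoc, Matrix.mul_apply, Finset.sum_eq_single i] at this
  · simpa [hj] using this
  · intro b _ hb
    rw [Matrix.single_mul_apply_of_ne _ _ _ _ _ hb, mul_zero]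
  · simp

theorem inner (γ : Matrix n n k ≃ₐ[k] Matrix n n k) :
    ∃ z : Matrix n n k, IsUnit z ∧ ∀ a, γ a * z = z * a := by
  let e := Matrix.toLinAlgEquiv' (R := k) (n := n)
  obtain ⟨T, hT⟩ := (e.symm.trans (γ.trans e)).eq_linearEquivConjAlgEquiv
  refine ⟨e.symm T, ((Module.End.isUnit_iff _).2 T.bijective).map e.symm, fun a => e.injective ?_⟩
  have := AlgEquiv.congr_fun hT (e a)
  simp only [AlgEquiv.trans_apply, AlgEquiv.symm_apply_apply,
    LinearEquiv.conjAlgEquiv_apply] at this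
  rw [map_mul, map_mul, this, AlgEquiv.apply_symm_apply]
  ext v
  simp

theorem lift [IsAlgClosed k] [Nonempty n] (γ : Matrix n n k ≃ₐ[k] Matrix n n k)
    (h : IsNilpotent (γ.toLinearMap - 1 : Module.End k (Matrix n n k))) :
    ∃ z : Matrix n n k, IsNilpotent (z - 1) ∧ ∀ a, γ a * z = z * a := by
  obtain ⟨w, hw, h1⟩ := inner γ
  obtain ⟨c, hc⟩ := Module.End.exists_eigenvalue (LinearMap.mulRight k w)
  obtain ⟨e, he⟩ := hc.exists_hasEigenvector
  have h2 : e * w = c • e := he.apply_eq_smul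
  have c0 : c ≠ 0 := by
    rintro rfl
    exact he.2 (hw.mul_left_eq_zero.1 (by rw [h2, zero_smul]))
  have h3 : ∀ a, γ (a * e) = c⁻¹ • w * a * e := fun a => hw.mul_right_cancel (by
    rw [h1, mul_assoc _ e, h2, mul_smul_comm, smul_mul_assoc, smul_mul_assoc, smul_smul,
      mul_inv_cancel₀ c0, one_smul, mul_assoc])
  obtain ⟨N, hN⟩ := h
  refine ⟨c⁻¹ • w, ⟨N, prime he.2 fun a => ?_⟩, fun a => by
    rw [mul_smul_comm, smul_mul_assoc, h1]⟩
  have : ∀ i a, ((γ.toLinearMap - 1 : Module.End k (Matrix n n k)) ^ i) (a * e) =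
      (c⁻¹ • w - 1) ^ i * a * e := fun i => by
    induction i with
    | zero => simp
    | succ i ih =>
      intro a
      rw [pow_succ, Module.End.mul_apply, LinearMap.sub_apply, AlgEquiv.toLinearMap_apply, h3,
        Module.End.one_apply, ← sub_mul, ih, pow_succ, mul_assoc _ _ a, sub_mul, one_mul]
  rw [← this, hN, LinearMap.zero_apply]

theorem comm [Nonempty n] {γ δ : Matrix n n k ≃ₐ[k] Matrix n n k} (h : γ * δ = δ * γ)
    {y z : Matrix n n k} (hy : IsNilpotent (y - 1)) (hz : IsNilpotent (z - 1))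
    (h1 : ∀ a, γ a * y = y * a) (h2 : ∀ a, δ a * z = z * a) : Commute y z := by
  obtain ⟨Y, rfl⟩ : IsUnit y := by simpa using hy.isUnit_add_one
  obtain ⟨Z, rfl⟩ : IsUnit z := by simpa using hz.isUnit_add_one
  have h3 : ∀ a, Commute a ((((Z * Y)⁻¹ * (Y * Z) : (Matrix n n k)ˣ)) : Matrix n n k) := fun a => by
    have e1 : γ (δ a) * (Y * Z) = Y * Z * a := by rw [← mul_assoc, h1, mul_assoc, h2, mul_assoc]
    have e2 : γ (δ a) * (Z * Y) = Z * Y * a := by
      rw [← AlgEquiv.mul_apply, h, AlgEquiv.mul_apply, ← mul_assoc, h2, mul_assoc, h1, mul_assoc]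
    refine (Z * Y).isUnit.mul_left_cancel ?_
    rw [Units.val_mul _ (Y * Z), ← mul_assoc, Units.val_mul Z, ← e2, mul_assoc, ← Units.val_mul Z,
      Units.mul_inv_cancel_left, mul_assoc, Units.mul_inv_cancel_left, Units.val_mul, e1]
  obtain ⟨c, hc⟩ := Matrix.mem_range_scalar_iff_commute_single'.2 fun i j => h3 (Matrix.single i j 1)
  have h4 : (Y : Matrix n n k) * Z = c • (Z * Y) := by
    have : (Z * Y : Matrix n n k) * Matrix.scalar n c = Y * Z := by
      rw [hc, Units.val_mul _ (Y * Z), ← Units.val_mul Z, Units.mul_inv_cancel_left, Units.val_mul]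
    rw [← this, Matrix.scalar_apply, ← Matrix.smul_eq_mul_diagonal]
  have h5 : IsNilpotent (c • (Y : Matrix n n k) - 1) := by
    have : c • (Y : Matrix n n k) - 1 = (Z⁻¹ : (Matrix n n k)ˣ) * ((Y : Matrix n n k) - 1) * Z := by
      rw [mul_assoc, sub_mul, h4, mul_sub, mul_smul_comm, Units.inv_mul_cancel_left, one_mul,
        Units.inv_mul]
    obtain ⟨j, hj⟩ := hy
    exact ⟨j, by rw [this, Units.conj_pow', hj, mul_zero, zero_mul]⟩
  have h6 : IsNilpotent ((c - 1) • (1 : Matrix n n k)) := by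
    rw [show (c - 1) • (1 : Matrix n n k) = (c • (Y : Matrix n n k) - 1) - c • ((Y : Matrix n n k) - 1) by
      rw [smul_sub, sub_smul, one_smul]; abel]
    exact Commute.isNilpotent_sub
      ((((Commute.refl _).sub_right (Commute.one_right _)).smul_left c).sub_left
        (Commute.one_left _) |>.smul_right c) h5 (hy.smul c)
  obtain ⟨j, hj⟩ := h6
  rw [smul_pow, one_pow, smul_eq_zero_iff_left one_ne_zero] at hj
  rw [Commute, SemiconjBy, h4, sub_eq_zero.1 (IsNilpotent.eq_zero ⟨j, hj⟩), one_smul]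

end Mat

end Kol

theorem st_kol (k : Type u) [Field k] [IsAlgClosed k] : S_kol k := by
  intro n _ _ L hL Γ S hΓ hS hJ
  rcases isEmpty_or_nonempty n with hn | hn
  · exact (Subgroup.eq_bot_iff_forall _).2 fun γ _ => AlgEquiv.ext fun a => Subsingleton.elim _ _
  let ρ := AlgEquiv.toLinearMapHom k (Matrix n n k)
  let M := Γ.toSubmonoid.map ρ
  have mem : ∀ γ ∈ Γ, ρ γ ∈ M := fun γ h => ⟨γ, h, rfl⟩
  obtain ⟨N, hN⟩ := Kol.kolchin (k := k) (M := M) (by rintro _ ⟨γ, h, rfl⟩; exact hΓ γ h)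
  have step : ∀ j, (∀ γ ∈ Γ, ρ γ - 1 ∈ Kol.aug k M ^ (j + 1 + 1) → γ = 1) →
      ∀ γ ∈ Γ, ρ γ - 1 ∈ Kol.aug k M ^ (j + 1) → γ = 1 := fun j ih => by
    have cm : ∀ γ ∈ Γ, ∀ δ ∈ Γ, ρ γ - 1 ∈ Kol.aug k M ^ (j + 1) →
        ρ δ - 1 ∈ Kol.aug k M ^ (j + 1) → γ * δ = δ * γ := fun γ h1 δ h2 h3 h4 => by
      have h5 := inv_mem (mul_mem h2 h1)
      refine mul_inv_eq_one.1 (ih _ (mul_mem (mul_mem h1 h2) h5) ?_)
      have : ρ (γ * δ * (δ * γ)⁻¹) - 1 =
          ((ρ γ - 1) * (ρ δ - 1) - (ρ δ - 1) * (ρ γ - 1)) * ρ (δ * γ)⁻¹ := by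
        rw [Kol.lie_sub_one, sub_mul, ← map_mul, ← map_mul, ← map_mul, ← map_mul, mul_inv_cancel, map_one]
      rw [this]
      refine Kol.pow_mul_mem (sub_mem ?_ ?_) (mem _ h5) <;> rw [pow_succ]
      exacts [Submodule.mul_mem_mul h3 (Kol.mem_aug (mem _ h2)),
        Submodule.mul_mem_mul h4 (Kol.mem_aug (mem _ h1))]
    let U : Submonoid (Matrix n n k) :=
      { carrier := {z | IsNilpotent (z - 1) ∧
          ∃ γ ∈ Γ, ρ γ - 1 ∈ Kol.aug k M ^ (j + 1) ∧ ∀ a, γ a * z = z * a}
        one_mem' := ⟨by simp, 1, one_mem _, by simp, by simp⟩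
        mul_mem' := by
          rintro y z ⟨y1, γ, y2, y3, y4⟩ ⟨z1, δ, z2, z3, z4⟩
          have c := Kol.comm (cm γ y2 δ z2 y3 z3) y1 z1 y4 z4
          have c' : Commute (y - 1) z := c.sub_left (Commute.one_left _)
          refine ⟨?_, γ * δ, mul_mem y2 z2, ?_, fun a => ?_⟩
          · rw [Kol.mul_sub_one']
            exact Commute.isNilpotent_add ((c'.mul_left (Commute.refl _)).sub_right
              (Commute.one_right _)) (c'.isNilpotent_mul_right y1) z1
          · rw [map_mul, Kol.mul_sub_one']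
            exact add_mem (Kol.pow_mul_mem y3 (mem _ z2)) z3
          · rw [AlgEquiv.mul_apply, ← mul_assoc, y4, mul_assoc, z4, mul_assoc] }
    obtain ⟨N', hN'⟩ := Kol.kolchin (k := k) (M := U) fun z hz => hz.1
    have hU : ∀ σ ∈ S, ∀ z ∈ U, σ z ∈ U := by
      rintro σ hσ z ⟨z1, γ, z2, z3, z4⟩
      refine ⟨by simpa using z1.map σ, _, hS σ hσ γ z2, ?_, fun a => ?_⟩
      · have := Kol.map_pow_mem (σ.toLinearEquiv.conjAlgEquiv k).toAlgHom (by
          rintro _ ⟨δ, h, rfl⟩
          exact ⟨_, hS σ hσ δ h, rfl⟩) z3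
        rw [map_sub, map_one] at this
        exact this
      · rw [AlgEquiv.mul_apply, AlgEquiv.mul_apply, ← map_mul, z4, map_mul]
        exact congrArg _ (σ.apply_symm_apply a)
    let J := Kol.aug k U * ⊤
    have r : ∀ x ∈ J, ∀ a, x * a ∈ J := fun x hx a =>
      Submodule.mul_induction_on hx
        (fun b hb c _ => by rw [mul_assoc]; exact Submodule.mul_mem_mul hb trivial)
        fun b c hb hc => by rw [add_mul]; exact add_mem hb hc
    have s := hJ J fun σ hσ x hx =>
      Submodule.mul_induction_on hx (fun b hb c _ => by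
        rw [map_mul]
        refine Submodule.mul_mem_mul ?_ trivial
        have := Kol.map_pow_mem (j := 1) σ.toAlgHom (hU σ hσ) (by rwa [pow_one])
        rwa [pow_one] at this) fun b c hb hc => by rw [map_add]; exact add_mem hb hc
    have l : ∀ a, ∀ x ∈ J, a * x ∈ J := fun a => by
      have ha : a ∈ Algebra.adjoin k (L : Set (Matrix n n k)) := hL ▸ Algebra.mem_top
      induction ha using Algebra.adjoin_induction with
      | mem a ha =>
        intro x hx
        have := add_mem (s a ha x hx) (r x hx a)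
        rwa [Ring.lie_def, sub_add_cancel] at this
      | algebraMap c => intro x hx; rw [← Algebra.smul_def]; exact J.smul_mem _ hx
      | add a b _ _ ha hb => intro x hx; rw [add_mul]; exact add_mem (ha x hx) (hb x hx)
      | mul a b _ _ ha hb => intro x hx; rw [mul_assoc]; exact ha _ (hb x hx)
    have pw : ∀ i, ∀ x ∈ J, x ≠ 0 → Kol.aug k U ^ i * ⊤ = ⊤ := fun i x hx x0 => by
      have top : J = ⊤ := by
        rcases eq_bot_or_eq_top (TwoSidedIdeal.mk' (J : Set (Matrix n n k)) J.zero_mem J.add_mem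
          J.neg_mem (fun {a b} h => l a b h) fun {a b} h => r a h b) with e | e
        · exact absurd ((TwoSidedIdeal.mem_bot _).1 (e ▸ (TwoSidedIdeal.mem_mk' ..).2 hx)) x0
        · exact eq_top_iff.2 fun y _ => (TwoSidedIdeal.mem_mk' ..).1 (e ▸ TwoSidedIdeal.mem_top _)
      induction i with
      | zero => simp
      | succ i ih => rw [pow_succ, mul_assoc, show Kol.aug k U * ⊤ = ⊤ from top, ih]
    intro γ h1 h2
    obtain ⟨z, z1, z2⟩ := Kol.lift γ (hΓ γ h1)
    have : z - 1 = 0 := by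
      by_contra c
      have := pw (N' + 1) _ (by
        simpa using Submodule.mul_mem_mul (Kol.mem_aug (M := U) ⟨z1, γ, h1, h2, z2⟩)
          (Submodule.mem_top (x := 1))) c
      rw [hN', Submodule.bot_mul] at this
      exact bot_ne_top this
    rw [sub_eq_zero.1 this] at z2
    exact AlgEquiv.ext fun a => by simpa using z2 a
  have all := Nat.decreasingInduction (motive := fun j _ =>
      ∀ γ ∈ Γ, ρ γ - 1 ∈ Kol.aug k M ^ (j + 1) → γ = 1) (n := N) (fun j _ => step j)
    (fun γ _ h => by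
      rw [hN, Submodule.mem_bot, sub_eq_zero] at h
      exact AlgEquiv.ext fun a => LinearMap.congr_fun h a) (Nat.zero_le N)
  exact (Subgroup.eq_bot_iff_forall _).2 fun γ h =>
    all γ h (by rw [zero_add, pow_one]; exact Kol.mem_aug (mem γ h))

end Pool.Agent.Lib.MP_3a0263_al.R
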