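import Pool.Agent.Lib.MP_3a0263_al.R.Blue
import Pool.Agent.Lib.MP_3a0263_al.R.Basic
import Pool.Agent.Lib.MP_3a0263_al.Dims

namespace Pool.Agent.Lib.MP_3a0263_al.R

open Matrix LieAlgebra.SpecialLinear

attribute [local instance 100] LieRing.ofAssociativeRing

universe u

variable {k : Type u} [Field k] {p : ℕ}

/-- the main conclusion -/
def Concl (k : Type u) [Field k] (p : ℕ) (g : Type u) [LieRing g] [LieAlgebra k g] : Prop :=
  ∃ (n : Type) (_ : Fintype n) (_ : DecidableEq n) (G : Subgroup (GL n k))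
    (r : g →ₗ⁅k⁆ Matrix n n k), IsReductive G ∧ IsGood p G ∧ Function.Injective r ∧
      Set.range r = lie G ∧ (LieAlgebra.center k g = ⊥ → ∀ x y : g,
        LieAlgebra.ad k g y = LieAlgebra.ad k g x ^ p → r y = r x ^ p)

structure All (k : Type u) [Field k] (p : ℕ) : Prop where
  setup : S_setup k
  diag : S_diag k
  odd1 : S_odd1 k p
  odd2 : S_odd2 k p
  odd3 : S_odd3 k p
  two1 : S_two1 k p
  two2 : S_two2 k p
  refl : S_refl k p
  base : S_base k
  nil : S_nil k p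
  sl2 : S_sl2 k p
  sl3 : S_sl3 k p
  theta : S_theta k p
  good : S_good k p
  mod1 : S_mod1 k
  mod2 : S_mod2 k p
  grp : S_grp k p
  tor1 : S_tor1 k p
  tor2 : S_tor2 k p

theorem equiv_ad_pow {g g' : Type u} [LieRing g] [LieAlgebra k g] [LieRing g'] [LieAlgebra k g']
    (e : g →ₗ⁅k⁆ g') (x z : g) (j : ℕ) :
    e ((LieAlgebra.ad k g x ^ j) z) = (LieAlgebra.ad k g' (e x) ^ j) (e z) := by
  induction j with
  | zero => simp
  | succ j ih =>
    rw [pow_succ', pow_succ', Module.End.mul_apply, Module.End.mul_apply, LieAlgebra.ad_apply,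
      LieAlgebra.ad_apply, LieHom.map_lie, ih]

theorem Concl.of_equiv {g g' : Type u} [LieRing g] [LieAlgebra k g] [LieRing g'] [LieAlgebra k g']
    (e : g ≃ₗ⁅k⁆ g') (h : Concl k p g') : Concl k p g := by
  obtain ⟨n, i1, i2, G, r, h1, h2, h3, h4, h5⟩ := h
  refine ⟨n, i1, i2, G, r.comp e.toLieHom, h1, h2, h3.comp e.injective, ?_, fun hc x y hxy => ?_⟩
  · rw [← h4]
    exact e.surjective.range_comp r
  · refine h5 ?_ (e x) (e y) ?_
    · rw [eq_bot_iff]
      intro z hz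
      obtain ⟨z, rfl⟩ := e.surjective z
      have : z ∈ LieAlgebra.center k g := fun w => e.injective (by
        rw [LieHom.map_lie, map_zero]; exact hz (e w))
      rw [hc] at this
      rw [(LieSubmodule.mem_bot z).1 this, map_zero]
      exact LieSubmodule.zero_mem _
    · ext z
      obtain ⟨z, rfl⟩ := e.surjective z
      have := equiv_ad_pow e.toLieHom x z p
      rw [← hxy] at this
      rw [LieAlgebra.ad_apply]
      exact (e.toLieHom.map_lie y z).symm.trans this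

theorem isSimple_of_equiv {g g' : Type u} [LieRing g] [LieAlgebra k g] [LieRing g']
    [LieAlgebra k g'] (e : g ≃ₗ⁅k⁆ g') (h : LieAlgebra.IsSimple k g) : LieAlgebra.IsSimple k g' where
  eq_bot_or_eq_top I := by
    rcases h.eq_bot_or_eq_top (I.comap e.toLieHom) with h1 | h1
    · left
      rw [eq_bot_iff]
      intro z hz
      obtain ⟨z, rfl⟩ := e.surjective z
      have : z ∈ I.comap e.toLieHom := hz
      rw [h1] at this
      rw [(LieSubmodule.mem_bot z).1 this, map_zero]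
      exact LieSubmodule.zero_mem _
    · right
      rw [eq_top_iff]
      intro z _
      obtain ⟨z, rfl⟩ := e.surjective z
      have : z ∈ I.comap e.toLieHom := by rw [h1]; trivial
      exact this
  non_abelian hab := h.non_abelian ⟨fun x y => e.injective (by
    rw [LieHom.map_lie, map_zero]; exact hab.trivial _ _)⟩

variable {n : Type} [Fintype n] [DecidableEq n]
variable {L : LieSubalgebra k (Matrix n n k)} {π : Matrix n n k →ₗ[k] Matrix n n k}

theorem concl_of_model [Fact p.Prime] [CharP k p] (H : All k p) (hR : Rich L π) {Φ : Type u}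
    [Fintype Φ] (R : RootData p L Φ) {Δ : Finset Φ} {co : Φ → Φ → ℤ}
    (hB : BaseData R.toFrame Δ co) (hΘ : Thetas R.toFrame) {m : Type} [Fintype m] [DecidableEq m]
    (M : Model L m) (hM : LieAlgebra.center k L = ⊥ → M.r 1 = 0 ∧ ∀ x, M.r (x ^ p) = M.r x ^ p) :
    Concl k p L := by
  obtain ⟨G, hG⟩ := H.grp n L π hR Φ R Δ co hB hΘ m M
  obtain ⟨T, χ, hT⟩ := H.tor1 n L π hR Φ R Δ co hB m M G hG
  have hg := H.tor2 n L π hR Φ R Δ co hB (H.good n L π hR Φ R Δ co hB hΘ) m M G hG T χ hT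
  let r : L →ₗ⁅k⁆ Matrix m m k :=
    { M.r ∘ₗ L.toSubmodule.subtype with map_lie' := fun {x y} => M.r_lie x.1 x.2 y.1 y.2 }
  have hr : ∀ x : L, r x = M.r x.1 := fun _ => rfl
  refine ⟨m, inferInstance, inferInstance, G, r, hG.red, hg, ?_, ?_, fun hc x y hxy => ?_⟩
  · rw [injective_iff_map_eq_zero]
    exact fun x hx => Subtype.ext (M.r_inj x.1 x.2 hx)
  · rw [hG.lie_eq]
    ext y
    exact ⟨fun ⟨x, hx⟩ => ⟨x.1, x.2, hx⟩, fun ⟨x, hx, e⟩ => ⟨⟨x, hx⟩, e⟩⟩
  · obtain ⟨c, hc'⟩ := hR.cent (z := y.1 - x.1 ^ p) fun z hz => by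
      have h1 := equiv_ad_pow L.incl x ⟨z, hz⟩ p
      rw [← hxy] at h1
      have h2 : ⁅y.1, z⁆ = ⁅x.1 ^ p, z⁆ := by rw [← adm_pow_p]; exact h1
      rw [← lie_skew, sub_lie, h2, sub_self, neg_zero]
    rw [hr, hr, ← (hM hc).2, eq_add_of_sub_eq hc', map_add, map_smul, (hM hc).1, smul_zero,
      zero_add]

theorem one_not_mem (hR : Rich L π) (hc : LieAlgebra.center k L = ⊥) {c : k}
    (h : c • (1 : Matrix n n k) ∈ L) : c = 0 := by
  have h1 : (⟨_, h⟩ : L) ∈ LieAlgebra.center k L := fun w => Subtype.ext (by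
    show ⁅w.1, c • (1 : Matrix n n k)⁆ = 0
    rw [lie_smul, lie_one', smul_zero])
  rw [hc] at h1
  have h2 := congrArg Subtype.val ((LieSubmodule.mem_bot _).1 h1)
  have := hR.ne
  exact (smul_eq_zero.1 h2).resolve_right one_ne_zero

theorem main_diag [Fact p.Prime] [CharP k p] (H : All k p) (hR : Rich L π)
    {t : Submodule k (n → k)} (hD : Diag L t) (hp : p ≠ 2 ∨ LieAlgebra.IsSimple k L) :
    Concl k p L ∨ ((∃ a b : Matrix n n k, ⁅a, b⁆ = 1) ∧
      ∃ m : ℕ, (m : k) ≠ 0 ∧ Nonempty (L ≃ₗ⁅k⁆ sl (Fin m) k)) := by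
  obtain ⟨Φ, _, ⟨R⟩⟩ : ∃ (Φ : Type u) (_ : Fintype Φ), Nonempty (RootData p L Φ) := by
    by_cases h2 : p = 2
    · have hs := hp.resolve_left (not_not.2 h2)
      obtain ⟨Φ, _, Λ, _, ⟨P⟩⟩ := H.two1 h2 n L π t hR hD fun c hc =>
        one_not_mem hR (LieAlgebra.center_eq_bot k L) hc
      exact ⟨Φ, inferInstance, H.two2 h2 n L π hR hs Φ Λ P⟩
    · have h1 := H.odd1 h2 n L π t hR hD
      exact H.odd3 h2 n L π t hR hD h1 (H.odd2 h2 n L π t hR hD h1)
  obtain ⟨m, s, hm⟩ := H.refl n L Φ R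
  obtain ⟨Δ, co, hB⟩ := H.base n L Φ R.toFrame m s hm
  rcases H.nil n L π hR Φ R with hN | ⟨hab, α, hα⟩
  · left
    have hΘ := H.theta n L π hR Φ R hN
    by_cases h1 : (1 : Matrix n n k) ∈ L
    · obtain ⟨M⟩ := H.mod1 n L π hR h1
      exact concl_of_model H hR R hB hΘ M fun hc =>
        absurd (one_not_mem hR hc (c := 1) (by simpa using h1)) one_ne_zero
    · obtain ⟨M, hM⟩ := H.mod2 n L π hR h1
      exact concl_of_model H hR R hB hΘ M fun _ => hM
  · right
    refine ⟨hab, ?_⟩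
    have hp' : p.Prime := Fact.out
    by_cases h2 : p = 2
    · refine ⟨3, fun h => ?_, H.sl3 h2 n L Φ R Δ co hB α hα⟩
      rw [CharP.cast_eq_zero_iff k p, h2] at h
      omega
    · refine ⟨2, fun h => ?_, H.sl2 h2 n L Φ R Δ co hB α hα⟩
      rw [CharP.cast_eq_zero_iff k p] at h
      exact h2 ((Nat.prime_dvd_prime_iff_eq hp' Nat.prime_two).1 h)

theorem main_rich [Fact p.Prime] [CharP k p] (H : All k p) (hR : Rich L π)
    (hp : p ≠ 2 ∨ LieAlgebra.IsSimple k L) :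
    Concl k p L ∨ ((∃ a b : Matrix n n k, ⁅a, b⁆ = 1) ∧
      ∃ m : ℕ, (m : k) ≠ 0 ∧ Nonempty (L ≃ₗ⁅k⁆ sl (Fin m) k)) := by
  obtain ⟨θ, L', π', t, hθ, hR', hD⟩ := H.diag n L π hR
  let e : L ≃ₗ⁅k⁆ L' :=
    { toFun := fun x => ⟨θ x.1, (hθ _).1 x.2⟩
      map_add' := fun x y => Subtype.ext (map_add θ x.1 y.1)
      map_smul' := fun c x => Subtype.ext (map_smul θ c x.1)
      map_lie' := fun {x y} => Subtype.ext (by
        show θ ⁅x.1, y.1⁆ = ⁅θ x.1, θ y.1⁆
        simp [Ring.lie_def])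
      invFun := fun y => ⟨θ.symm y.1, (hθ _).2 (by simp)⟩
      left_inv := fun x => Subtype.ext (θ.symm_apply_apply x.1)
      right_inv := fun y => Subtype.ext (θ.apply_symm_apply y.1) }
  rcases main_diag H hR' hD (hp.imp_right (isSimple_of_equiv e)) with h | ⟨h, m, hm, ⟨e'⟩⟩
  · exact Or.inl (h.of_equiv e)
  · exact Or.inr ⟨h, m, hm, ⟨e.trans e'⟩⟩

theorem rich_sl {m : ℕ} (hm : (m : k) ≠ 0) : Rich (sl (Fin m) k)
    (LinearMap.id - (((m : k)⁻¹ • Matrix.traceLinearMap (Fin m) k k).smulRight 1)) where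
  ne := ⟨⟨0, Nat.pos_of_ne_zero fun h => hm (by simp [h])⟩⟩
  mem a := by
    show Matrix.trace (a - ((m : k)⁻¹ * a.trace) • (1 : Matrix (Fin m) (Fin m) k)) = 0
    simp [mul_comm, hm]
  left x hx := by
    have : Matrix.trace x = 0 := hx
    simp [this]
  equi x hx a := by
    simp [Ring.lie_def, Matrix.trace_mul_comm x a, mul_sub, sub_mul]
  gen := by
    rw [eq_top_iff]
    intro a _
    have h : a = (a - ((m : k)⁻¹ * a.trace) • 1) + ((m : k)⁻¹ * a.trace) • 1 := by abel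
    rw [h]
    refine add_mem (Algebra.subset_adjoin ?_) (Subalgebra.smul_mem _ (one_mem _) _)
    show Matrix.trace (a - ((m : k)⁻¹ * a.trace) • (1 : Matrix (Fin m) (Fin m) k)) = 0
    simp [mul_comm, hm]

theorem concl_of_richardson [Fact p.Prime] [CharP k p] (H : All k p) (g : Type u) [LieRing g]
    [LieAlgebra k g] (h : HasRichardson k g) (hp : p ≠ 2 ∨ LieAlgebra.IsSimple k g) :
    Concl k p g := by
  obtain ⟨n, _, _, ρ, π, hρ, hR⟩ := H.setup g h
  let e := LieEquiv.ofInjective ρ hρ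
  rcases main_rich H hR (hp.imp_right (isSimple_of_equiv e)) with h1 | ⟨-, m, hm, ⟨e'⟩⟩
  · exact h1.of_equiv e
  · rcases main_rich H (rich_sl hm) (hp.imp_right (isSimple_of_equiv (e.trans e'))) with
      h2 | ⟨⟨a, b, hab⟩, -⟩
    · exact h2.of_equiv (e.trans e')
    · have := congrArg Matrix.trace hab
      rw [Ring.lie_def, Matrix.trace_sub, Matrix.trace_mul_comm, sub_self, Matrix.trace_one,
        Fintype.card_fin] at this
      exact absurd this.symm hm

theorem not_psl [IsAlgClosed k] [Fact p.Prime] [CharP k p] (g : Type u) [LieRing g]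
    [LieAlgebra k g] (h : HasRichardson k g) (hp : p ≠ 2 ∨ LieAlgebra.IsSimple k g) (s : ℕ)
    (hs : 1 ≤ s) : IsEmpty (g ≃ₗ⁅k⁆ (sl (Fin (s * p)) k ⧸ scalarIdeal k (s * p))) := by
  refine ⟨fun e => ?_⟩
  have hp2 : 2 ≤ p := (Fact.out : p.Prime).two_le
  by_cases h2 : 2 < s * p
  · obtain ⟨Y, _, _, _, _, _, hf, -, R, hc, hR⟩ := h
    obtain ⟨m, ρ, π, hr⟩ := exists_ret hf R hc hR
    refine not_ret_psl (p := p) (n := Fin (s * p)) (by simp) (by simpa using h2)
      (e.symm.toLieHom.comp (quotHom _)) (e.symm.surjective.comp (quotHom_surj _))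
      (fun a ha => (quotHom_eq_zero _ a).1 (e.symm.injective ?_)) hr
    rw [map_zero]
    exact ha
  · have h3 : p = 2 ∧ s = 1 := by
      constructor <;> nlinarith
    obtain ⟨rfl, rfl⟩ := h3
    refine (isSimple_of_equiv e (hp.resolve_left (by simp))).non_abelian ⟨fun x y => ?_⟩
    obtain ⟨x, rfl⟩ := quotHom_surj _ x
    obtain ⟨y, rfl⟩ := quotHom_surj _ y
    rw [← LieHom.map_lie, quotHom_eq_zero]
    have hx : x.1 0 0 + x.1 1 1 = 0 := by
      have : Matrix.trace x.1 = 0 := x.2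
      simpa [Matrix.trace, Fin.sum_univ_two] using this
    have hy : y.1 0 0 + y.1 1 1 = 0 := by
      have : Matrix.trace y.1 = 0 := y.2
      simpa [Matrix.trace, Fin.sum_univ_two] using this
    have h2 : (2 : k) = 0 := by exact_mod_cast CharP.cast_eq_zero k 2
    refine ⟨x.1 0 1 * y.1 1 0 - y.1 0 1 * x.1 1 0, ?_⟩
    rw [sl_bracket]
    ext i j
    fin_cases i <;> fin_cases j <;> simp [Matrix.mul_apply, Fin.sum_univ_two]
    · ring
    · linear_combination (y.1 0 1) * hx - (x.1 0 1) * hy + (x.1 0 1 * y.1 1 1 - y.1 0 1 * x.1 1 1) * h2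
    · linear_combination (y.1 1 0) * hx - (x.1 1 0) * hy + (x.1 1 0 * y.1 0 0 - y.1 1 0 * x.1 0 0) * h2
    · linear_combination (x.1 1 0 * y.1 0 1 - x.1 0 1 * y.1 1 0) * h2

end Pool.Agent.Lib.MP_3a0263_al.R
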