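import Pool.Agent.Lib.MP_3a0263_al.R.Blue

namespace Pool.Agent.Lib.MP_3a0263_al.R

attribute [local instance 100] LieRing.ofAssociativeRing

universe u

namespace EX2

variable {k : Type u} [Field k]

/-- the endomorphism with matrix `!![a, b; c, d]` -/
def mk (a b c d : k) : Module.End k (Fin 2 → k) where
  toFun v := ![a * v 0 + b * v 1, c * v 0 + d * v 1]
  map_add' v w := by ext i; fin_cases i <;> simp <;> ring
  map_smul' s v := by ext i; fin_cases i <;> simp <;> ring

theorem mk0 (a b c d : k) (v : Fin 2 → k) : mk a b c d v 0 = a * v 0 + b * v 1 := rfl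

theorem mk1 (a b c d : k) (v : Fin 2 → k) : mk a b c d v 1 = c * v 0 + d * v 1 := rfl

theorem end_ext {f g : Module.End k (Fin 2 → k)} (h0 : ∀ v, f v 0 = g v 0)
    (h1 : ∀ v, f v 1 = g v 1) : f = g := by
  refine LinearMap.ext fun v => funext fun i => ?_
  fin_cases i
  · exact h0 v
  · exact h1 v

theorem mk_lie (a b c d a' b' c' d' : k) : ⁅mk a b c d, mk a' b' c' d'⁆ =
    mk (b * c' - b' * c) (a * b' + b * d' - a' * b - b' * d)
      (c * a' + d * c' - c' * a - d' * c) (c * b' - c' * b) := by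
  rw [Ring.lie_def]
  refine end_ext (fun v => ?_) (fun v => ?_) <;>
    simp only [LinearMap.sub_apply, Module.End.mul_apply, Pi.sub_apply, mk0, mk1] <;> ring

theorem mk_add (a b c d a' b' c' d' : k) :
    mk a b c d + mk a' b' c' d' = mk (a + a') (b + b') (c + c') (d + d') := by
  refine end_ext (fun v => ?_) (fun v => ?_) <;>
    simp only [LinearMap.add_apply, Pi.add_apply, mk0, mk1] <;> ring

theorem mk_smul (s a b c d : k) : s • mk a b c d = mk (s * a) (s * b) (s * c) (s * d) := by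
  refine end_ext (fun v => ?_) (fun v => ?_) <;>
    simp only [LinearMap.smul_apply, Pi.smul_apply, smul_eq_mul, mk0, mk1] <;> ring

theorem mk_inj {a b c d a' b' c' d' : k} (h : mk a b c d = mk a' b' c' d') :
    a = a' ∧ b = b' ∧ c = c' ∧ d = d' := by
  have h1 := mk0 a b c d ![1, 0]
  have h2 := mk0 a b c d ![0, 1]
  have h3 := mk1 a b c d ![1, 0]
  have h4 := mk1 a b c d ![0, 1]
  rw [h, mk0] at h1 h2
  rw [h, mk1] at h3 h4
  simp at h1 h2 h3 h4
  exact ⟨h1.symm, h2.symm, h3.symm, h4.symm⟩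

theorem mk_zero : mk (0 : k) 0 0 0 = 0 := by
  refine end_ext (fun v => ?_) (fun v => ?_) <;> simp [mk0, mk1]

theorem exists_mk (f : Module.End k (Fin 2 → k)) : ∃ a b c d, f = mk a b c d := by
  refine ⟨f ![1, 0] 0, f ![0, 1] 0, f ![1, 0] 1, f ![0, 1] 1, ?_⟩
  have hv : ∀ v : Fin 2 → k, v = v 0 • ![1, 0] + v 1 • ![0, 1] := fun v => by
    ext i; fin_cases i <;> simp
  refine end_ext (fun v => ?_) (fun v => ?_)
  · rw [mk0]; conv_lhs => rw [hv v]
    simp only [map_add, map_smul, Pi.add_apply, Pi.smul_apply, smul_eq_mul]; ring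
  · rw [mk1]; conv_lhs => rw [hv v]
    simp only [map_add, map_smul, Pi.add_apply, Pi.smul_apply, smul_eq_mul]; ring

/-- the complement -/
def cmp (k : Type u) [Field k] : Submodule k (Module.End k (Fin 2 → k)) where
  carrier := {f | ∃ a b : k, f = mk a b 0 a}
  zero_mem' := ⟨0, 0, mk_zero.symm⟩
  add_mem' := by
    rintro _ _ ⟨a, b, rfl⟩ ⟨a', b', rfl⟩
    exact ⟨a + a', b + b', by rw [mk_add, add_zero]⟩
  smul_mem' := by
    rintro s _ ⟨a, b, rfl⟩
    exact ⟨s * a, s * b, by rw [mk_smul, mul_zero]⟩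

variable {b : Type u} [LieRing b] [LieAlgebra k b]

theorem coords {h e : b} (hd : Module.finrank k b = 2) (he : e ≠ 0) (hl : ⁅h, e⁆ = e) :
    ∃ s t : b →ₗ[k] k, (∀ x, x = s x • h + t x • e) ∧ s h = 1 ∧ t h = 0 ∧ s e = 0 ∧ t e = 1 := by
  have hi : LinearIndependent k ![h, e] := by
    rw [LinearIndependent.pair_iff]
    intro s t hst
    have h1 : ⁅s • h + t • e, e⁆ = 0 := by rw [hst, zero_lie]
    rw [add_lie, smul_lie, smul_lie, lie_self, smul_zero, add_zero, hl] at h1
    have hs : s = 0 := (smul_eq_zero.1 h1).resolve_right he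
    rw [hs, zero_smul, zero_add] at hst
    exact ⟨hs, (smul_eq_zero.1 hst).resolve_right he⟩
  let B := basisOfLinearIndependentOfCardEqFinrank hi (by simp [hd])
  have hB : ∀ i, B i = ![h, e] i := fun i => by
    simp [B, coe_basisOfLinearIndependentOfCardEqFinrank]
  have h0 : B 0 = h := hB 0
  have h1 : B 1 = e := hB 1
  refine ⟨B.coord 0, B.coord 1, fun x => ?_, ?_, ?_, ?_, ?_⟩
  · have := B.sum_repr x
    rw [Fin.sum_univ_two, h0, h1] at this
    exact this.symm
  · rw [← h0]; simp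
  · rw [← h0]; simp
  · rw [← h1]; simp
  · rw [← h1]; simp

end EX2

open EX2 in
theorem st_ex2 (k : Type u) [Field k] [IsAlgClosed k] (p : ℕ) [Fact p.Prime] [CharP k p] :
    S_ex2 k p := by
  intro hp b _ _ h e hd he hl
  subst hp
  have h2 : (2 : k) = 0 := by exact_mod_cast CharP.cast_eq_zero k 2
  obtain ⟨s, t, hx, sh, th, se, te⟩ := coords hd he hl
  have hbr : ∀ x y : b, ⁅x, y⁆ = (s x * t y - t x * s y) • e := fun x y => by
    have hl' : ⁅e, h⁆ = -e := by rw [← lie_skew, hl]
    conv_lhs => rw [hx x, hx y]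
    simp only [add_lie, lie_add, smul_lie, lie_smul, lie_self, smul_zero, hl, hl']
    module
  let ρ : b →ₗ⁅k⁆ Module.End k (Fin 2 → k) :=
    { toFun := fun x => mk 0 (t x) (t x) (s x)
      map_add' := fun x y => by rw [mk_add, map_add, map_add, add_zero]
      map_smul' := fun c x => by
        rw [RingHom.id_apply, mk_smul, map_smul, map_smul, mul_zero, smul_eq_mul, smul_eq_mul]
      map_lie' := fun {x y} => by
        rw [mk_lie, hbr, map_smul, map_smul, se, te, smul_eq_mul, smul_eq_mul]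
        congr 1
        · ring
        · linear_combination (s x * t y - t x * s y) * h2
        · ring
        · ring }
  have hρ : ∀ x, ρ x = mk 0 (t x) (t x) (s x) := fun _ => rfl
  let i1 : LieRingModule b (Fin 2 → k) := LieRingModule.compLieHom (Fin 2 → k) ρ
  let i2 : LieModule k b (Fin 2 → k) := LieModule.compLieHom (Fin 2 → k) ρ
  have hact : ∀ (x : b) (v : Fin 2 → k), ⁅x, v⁆ = mk 0 (t x) (t x) (s x) v := fun _ _ => rfl
  have hend : ∀ x : b, LieModule.toEnd k b (Fin 2 → k) x = mk 0 (t x) (t x) (s x) := fun x =>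
    LinearMap.ext fun v => hact x v
  have hinj : ∀ x : b, mk 0 (t x) (t x) (s x) = 0 → x = 0 := fun x h0 => by
    rw [← mk_zero] at h0
    obtain ⟨-, h1, -, h3⟩ := mk_inj h0
    rw [hx x, h1, h3, zero_smul, zero_smul, add_zero]
  refine ⟨Fin 2 → k, inferInstance, inferInstance, i1, i2, inferInstance, ?_, ?_, cmp k, ?_, ?_⟩
  · refine ⟨(injective_iff_map_eq_zero _).2 fun x h0 => hinj x ?_⟩
    rw [← hend]; exact h0
  · refine LieModule.IsIrreducible.mk fun N hN => ?_
    obtain ⟨v, hv, hv0⟩ : ∃ v ∈ N, v ≠ 0 := by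
      by_contra hc
      push Not at hc
      exact hN ((LieSubmodule.eq_bot_iff N).2 hc)
    have hA : ∀ w ∈ N, w 1 ≠ 0 → ![0, 1] ∈ N := fun w hw h1 => by
      have := N.smul_mem (w 1)⁻¹ (N.lie_mem (x := h) hw)
      have e1 : (w 1)⁻¹ • ⁅h, w⁆ = ![0, 1] := by
        rw [hact]; ext i; fin_cases i <;> simp [mk0, mk1, sh, th, h1]
      rwa [e1] at this
    have hB : ![0, 1] ∈ N := by
      by_cases h1 : v 1 = 0
      · refine hA _ (N.lie_mem (x := e) hv) ?_
        rw [hact, mk1, se, te, zero_mul, add_zero, one_mul]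
        intro h0
        exact hv0 (by ext i; fin_cases i <;> simp [h0, h1])
      · exact hA v hv h1
    have hC : ![1, 0] ∈ N := by
      have := N.lie_mem (x := e) hB
      have e1 : ⁅e, (![0, 1] : Fin 2 → k)⁆ = ![1, 0] := by
        rw [hact]; ext i; fin_cases i <;> simp [mk0, mk1, se, te]
      rwa [e1] at this
    rw [eq_top_iff]
    intro w _
    have hw : w = w 0 • ![1, 0] + w 1 • ![0, 1] := by ext i; fin_cases i <;> simp
    rw [hw]
    exact N.add_mem (N.smul_mem _ hC) (N.smul_mem _ hB)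
  · constructor
    · rw [Submodule.disjoint_def]
      rintro _ ⟨x, rfl⟩ ⟨a, c, hc⟩
      have hc' : mk 0 (t x) (t x) (s x) = mk a c 0 a := (hend x).symm.trans hc
      obtain ⟨h1, -, h3, h4⟩ := mk_inj hc'
      refine (hend x).trans ?_
      rw [h3, h4, ← h1, mk_zero]
    · rw [codisjoint_iff, eq_top_iff]
      intro f _
      obtain ⟨a, b', c, d, rfl⟩ := exists_mk f
      refine Submodule.mem_sup.2 ⟨_, ⟨(d - a) • h + c • e, rfl⟩, mk a (b' - c) 0 a, ⟨_, _, rfl⟩, ?_⟩
      have := hend ((d - a) • h + c • e)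
      simp only [map_add, map_smul, sh, th, se, te, smul_eq_mul] at this ⊢
      refine (congrArg (· + _) this).trans ?_
      rw [mk_add]
      congr 1 <;> ring
  · rintro x _ ⟨a, c, rfl⟩
    refine ⟨-(c * t x), -(c * s x), ?_⟩
    rw [hend, mk_lie]
    congr 1
    · ring
    · ring
    · ring
    · linear_combination (t x * c) * h2

end Pool.Agent.Lib.MP_3a0263_al.R
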