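import Pool.Agent.Lib.MP_3a0263_al.R.Base

namespace Pool.Agent.Lib.MP_3a0263_al.R

open Matrix LaurentPolynomial

attribute [local instance 100] LieRing.ofAssociativeRing

universe u

set_option linter.unusedSectionVars false

variable {k : Type u} [Field k] {m : Type} [Fintype m] [DecidableEq m]

theorem evB_T {B : Type*} [CommRing B] [Algebra k B] (v : Bˣ) (j : ℤ) :
    evB (k := k) v (T j) = ((v ^ j : Bˣ) : B) := LaurentPolynomial.eval₂_T _ _ j

theorem evB_toLaurent {B : Type*} [CommRing B] [Algebra k B] (v : Bˣ) (f : Polynomial k) :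
    evB v (Polynomial.toLaurent f) = Polynomial.aeval (v : B) f :=
  LaurentPolynomial.eval₂_toLaurent _ _ f

theorem ev_T (s : kˣ) (j : ℤ) : ev s (T j) = ((s ^ j : kˣ) : k) := evB_T s j

theorem ev_C (s : kˣ) (c : k) : ev s (C c) = c := by
  rw [C_eq_algebraMap]; exact (ev s).commutes c

theorem lp_algHom_ext {B : Type*} [CommRing B] [Algebra k B] {f g : k[T;T⁻¹] →ₐ[k] B}
    (h : ∀ j : ℤ, f (T j) = g (T j)) : f = g := by
  refine AlgHom.ext fun a => ?_
  induction a using LaurentPolynomial.induction_on' with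
  | add a b ha hb => rw [map_add, map_add, ha, hb]
  | C_mul_T j c => rw [map_mul, map_mul, h, C_eq_algebraMap, f.commutes, g.commutes]

/-- a Laurent polynomial with infinitely many zeros vanishes -/
theorem lp_eq_zero {f : k[T;T⁻¹]} (h : {s : kˣ | ev s f = 0}.Infinite) : f = 0 := by
  obtain ⟨j, f', hf⟩ := exists_T_pow f
  have h1 : f' = 0 := by
    apply Polynomial.eq_zero_of_infinite_isRoot
    refine (h.image (f := fun s : kˣ => (s : k)) Units.val_injective.injOn).mono ?_
    rintro _ ⟨s, hs, rfl⟩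
    have := evB_toLaurent s f'
    rw [hf, map_mul, show evB s f = 0 from hs, zero_mul] at this
    simpa using this.symm
  rw [h1, map_zero] at hf
  exact (isUnit_T (j : ℤ)).mul_left_eq_zero.1 hf.symm

theorem units_infinite [Infinite k] : (Set.univ : Set kˣ).Infinite := by
  have : Infinite kˣ := by
    have h := (Set.infinite_univ (α := k)).sdiff (Set.finite_singleton 0)
    have := h.to_subtype
    exact Infinite.of_injective (fun x : ((Set.univ : Set k) \ {0} : Set k) =>
      Units.mk0 x.1 x.2.2) fun x y e => Subtype.ext (by simpa using e)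
  exact Set.infinite_univ

theorem lp_eq_zero_of_cofinite [Infinite k] {f : k[T;T⁻¹]} {F : Set kˣ} (hF : F.Finite)
    (h : ∀ s ∉ F, ev s f = 0) : f = 0 :=
  lp_eq_zero ((units_infinite.sdiff hF).mono fun s hs => h s hs.2)

theorem lp_finite_zeros {f : k[T;T⁻¹]} (h : f ≠ 0) : {s : kˣ | ev s f = 0}.Finite := by
  by_contra h'
  exact h (lp_eq_zero h')

/-- characters of `kˣ` are determined on a cofinite set -/
theorem zpow_inj_of_cofinite [Infinite k] {a b : ℤ} {F : Set kˣ} (hF : F.Finite)
    (h : ∀ s ∉ F, s ^ a = s ^ b) : a = b := by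
  have := lp_eq_zero_of_cofinite (f := (T a - T b : k[T;T⁻¹])) hF fun s hs => by
    rw [map_sub, ev_T, ev_T, h s hs, sub_self]
  by_contra hab
  have h1 := sub_eq_zero.1 this
  have h2 := congrArg LaurentPolynomial.degree h1
  rw [degree_T, degree_T] at h2
  exact hab (by exact_mod_cast h2)

theorem evM_apply (s : kˣ) (U : Matrix m m k[T;T⁻¹]) (i j : m) : evM s U i j = ev s (U i j) := rfl

theorem tan_apply {m : Type} (U : Matrix m m k[T;T⁻¹]) (i j : m) : tan U i j = der (U i j) := rfl

theorem cM_apply (a : Matrix m m k) (i j : m) : cM a i j = C (a i j) := rfl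

theorem evM_cM (s : kˣ) (a : Matrix m m k) : evM s (cM a) = a := by
  ext i j; rw [evM_apply, cM_apply, ev_C]

theorem evM_smul (s : kˣ) (f : k[T;T⁻¹]) (U : Matrix m m k[T;T⁻¹]) :
    evM s (f • U) = ev s f • evM s U := by
  ext i j; simp [evM_apply]

theorem evM_det (s : kˣ) (U : Matrix m m k[T;T⁻¹]) : (evM s U).det = ev s U.det :=
  ((ev s).map_det U).symm

theorem mat_eq_of_cofinite [Infinite k] {U V : Matrix m m k[T;T⁻¹]} {F : Set kˣ} (hF : F.Finite)
    (h : ∀ s ∉ F, evM s U = evM s V) : U = V := by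
  ext1 i j
  rw [← sub_eq_zero]
  refine lp_eq_zero_of_cofinite hF fun s hs => ?_
  rw [map_sub, ← evM_apply, ← evM_apply, h s hs, sub_self]

theorem finite_det {U : Matrix m m k[T;T⁻¹]} (h : evM 1 U = 1) :
    {s : kˣ | (evM s U).det = 0}.Finite := by
  simp only [evM_det]
  refine lp_finite_zeros fun e => ?_
  have := evM_det 1 U
  rw [h, e] at this
  simp at this

theorem exists_gl {a : Matrix m m k} (h : a.det ≠ 0) : ∃ g : GL m k, (g : Matrix m m k) = a :=
  ⟨Matrix.GeneralLinearGroup.mkOfDetNeZero a h, rfl⟩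

theorem one_mem_pts {U : Matrix m m k[T;T⁻¹]} (h : evM 1 U = 1) : (1 : GL m k) ∈ pts U :=
  ⟨1, h.symm⟩

theorem fst_evB (f : k[T;T⁻¹]) : (evB (oneEps k) f).fst = ev 1 f := by
  have : (TrivSqZeroExt.fstHom k k k).comp (evB (oneEps k)) = ev 1 := lp_algHom_ext fun j => by
    rw [AlgHom.comp_apply, evB_T, ev_T]
    have h := congrArg (fun x : kˣ => (x : k))
      (map_zpow (Units.map (TrivSqZeroExt.fstHom k k k : DualNumber k →* k)) (oneEps k) j)
    have h1 : Units.map (TrivSqZeroExt.fstHom k k k : DualNumber k →* k) (oneEps k) = 1 := by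
      ext; simp [oneEps]
    rw [h1] at h
    exact h
  exact DFunLike.congr_fun this f

theorem evB_eps (f : k[T;T⁻¹]) :
    evB (oneEps k) f = TrivSqZeroExt.inl (ev 1 f) + TrivSqZeroExt.inr (der f) := by
  rw [← fst_evB, der, TrivSqZeroExt.inl_fst_add_inr_snd_eq]

theorem der_add (f g : k[T;T⁻¹]) : der (f + g) = der f + der g := by simp [der]

theorem der_smul (c : k) (f : k[T;T⁻¹]) : der (c • f) = c * der f := by simp [der]

theorem der_mul (f g : k[T;T⁻¹]) : der (f * g) = ev 1 f * der g + der f * ev 1 g := by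
  simp [der, fst_evB, mul_comm]

theorem der_C (c : k) : der (C c) = 0 := by
  rw [der, C_eq_algebraMap, AlgHom.commutes]; rfl

theorem der_T (j : ℤ) : der (T j : k[T;T⁻¹]) = j := by
  have h1 : der (T 1 : k[T;T⁻¹]) = 1 := by rw [der, evB_T]; simp [oneEps]
  have h2 : ∀ j : ℤ, der (T (j + 1) : k[T;T⁻¹]) = der (T j : k[T;T⁻¹]) + 1 := fun j => by
    rw [T_add, der_mul, h1, ev_T, ev_T]; simp [add_comm]
  induction j with
  | zero => simpa using der_C (1 : k)
  | succ j ih => rw [h2, ih]; simp
  | pred j ih =>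
    have := h2 (-j - 1)
    rw [sub_add_cancel, ih] at this
    push_cast at this ⊢
    linear_combination -this

/-- the derivative at `1` as a linear map -/
noncomputable def derL : k[T;T⁻¹] →ₗ[k] k where
  toFun := der
  map_add' := der_add
  map_smul' := der_smul

/-- the tangent vector as a linear map -/
noncomputable def tanL : Matrix m m k[T;T⁻¹] →ₗ[k] Matrix m m k where
  toFun := tan
  map_add' U V := by ext i j; simp [tan_apply, der_add]
  map_smul' c U := by ext i j; simp [tan_apply, der_smul]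

theorem tanL_apply (U : Matrix m m k[T;T⁻¹]) : tanL U = tan U := rfl

theorem tan_mul (U V : Matrix m m k[T;T⁻¹]) : tan (U * V) = evM 1 U * tan V + tan U * evM 1 V := by
  ext i j
  rw [tan_apply, Matrix.mul_apply, show ∀ f, der f = derL (k := k) f from fun _ => rfl, map_sum]
  simp only [Matrix.add_apply, Matrix.mul_apply, ← Finset.sum_add_distrib]
  exact Finset.sum_congr rfl fun l _ => der_mul _ _

theorem tan_cM (a : Matrix m m k) : tan (cM a) = 0 := by
  ext i j; rw [tan_apply, cM_apply, der_C]; rfl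

theorem tan_smul (f : k[T;T⁻¹]) (U : Matrix m m k[T;T⁻¹]) :
    tan (f • U) = ev 1 f • tan U + der f • evM 1 U := by
  ext i j; simp [tan_apply, der_mul, evM_apply]

/-- the intertwiner of a family of algebra endomorphisms -/
theorem exists_intertwiner [Nonempty m] (Θ : Matrix m m k →ₐ[k] Matrix m m k[T;T⁻¹])
    (h : ∀ a, evM 1 (Θ a) = a) :
    ∃ U : Matrix m m k[T;T⁻¹], evM 1 U = 1 ∧ ∀ a, Θ a * U = U * cM a := by
  obtain ⟨o⟩ := ‹Nonempty m›
  refine ⟨∑ i, Θ (single i o 1) * cM (single o i 1), ?_, fun a => ?_⟩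
  · simp only [map_sum, map_mul, h, evM_cM, single_mul_single_same, mul_one]
    exact sum_single_one
  · induction a using Matrix.induction_on' with
    | h_zero => simp
    | h_add a b ha hb => rw [map_add, map_add, add_mul, mul_add, ha, hb]
    | h_std_basis i j c =>
      rw [Finset.mul_sum, Finset.sum_mul, Finset.sum_eq_single j, Finset.sum_eq_single i]
      · rw [← mul_assoc, ← map_mul, mul_assoc, ← map_mul, single_mul_single_same,
          single_mul_single_same, mul_one, one_mul]
        have e1 : single i o c = c • single i o (1 : k) := by simp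
        have e2 : single o j c = c • single o j (1 : k) := by simp
        rw [e1, e2, map_smul, map_smul, smul_mul_assoc, mul_smul_comm]
      · intro l _ hl
        rw [mul_assoc, ← map_mul, single_mul_single_of_ne _ _ _ _ hl, map_zero, mul_zero]
      · simp
      · intro l _ hl
        rw [← mul_assoc, ← map_mul, single_mul_single_of_ne _ _ _ _ hl.symm, map_zero, zero_mul]
      · simp

theorem mem_vanish {S : Set (GL m k)} {f : MvPolynomial (m × m) k} :
    f ∈ vanish S ↔ ∀ g ∈ S, MvPolynomial.aeval (entries g) f = 0 := by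
  simp [vanish]

theorem vanish_anti {S S' : Set (GL m k)} (h : S ⊆ S') : vanish S' ≤ vanish S :=
  fun _ hf => mem_vanish.2 fun g hg => mem_vanish.1 hf g (h hg)

theorem lie_mono {G G' : Subgroup (GL m k)} (h : G ≤ G') : lie G ⊆ lie G' :=
  fun _ hx f hf => hx f (vanish_anti h hf)

/-- the generic matrix -/
noncomputable def gen (k : Type u) [Field k] (m : Type) : Matrix m m (MvPolynomial (m × m) k) :=
  Matrix.of fun i j => MvPolynomial.X (i, j)

theorem aeval_gen {B : Type*} [CommRing B] [Algebra k B] (a : Matrix m m B) :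
    (MvPolynomial.aeval fun ij : m × m => a ij.1 ij.2 : _ →ₐ[k] B).mapMatrix (gen k m) = a := by
  ext i j; simp [gen]

theorem aeval_curve {B : Type*} [CommRing B] [Algebra k B] (φ : k[T;T⁻¹] →ₐ[k] B)
    (U : Matrix m m k[T;T⁻¹]) (f : MvPolynomial (m × m) k) :
    φ (MvPolynomial.aeval (fun ij : m × m => U ij.1 ij.2) f) =
      MvPolynomial.aeval (fun ij : m × m => φ (U ij.1 ij.2)) f := by
  rw [← AlgHom.comp_apply, MvPolynomial.comp_aeval]

theorem mem_vanish_pts [Infinite k] {U : Matrix m m k[T;T⁻¹]} (h : evM 1 U = 1)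
    {f : MvPolynomial (m × m) k} :
    f ∈ vanish (pts U) ↔ MvPolynomial.aeval (fun ij : m × m => U ij.1 ij.2) f = 0 := by
  rw [mem_vanish]
  constructor
  · intro hf
    refine lp_eq_zero_of_cofinite (finite_det h) fun s hs => ?_
    obtain ⟨g, hg⟩ := exists_gl hs
    have := hf g ⟨s, hg⟩
    rw [aeval_curve, ← this]
    congr 2
    ext ij
    rw [entries, hg]; rfl
  · rintro hf g ⟨s, hg⟩
    have := congrArg (ev s) hf
    rw [aeval_curve, map_zero] at this
    rw [← this]
    congr 2
    ext ij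
    rw [entries, hg]; rfl

theorem tan_mem_lie [Infinite k] {U : Matrix m m k[T;T⁻¹]} (h : evM 1 U = 1)
    {G : Subgroup (GL m k)} (hG : pts U ⊆ G) : tan U ∈ lie G := by
  intro f hf
  have h1 := congrArg (evB (oneEps k)) ((mem_vanish_pts h).1 (vanish_anti hG hf))
  rw [aeval_curve, map_zero] at h1
  rw [← h1]
  congr 2
  ext1 ij
  rw [evB_eps, ← evM_apply, h]; rfl

theorem aeval_dual (a x : m × m → k) (f : MvPolynomial (m × m) k) :
    MvPolynomial.aeval (fun ij => (TrivSqZeroExt.inl (a ij) + TrivSqZeroExt.inr (x ij) :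
      DualNumber k)) f = TrivSqZeroExt.inl (MvPolynomial.aeval a f) +
        TrivSqZeroExt.inr (∑ ij, x ij * MvPolynomial.aeval a (MvPolynomial.pderiv ij f)) := by
  induction f using MvPolynomial.induction_on with
  | C c => simp; rfl
  | add f g hf hg =>
    rw [map_add, hf, hg]
    simp only [map_add, mul_add, Finset.sum_add_distrib, TrivSqZeroExt.inl_add,
      TrivSqZeroExt.inr_add]
    abel
  | mul_X f i hf =>
    rw [map_mul, hf, MvPolynomial.aeval_X]
    ext
    · simp
    · simp [Derivation.leibniz, mul_add, Finset.sum_add_distrib, MvPolynomial.pderiv_X,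
        Pi.single_apply, Finset.mul_sum, mul_left_comm, mul_comm, apply_ite]

theorem mem_lie_iff {G : Subgroup (GL m k)} {x : Matrix m m k} :
    x ∈ lie G ↔ ∀ f ∈ vanish (G : Set (GL m k)), ∑ ij : m × m, x ij.1 ij.2 *
      MvPolynomial.aeval (entries (1 : GL m k)) (MvPolynomial.pderiv ij f) = 0 := by
  refine forall₂_congr fun f hf => ?_
  have h0 : MvPolynomial.aeval (entries (1 : GL m k)) f = 0 := mem_vanish.1 hf 1 G.one_mem
  have := aeval_dual (entries (1 : GL m k)) (fun ij => x ij.1 ij.2) f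
  rw [h0] at this
  erw [this]
  rw [TrivSqZeroExt.inl_zero, zero_add]
  exact ⟨fun h => by simpa using congrArg TrivSqZeroExt.snd h, fun h => by rw [h]; simp⟩

/-- the Lie algebra as a subspace -/
def lieSub (G : Subgroup (GL m k)) : Submodule k (Matrix m m k) where
  carrier := lie G
  zero_mem' := mem_lie_iff.2 fun f _ => by simp
  add_mem' := fun {x y} hx hy => mem_lie_iff.2 fun f hf => by
    have h1 := mem_lie_iff.1 hx f hf
    have h2 := mem_lie_iff.1 hy f hf
    simp only [Matrix.add_apply, add_mul, Finset.sum_add_distrib, h1, h2, add_zero]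
  smul_mem' := fun c x hx => mem_lie_iff.2 fun f hf => by
    have h1 := mem_lie_iff.1 hx f hf
    simp only [Matrix.smul_apply, smul_eq_mul, mul_assoc, ← Finset.mul_sum, h1, mul_zero]

theorem mem_lieSub {G : Subgroup (GL m k)} {x : Matrix m m k} : x ∈ lieSub G ↔ x ∈ lie G := Iff.rfl

theorem isZClosed_of_eq {ι : Type*} (f : ι → MvPolynomial (m × m) k) {S : Set (GL m k)}
    (h : ∀ g, g ∈ S ↔ ∀ i, MvPolynomial.aeval (entries g) (f i) = 0) : IsZClosed S :=
  fun g hg => (h g).2 fun i => hg _ (mem_vanish.2 fun g' hg' => (h g').1 hg' i)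

theorem IsZClosed.inter {S S' : Set (GL m k)} (h : IsZClosed S) (h' : IsZClosed S') :
    IsZClosed (S ∩ S') := fun g hg =>
  ⟨h g fun f hf => hg f (vanish_anti Set.inter_subset_left hf),
    h' g fun f hf => hg f (vanish_anti Set.inter_subset_right hf)⟩

theorem isZClosed_iInter {ι : Sort*} {S : ι → Set (GL m k)} (h : ∀ i, IsZClosed (S i)) :
    IsZClosed (⋂ i, S i) := fun g hg => Set.mem_iInter.2 fun i =>
  h i g fun f hf => hg f (vanish_anti (Set.iInter_subset S i) hf)

/-- constant matrices over the coordinate ring -/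
noncomputable def cP : Matrix m m k →ₐ[k] Matrix m m (MvPolynomial (m × m) k) :=
  (Algebra.ofId k (MvPolynomial (m × m) k)).mapMatrix

theorem aeval_cP (x : m × m → k) (a : Matrix m m k) :
    (MvPolynomial.aeval x : _ →ₐ[k] k).mapMatrix (cP a) = a := by
  ext i j; simp [cP, Algebra.ofId_apply]

theorem aeval_entries_gen (g : GL m k) :
    (MvPolynomial.aeval (entries g) : _ →ₐ[k] k).mapMatrix (gen k m) = g :=
  aeval_gen (g : Matrix m m k)

theorem isZClosed_comm (a b : Matrix m m k) :
    IsZClosed {g : GL m k | (g : Matrix m m k) * a = b * g} := by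
  refine isZClosed_of_eq (fun ij : m × m => (gen k m * cP a - cP b * gen k m) ij.1 ij.2)
    fun g => ?_
  have h : (MvPolynomial.aeval (entries g) : _ →ₐ[k] k).mapMatrix
      (gen k m * cP a - cP b * gen k m) = (g : Matrix m m k) * a - b * g := by
    rw [map_sub, map_mul, map_mul, aeval_cP, aeval_cP, aeval_entries_gen]
  rw [Set.mem_ofPred_eq, ← sub_eq_zero, ← h]
  exact ⟨fun e ij => congrFun (congrFun e ij.1) ij.2, fun e => Matrix.ext fun i j => e (i, j)⟩

theorem isZClosed_line (a : Matrix m m k) {b : Matrix m m k} (hb : b ≠ 0) :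
    IsZClosed {g : GL m k | ∃ c : k, (g : Matrix m m k) * a = c • (b * g)} := by
  refine isZClosed_of_eq (fun x : (m × m) × (m × m) =>
    (gen k m * cP a) x.1.1 x.1.2 * (cP b * gen k m) x.2.1 x.2.2 -
      (gen k m * cP a) x.2.1 x.2.2 * (cP b * gen k m) x.1.1 x.1.2) fun g => ?_
  have h1 : ∀ i j, MvPolynomial.aeval (entries g) ((gen k m * cP a) i j) =
      ((g : Matrix m m k) * a) i j := fun i j => by
    conv_rhs => rw [← aeval_entries_gen g, ← aeval_cP (entries g) a, ← map_mul]
    rfl
  have h2 : ∀ i j, MvPolynomial.aeval (entries g) ((cP b * gen k m) i j) =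
      (b * (g : Matrix m m k)) i j := fun i j => by
    conv_rhs => rw [← aeval_entries_gen g, ← aeval_cP (entries g) b, ← map_mul]
    rfl
  simp only [map_sub, map_mul, h1, h2, Set.mem_ofPred_eq]
  constructor
  · rintro ⟨c, hc⟩ x
    rw [hc]; simp only [Matrix.smul_apply, smul_eq_mul]; ring
  · intro h
    obtain ⟨i, j, hij⟩ : ∃ i j, (b * (g : Matrix m m k)) i j ≠ 0 := by
      by_contra h0
      push Not at h0
      exact hb ((Units.mul_left_eq_zero g).1 (Matrix.ext h0))
    refine ⟨((g : Matrix m m k) * a) i j / (b * (g : Matrix m m k)) i j, Matrix.ext fun i' j' => ?_⟩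
    have := h ((i', j'), (i, j))
    rw [Matrix.smul_apply, smul_eq_mul, div_mul_eq_mul_div, eq_div_iff hij]
    exact sub_eq_zero.1 this

/-- an irreducible set covered by finitely many closed sets lies in one of them -/
theorem subset_of_cover {S : Set (GL m k)} (hS : (vanish S).IsPrime) {ι : Type*} (F : Finset ι)
    (C : ι → Set (GL m k)) (hC : ∀ i ∈ F, IsZClosed (C i)) (h : ∀ g ∈ S, ∃ i ∈ F, g ∈ C i) :
    ∃ i ∈ F, S ⊆ C i := by
  by_contra hc
  push Not at hc
  have h1 : ∀ i ∈ F, ∃ f ∈ vanish (C i), f ∉ vanish S := by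
    intro i hi
    by_contra h2
    push Not at h2
    exact hc i hi fun g hg => hC i hi g fun f hf => mem_vanish.1 (h2 f hf) g hg
  choose! f hf1 hf2 using h1
  have h3 : ∏ i ∈ F, f i ∈ vanish S := mem_vanish.2 fun g hg => by
    obtain ⟨i, hi, hgi⟩ := h g hg
    rw [map_prod]
    exact Finset.prod_eq_zero hi (mem_vanish.1 (hf1 i hi) g hgi)
  obtain ⟨i, hi, h4⟩ := Ideal.IsPrime.prod_mem_iff.1 h3
  exact hf2 i hi h4

end Pool.Agent.Lib.MP_3a0263_al.R
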