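import Pool.Agent.Lib.MP_3a0263_al.R.Blue

namespace Pool.Agent.Lib.MP_3a0263_al.R

open Matrix

attribute [local instance 100] LieRing.ofAssociativeRing

universe u

namespace Base0

variable {Φ : Type u} [Fintype Φ]

/-- abstract Cartan data -/
structure CD (m : Φ → Φ → ℤ) (s : Φ → Φ → Φ) (ng : Φ → Φ) : Prop where
  two : ∀ α, m α α = 2
  neg : ∀ α β, m α (ng β) = - m α β
  refl : ∀ γ α β, m γ (s α β) = m γ β - m α β * m γ α
  inj : ∀ β β', (∀ γ, m γ β = m γ β') → β = β'
  red : ∀ β κ, ¬ ∀ γ, m γ κ = 2 * m γ β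

variable {m : Φ → Φ → ℤ} {s : Φ → Φ → Φ} {ng : Φ → Φ}

lemma CD.coinj (h : CD m s ng) (α α' : Φ) (H : ∀ β, m α β = m α' β) : α = α' := by
  have h1 : m α α' = 2 := by rw [H, h.two]
  have key : ∀ j : ℕ, m α ((fun β => s α (s α' β))^[j] α) = 2 ∧
      ∀ γ, m γ ((fun β => s α (s α' β))^[j] α) = m γ α + 2 * j * (m γ α - m γ α') := by
    intro j
    induction j with
    | zero => exact ⟨h.two α, fun γ => by simp⟩
    | succ j ih =>
      obtain ⟨i1, i2⟩ := ih
      have i3 : m α' ((fun β => s α (s α' β))^[j] α) = 2 := by rw [← H, i1]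
      have e : ∀ γ, m γ ((fun β => s α (s α' β))^[j + 1] α) =
          m γ ((fun β => s α (s α' β))^[j] α) + 2 * (m γ α - m γ α') := by
        intro γ
        rw [Function.iterate_succ_apply', h.refl, h.refl, h.refl, i3, i1, h1]
        ring
      refine ⟨?_, fun γ => ?_⟩
      · rw [e, i1, h.two, h1]; ring
      · rw [e, i2]; push_cast; ring
  obtain ⟨a, b, hab, he⟩ :=
    Finite.exists_ne_map_eq_of_infinite (fun j : ℕ => (fun β => s α (s α' β))^[j] α)
  refine h.inj _ _ fun γ => ?_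
  have ha := (key a).2 γ
  have hb := (key b).2 γ
  have he' : (fun β => s α (s α' β))^[a] α = (fun β => s α (s α' β))^[b] α := he
  rw [he', hb] at ha
  have h0 : (2 * ((a : ℤ) - b)) * (m γ α - m γ α') = 0 := by linarith
  rcases mul_eq_zero.1 h0 with h0 | h0
  · exfalso; apply hab; omega
  · linarith

lemma CD.mul (h : CD m s ng) (β γ : Φ) (j : ℤ) (H : ∀ δ, m δ γ = j * m δ β) :
    j = 1 ∨ j = -1 := by
  have h1 : j * m γ β = 2 := by rw [← H, h.two]
  have hd : j ∣ 2 := ⟨_, h1.symm⟩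
  have hle : j ≤ 2 := Int.le_of_dvd (by norm_num) hd
  have hge : -2 ≤ j := by
    have := Int.le_of_dvd (by norm_num) ((neg_dvd).2 hd)
    omega
  have h2 : j ≠ 2 := by
    rintro rfl
    exact h.red β γ H
  have h3 : j ≠ -2 := by
    rintro rfl
    exact h.red (ng β) γ fun δ => by rw [H, h.neg]; ring
  have h4 : j ≠ 0 := by
    rintro rfl
    simp at h1
  omega

/-- the root vectors -/
def io (m : Φ → Φ → ℤ) (β : Φ) : Φ → ℚ := fun γ => (m γ β : ℚ)

/-- the ambient space -/
abbrev Sp (m : Φ → Φ → ℤ) : Submodule ℚ (Φ → ℚ) := Submodule.span ℚ (Set.range (io m))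

/-- roots -/
def rt (h : CD m s ng) : Φ ↪ Sp m where
  toFun β := ⟨io m β, Submodule.subset_span ⟨β, rfl⟩⟩
  inj' β β' e := h.inj _ _ fun γ => by
    have e1 : io m β γ = io m β' γ := congrFun (congrArg Subtype.val e) γ
    simp only [io] at e1
    exact_mod_cast e1

/-- coroots -/
def crt (h : CD m s ng) : Φ ↪ Module.Dual ℚ (Sp m) where
  toFun α := (LinearMap.proj α : (Φ → ℚ) →ₗ[ℚ] ℚ) ∘ₗ (Sp m).subtype
  inj' α α' e := h.coinj _ _ fun β => by
    have e1 : io m β α = io m β α' := LinearMap.congr_fun e (rt h β)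
    simp only [io] at e1
    exact_mod_cast e1

lemma rt_val (h : CD m s ng) (β γ : Φ) : (rt h β).1 γ = (m γ β : ℚ) := rfl

lemma pair (h : CD m s ng) (α β : Φ) :
    Module.Dual.eval ℚ (Sp m) (rt h β) (crt h α) = (m α β : ℚ) := rfl

lemma rt_s (h : CD m s ng) (α β : Φ) : rt h (s α β) = rt h β - (m α β : ℚ) • rt h α := by
  apply Subtype.ext
  funext γ
  have : (rt h β - (m α β : ℚ) • rt h α).1 γ = (m γ β : ℚ) - (m α β : ℚ) * (m γ α : ℚ) := rfl
  rw [this, rt_val, h.refl]
  push_cast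
  ring

lemma span_top (h : CD m s ng) : Submodule.span ℚ (Set.range (rt h)) = ⊤ := by
  apply Submodule.map_injective_of_injective (Sp m).injective_subtype
  rw [Submodule.map_span, Submodule.map_top, Submodule.range_subtype, ← Set.range_comp]
  rfl

/-- the root pairing -/
noncomputable def RP (h : CD m s ng) : RootPairing Φ ℚ (Sp m) (Module.Dual ℚ (Sp m)) :=
  RootPairing.mk'' (Module.Dual.eval ℚ (Sp m)) (rt h) (crt h)
    (fun i => by rw [pair, h.two]; norm_num)
    (fun i => by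
      rintro _ ⟨j, rfl⟩
      refine ⟨s i j, ?_⟩
      rw [rt_s, Module.preReflection_apply]
      rfl)
    (span_top h)

lemma RP_root (h : CD m s ng) (β : Φ) : (RP h).root β = rt h β := rfl

lemma RP_pairing (h : CD m s ng) (α β : Φ) : (RP h).pairing β α = (m α β : ℚ) := rfl

lemma RP_cr (h : CD m s ng) : (RP h).IsCrystallographic :=
  ⟨fun i j => ⟨m j i, by rw [RP_pairing]; rfl⟩⟩

lemma RP_sys (h : CD m s ng) : (RP h).IsRootSystem :=
  RootPairing.isRootSystem_mk'' fun i j => ⟨m j i, rfl⟩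

lemma RP_perm (h : CD m s ng) (α β : Φ) : (RP h).reflectionPerm α β = s α β := by
  apply (RP h).root.injective
  rw [RootPairing.root_reflectionPerm, RootPairing.reflection_apply_root, RP_pairing, RP_root,
    RP_root, RP_root, rt_s]

lemma RP_red (h : CD m s ng) : (RP h).IsReduced := by
  refine ⟨fun i j hl => ?_⟩
  rw [LinearIndependent.pair_iff] at hl
  push Not at hl
  obtain ⟨a, b, hab, hne⟩ := hl
  have hc : ∀ γ, a * (m γ i : ℚ) + b * (m γ j : ℚ) = 0 := fun γ => by
    have e := congrFun (congrArg Subtype.val hab) γ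
    exact e
  have hi := hc i
  have hj := hc j
  rw [h.two] at hi hj
  push_cast at hi hj
  have ha : a ≠ 0 := by
    rintro rfl
    apply hne rfl
    linarith
  have h2 : ∀ γ, 2 * m γ i = m j i * m γ j := fun γ => by
    have e : (2 : ℚ) * (m γ i : ℚ) = (m j i : ℚ) * (m γ j : ℚ) := by
      apply mul_left_cancel₀ ha
      linear_combination 2 * hc γ - (m γ j : ℚ) * hj
    exact_mod_cast e
  have fin1 : (∀ γ, m γ i = m γ j) → (RP h).root i = (RP h).root j := fun H => by
    rw [h.inj i j H]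
  have fin2 : (∀ γ, m γ i = - m γ j) → (RP h).root i = - (RP h).root j := fun H => by
    apply Subtype.ext
    funext γ
    have : (-(RP h).root j).1 γ = -(m γ j : ℚ) := rfl
    rw [this, RP_root, rt_val, H]
    push_cast
    ring
  rcases Int.even_or_odd' (m j i) with ⟨c, hc2 | hc2⟩
  · have H : ∀ γ, m γ i = c * m γ j := fun γ => by
      have := h2 γ
      rw [hc2] at this
      linarith
    rcases h.mul j i c H with rfl | rfl
    · exact Or.inl (fin1 fun γ => by rw [H]; ring)
    · exact Or.inr (fin2 fun γ => by rw [H]; ring)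
  · exfalso
    have h4 : m j i * m i j = 4 := by rw [← h2, h.two]; norm_num
    have hd : m j i ∣ 4 := ⟨_, h4.symm⟩
    have hle : m j i ≤ 4 := Int.le_of_dvd (by norm_num) hd
    have hge : -4 ≤ m j i := by
      have := Int.le_of_dvd (by norm_num) ((neg_dvd).2 hd)
      omega
    have h5 : m j i = 1 ∨ m j i = -1 ∨ m j i = 3 ∨ m j i = -3 := by omega
    rcases h5 with e | e | e | e
    · exact h.red i j fun γ => by have := h2 γ; rw [e] at this; linarith
    · exact h.red (ng i) j fun γ => by have := h2 γ; rw [e] at this; rw [h.neg]; linarith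
    · rw [e] at h4; omega
    · rw [e] at h4; omega

theorem main (h : CD m s ng) : ∃ (Δ : Finset Φ) (co : Φ → Φ → ℤ),
    (∀ β γ, m γ β = ∑ α ∈ Δ, co β α * m γ α) ∧
    (∀ f : Φ → ℤ, (∀ γ, ∑ α ∈ Δ, f α * m γ α = 0) → ∀ α ∈ Δ, f α = 0) ∧
    (∀ β, (∀ α ∈ Δ, 0 ≤ co β α) ∨ ∀ α ∈ Δ, co β α ≤ 0) ∧
    ∀ q : Φ → Prop, (∀ i, q i → q (s i i)) → (∀ i ∈ Δ, q i) →
      (∀ i j, q i → j ∈ Δ → q (s j i)) → ∀ i, q i := by
  haveI := RP_cr h
  haveI := RP_sys h
  haveI := RP_red h
  obtain ⟨b⟩ := (RP h).nonempty_base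
  choose co _ hsg hco using b.exists_root_eq_sum_int
  refine ⟨b.support, co, fun β γ => ?_, fun f hf α hα => ?_, fun β => ?_, fun q h0 h1 h2 i => ?_⟩
  · have e := congrArg (crt h γ) (hco β)
    rw [map_sum] at e
    have e1 : (m γ β : ℚ) = ∑ α ∈ b.support, (co β α : ℚ) * (m γ α : ℚ) := by
      refine e.trans (Finset.sum_congr rfl fun α _ => ?_)
      rw [map_zsmul, zsmul_eq_mul]
      rfl
    exact_mod_cast e1
  · have hz : ∑ α ∈ b.support, (f α : ℚ) • (RP h).root α = 0 := by
      apply Subtype.ext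
      funext γ
      have e : crt h γ (∑ α ∈ b.support, (f α : ℚ) • (RP h).root α) =
          ∑ α ∈ b.support, (f α : ℚ) * (m γ α : ℚ) := by
        rw [map_sum]
        refine Finset.sum_congr rfl fun α _ => ?_
        rw [map_smul, smul_eq_mul]
        rfl
      have e1 : ∑ α ∈ b.support, (f α : ℚ) * (m γ α : ℚ) = 0 := by exact_mod_cast hf γ
      exact e.trans e1
    have := linearIndepOn_iff'.1 b.linearIndepOn_root b.support (fun α => (f α : ℚ))
      (fun _ hx => hx) hz α hα
    exact_mod_cast this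
  · rcases hsg β with e | e
    · exact Or.inl fun α _ => e.le α
    · exact Or.inr fun α _ => e.le α
  · refine b.induction_reflect i (fun i hi => ?_) h1 (fun i j hi hj => ?_)
    · rw [RP_perm]; exact h0 i hi
    · rw [RP_perm]; exact h2 i j hi hj

end Base0

theorem st_base (k : Type u) [Field k] : S_base k := by
  intro n _ _ L Φ _ R m s H
  classical
  have h : Base0.CD m s R.neg :=
    ⟨H.two, fun α β => (H.grad α).2 β, fun γ α β => H.refl_int _ (H.grad γ) α β, H.inj, H.red⟩
  obtain ⟨Δ, co, hco, huq, hsg, hind⟩ := Base0.main h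
  have uq : ∀ (β : Φ) (g : Φ → ℤ), (∀ γ, m γ β = ∑ α ∈ Δ, g α * m γ α) →
      ∀ α ∈ Δ, co β α = g α := by
    intro β g hg α hα
    have := huq (fun α => co β α - g α) (fun γ => by
      simp only [sub_mul, Finset.sum_sub_distrib]
      rw [← hco, ← hg, sub_self]) α hα
    exact sub_eq_zero.1 this
  have hδ : ∀ α ∈ Δ, ∀ α' ∈ Δ, co α α' = if α' = α then 1 else 0 := by
    intro α hα α' hα'
    refine uq α (fun a => if a = α then 1 else 0) (fun γ => ?_) α' hα'
    simp [hα]
  have hneg : ∀ β, ∀ α ∈ Δ, co (R.neg β) α = - co β α := by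
    intro β α hα
    refine uq _ (fun a => - co β a) (fun γ => ?_) α hα
    rw [h.neg, hco β γ, ← Finset.sum_neg_distrib]
    exact Finset.sum_congr rfl fun a _ => by ring
  have hs : ∀ j i, ∀ α ∈ Δ, co (s j i) α = co i α - m j i * co j α := by
    intro j i α hα
    refine uq _ (fun a => co i a - m j i * co j a) (fun γ => ?_) α hα
    rw [h.refl, hco i γ, hco j γ, Finset.mul_sum, ← Finset.sum_sub_distrib]
    exact Finset.sum_congr rfl fun a _ => by ring
  refine ⟨Δ, co, fun α hα => ⟨fun β γ δ c hc he => ?_, fun β => hneg β α hα⟩,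
    fun α hα => by rw [hδ α hα α hα, if_pos rfl],
    fun α hα α' hα' hne => by rw [hδ α hα α' hα', if_neg (Ne.symm hne)], hsg,
    fun Λ _ φ hφ β => ?_, fun β γ e => H.inj _ _ fun δ => ?_, fun β γ j e => ?_,
    fun α β => ⟨m α β, (H.cast α β).symm⟩⟩
  · refine uq δ (fun a => co β a + co γ a) (fun γ' => ?_) α hα
    rw [(H.grad γ').1 β γ δ c hc he, hco β γ', hco γ γ', ← Finset.sum_add_distrib]
    exact Finset.sum_congr rfl fun a _ => by ring
  · have h1 : ∀ i ∈ Δ, φ i = ∑ α ∈ Δ, co i α • φ α := by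
      intro i hi
      rw [Finset.sum_congr rfl fun α hα => by rw [hδ i hi α hα]]
      simp [hi]
    refine hind (fun β => φ β = ∑ α ∈ Δ, co β α • φ α) (fun i hi => ?_) h1
      (fun i j hi hj => ?_) β
    · rw [H.s_self, hφ.2, hi, ← Finset.sum_neg_distrib]
      exact Finset.sum_congr rfl fun α hα => by rw [hneg i α hα, neg_smul]
    · rw [H.refl Λ φ hφ, Finset.sum_congr rfl fun α hα => by rw [hs j i α hα, sub_smul, mul_smul],
        Finset.sum_sub_distrib, ← Finset.smul_sum, ← hi, ← h1 j hj]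
  · rw [hco β δ, hco γ δ]
    exact Finset.sum_congr rfl fun a ha => by rw [e a ha]
  · refine h.mul β γ j fun δ => ?_
    rw [hco γ δ, hco β δ, Finset.mul_sum]
    exact Finset.sum_congr rfl fun a ha => by rw [e a ha]; ring

end Pool.Agent.Lib.MP_3a0263_al.R
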