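import Pool.Agent.Lib.MP_3a0263_al.R.Blue
import Pool.Agent.Lib.MP_3a0263_al.R.Basic

namespace Pool.Agent.Lib.MP_3a0263_al.R

open Matrix

attribute [local instance 100] LieRing.ofAssociativeRing

universe u

namespace Eig

set_option linter.unusedSectionVars false

variable {k : Type u} [Field k] {n : Type} [Fintype n] [DecidableEq n]
variable {L : LieSubalgebra k (Matrix n n k)} {π : Matrix n n k →ₗ[k] Matrix n n k}
variable {t : Submodule k (n → k)} {p : ℕ} {h : t} {ν : n → ℤ}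

theorem exists_eig [IsAlgClosed k] (V : Submodule k (Matrix n n k))
    (f : Module.End k (Matrix n n k)) (hf : ∀ x ∈ V, f x ∈ V) (hV : V ≠ ⊥) :
    ∃ y ∈ V, y ≠ 0 ∧ ∃ η : k, f y = η • y := by
  have : Nontrivial V := Submodule.nontrivial_iff_ne_bot.2 hV
  obtain ⟨η, hη⟩ := Module.End.exists_eigenvalue (f.restrict hf)
  obtain ⟨y, hy⟩ := hη.exists_hasEigenvector
  refine ⟨y, y.2, fun e => hy.2 (Subtype.ext e), η, ?_⟩
  exact congrArg Subtype.val hy.apply_eq_smul

theorem one_eig [IsAlgClosed k] (V : Submodule k (Matrix n n k))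
    (f : Module.End k (Matrix n n k)) (hf : ∀ x ∈ V, f x ∈ V) (ξ : k)
    (h1 : ∀ y ∈ V, ∀ η : k, y ≠ 0 → f y = η • y → η = ξ) :
    ∀ x ∈ V, ∃ N : ℕ, ((f - ξ • 1) ^ N) x = 0 := by
  intro x hx
  have htop := Module.End.iSup_maxGenEigenspace_eq_top (f.restrict hf)
  have hle : ∀ μ : k, Module.End.maxGenEigenspace (f.restrict hf) μ ≤
      Module.End.maxGenEigenspace (f.restrict hf) ξ := by
    intro μ
    by_cases hμ : μ = ξ
    · rw [hμ]
    · intro v hv
      by_contra hv0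
      have hne : v ≠ 0 := fun e => hv0 (by rw [e]; exact Submodule.zero_mem _)
      have hE : Module.End.HasEigenvalue (f.restrict hf) μ := by
        rw [Module.End.maxGenEigenspace_eq] at hv
        refine Module.End.hasEigenvalue_of_hasGenEigenvalue
          (k := Module.End.maxGenEigenspaceIndex (f.restrict hf) μ) ?_
        rw [Module.End.hasGenEigenvalue_iff]
        intro hb
        exact hne (by rw [hb] at hv; exact hv)
      obtain ⟨y, hy⟩ := hE.exists_hasEigenvector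
      exact hμ (h1 y y.2 μ (fun e => hy.2 (Subtype.ext e))
        (congrArg Subtype.val hy.apply_eq_smul))
  have hx' : (⟨x, hx⟩ : V) ∈ Module.End.maxGenEigenspace (f.restrict hf) ξ := by
    have : (⊤ : Submodule k V) ≤ Module.End.maxGenEigenspace (f.restrict hf) ξ := by
      rw [← htop]; exact iSup_le hle
    exact this trivial
  obtain ⟨N, hN⟩ := (Module.End.mem_maxGenEigenspace _ _ _).1 hx'
  refine ⟨N, ?_⟩
  have key : ∀ (N : ℕ) (v : V), ((((f.restrict hf) - ξ • 1) ^ N) v : V).1 =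
      ((f - ξ • 1) ^ N) v.1 := by
    intro N
    induction N with
    | zero => intro v; rfl
    | succ N ih =>
      intro v
      rw [pow_succ, pow_succ, Module.End.mul_apply, Module.End.mul_apply, ih]
      rfl
  rw [← key N ⟨x, hx⟩, hN]
  rfl

theorem gen_lie [CharP k p] (hR : Rich L π) (hD : Diag L t) (hν : IsToral h.1 ν)
    {β γ : t →ₗ[k] k} {a b : ℤ} (ha : β h = a) (hb : γ h = b) (ξ η : k) (S : ℕ) :
    ∀ N M : ℕ, N + M = S → ∀ x ∈ wsp L t β, ∀ y ∈ wsp L t γ,
      ((del π p ν a - ξ • 1) ^ N) x = 0 → ((del π p ν b - η • 1) ^ M) y = 0 →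
      ((del π p ν (a + b) - (ξ + η) • 1) ^ S) ⁅x, y⁆ = 0 := by
  induction S with
  | zero =>
    intro N M hS x _ y _ h1 _
    have : N = 0 := by omega
    rw [this] at h1
    have hx0 : x = 0 := h1
    rw [hx0, zero_lie, map_zero]
  | succ S ih =>
    intro N M hS x hx y hy h1 h2
    rcases N with _ | N
    · have hx0 : x = 0 := h1
      rw [hx0, zero_lie, map_zero]
    rcases M with _ | M
    · have hy0 : y = 0 := h2
      rw [hy0, lie_zero, map_zero]
    have hx' : (del π p ν a - ξ • 1 : Module.End k (Matrix n n k)) x ∈ wsp L t β :=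
      (wsp L t β).sub_mem (hR.del_mem hD a hx.2) ((wsp L t β).smul_mem ξ hx)
    have hy' : (del π p ν b - η • 1 : Module.End k (Matrix n n k)) y ∈ wsp L t γ :=
      (wsp L t γ).sub_mem (hR.del_mem hD b hy.2) ((wsp L t γ).smul_mem η hy)
    have e : (del π p ν (a + b) - (ξ + η) • 1 : Module.End k (Matrix n n k)) ⁅x, y⁆ =
        ⁅(del π p ν a - ξ • 1 : Module.End k (Matrix n n k)) x, y⁆ +
          ⁅x, (del π p ν b - η • 1 : Module.End k (Matrix n n k)) y⁆ := by
      simp only [LinearMap.sub_apply, LinearMap.smul_apply, Module.End.one_apply]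
      rw [hR.del_lie hν ha hb hx hy, sub_lie, lie_sub, smul_lie, lie_smul, add_smul]
      abel
    rw [pow_succ, Module.End.mul_apply] at h1 h2 ⊢
    rw [e, map_add, ih N (M + 1) (by omega) _ hx' y hy h1 (by
        rw [pow_succ, Module.End.mul_apply]; exact h2),
      ih (N + 1) M (by omega) x hx _ hy' (by
        rw [pow_succ, Module.End.mul_apply]; exact h1) h2, add_zero]

theorem gen_pow [CharP k p] (hR : Rich L π) (hD : Diag L t) (hν : IsToral h.1 ν)
    {β γ : t →ₗ[k] k} {a b : ℤ} (ha : β h = a) (hb : γ h = b) (ξ η : k) {N M : ℕ}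
    {x y : Matrix n n k} (hx : x ∈ wsp L t β) (hy : y ∈ wsp L t γ)
    (h1 : ((del π p ν a - ξ • 1) ^ N) x = 0) (h2 : ((del π p ν b - η • 1) ^ M) y = 0) (j : ℕ) :
    ∃ S : ℕ, ((del π p ν (j * a + b) - (j * ξ + η) • 1) ^ S) ((adm x ^ j) y) = 0 := by
  induction j with
  | zero => exact ⟨M, by simpa using h2⟩
  | succ j ih =>
    obtain ⟨S, hS⟩ := ih
    have := gen_lie (p := p) hR hD hν ha (b := j * a + b) (γ := (j : k) • β + γ)
      (by simp [ha, hb]) ξ (j * ξ + η) (N + S) N S rfl x hx _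
      ⟨adm_pow_mem hx.1 hy.1 j, wA_adm_pow hx.2 hy.2 j⟩ h1 hS
    refine ⟨N + S, ?_⟩
    rw [adm_pow_succ]
    push_cast
    rw [show (j + 1) * a + b = a + (j * a + b) by ring,
      show ((j : k) + 1) * ξ + η = ξ + (j * ξ + η) by ring]
    exact this

theorem partH [IsAlgClosed k] [Fact p.Prime] [CharP k p] (hR : Rich L π) (hD : Diag L t)
    (hν : IsToral h.1 ν) {γ : t →ₗ[k] k} {a : ℤ} (ha : γ h = a) (ha0 : (a : k) ≠ 0)
    {x : Matrix n n k} (hx : x ∈ wsp L t γ) {ξ : k} (h1 : del π p ν a x = ξ • x) :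
    ∃ c : k, x ^ p = c • 1 := by
  obtain ⟨d, c, e⟩ := hR.pow_wt hD p hx
  obtain ⟨c', hc'⟩ := hR.central_diag hD d fun β hβ => by
    obtain ⟨y0, hy0, hy0'⟩ := Submodule.exists_mem_ne_zero_of_ne_bot hβ
    obtain ⟨b, hb⟩ := exists_lift hν hy0.2 hy0'
    obtain ⟨y, hy, hy', η, h2⟩ := exists_eig (wsp L t β) (del π p ν b)
      (fun z hz => hR.del_mem hD b hz.2) hβ
    have h3 := hR.del_eig_pow (p := p) hν ha hb hx hy h1 h2 p
    have h4 : (adm x ^ p) y = β d • y := by
      rw [adm_pow_p p, e, add_lie, hy.2 d, smul_lie, one_lie', smul_zero, add_zero]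
    rw [h4, map_smul, show (p : ℤ) * a + b = b + a * p by ring, hR.del_shift b a hy.1, h2,
      CharP.cast_eq_zero, zero_mul, zero_add, ← sub_smul, smul_smul, smul_smul] at h3
    have h5 := smul_left_injective k hy' h3
    have h6 : β d * a = 0 := by linear_combination -h5
    exact (mul_eq_zero.1 h6).resolve_right ha0
  exact ⟨c' + c, by rw [e, hc', add_smul]⟩

theorem partZ [Fact p.Prime] [CharP k p] (hR : Rich L π) (hD : Diag L t)
    (hν : IsToral h.1 ν) {γ : t →ₗ[k] k} {a : ℤ} (ha : γ h = a) (ha0 : (a : k) ≠ 0) {ξ : k}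
    {N M : ℕ} {x y : Matrix n n k} (hx : x ∈ wsp L t γ) (hy : y ∈ wsp L t γ)
    (h1 : ((del π p ν a - ξ • 1) ^ N) x = 0) (h2 : ((del π p ν a - ξ • 1) ^ M) y = 0) :
    (adm x ^ (p - 1)) y = 0 := by
  obtain ⟨S, hS⟩ := gen_pow (p := p) hR hD hν ha ha ξ ξ hx hy h1 h2 (p - 1)
  have hp : 1 ≤ p := (Fact.out : p.Prime).one_le
  have c1 : ((p - 1 : ℕ) : k) = -1 := by
    rw [Nat.cast_sub hp, CharP.cast_eq_zero]; simp
  have c2 : ((p - 1 : ℕ) : ℤ) * a + a = 0 + a * p := by
    rw [Nat.cast_sub hp]; ring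
  have hz : (adm x ^ (p - 1)) y ∈ wsp L t 0 := by
    refine ⟨adm_pow_mem hx.1 hy.1 _, ?_⟩
    have := wA_adm_pow hx.2 hy.2 (p - 1)
    have e : ((p - 1 : ℕ) : k) • γ + γ = 0 := by
      rw [c1]; ext d; simp
    rwa [e] at this
  obtain ⟨d, hd⟩ := hD.zero hz
  rw [c1, c2, neg_one_mul, neg_add_cancel, zero_smul, sub_zero, hd] at hS
  have h3 : del π p ν (0 + a * p) (diagonal d.1) = (-(a : k)) • diagonal d.1 := by
    rw [hR.del_shift 0 a (hD.mem _ d.2), del_zero, zero_sub, neg_smul]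
  have h4 : ∀ S : ℕ, (del π p ν (0 + a * p) ^ S) (diagonal d.1) =
      (-(a : k)) ^ S • diagonal d.1 := by
    intro S
    induction S with
    | zero => simp
    | succ S ih => rw [pow_succ, Module.End.mul_apply, h3, map_smul, ih, smul_smul, pow_succ']
  rw [h4] at hS
  rw [hd]
  exact (smul_eq_zero.1 hS).resolve_left (pow_ne_zero _ (neg_ne_zero.2 ha0))

theorem span_two {V : Submodule k (Matrix n n k)} (hV : Module.finrank k V = 2)
    {f : Module.End k (Matrix n n k)} {x y : Matrix n n k} (hx : x ∈ V) (hy : y ∈ V) (hx0 : x ≠ 0)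
    (hy0 : y ≠ 0) {ξ η : k} (hne : ξ ≠ η) (h1 : f x = ξ • x) (h2 : f y = η • y) :
    V = Submodule.span k {x, y} := by
  have hli : LinearIndependent k ![x, y] := by
    rw [LinearIndependent.pair_iff]
    intro s r hs
    have h3 := congrArg f hs
    rw [map_add, map_smul, map_smul, h1, h2, map_zero] at h3
    have h4 : (s * (ξ - η)) • x = 0 := by
      have : (s * (ξ - η)) • x = (s • ξ • x + r • η • y) - η • (s • x + r • y) := by module
      rw [this, h3, hs]; simp
    have hs0 : s = 0 :=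
      (mul_eq_zero.1 ((smul_eq_zero.1 h4).resolve_right hx0)).resolve_right (sub_ne_zero.2 hne)
    rw [hs0, zero_smul, zero_add] at hs
    exact ⟨hs0, (smul_eq_zero.1 hs).resolve_right hy0⟩
  have hr : Set.range ![x, y] = {x, y} := by
    rw [Matrix.range_cons, Matrix.range_cons_empty]; rfl
  have hf := finrank_span_eq_card hli
  rw [hr, Fintype.card_fin] at hf
  refine (Submodule.eq_of_le_of_finrank_le ?_ (by rw [hV, hf])).symm
  rw [Submodule.span_le]
  rintro z (rfl | rfl)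
  · exact hx
  · exact hy

end Eig

theorem st_eig (k : Type u) [Field k] [IsAlgClosed k] (p : ℕ) [Fact p.Prime] [CharP k p]
    (h3 : S_p3 k p) : S_eig k p := by
  intro n _ _ L π t hR hD γ h ν a hν ha ha0
  refine ⟨fun x hx ξ h1 => Eig.partH hR hD hν ha ha0 hx h1, ?_⟩
  have hγ : γ ≠ 0 := fun e => ha0 (by rw [← ha, e]; rfl)
  rcases h3 n L π t hR hD γ hγ with h1 | ⟨h2, x, hx, y, hy, hxy⟩
  · exact Or.inl h1
  right
  have hf : ∀ z ∈ wsp L t γ, del π p ν a z ∈ wsp L t γ := fun z hz => hR.del_mem hD a hz.2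
  have hV : wsp L t γ ≠ ⊥ := fun e => by rw [e, finrank_bot] at h2; omega
  obtain ⟨x', hx', hx0, ξ, e1⟩ := Eig.exists_eig _ _ hf hV
  obtain ⟨y', hy', η, hy0, e2, hne⟩ : ∃ y' ∈ wsp L t γ, ∃ η : k, y' ≠ 0 ∧
      del π p ν a y' = η • y' ∧ η ≠ ξ := by
    by_contra hc
    push Not at hc
    obtain ⟨N, hN⟩ := Eig.one_eig _ _ hf ξ hc x hx
    obtain ⟨M, hM⟩ := Eig.one_eig _ _ hf ξ hc y hy
    exact hxy (Eig.partZ hR hD hν ha ha0 hx hy hN hM)
  have hs := Eig.span_two h2 hx' hy' hx0 hy0 hne.symm e1 e2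
  refine ⟨x', y', ξ, η, hx0, hy0, hne.symm, e1, e2, hs, fun hp h0 => hxy ?_⟩
  rw [hs] at hx hy
  obtain ⟨s, r, rfl⟩ := Submodule.mem_span_pair.1 hx
  obtain ⟨s', r', rfl⟩ := Submodule.mem_span_pair.1 hy
  have h0' : ⁅y', x'⁆ = 0 := by rw [← lie_skew, h0, neg_zero]
  rw [hp]
  simp [h0, h0']

end Pool.Agent.Lib.MP_3a0263_al.R
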