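import Pool.Agent.Lib.MP_3a0263_al.R.Blue
import Pool.Agent.Lib.MP_3a0263_al.R.Alg

namespace Pool.Agent.Lib.MP_3a0263_al.R

open Matrix

attribute [local instance 100] LieRing.ofAssociativeRing

universe u

namespace Fam

section Fin

variable {k E : Type*} [Field k] [Ring E] [Algebra k E] {V : Submodule k E}

theorem pow_mono (h1 : (1 : E) ∈ V) {a b : ℕ} (h : a ≤ b) : V ^ a ≤ V ^ b := by
  induction h with
  | refl => exact le_rfl
  | step _ ih =>
    refine ih.trans fun x hx => ?_
    rw [pow_succ, ← mul_one x]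
    exact Submodule.mul_mem_mul hx h1

theorem cons_mem {a x : E} {m : ℕ} (ha : a ∈ V) (hx : x ∈ V ^ m) : a * x ∈ V ^ (m + 1) := by
  rw [pow_succ']
  exact Submodule.mul_mem_mul ha hx

theorem prod_mem (l : List E) (hl : ∀ a ∈ l, a ∈ V) : l.prod ∈ V ^ l.length := by
  induction l with
  | nil => rw [List.prod_nil, List.length_nil, pow_zero]; exact Submodule.one_le.1 le_rfl
  | cons a l ih =>
    rw [List.prod_cons, List.length_cons]
    exact cons_mem (hl a List.mem_cons_self) (ih fun b hb => hl b (List.mem_cons_of_mem _ hb))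

theorem perm_mem {S : Set E} (h1 : (1 : E) ∈ V) (hS : ∀ a ∈ S, a ∈ V)
    (hc : ∀ a ∈ S, ∀ b ∈ S, a * b - b * a ∈ V) {l l' : List E} (h : l.Perm l') :
    (∀ a ∈ l, a ∈ S) → ∀ m, l.length ≤ m + 1 → l.prod - l'.prod ∈ V ^ m := by
  induction h with
  | nil => intro _ m _; simp
  | @cons a l l' h ih =>
    intro hl m hm
    rw [List.prod_cons, List.prod_cons, ← mul_sub]
    rw [List.length_cons] at hm
    rcases m with _ | m
    · have e : l = [] := List.eq_nil_of_length_eq_zero (by omega)
      subst e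
      rw [h.nil_eq.symm]; simp
    · exact cons_mem (hS a (hl a List.mem_cons_self))
        (ih (fun b hb => hl b (List.mem_cons_of_mem _ hb)) m (by omega))
  | swap a b l =>
    intro hl m hm
    have ha : a ∈ S := hl a (by simp)
    have hb : b ∈ S := hl b (by simp)
    have e : (b :: a :: l).prod - (a :: b :: l).prod = (b * a - a * b) * l.prod := by
      simp only [List.prod_cons, sub_mul, mul_assoc]
    rw [e]
    simp only [List.length_cons] at hm
    exact pow_mono h1 (by omega) (cons_mem (hc b hb a ha)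
      (prod_mem l fun c hc => hS c (hl c (by simp [hc]))))
  | @trans l1 l2 l3 h h' ih ih' =>
    intro hl m hm
    rw [← sub_add_sub_cancel _ l2.prod]
    exact add_mem (ih hl m hm) (ih' (fun a ha => hl a (h.mem_iff.2 ha)) m (h.length_eq ▸ hm))

theorem pow_drop (h1 : (1 : E) ∈ V) {g : E} (hg : g ∈ V) (hi : IsIntegral k g) :
    ∃ d, g ^ (d + 1) ∈ V ^ d := by
  obtain ⟨P, hP, h0⟩ := hi
  rw [← Polynomial.aeval_def, Polynomial.aeval_eq_sum_range, Finset.sum_range_succ,
    hP.coeff_natDegree, one_smul, add_comm, add_eq_zero_iff_eq_neg] at h0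
  refine ⟨P.natDegree, ?_⟩
  rw [pow_succ', h0, mul_neg, Finset.mul_sum]
  refine neg_mem (Submodule.sum_mem _ fun i hi => ?_)
  rw [mul_smul_comm, ← pow_succ']
  exact Submodule.smul_mem _ _ (pow_mono h1 (Finset.mem_range.1 hi) (Submodule.pow_mem_pow V hg _))

theorem fg_adjoin (S : Finset E) (h1 : (1 : E) ∈ S)
    (hc : ∀ a ∈ S, ∀ b ∈ S, a * b - b * a ∈ Submodule.span k (S : Set E))
    (hi : ∀ g ∈ S, IsIntegral k g) : (Algebra.adjoin k (S : Set E)).toSubmodule.FG := by
  classical
  set V := Submodule.span k (S : Set E) with hV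
  have hS : ∀ a ∈ (S : Set E), a ∈ V := fun a ha => Submodule.subset_span ha
  have h1' : (1 : E) ∈ V := hS 1 h1
  have hd : ∀ g : E, ∃ d, g ∈ S → g ^ (d + 1) ∈ V ^ d := fun g => by
    by_cases hg : g ∈ S
    · obtain ⟨d, h⟩ := pow_drop h1' (hS g hg) (hi g hg)
      exact ⟨d, fun _ => h⟩
    · exact ⟨0, fun h => absurd h hg⟩
  choose d hd using hd
  set N := ∑ g ∈ S, d g with hN
  have step : ∀ m, N ≤ m → V ^ (m + 1) ≤ V ^ m := by
    intro m hm
    rw [hV, Submodule.span_pow, ← hV, Submodule.span_le]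
    intro x hx
    obtain ⟨f, rfl⟩ := Set.mem_pow.1 hx
    set l := List.ofFn fun i => (f i : E) with hl
    have hlS : ∀ a ∈ l, a ∈ (S : Set E) := fun a ha => by
      obtain ⟨i, rfl⟩ := List.mem_ofFn.1 ha
      exact (f i).2
    have hlen : l.length = m + 1 := List.length_ofFn
    obtain ⟨g, hg, hcnt⟩ : ∃ g ∈ S, d g < l.count g := by
      refine Finset.exists_lt_of_sum_lt ?_
      have e := Multiset.sum_count_eq_card (s := S) (m := (l : Multiset E)) fun a ha => hlS a ha
      simp only [Multiset.coe_count, Multiset.coe_card] at e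
      omega
    obtain ⟨l', hp⟩ := (List.replicate_sublist_iff.2 (Nat.succ_le_of_lt hcnt)).exists_perm_append
    have h2 := perm_mem h1' hS hc hp hlS m hlen.le
    have h3 : (List.replicate (d g + 1) g ++ l').prod ∈ V ^ m := by
      have e := hp.length_eq
      rw [List.length_append, List.length_replicate, hlen] at e
      rw [List.prod_append, List.prod_replicate, show m = d g + l'.length by omega, pow_add]
      exact Submodule.mul_mem_mul (hd g hg)
        (prod_mem l' fun a ha => hS a (hlS a (hp.mem_iff.2 (List.mem_append_right _ ha))))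
    simpa using add_mem h2 h3
  have all : ∀ m, V ^ m ≤ V ^ N := by
    intro m
    induction m with
    | zero => exact pow_mono h1' (Nat.zero_le _)
    | succ m ih =>
      rcases le_or_gt N m with h | h
      exacts [(step m h).trans ih, pow_mono h1' h]
  have hle : (Algebra.adjoin k (S : Set E)).toSubmodule ≤ V ^ N := by
    intro x hx
    induction hx using Algebra.adjoin_induction with
    | mem x hx => exact all 1 (by simpa using hS x hx)
    | algebraMap c =>
      rw [Algebra.algebraMap_eq_smul_one]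
      exact Submodule.smul_mem _ _ (all 1 (by simpa using h1'))
    | add x y _ _ hx hy => exact add_mem hx hy
    | mul x y _ _ hx hy => exact all (N + N) (by rw [pow_add]; exact Submodule.mul_mem_mul hx hy)
  have hfg : (V ^ N).FG := (Submodule.fg_span S.finite_toSet).pow N
  have : FiniteDimensional k (V ^ N : Submodule k E) := Module.Finite.of_fg hfg
  have := Submodule.finiteDimensional_of_le hle
  exact Module.Finite.iff_fg.1 this

end Fin

variable {k : Type u} [Field k] [IsAlgClosed k] {n : Type} [Fintype n] [DecidableEq n]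

theorem fin_trace {P : Polynomial k} (hP : P ≠ 0) :
    {c : k | ∃ a : Matrix n n k, Polynomial.aeval a P = 0 ∧ a.trace = c}.Finite := by
  classical
  refine ((Set.finite_Iic (Fintype.card n • P.roots)).image Multiset.sum).subset ?_
  rintro _ ⟨a, ha, rfl⟩
  refine ⟨a.charpoly.roots, ?_, (Matrix.trace_eq_sum_roots_charpoly a).symm⟩
  rw [Set.mem_Iic, Multiset.le_iff_count]
  intro μ
  by_cases hμ : μ ∈ a.charpoly.roots
  · have h1 : μ ∈ spectrum k a :=
      Matrix.mem_spectrum_iff_isRoot_charpoly.2 (Polynomial.isRoot_of_mem_roots hμ)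
    have h2 := spectrum.subset_polynomial_aeval a P ⟨μ, h1, rfl⟩
    rw [ha] at h2
    have h3 : P.eval μ = 0 := by
      by_contra h
      rw [spectrum.mem_iff, sub_zero] at h2
      exact h2 ((Ne.isUnit h).map (algebraMap k (Matrix n n k)))
    have h4 : 1 ≤ P.roots.count μ := Multiset.one_le_count_iff_mem.2 ((Polynomial.mem_roots hP).2 h3)
    rw [Multiset.count_nsmul]
    refine (Multiset.count_le_card _ _).trans ((Polynomial.card_roots' _).trans ?_)
    rw [Matrix.charpoly_natDegree_eq_dim]
    exact Nat.le_mul_of_pos_right _ h4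
  · rw [Multiset.count_eq_zero_of_notMem hμ]
    exact Nat.zero_le _

theorem trace_const {b : Matrix n n (LaurentPolynomial k)} (hb : IsIntegral k b) (s : kˣ) :
    (evM s b).trace = (evM 1 b).trace := by
  obtain ⟨P, hP, h0⟩ := hb
  have he : ∀ s : kˣ, (evM s b).trace = ev s b.trace := fun s => by
    simp [Matrix.trace, evM_apply]
  obtain ⟨c, hc⟩ : ∃ c : k, {s : kˣ | ev s b.trace = c}.Infinite := by
    by_contra h
    refine units_infinite (k := k) (((fin_trace (n := n) hP.ne_zero).biUnion
      (t := fun c => {s : kˣ | ev s b.trace = c}) fun c _ => ?_).subset fun s _ => ?_)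
    · by_contra h'
      exact h ⟨c, h'⟩
    · refine Set.mem_biUnion (x := (evM s b).trace) ⟨evM s b, ?_, rfl⟩ (he s).symm
      rw [Polynomial.aeval_algHom_apply, Polynomial.aeval_def, h0, map_zero]
  have h1 : b.trace - LaurentPolynomial.C c = 0 := lp_eq_zero (hc.mono fun s hs => by
    rw [Set.mem_ofPred_eq, map_sub, ev_C, sub_eq_zero]; exact hs)
  rw [he, he, sub_eq_zero.1 h1, ev_C, ev_C]

end Fam

theorem st_fam (k : Type u) [Field k] [IsAlgClosed k] : S_fam k := by
  classical
  intro n _ _ L hL F h1 hlie hsurj hspan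
  have hext : ∀ U V : Matrix n n (LaurentPolynomial k), (∀ s, evM s U = evM s V) → U = V :=
    fun U V h => mat_eq_of_cofinite Set.finite_empty fun s _ => h s
  set Z := {x | x ∈ L ∧ ∃ P : Polynomial k, P ≠ 0 ∧ ∀ s, Polynomial.aeval (evM s (F x)) P = 0} with hZ
  obtain ⟨S0, hS0, hsp⟩ := (Submodule.fg_span_iff_fg_span_finset_subset Z).1
    (IsNoetherian.noetherian (Submodule.span k Z))
  set S := insert 1 (S0.image F) with hS
  have hFL : ∀ x ∈ L, F x ∈ Submodule.span k (S : Set (Matrix n n (LaurentPolynomial k))) := by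
    intro x hx
    have h2 : x ∈ Submodule.span k (S0 : Set (Matrix n n k)) := hsp ▸ hspan hx
    have h3 := Submodule.mem_map_of_mem (f := F) h2
    rw [Submodule.map_span] at h3
    refine Submodule.span_mono ?_ h3
    rw [hS, Finset.coe_insert, Finset.coe_image]
    exact Set.subset_insert _ _
  have hfg := Fam.fg_adjoin (k := k) S (Finset.mem_insert_self _ _) (fun a ha b hb => by
    rcases Finset.mem_insert.1 ha with rfl | ha
    · simp
    rcases Finset.mem_insert.1 hb with rfl | hb
    · simp
    obtain ⟨x, hx, rfl⟩ := Finset.mem_image.1 ha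
    obtain ⟨y, hy, rfl⟩ := Finset.mem_image.1 hb
    have e : F x * F y - F y * F x = F ⁅x, y⁆ := hext _ _ fun s => by
      rw [hlie s x (hS0 hx).1 y (hS0 hy).1, map_sub, map_mul, map_mul, Ring.lie_def]
    rw [e]
    exact hFL _ (L.lie_mem (hS0 hx).1 (hS0 hy).1)) fun g hg => by
    rcases Finset.mem_insert.1 hg with rfl | hg
    · exact isIntegral_one
    obtain ⟨x, hx, rfl⟩ := Finset.mem_image.1 hg
    obtain ⟨P, hP, h0⟩ := (hS0 hx).2
    refine IsAlgebraic.isIntegral ⟨P, hP, hext _ _ fun s => ?_⟩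
    rw [← Polynomial.aeval_algHom_apply, h0, map_zero]
  set B := Algebra.adjoin k (S : Set (Matrix n n (LaurentPolynomial k))) with hB
  have hFB : ∀ x ∈ L, F x ∈ B := fun x hx => Algebra.span_le_adjoin k _ (hFL x hx)
  have hon : ∀ s a, ∃ b ∈ B, evM s b = a := by
    intro s a
    have h2 : Algebra.adjoin k (L : Set (Matrix n n k)) ≤ B.map (evM s) := by
      refine Algebra.adjoin_le fun y hy => ?_
      obtain ⟨x, hx, rfl⟩ := hsurj s y hy
      exact ⟨F x, hFB x hx, rfl⟩
    exact h2 (hL ▸ Algebra.mem_top)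
  have hker : ∀ b ∈ B, evM 1 b = 0 → b = 0 := by
    intro b hb h0
    refine hext _ _ fun s => ?_
    rw [map_zero, Matrix.ext_iff_trace_mul_right]
    intro a
    obtain ⟨b', hb', rfl⟩ := hon s a
    rw [← map_mul, Fam.trace_const (IsIntegral.of_mem_of_fg B hfg _ (mul_mem hb hb')), map_mul, h0,
      zero_mul, zero_mul]
  have hbij : Function.Bijective ((evM 1).comp B.val) := by
    refine ⟨(injective_iff_map_eq_zero _).2 fun b hb => Subtype.ext (hker b.1 b.2 hb), fun a => ?_⟩
    obtain ⟨b, hb, e⟩ := hon 1 a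
    exact ⟨⟨b, hb⟩, e⟩
  set e := AlgEquiv.ofBijective _ hbij with he
  refine ⟨B.val.comp e.symm.toAlgHom, fun a => e.apply_symm_apply a, fun x hx => ?_⟩
  have h2 : e.symm x = ⟨F x, hFB x hx⟩ := e.symm_apply_eq.2 (h1 x hx).symm
  exact congrArg Subtype.val h2

end Pool.Agent.Lib.MP_3a0263_al.R
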