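import Pool.Agent.Lib.MP_3a0263_al.R.Blue
import Pool.Agent.Lib.MP_3a0263_al.R.Basic
import Pool.Agent.Lib.MP_3a0263_al.R.Alg

namespace Pool.Agent.Lib.MP_3a0263_al.R

open Matrix LaurentPolynomial

attribute [local instance 100] LieRing.ofAssociativeRing

universe u

namespace GOOD

variable {k : Type u} [Field k] {n : Type} [Fintype n] [DecidableEq n]

/-- the functional sending `T j` to the Euclidean quotient of `j` by `N` -/
noncomputable def quo (k : Type u) [Field k] (N : ℤ) : k[T;T⁻¹] →ₗ[k] k :=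
  (AddMonoidAlgebra.basis ℤ k).constr k fun j => ((j / N : ℤ) : k)

theorem quo_T (N j : ℤ) : quo k N (T j) = ((j / N : ℤ) : k) :=
  (AddMonoidAlgebra.basis ℤ k).constr_basis k (fun j => ((j / N : ℤ) : k)) j

theorem C_mul_eq (c : k) (f : k[T;T⁻¹]) : C c * f = c • f := by
  rw [C_eq_algebraMap, Algebra.smul_def]

theorem quo_shift {N : ℤ} (hN : N ≠ 0) (f : k[T;T⁻¹]) : quo k N (T N * f) = quo k N f + ev 1 f := by
  induction f using LaurentPolynomial.induction_on' with
  | add a b ha hb => rw [mul_add, map_add, map_add, map_add, ha, hb]; ring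
  | C_mul_T j c =>
    rw [C_mul_eq, mul_smul_comm, ← T_add, map_smul, map_smul, map_smul, quo_T, quo_T, ev_T, ← smul_add]
    have h : (N + j) / N = j / N + 1 := by
      rw [add_comm, Int.add_ediv_of_dvd_right dvd_rfl, Int.ediv_self hN]
    rw [h]
    simp

theorem map_cM_mul (q : k[T;T⁻¹] →ₗ[k] k) (a : Matrix n n k) (U : Matrix n n k[T;T⁻¹]) :
    (cM a * U).map q = a * U.map q := by
  ext i j
  simp only [map_apply, Matrix.mul_apply, map_sum, cM_apply, C_mul_eq, map_smul, smul_eq_mul]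

theorem map_mul_cM (q : k[T;T⁻¹] →ₗ[k] k) (a : Matrix n n k) (U : Matrix n n k[T;T⁻¹]) :
    (U * cM a).map q = U.map q * a := by
  ext i j
  simp only [map_apply, Matrix.mul_apply, map_sum, cM_apply]
  refine Finset.sum_congr rfl fun l _ => ?_
  rw [mul_comm, C_mul_eq, map_smul, smul_eq_mul, mul_comm]

theorem map_shift {N : ℤ} (hN : N ≠ 0) (U : Matrix n n k[T;T⁻¹]) :
    ((T N : k[T;T⁻¹]) • U).map (quo k N) = U.map (quo k N) + evM 1 U := by
  ext i j
  simp only [map_apply, Matrix.smul_apply, smul_eq_mul, quo_shift hN, Matrix.add_apply, evM_apply]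

variable {L : LieSubalgebra k (Matrix n n k)} {Φ : Type u} [Fintype Φ]

theorem e_ne (R : Frame L Φ) (β : Φ) : R.e β ≠ 0 := fun h => by
  have := R.cf_self β
  rw [h, map_zero] at this
  exact zero_ne_one this

theorem grading_wt (R : Frame L Φ) (d : R.t) : IsGrading R fun β => R.wt β d := by
  refine ⟨fun β γ δ c hc h => ?_, fun β => ?_⟩
  · have h1 : ⁅diagonal d.1, ⁅R.e β, R.e γ⁆⁆ = (R.wt β d + R.wt γ d) • ⁅R.e β, R.e γ⁆ := by
      rw [leibniz_lie, R.lie_e, R.lie_e, smul_lie, lie_smul, add_smul]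
    rw [h, lie_smul, R.lie_e, smul_comm] at h1
    exact smul_left_injective k (smul_ne_zero hc (e_ne R δ)) h1
  · simp only [R.wt_neg, LinearMap.neg_apply]

theorem eq_diag (R : Frame L Φ) {x : Matrix n n k} (hx : x ∈ L) (h : ∀ d : R.t, ⁅diagonal d.1, x⁆ = 0) :
    x = diagonal (R.tp x).1 := by
  have h0 : ∀ γ, R.cf γ x = 0 := fun γ => by
    obtain ⟨d, hd⟩ : ∃ d, R.wt γ d ≠ 0 := by
      by_contra hn
      push Not at hn
      exact R.wt_ne γ (LinearMap.ext hn)
    have h1 := h d
    rw [R.decomp x hx, lie_add, lie_sum] at h1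
    have h2 : ⁅diagonal d.1, diagonal (R.tp x).1⁆ = 0 := by
      rw [Ring.lie_def, diagonal_mul_diagonal, diagonal_mul_diagonal, sub_eq_zero]
      simp only [mul_comm]
    rw [h2, zero_add] at h1
    have h3 := congrArg (R.cf γ) h1
    rw [map_sum, map_zero, Finset.sum_eq_single γ] at h3
    · rw [lie_smul, R.lie_e, map_smul, map_smul, R.cf_self, smul_eq_mul, smul_eq_mul, mul_one] at h3
      exact (mul_eq_zero.1 h3).resolve_right hd
    · intro β _ hβ
      rw [lie_smul, R.lie_e, map_smul, map_smul, R.cf_ne γ β (Ne.symm hβ), smul_zero, smul_zero]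
    · simp
  have h1 := R.decomp x hx
  simp only [h0, zero_smul, Finset.sum_const_zero, add_zero] at h1
  exact h1

end GOOD

open GOOD in
theorem st_good (k : Type u) [Field k] [IsAlgClosed k] (p : ℕ) [Fact p.Prime] [CharP k p] : S_good k p := by
  intro n _ _ L π hR Φ _ R Δ co hB hT θ i hi hN hp
  obtain ⟨Θ, h1, ht, he⟩ := hT.tor (fun β => co β i) (hB.grad i hi)
  have := hR.ne
  obtain ⟨U, hU1, hU⟩ := exists_intertwiner Θ h1
  set M : Matrix n n k := U.map (quo k (co θ i)) with hM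
  have hc : ∀ a : Matrix n n k, Θ a = cM a → ⁅a, M⁆ = 0 := fun a ha => by
    have h := congrArg (fun V : Matrix n n k[T;T⁻¹] => V.map (quo k (co θ i))) (hU a)
    simp only [ha, map_cM_mul, map_mul_cM] at h
    rw [Ring.lie_def, h, sub_self]
  have hθ : ⁅M, R.e θ⁆ = R.e θ := by
    have h := congrArg (fun V : Matrix n n k[T;T⁻¹] => V.map (quo k (co θ i))) (hU (R.e θ))
    simp only [he, smul_mul_assoc, ← mul_smul_comm, map_cM_mul, map_mul_cM, map_shift hN, hU1] at h
    rw [Ring.lie_def, ← h, mul_add, mul_one, add_sub_cancel_left]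
  have hx : π M = diagonal (R.tp (π M)).1 := eq_diag R.toFrame (hR.mem M) fun d => by
    rw [← hR.equi _ (R.t_mem d), hc _ (ht d), map_zero]
  set d := R.tp (π M) with hd
  have hw : ∀ (β : Φ) (c : k), ⁅M, R.e β⁆ = c • R.e β → R.wt β d = c := fun β c h => by
    have h2 := hR.equi' (R.e_mem β) M
    rw [h, map_smul, hR.left _ (R.e_mem β), hx, R.lie_e] at h2
    exact (smul_left_injective k (e_ne R.toFrame β) h2).symm
  have h2 := hB.lin k (fun β => R.wt β d) (grading_wt R.toFrame d) θ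
  rw [hw θ 1 (by rw [hθ, one_smul]), Finset.sum_eq_single_of_mem i hi] at h2
  · rw [zsmul_eq_mul, (CharP.intCast_eq_zero_iff k p _).2 hp, zero_mul] at h2
    exact one_ne_zero h2
  · intro a ha hai
    rw [hw a 0 ?_, smul_zero]
    rw [zero_smul, ← lie_skew, hc _ ?_, neg_zero]
    rw [he, hB.ne a ha i hi hai, T_zero, one_smul]

end Pool.Agent.Lib.MP_3a0263_al.R
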