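import Pool.Agent.Lib.MP_3a0263_al.R.Blue
import Pool.Agent.Lib.MP_3a0263_al.R.Basic
import Pool.Agent.Lib.MP_3a0263_al.R.Alg

namespace Pool.Agent.Lib.MP_3a0263_al.R

open Matrix LaurentPolynomial

attribute [local instance 100] LieRing.ofAssociativeRing

universe u

namespace GRP

variable {k : Type u} [Field k] {n : Type} [Fintype n] [DecidableEq n]
variable {L : LieSubalgebra k (Matrix n n k)} {Φ : Type u} [Fintype Φ]

/-- the tangent map of a family -/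
noncomputable def dT (Θ : Matrix n n k →ₐ[k] Matrix n n k[T;T⁻¹]) :
    Matrix n n k →ₗ[k] Matrix n n k := tanL ∘ₗ Θ.toLinearMap

theorem dT_apply (Θ : Matrix n n k →ₐ[k] Matrix n n k[T;T⁻¹]) (a : Matrix n n k) :
    dT Θ a = tan (Θ a) := rfl

theorem dT_mul {Θ : Matrix n n k →ₐ[k] Matrix n n k[T;T⁻¹]} (h : ∀ a, evM 1 (Θ a) = a)
    (a b : Matrix n n k) : dT Θ (a * b) = a * dT Θ b + dT Θ a * b := by
  rw [dT_apply, map_mul, tan_mul, h, h, dT_apply, dT_apply]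

/-- a derivation that is inner on generators is inner -/
theorem der_eq (hg : Algebra.adjoin k (L : Set (Matrix n n k)) = ⊤)
    (D : Matrix n n k →ₗ[k] Matrix n n k) (hD : ∀ a b, D (a * b) = a * D b + D a * b)
    (y : Matrix n n k) (h : ∀ x ∈ L, D x = ⁅y, x⁆) (a : Matrix n n k) : D a = ⁅y, a⁆ := by
  have h1 : D 1 = 0 := by
    have := hD 1 1
    rw [one_mul, one_mul, mul_one] at this
    exact left_eq_add.1 this
  have ha : a ∈ Algebra.adjoin k (L : Set (Matrix n n k)) := by rw [hg]; trivial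
  induction ha using Algebra.adjoin_induction with
  | mem x hx => exact h x hx
  | algebraMap c =>
    rw [Algebra.algebraMap_eq_smul_one, map_smul, h1, lie_smul, lie_one', smul_zero]
  | add x z _ _ hx hz => rw [map_add, hx, hz, lie_add]
  | mul x z _ _ hx hz =>
    rw [hD, hx, hz]
    simp only [Ring.lie_def]
    noncomm_ring

/-- a curve that lies in a subspace at almost all points has its tangent vector there -/
theorem tan_mem [Infinite k] (V : Matrix n n k[T;T⁻¹]) (J : Submodule k (Matrix n n k))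
    {F : Set kˣ} (hF : F.Finite) (h : ∀ s ∉ F, evM s V ∈ J) : tan V ∈ J := by
  by_contra hc
  obtain ⟨φ, h1, h2⟩ := Submodule.exists_dual_map_eq_bot_of_notMem hc inferInstance
  have hφ : ∀ a : Matrix n n k, φ a = ∑ i, ∑ j, φ (single i j 1) * a i j := by
    intro a
    conv_lhs => rw [Matrix.matrix_eq_sum_single a]
    simp only [map_sum]
    refine Finset.sum_congr rfl fun i _ => Finset.sum_congr rfl fun j _ => ?_
    have e : single i j (a i j) = a i j • single i j (1 : k) := by simp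
    rw [e, map_smul, smul_eq_mul, mul_comm]
  have h3 : (∑ i, ∑ j, φ (single i j 1) • V i j : k[T;T⁻¹]) = 0 := by
    refine lp_eq_zero_of_cofinite hF fun s hs => ?_
    have h4 : φ (evM s V) = 0 := by
      have : φ (evM s V) ∈ J.map φ := Submodule.mem_map_of_mem (h s hs)
      rw [h2] at this
      exact (Submodule.mem_bot k).1 this
    rw [hφ] at h4
    simp only [map_sum, map_smul, smul_eq_mul]
    exact h4
  have h5 := congrArg (derL (k := k)) h3
  simp only [map_sum, map_smul, smul_eq_mul, map_zero] at h5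
  apply h1
  rw [hφ]
  exact h5

theorem e_ne (R : Frame L Φ) (β : Φ) : R.e β ≠ 0 := fun h => by
  have := R.cf_self β
  rw [h, map_zero] at this
  exact zero_ne_one this

theorem grad_wt (R : Frame L Φ) (d : R.t) : IsGrading R fun β => R.wt β d := by
  refine ⟨fun β γ δ c hc h => ?_, fun β => by beta_reduce; rw [R.wt_neg]; rfl⟩
  have h1 : ⁅diagonal d.1, ⁅R.e β, R.e γ⁆⁆ = (R.wt β d + R.wt γ d) • ⁅R.e β, R.e γ⁆ := by
    rw [leibniz_lie, R.lie_e, R.lie_e, smul_lie, lie_smul, add_smul]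
  rw [h, lie_smul, R.lie_e, smul_smul, smul_smul] at h1
  have h2 := smul_left_injective k (e_ne R δ) h1
  rw [mul_comm] at h2
  exact mul_right_cancel₀ hc h2

theorem diag_lie_diag (a b : n → k) : ⁅diagonal a, diagonal b⁆ = 0 := by
  rw [Ring.lie_def, diagonal_mul_diagonal, diagonal_mul_diagonal, sub_eq_zero]
  exact congrArg diagonal (funext fun i => mul_comm _ _)

section tor

variable (R : Frame L Φ) {φ : Φ → ℤ} {Θ : Matrix n n k →ₐ[k] Matrix n n k[T;T⁻¹]}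

theorem tor_ev_mem (h1 : ∀ d : R.t, Θ (diagonal d.1) = cM (diagonal d.1))
    (h2 : ∀ β, Θ (R.e β) = (T (φ β) : k[T;T⁻¹]) • cM (R.e β)) (s : kˣ) (x : Matrix n n k)
    (hx : x ∈ L) : evM s (Θ x) ∈ L := by
  rw [R.decomp x hx]
  simp only [map_add, map_sum, map_smul, h1, h2, evM_cM, evM_smul]
  exact L.add_mem (R.t_mem _) (L.toSubmodule.sum_mem fun β _ =>
    L.smul_mem _ (L.smul_mem _ (R.e_mem β)))

theorem tor_dT_t (h1 : ∀ d : R.t, Θ (diagonal d.1) = cM (diagonal d.1)) (d : R.t) :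
    dT Θ (diagonal d.1) = 0 := by rw [dT_apply, h1, tan_cM]

theorem tor_dT_e (h2 : ∀ β, Θ (R.e β) = (T (φ β) : k[T;T⁻¹]) • cM (R.e β)) (β : Φ) :
    dT Θ (R.e β) = (φ β : k) • R.e β := by
  rw [dT_apply, h2, tan_smul, tan_cM, smul_zero, zero_add, der_T, evM_cM]

theorem tor_dT_mem (h1 : ∀ d : R.t, Θ (diagonal d.1) = cM (diagonal d.1))
    (h2 : ∀ β, Θ (R.e β) = (T (φ β) : k[T;T⁻¹]) • cM (R.e β)) (x : Matrix n n k)
    (hx : x ∈ L) : dT Θ x ∈ L := by
  rw [R.decomp x hx]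
  simp only [map_add, map_sum, map_smul, tor_dT_t R h1, tor_dT_e R h2, zero_add]
  exact L.toSubmodule.sum_mem fun β _ => L.smul_mem _ (L.smul_mem _ (R.e_mem β))

end tor

theorem tor_sum (R : Frame L Φ) {Δ : Finset Φ} {co : Φ → Φ → ℤ} (hB : BaseData R Δ co)
    (D : Φ → Matrix n n k →ₗ[k] Matrix n n k) (h1 : ∀ i ∈ Δ, ∀ d : R.t, D i (diagonal d.1) = 0)
    (h2 : ∀ i ∈ Δ, ∀ β, D i (R.e β) = (co β i : k) • R.e β) (d : R.t) (x : Matrix n n k)
    (hx : x ∈ L) : (∑ i ∈ Δ, R.wt i d • D i) x = ⁅diagonal d.1, x⁆ := by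
  have ht : ∀ d' : R.t, (∑ i ∈ Δ, R.wt i d • D i) (diagonal d'.1) = 0 := fun d' => by
    rw [LinearMap.sum_apply]
    exact Finset.sum_eq_zero fun i hi => by rw [LinearMap.smul_apply, h1 i hi, smul_zero]
  have he : ∀ β, (∑ i ∈ Δ, R.wt i d • D i) (R.e β) = R.wt β d • R.e β := fun β => by
    rw [LinearMap.sum_apply, hB.lin k _ (grad_wt R d) β, Finset.sum_smul]
    refine Finset.sum_congr rfl fun i hi => ?_
    rw [LinearMap.smul_apply, h2 i hi, smul_smul, zsmul_eq_mul, mul_comm]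
  rw [R.decomp x hx, map_add, map_sum, lie_add, lie_sum, ht, diag_lie_diag]
  congr 1
  refine Finset.sum_congr rfl fun β _ => ?_
  rw [map_smul, he, lie_smul, R.lie_e]

variable {m : Type} [Fintype m] [DecidableEq m] {π : Matrix n n k →ₗ[k] Matrix n n k}

theorem exists_y [Infinite k] (M : Model L m) {G : Subgroup (GL m k)} (hG : G ≤ M.N)
    {U : Matrix m m k[T;T⁻¹]} (h1 : evM 1 U = 1) (hU : pts U ⊆ G)
    (D : Matrix n n k → Matrix n n k) (hD : ∀ x ∈ L, D x ∈ L)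
    (h : ∀ x ∈ L, ⁅tan U, M.r x⁆ = M.r (D x)) :
    ∃ y ∈ L, M.r y ∈ lieSub G ∧ ∀ x ∈ L, ⁅y, x⁆ = D x := by
  have h2 := tan_mem_lie h1 hU
  obtain ⟨y, hy, hr⟩ := M.lie_le _ (lie_mono hG h2)
  refine ⟨y, hy, by rw [hr]; exact h2, fun x hx => ?_⟩
  rw [← sub_eq_zero]
  refine M.r_inj _ (L.sub_mem (L.lie_mem hy hx) (hD x hx)) ?_
  rw [map_sub, M.r_lie y hy x hx, hr, h x hx, sub_self]

theorem mem_of_ad [Infinite k] (hR : Rich L π) (M : Model L m) {G : Subgroup (GL m k)}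
    (hZ : pts M.Z ⊆ G) {y z : Matrix n n k} (hy : y ∈ L) (hz : z ∈ L) (hr : M.r y ∈ lieSub G)
    (h : ∀ x ∈ L, ⁅y, x⁆ = ⁅z, x⁆) : M.r z ∈ lieSub G := by
  obtain ⟨c, hc⟩ := hR.cent (z := y - z) fun x hx => by
    rw [← lie_skew, sub_lie, h x hx, sub_self, neg_zero]
  obtain ⟨c', hc'⟩ := M.Z_tan c (hc ▸ L.sub_mem hy hz)
  have e : M.r z = M.r y - c' • tan M.Z := by rw [← hc', ← hc, map_sub, sub_sub_cancel]
  rw [e]
  exact (lieSub G).sub_mem hr ((lieSub G).smul_mem _ (tan_mem_lie M.Z_one hZ))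

theorem stab [Infinite k] (M : Model L m) {G : Subgroup (GL m k)}
    {Θ : Matrix n n k →ₐ[k] Matrix n n k[T;T⁻¹]} {U : Matrix m m k[T;T⁻¹]} (h1 : evM 1 U = 1)
    (hU : pts U ⊆ G) (h2 : ∀ s (g : GL m k), (g : Matrix m m k) = evM s U →
      ∃ hg : g ∈ M.N, ∀ a, M.act ⟨g, hg⟩ a = evM s (Θ a))
    (J : Submodule k (Matrix n n k))
    (hJ : ∀ w : M.N, (w : GL m k) ∈ G → ∀ a ∈ J, M.act w a ∈ J) (a : Matrix n n k)
    (ha : a ∈ J) : dT Θ a ∈ J := by
  refine tan_mem (Θ a) J (finite_det h1) fun s hs => ?_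
  obtain ⟨g, hg⟩ := exists_gl hs
  obtain ⟨hN, h3⟩ := h2 s g hg
  rw [← h3]
  exact hJ ⟨g, hN⟩ (hU ⟨s, hg⟩) a ha

end GRP

open GRP in
theorem st_grp (k : Type u) [Field k] [IsAlgClosed k] (p : ℕ) [Fact p.Prime] [CharP k p]
    (hz : S_zar k) (hk : S_kol k) : S_grp k p := by
  intro n _ _ L π hR Φ _ R Δ co hB hT m _ _ M
  choose Θ hΘ1 hΘ2 hΘ3 using hT.root
  choose U hU1 hU2 hU3 using fun α => M.lift (Θ α) (hΘ1 α) (hΘ2 α)
  choose Ξ hΞ1 hΞ2 hΞ3 using fun i : Δ => hT.tor _ (hB.grad i.1 i.2)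
  choose V hV1 hV2 hV3 using fun i : Δ =>
    M.lift (Ξ i) (hΞ1 i) (tor_ev_mem R.toFrame (hΞ2 i) (hΞ3 i))
  let C : Set (Matrix m m k[T;T⁻¹]) := Set.range U ∪ Set.range V ∪ {M.Z}
  have hC1 : ∀ X ∈ C, evM 1 X = 1 := by
    rintro X ((⟨α, rfl⟩ | ⟨i, rfl⟩) | rfl)
    exacts [hU1 α, hV1 i, M.Z_one]
  have hC2 : ∀ X ∈ C, pts X ⊆ M.N := by
    rintro X ((⟨α, rfl⟩ | ⟨i, rfl⟩) | rfl) g hg
    · obtain ⟨s, hs⟩ := hg
      exact (hU2 α s g hs).1
    · obtain ⟨s, hs⟩ := hg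
      exact (hV2 i s g hs).1
    · exact (M.Z_ker g hg).1
  obtain ⟨G, hG1, hG2, hG3, hG4⟩ := (hz m).1 (Submonoid.closure (⋃ X ∈ C, pts X))
  have hprime := (hz m).2 C hC1
  have hsub : ∀ X ∈ C, pts X ⊆ G := fun X hX =>
    (Set.subset_biUnion_of_mem (u := fun X => pts X) hX).trans
      (Submonoid.subset_closure.trans hG3)
  have hle : G ≤ M.N := by
    refine hG4 M.N M.closed ?_
    have h : Submonoid.closure (⋃ X ∈ C, pts X) ≤ M.N.toSubmonoid :=
      Submonoid.closure_le.2 (Set.iUnion₂_subset hC2)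
    exact h
  have hUG : ∀ α, pts (U α) ⊆ G := fun α => hsub _ (Or.inl (Or.inl ⟨α, rfl⟩))
  have hVG : ∀ i, pts (V i) ⊆ G := fun i => hsub _ (Or.inl (Or.inr ⟨i, rfl⟩))
  have hZG : pts M.Z ⊆ G := hsub _ (Or.inr rfl)
  classical
  let D : Φ → Matrix n n k →ₗ[k] Matrix n n k := fun i =>
    if hi : i ∈ Δ then dT (Ξ ⟨i, hi⟩) else 0
  have hD : ∀ i (hi : i ∈ Δ), D i = dT (Ξ ⟨i, hi⟩) := fun i hi => dif_pos hi
  have hsum : ∀ (d : R.t), ∀ x ∈ L, (∑ i ∈ Δ, R.wt i d • D i) x = ⁅diagonal d.1, x⁆ :=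
    tor_sum R.toFrame hB D
      (fun i hi d => by rw [hD i hi]; exact tor_dT_t R.toFrame (hΞ2 ⟨i, hi⟩) d)
      (fun i hi β => by rw [hD i hi]; exact tor_dT_e R.toFrame (hΞ3 ⟨i, hi⟩) β)
  refine ⟨G, hle, ⟨⟨hG1, by rw [hG2]; exact hprime⟩, fun N0 hN0 _ hnorm hnil => ?_⟩, ?_, hZG, ?_⟩
  · have hbot := hk n L hR.gen ((N0.subgroupOf M.N).map M.act)
      (M.act '' {w | (w : GL m k) ∈ G}) ?_ ?_ ?_
    · rw [eq_bot_iff]
      intro u hu
      have huN : u ∈ M.N := hle (hN0 hu)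
      have h1 : M.act ⟨u, huN⟩ ∈ (N0.subgroupOf M.N).map M.act :=
        Subgroup.mem_map_of_mem _ (Subgroup.mem_subgroupOf.2 hu)
      rw [hbot, Subgroup.mem_bot] at h1
      have h2 := M.unip2 ⟨u, huN⟩ (hnil u hu) h1
      exact Subgroup.mem_bot.2 (congrArg Subtype.val h2)
    · rintro _ ⟨w, hw, rfl⟩
      exact M.unip1 w (hnil _ (Subgroup.mem_subgroupOf.1 hw))
    · rintro _ ⟨g, hg, rfl⟩ _ ⟨w, hw, rfl⟩
      rw [← map_inv, ← map_mul, ← map_mul]
      exact Subgroup.mem_map_of_mem _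
        (Subgroup.mem_subgroupOf.2 (hnorm g hg w (Subgroup.mem_subgroupOf.1 hw)))
    · intro J hJ x hx a ha
      have hJ' : ∀ w : M.N, (w : GL m k) ∈ G → ∀ a ∈ J, M.act w a ∈ J :=
        fun w hw => hJ _ ⟨w, hw, rfl⟩
      have he : ∀ α, ⁅R.e α, a⁆ ∈ J := fun α => by
        rw [← der_eq hR.gen (dT (Θ α)) (dT_mul (hΘ1 α)) (R.e α) (hΘ3 α) a]
        exact stab M (hU1 α) (hUG α) (hU2 α) J hJ' a ha
      have ht : ∀ d : R.t, ⁅diagonal d.1, a⁆ ∈ J := fun d => by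
        rw [← der_eq hR.gen (∑ i ∈ Δ, R.wt i d • D i) ?_ (diagonal d.1) (hsum d) a]
        · rw [LinearMap.sum_apply]
          refine J.sum_mem fun i hi => ?_
          rw [LinearMap.smul_apply, hD i hi]
          exact J.smul_mem _ (stab M (hV1 _) (hVG _) (hV2 _) J hJ' a ha)
        · intro b c
          simp only [LinearMap.sum_apply, Finset.mul_sum, Finset.sum_mul,
            ← Finset.sum_add_distrib]
          refine Finset.sum_congr rfl fun i hi => ?_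
          rw [LinearMap.smul_apply, LinearMap.smul_apply, LinearMap.smul_apply, hD i hi,
            dT_mul (hΞ1 _), smul_add, mul_smul_comm, smul_mul_assoc]
      rw [R.decomp x hx, add_lie, sum_lie]
      refine J.add_mem (ht _) (J.sum_mem fun β _ => ?_)
      rw [smul_lie]
      exact J.smul_mem _ (he β)
  · refine Set.Subset.antisymm (fun y hy => ?_) ?_
    · obtain ⟨x, hx, hr⟩ := M.lie_le y (lie_mono hle hy)
      exact ⟨x, hx, hr⟩
    · rintro _ ⟨x, hx, rfl⟩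
      have he : ∀ α, M.r (R.e α) ∈ lieSub G := fun α => by
        obtain ⟨y, hy, h1, h2⟩ := exists_y M hle (hU1 α) (hUG α) (fun x => ⁅R.e α, x⁆)
          (fun x hx => L.lie_mem (R.e_mem α) hx) fun x hx => by rw [hU3 α x hx, hΘ3 α x hx]
        exact mem_of_ad hR M hZG hy (R.e_mem α) h1 h2
      have hy : ∀ i, ∃ y ∈ L, M.r y ∈ lieSub G ∧ (i ∈ Δ → ∀ x ∈ L, ⁅y, x⁆ = D i x) := fun i => by
        by_cases hi : i ∈ Δ
        · obtain ⟨y, hy, h1, h2⟩ := exists_y M hle (hV1 ⟨i, hi⟩) (hVG ⟨i, hi⟩) (dT (Ξ ⟨i, hi⟩))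
            (tor_dT_mem R.toFrame (hΞ2 _) (hΞ3 _)) (hV3 _)
          exact ⟨y, hy, h1, fun _ x hx => by rw [hD i hi]; exact h2 x hx⟩
        · exact ⟨0, L.zero_mem, by rw [map_zero]; exact (lieSub G).zero_mem, fun h => absurd h hi⟩
      choose y hy1 hy2 hy3 using hy
      have ht : ∀ d : R.t, M.r (diagonal d.1) ∈ lieSub G := fun d => by
        refine mem_of_ad hR M hZG (y := ∑ i ∈ Δ, R.wt i d • y i)
          (L.toSubmodule.sum_mem fun i _ => L.smul_mem _ (hy1 i)) (R.t_mem d) ?_ fun x hx => ?_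
        · rw [map_sum]
          exact (lieSub G).sum_mem fun i _ => by
            rw [map_smul]; exact (lieSub G).smul_mem _ (hy2 i)
        · rw [← hsum d x hx, sum_lie, LinearMap.sum_apply]
          refine Finset.sum_congr rfl fun i hi => ?_
          rw [smul_lie, hy3 i hi x hx, LinearMap.smul_apply]
      rw [← mem_lieSub, R.decomp x hx, map_add, map_sum]
      refine (lieSub G).add_mem (ht _) ((lieSub G).sum_mem fun β _ => ?_)
      rw [map_smul]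
      exact (lieSub G).smul_mem _ (he β)
  · intro i hi
    refine ⟨V ⟨i, hi⟩, hV1 _, fun s g hg => ⟨hVG _ ⟨s, hg⟩, ?_⟩⟩
    obtain ⟨hN, h⟩ := hV2 ⟨i, hi⟩ s g hg
    refine ⟨hN, fun d => ?_, fun β => ?_⟩
    · rw [h, hΞ2, evM_cM]
    · rw [h, hΞ3, evM_smul, ev_T, evM_cM]

end Pool.Agent.Lib.MP_3a0263_al.R
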