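import Pool.Agent.Lib.MP_3a0263_al.R.Blue

namespace Pool.Agent.Lib.MP_3a0263_al.R

attribute [local instance 100] LieRing.ofAssociativeRing

universe u

namespace JM

open Polynomial

variable {k : Type u} [Field k]

lemma desc {P V : Type*} [AddCommGroup P] [Module k P] [AddCommGroup V] [Module k V]
    (q : P →ₗ[k] V) (hq : Function.Surjective q) (u g : P →ₗ[k] P) (f : V →ₗ[k] V)
    (hu : ∀ x, q (u x) = f (q x)) (hg : ∀ x, q x = 0 → q (g x) = 0)
    (h : ∀ x, u (u (g x)) - u (g (u x)) - (u (g (u x)) - g (u (u x))) = (-2 : k) • u x) :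
    ∃ G : V →ₗ[k] V, ∀ v, f (f (G v)) - f (G (f v)) - (f (G (f v)) - G (f (f v))) =
      (-2 : k) • f v := by
  obtain ⟨s, hs⟩ := LinearMap.exists_rightInverse_of_surjective q (LinearMap.range_eq_top.2 hq)
  have hs' : ∀ v, q (s v) = v := fun v => LinearMap.congr_fun hs v
  refine ⟨q ∘ₗ g ∘ₗ s, ?_⟩
  have hG : ∀ x, (q ∘ₗ g ∘ₗ s) (q x) = q (g x) := by
    intro x
    have h1 : q (s (q x) - x) = 0 := by rw [map_sub, hs', sub_self]
    have h2 := hg _ h1
    rw [map_sub, map_sub, sub_eq_zero] at h2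
    simpa using h2
  intro v
  obtain ⟨x, rfl⟩ := hq v
  have h3 := congrArg q (h x)
  rw [map_smul, map_sub, map_sub, map_sub] at h3
  rw [← hu x, ← hu (u x), hG, hG, hG, ← hu, ← hu, ← hu]
  exact h3

/-- the operator `(m-1) d - X d^2` -/
noncomputable def op (m : ℕ) : k[X] →ₗ[k] k[X] :=
  ((m : k) - 1) • derivative - (LinearMap.mulLeft k (X : k[X])) ∘ₗ derivative ∘ₗ derivative

lemma op_apply (m : ℕ) (x : k[X]) :
    op m x = ((m : k[X]) - 1) * derivative x - X * derivative (derivative x) := by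
  have : ((m : k[X]) - 1) = C ((m : k) - 1) := by simp
  rw [this]
  simp [op, smul_eq_C_mul]

lemma op_id (m : ℕ) (x : k[X]) :
    X * (X * op m x) - X * op m (X * x) - (X * op m (X * x) - op m (X * (X * x))) =
      (-2 : k) • (X * x) := by
  have h2 : (C (-2 : k) : k[X]) = -2 := by
    rw [map_neg]; rfl
  rw [smul_eq_C_mul, h2]
  simp only [op_apply, derivative_mul, derivative_X, map_add, one_mul]
  ring

lemma op_dvd (m : ℕ) (x : k[X]) (hx : X ^ m ∣ x) : X ^ m ∣ op m x := by
  obtain ⟨y, rfl⟩ := hx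
  rw [op_apply]
  rcases m with _ | m
  · simp
  rcases m with _ | m
  · refine ⟨-(2 * derivative y + X * derivative (derivative y)), ?_⟩
    simp only [zero_add, pow_one, derivative_mul, derivative_X, map_add, one_mul, Nat.cast_one]
    ring
  · refine ⟨((m : k[X]) + 1) * derivative y - 2 * ((m : k[X]) + 2) * derivative y
      - X * derivative (derivative y), ?_⟩
    have h1 : derivative ((X : k[X]) ^ (m + 1 + 1)) = ((m : k[X]) + 2) * X ^ (m + 1) := by
      rw [derivative_X_pow_succ]; simp only [map_add, map_natCast, Nat.cast_add, Nat.cast_one, map_one]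
      ring
    have h2 : derivative ((X : k[X]) ^ (m + 1)) = ((m : k[X]) + 1) * X ^ m := by
      rw [derivative_X_pow_succ]; simp only [map_add, map_natCast, map_one]
    have h3 : derivative ((m : k[X]) + 2) = 0 := by
      rw [map_add, derivative_natCast, derivative_ofNat, add_zero]
    rw [derivative_mul, h1, map_add, derivative_mul, derivative_mul, derivative_mul, h1, h2, h3]
    push_cast
    ring

lemma endo {V : Type*} [AddCommGroup V] [Module k V] [Module.Finite k V] (f : V →ₗ[k] V)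
    (hf : IsNilpotent f) :
    ∃ G : V →ₗ[k] V, ∀ v, f (f (G v)) - f (G (f v)) - (f (G (f v)) - G (f (f v))) =
      (-2 : k) • f v := by
  classical
  obtain ⟨r, hr⟩ := hf
  have ht : Module.IsTorsion' (Module.AEval' f) (Submonoid.powers (X : k[X])) := by
    intro x
    refine ⟨⟨X ^ r, r, rfl⟩, ?_⟩
    obtain ⟨y, rfl⟩ := (Module.AEval'.of f).surjective x
    show (X ^ r : k[X]) • Module.AEval'.of f y = 0
    rw [Module.AEval'.X_pow_smul_of, hr, zero_smul, map_zero]
  obtain ⟨d, e, ⟨φ⟩⟩ := Module.torsion_by_prime_power_decomposition irreducible_X ht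
  let q0 : (Fin d → k[X]) →ₗ[k[X]] (∀ i : Fin d, k[X] ⧸ k[X] ∙ (X : k[X]) ^ e i) :=
    LinearMap.pi fun i => (Submodule.mkQ _) ∘ₗ LinearMap.proj i
  let ψ := φ.trans (DirectSum.linearEquivFunOnFintype k[X] (Fin d)
    (fun i => k[X] ⧸ k[X] ∙ (X : k[X]) ^ e i))
  let q1 : (Fin d → k[X]) →ₗ[k[X]] Module.AEval' f := ψ.symm.toLinearMap ∘ₗ q0
  let q : (Fin d → k[X]) →ₗ[k] V :=
    (Module.AEval'.of f).symm.toLinearMap ∘ₗ q1.restrictScalars k
  have hq0 : Function.Surjective q0 := by
    intro y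
    choose x hx using fun i => Submodule.mkQ_surjective _ (y i)
    exact ⟨x, funext hx⟩
  have hqa : ∀ x, q x = (Module.AEval'.of f).symm (ψ.symm (q0 x)) := fun x => rfl
  have hker : ∀ x, q x = 0 ↔ ∀ i, X ^ e i ∣ x i := by
    intro x
    rw [hqa, LinearEquiv.map_eq_zero_iff, LinearEquiv.map_eq_zero_iff, funext_iff]
    refine forall_congr' fun i => ?_
    show Submodule.mkQ _ (x i) = 0 ↔ _
    rw [Submodule.mkQ_apply, Submodule.Quotient.mk_eq_zero, Submodule.mem_span_singleton]
    constructor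
    · rintro ⟨c, hc⟩
      exact ⟨c, by rw [← hc, smul_eq_mul, mul_comm]⟩
    · rintro ⟨c, hc⟩
      exact ⟨c, by rw [hc, smul_eq_mul, mul_comm]⟩
  let u : (Fin d → k[X]) →ₗ[k] (Fin d → k[X]) :=
    LinearMap.pi fun i => (LinearMap.mulLeft k (X : k[X])) ∘ₗ LinearMap.proj i
  let g : (Fin d → k[X]) →ₗ[k] (Fin d → k[X]) :=
    LinearMap.pi fun i => op (e i) ∘ₗ LinearMap.proj i
  have hua : ∀ x i, u x i = X * x i := fun x i => rfl
  have hga : ∀ x i, g x i = op (e i) (x i) := fun x i => rfl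
  refine desc q ?_ u g f ?_ ?_ ?_
  · exact (Module.AEval'.of f).symm.surjective.comp (ψ.symm.surjective.comp hq0)
  · intro x
    have : u x = (X : k[X]) • x := funext fun i => rfl
    rw [hqa, hqa, this, map_smul, map_smul, Module.AEval'.of_symm_X_smul]
  · intro x hx
    rw [hker] at hx ⊢
    intro i
    exact op_dvd _ _ (hx i)
  · intro x
    funext i
    simp only [Pi.sub_apply, Pi.smul_apply, hua, hga]
    exact op_id _ _

end JM

theorem st_jm (k : Type u) [Field k] : S_jm k := by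
  intro n _ _ a ha
  have hf : IsNilpotent (Matrix.toLin' a) := by
    obtain ⟨r, hr⟩ := ha
    exact ⟨r, by rw [← Matrix.toLin'_pow, hr, map_zero]⟩
  obtain ⟨G, hG⟩ := JM.endo (Matrix.toLin' a) hf
  refine ⟨LinearMap.toMatrix' G, ?_⟩
  apply Matrix.toLin'.injective
  ext1 i
  refine LinearMap.ext fun c => ?_
  have := hG (Pi.single i c)
  simp only [Ring.lie_def, mul_sub, sub_mul, map_sub, Matrix.toLin'_mul, Matrix.toLin'_toMatrix',
    map_smul, LinearMap.comp_apply, LinearMap.sub_apply, LinearMap.smul_apply,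
    LinearMap.coe_single]
  exact this

end Pool.Agent.Lib.MP_3a0263_al.R
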