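import Pool.Agent.Lib.MP_3a0263_al.R.Blue
import Pool.Agent.Lib.MP_3a0263_al.R.Basic
import Pool.Agent.Lib.MP_3a0263_al.R.Alg

namespace Pool.Agent.Lib.MP_3a0263_al.R

open Matrix LaurentPolynomial

attribute [local instance 100] LieRing.ofAssociativeRing

universe u

set_option linter.unusedSectionVars false
set_option linter.unusedVariables false

namespace Mod1

variable {k : Type u} [Field k] {n : Type} [Fintype n] [DecidableEq n]

theorem ss_of_eig {V : Type*} [AddCommGroup V] [Module k V] [FiniteDimensional k V]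
    {f : Module.End k V} (h : (⨆ μ : k, f.eigenspace μ) = ⊤) : f.IsSemisimple := by
  classical
  have hfin := f.finite_hasEigenvalue
  refine Module.End.isSemisimple_of_squarefree_aeval_eq_zero
    (p := ∏ μ ∈ hfin.toFinset, (Polynomial.X - Polynomial.C μ)) ?_ ?_
  · exact (Polynomial.separable_prod_X_sub_C_iff'.2 fun x _ y _ e => e).squarefree
  · rw [← LinearMap.ker_eq_top, eq_top_iff, ← h]
    refine iSup_le fun μ v hv => ?_
    by_cases h0 : v = 0
    · simp [h0]
    have hv' : f.HasEigenvector μ v := ⟨hv, h0⟩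
    rw [LinearMap.mem_ker, Module.End.aeval_apply_of_hasEigenvector hv', Polynomial.eval_prod,
      Finset.prod_eq_zero (i := μ), zero_smul]
    · exact hfin.mem_toFinset.2 (Module.End.hasEigenvalue_of_hasEigenvector hv')
    · simp

theorem aeval_mulLeft (w : Matrix n n k) (P : Polynomial k) :
    Polynomial.aeval (LinearMap.mulLeft k w) P = LinearMap.mulLeft k (Polynomial.aeval w P) := by
  induction P using Polynomial.induction_on' with
  | add P Q hP hQ => rw [map_add, map_add, hP, hQ]; ext1 a; simp [add_mul]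
  | monomial j c =>
    rw [Polynomial.aeval_monomial, Polynomial.aeval_monomial, LinearMap.pow_mulLeft,
      ← Algebra.smul_def, ← Algebra.smul_def]
    ext1 a; simp

theorem aeval_mulRight (w : Matrix n n k) (P : Polynomial k) :
    Polynomial.aeval (LinearMap.mulRight k w) P = LinearMap.mulRight k (Polynomial.aeval w P) := by
  induction P using Polynomial.induction_on' with
  | add P Q hP hQ => rw [map_add, map_add, hP, hQ]; ext1 a; simp [mul_add]
  | monomial j c =>
    rw [Polynomial.aeval_monomial, Polynomial.aeval_monomial, LinearMap.pow_mulRight,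
      ← Algebra.smul_def, ← Algebra.smul_def]
    ext1 a; simp

/-- conjugation by an invertible matrix -/
noncomputable def cj : GL n k →* (Matrix n n k ≃ₐ[k] Matrix n n k) :=
  (MulSemiringAction.toAlgAut (ConjAct (GL n k)) k (Matrix n n k)).comp
    ConjAct.toConjAct.toMonoidHom

theorem cj_apply (w : GL n k) (a : Matrix n n k) :
    cj w a = (w : Matrix n n k) * a * ((w⁻¹ : GL n k) : Matrix n n k) := rfl

theorem cj_mul_self (w : GL n k) (a : Matrix n n k) :
    cj w a * (w : Matrix n n k) = (w : Matrix n n k) * a := by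
  rw [cj_apply, Units.inv_mul_cancel_right]

theorem cj_eq_of {w : GL n k} {a b : Matrix n n k}
    (h : b * (w : Matrix n n k) = (w : Matrix n n k) * a) : cj w a = b := by
  rw [cj_apply, ← h, Units.mul_inv_cancel_right]

theorem cj_lin (w : GL n k) : (cj w).toLinearMap =
    LinearMap.mulLeft k (w : Matrix n n k) * LinearMap.mulRight k ((w⁻¹ : GL n k) : Matrix n n k) := by
  ext1 a
  simp [cj_apply, mul_assoc]

theorem cj_ss [IsAlgClosed k] (w : GL n k)
    (h : Module.End.IsSemisimple (toLin' (w : Matrix n n k))) :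
    Module.End.IsSemisimple (cj w).toLinearMap := by
  have hs := h.minpoly_squarefree
  rw [Matrix.minpoly_toLin'] at hs
  have h1 : Module.End.IsSemisimple (LinearMap.mulLeft k (w : Matrix n n k)) :=
    Module.End.isSemisimple_of_squarefree_aeval_eq_zero hs (by
      rw [aeval_mulLeft, minpoly.aeval]; ext1 a; simp)
  have h2 : Module.End.IsSemisimple (LinearMap.mulRight k (w : Matrix n n k)) :=
    Module.End.isSemisimple_of_squarefree_aeval_eq_zero hs (by
      rw [aeval_mulRight, minpoly.aeval]; ext1 a; simp)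
  have h3 : Module.End.IsSemisimple
      (LinearMap.mulRight k ((w⁻¹ : GL n k) : Matrix n n k)) := by
    refine ss_of_eig ?_
    rw [eq_top_iff, ← h2.iSup_eigenspace_eq_top]
    refine iSup_le fun μ a ha => ?_
    rw [Module.End.mem_eigenspace_iff, LinearMap.mulRight_apply] at ha
    have e : a = μ • (a * ((w⁻¹ : GL n k) : Matrix n n k)) := by
      rw [← smul_mul_assoc, ← ha, Units.mul_inv_cancel_right]
    by_cases h0 : μ = 0
    · rw [e, h0, zero_smul]; exact Submodule.zero_mem _
    refine Submodule.mem_iSup_of_mem μ⁻¹ ?_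
    rw [Module.End.mem_eigenspace_iff, LinearMap.mulRight_apply]
    conv_rhs => rw [e]
    rw [smul_smul, inv_mul_cancel₀ h0, one_smul]
  rw [cj_lin]
  exact Module.End.IsSemisimple.mul_of_commute (LinearMap.commute_mulLeft_right _ _) h1 h3

theorem ss_of_cj [IsAlgClosed k] [Nonempty n] (w : GL n k)
    (h : (⨆ μ : k, Module.End.eigenspace (cj w).toLinearMap μ) = ⊤) :
    Module.End.IsSemisimple (toLin' (w : Matrix n n k)) := by
  refine ss_of_eig ?_
  obtain ⟨l, hl⟩ := Module.End.exists_eigenvalue (toLin' (w : Matrix n n k))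
  obtain ⟨v, hv⟩ := hl.exists_hasEigenvector
  have hv1 : (w : Matrix n n k) *ᵥ v = l • v := by
    have := hv.apply_eq_smul
    rwa [toLin'_apply] at this
  let φ : Matrix n n k →ₗ[k] (n → k) :=
    { toFun := fun a => a *ᵥ v
      map_add' := fun a b => add_mulVec a b v
      map_smul' := fun c a => smul_mulVec c a v }
  have key : ∀ a : Matrix n n k,
      φ a ∈ ⨆ μ : k, Module.End.eigenspace (toLin' (w : Matrix n n k)) μ := by
    intro a
    have ha : a ∈ ⨆ μ : k, Module.End.eigenspace (cj w).toLinearMap μ := by rw [h]; trivial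
    refine (iSup_le (f := fun μ : k => Module.End.eigenspace (cj w).toLinearMap μ)
      (a := (⨆ μ : k, Module.End.eigenspace (toLin' (w : Matrix n n k)) μ).comap φ)
      fun μ b hb => ?_) ha
    rw [Module.End.mem_eigenspace_iff] at hb
    have hb' : cj w b = μ • b := hb
    refine Submodule.mem_iSup_of_mem (μ * l) ?_
    rw [Module.End.mem_eigenspace_iff, toLin'_apply]
    show (w : Matrix n n k) *ᵥ (b *ᵥ v) = (μ * l) • (b *ᵥ v)
    rw [mulVec_mulVec, ← cj_mul_self, hb', ← mulVec_mulVec, hv1, smul_mulVec, mulVec_smul,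
      smul_smul]
  obtain ⟨j, hj⟩ : ∃ j, v j ≠ 0 := by
    by_contra h0
    push Not at h0
    exact hv.2 (funext h0)
  rw [eq_top_iff]
  intro y _
  have e : φ (Matrix.of fun i j' => if j' = j then y i / v j else 0) = y := by
    ext i
    show (Matrix.of fun i j' => if j' = j then y i / v j else 0).mulVec v i = y i
    simp [mulVec, dotProduct, hj]
  rw [← e]
  exact key _

theorem cj_unip (w : GL n k) (h : IsNilpotent ((w : Matrix n n k) - 1)) :
    IsNilpotent ((cj w).toLinearMap - 1 : Module.End k (Matrix n n k)) := by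
  have h1 : IsNilpotent (((w⁻¹ : GL n k) : Matrix n n k) - 1) := by
    have e : ((w⁻¹ : GL n k) : Matrix n n k) - 1 =
        (-((w⁻¹ : GL n k) : Matrix n n k)) * ((w : Matrix n n k) - 1) := by
      rw [mul_sub, neg_mul, Units.inv_mul]; simp; abel
    rw [e]
    refine Commute.isNilpotent_mul_left ?_ h
    show _ * _ = _ * _
    rw [mul_sub, sub_mul, neg_mul, mul_neg, Units.inv_mul, Units.mul_inv]; simp
  have e : ((cj w).toLinearMap - 1 : Module.End k (Matrix n n k)) =
      LinearMap.mulLeft k ((w : Matrix n n k) - 1) *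
        LinearMap.mulRight k ((w⁻¹ : GL n k) : Matrix n n k) +
      LinearMap.mulRight k (((w⁻¹ : GL n k) : Matrix n n k) - 1) := by
    ext1 a
    simp [cj_apply, mul_assoc, sub_mul, mul_sub]
  rw [e]
  refine Commute.isNilpotent_add ?_ ?_ ((LinearMap.isNilpotent_mulRight_iff _ _).2 h1)
  · refine Commute.mul_left (LinearMap.commute_mulLeft_right _ _) ?_
    show _ * _ = _ * _
    ext1 a
    simp [mul_assoc, sub_mul, mul_sub]
  · exact Commute.isNilpotent_mul_right (LinearMap.commute_mulLeft_right _ _)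
      ((LinearMap.isNilpotent_mulLeft_iff _ _).2 h)

theorem scalar_of_cj [Nonempty n] {w : GL n k} (h : cj w = 1) :
    ∃ c : k, c ≠ 0 ∧ (w : Matrix n n k) = c • 1 := by
  obtain ⟨c, hc⟩ := scalar_of_comm (w : Matrix n n k) fun i j _ => by
    have := cj_mul_self w (single i j 1)
    rwa [h] at this
  refine ⟨c, fun h0 => ?_, hc⟩
  rw [h0, zero_smul] at hc
  exact w.ne_zero hc

/-- extension of scalars of a linear functional -/
noncomputable def ex (φ : Matrix n n k →ₗ[k] k) {B : Type*} [CommRing B] [Algebra k B] :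
    Matrix n n B →ₗ[B] B where
  toFun M := ∑ a, ∑ b, φ (single a b 1) • M a b
  map_add' M M' := by simp [Finset.sum_add_distrib]
  map_smul' c M := by simp [Finset.mul_sum]

theorem ex_apply (φ : Matrix n n k →ₗ[k] k) {B : Type*} [CommRing B] [Algebra k B]
    (M : Matrix n n B) : ex φ M = ∑ a, ∑ b, φ (single a b 1) • M a b := rfl

theorem ex_map (φ : Matrix n n k →ₗ[k] k) {B B' : Type*} [CommRing B] [Algebra k B] [CommRing B']
    [Algebra k B'] (ψ : B →ₐ[k] B') (M : Matrix n n B) :
    ψ (ex φ M) = ex φ (ψ.mapMatrix M) := by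
  simp [ex_apply, map_sum]

theorem ex_self (φ : Matrix n n k →ₗ[k] k) (M : Matrix n n k) : ex φ M = φ M := by
  rw [ex_apply]
  conv_rhs => rw [matrix_eq_sum_single M]
  simp only [map_sum]
  refine Finset.sum_congr rfl fun a _ => Finset.sum_congr rfl fun b _ => ?_
  have e : single a b (M a b) = M a b • single a b (1 : k) := by simp
  rw [e, map_smul, smul_eq_mul, smul_eq_mul, mul_comm]

theorem adj_eq {B : Type*} [CommRing B] {D D' : Matrix n n B} (h : D * D' = 1) :
    adjugate D = D.det • D' := by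
  calc adjugate D = adjugate D * (D * D') := by rw [h, mul_one]
    _ = D.det • D' := by rw [← mul_assoc, adjugate_mul, smul_mul_assoc, one_mul]

variable (L : LieSubalgebra k (Matrix n n k))

theorem inv_mem {u : GL n k} (h : ∀ x ∈ L, cj u x ∈ L) : ∀ x ∈ L, cj u⁻¹ x ∈ L := by
  intro x hx
  let f : L.toSubmodule →ₗ[k] L.toSubmodule := (cj u).toLinearMap.restrict fun y hy => h y hy
  have hf : Function.Injective f := fun a b e =>
    Subtype.ext ((cj u).injective (congrArg Subtype.val e))
  obtain ⟨y, hy⟩ := LinearMap.injective_iff_surjective.1 hf ⟨x, hx⟩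
  have e : cj u y.1 = x := congrArg Subtype.val hy
  rw [← e, ← AlgEquiv.mul_apply, ← map_mul, inv_mul_cancel, map_one]
  exact y.2

/-- the normaliser -/
noncomputable def NN : Subgroup (GL n k) where
  carrier := {u | ∀ x ∈ L, cj u x ∈ L}
  one_mem' := fun x hx => by rw [map_one]; exact hx
  mul_mem' := fun {a b} ha hb x hx => by rw [map_mul, AlgEquiv.mul_apply]; exact ha _ (hb x hx)
  inv_mem' := fun {a} ha => inv_mem L ha

theorem mem_NN {u : GL n k} : u ∈ NN L ↔ ∀ x ∈ L, cj u x ∈ L := Iff.rfl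

variable {L} {π : Matrix n n k →ₗ[k] Matrix n n k}

/-- the functionals cutting out `L` -/
def fn (π : Matrix n n k →ₗ[k] Matrix n n k) (ij : n × n) : Matrix n n k →ₗ[k] k where
  toFun a := (π a - a) ij.1 ij.2
  map_add' a b := by simp only [map_add, Matrix.sub_apply, Matrix.add_apply]; ring
  map_smul' c a := by
    simp only [map_smul, Matrix.sub_apply, Matrix.smul_apply, smul_eq_mul, RingHom.id_apply]; ring

theorem mem_iff_fn (h : Rich L π) (a : Matrix n n k) : a ∈ L ↔ ∀ ij, fn π ij a = 0 := by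
  constructor
  · intro ha ij
    show (π a - a) ij.1 ij.2 = 0
    rw [h.left a ha, sub_self]; rfl
  · intro ha
    have : π a - a = 0 := Matrix.ext fun i j => ha (i, j)
    rw [← sub_eq_zero.1 this]
    exact h.mem a

/-- the equations of the normaliser -/
noncomputable def eqn (π : Matrix n n k →ₗ[k] Matrix n n k) (x : Matrix n n k) (ij : n × n) :
    MvPolynomial (n × n) k := ex (fn π ij) (gen k n * cP x * adjugate (gen k n))

theorem aeval_eqn {B : Type*} [CommRing B] [Algebra k B] (x : Matrix n n k) (ij : n × n)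
    {D D' : Matrix n n B} (h : D * D' = 1) :
    MvPolynomial.aeval (fun ab : n × n => D ab.1 ab.2) (eqn π x ij) =
      D.det * ex (fn π ij) (D * (Algebra.ofId k B).mapMatrix x * D') := by
  have e0 := aeval_gen (k := k) D
  have e1 : (MvPolynomial.aeval fun ab : n × n => D ab.1 ab.2 : _ →ₐ[k] B).mapMatrix (cP x) =
      (Algebra.ofId k B).mapMatrix x := by
    ext i j; simp [cP, Algebra.ofId_apply]
  have e2 : (MvPolynomial.aeval fun ab : n × n => D ab.1 ab.2 : _ →ₐ[k] B).mapMatrix
      (adjugate (gen k n)) = adjugate D := by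
    rw [AlgHom.map_adjugate, e0]
  have e3 : (MvPolynomial.aeval fun ab : n × n => D ab.1 ab.2 : _ →ₐ[k] B).mapMatrix
      (gen k n * cP x * adjugate (gen k n)) =
      D * (Algebra.ofId k B).mapMatrix x * adjugate D := by
    rw [map_mul (MvPolynomial.aeval fun ab : n × n => D ab.1 ab.2 : _ →ₐ[k] B).mapMatrix,
      map_mul (MvPolynomial.aeval fun ab : n × n => D ab.1 ab.2 : _ →ₐ[k] B).mapMatrix, e0, e1, e2]
  rw [eqn, ex_map, e3, adj_eq h, mul_smul_comm, map_smul, smul_eq_mul]

theorem aeval_eqn_gl (x : Matrix n n k) (ij : n × n) (g : GL n k) :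
    MvPolynomial.aeval (entries g) (eqn π x ij) = (g : Matrix n n k).det * fn π ij (cj g x) := by
  have := aeval_eqn (π := π) x ij (D := (g : Matrix n n k)) (Units.mul_inv g)
  rw [ex_self] at this
  exact this

theorem mem_NN_iff (h : Rich L π) (g : GL n k) :
    g ∈ NN L ↔ ∀ i : L × (n × n), MvPolynomial.aeval (entries g) (eqn π i.1.1 i.2) = 0 := by
  have hd : (g : Matrix n n k).det ≠ 0 := g.det_ne_zero
  rw [mem_NN]
  constructor
  · intro hg i
    rw [aeval_eqn_gl, (mem_iff_fn h _).1 (hg _ i.1.2), mul_zero]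
  · intro hg x hx
    refine (mem_iff_fn h _).2 fun ij => ?_
    have := hg (⟨x, hx⟩, ij)
    rw [aeval_eqn_gl] at this
    exact (mul_eq_zero.1 this).resolve_left hd

theorem lie_NN (h : Rich L π) {y : Matrix n n k} (hy : y ∈ lie (NN L)) {x : Matrix n n k}
    (hx : x ∈ L) : ⁅y, x⁆ ∈ L := by
  refine (mem_iff_fn h _).2 fun ij => ?_
  have h1 := hy (eqn π x ij) (mem_vanish.2 fun g hg => (mem_NN_iff h g).1 hg (⟨x, hx⟩, ij))
  set ι : Matrix n n k →ₐ[k] Matrix n n (DualNumber k) := (Algebra.ofId k (DualNumber k)).mapMatrix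
    with hι
  have hε : (DualNumber.eps : DualNumber k) * DualNumber.eps = 0 := DualNumber.eps_mul_eps
  have hD : (1 + (DualNumber.eps : DualNumber k) • ι y) * (1 - (DualNumber.eps : DualNumber k) • ι y)
      = 1 := by
    rw [add_mul, mul_sub, mul_sub, smul_mul_smul_comm, hε]; simp
  have h2 := aeval_eqn (π := π) x ij hD
  have e : (fun ab : n × n => (1 + (DualNumber.eps : DualNumber k) • ι y) ab.1 ab.2) =
      fun ab : n × n => (TrivSqZeroExt.inl ((1 : Matrix n n k) ab.1 ab.2) +
        TrivSqZeroExt.inr (y ab.1 ab.2) : DualNumber k) := by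
    funext ab
    ext
    · simp [hι, Algebra.ofId_apply, Matrix.one_apply, apply_ite]
    · simp [hι, Algebra.ofId_apply, Matrix.one_apply, apply_ite, TrivSqZeroExt.algebraMap_eq_inl]
  rw [e, h1] at h2
  have hu : IsUnit (1 + (DualNumber.eps : DualNumber k) • ι y).det :=
    Matrix.isUnit_det_of_right_inverse hD
  have h3 := (hu.mul_right_eq_zero).1 h2.symm
  have e2 : (1 + (DualNumber.eps : DualNumber k) • ι y) * ι x *
      (1 - (DualNumber.eps : DualNumber k) • ι y) =
      ι x + (DualNumber.eps : DualNumber k) • ι ⁅y, x⁆ := by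
    rw [Ring.lie_def, map_sub, map_mul, map_mul, add_mul, add_mul, mul_sub, mul_sub,
      smul_mul_assoc, smul_mul_smul_comm, hε]
    simp [smul_sub]
    abel
  have e3 : ∀ a, ex (fn π ij) (ι a) = algebraMap k (DualNumber k) (fn π ij a) := fun a => by
    rw [hι, ← ex_map, ex_self]; rfl
  rw [← hι, e2, map_add, map_smul, e3, e3] at h3
  have := congrArg TrivSqZeroExt.snd h3
  simpa [TrivSqZeroExt.algebraMap_eq_inl] using this

end Mod1

open Mod1 in
theorem st_mod1 (k : Type u) [Field k] [IsAlgClosed k] : S_mod1 k := by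
  intro n _ _ L π h h1
  have := h.ne
  have hZ : ∀ s : kˣ, evM s ((T 1 : k[T;T⁻¹]) • (1 : Matrix n n k[T;T⁻¹])) = (s : k) • 1 :=
    fun s => by rw [evM_smul, ev_T, map_one, zpow_one]
  refine ⟨{
    r := LinearMap.id
    N := NN L
    act := cj.comp (NN L).subtype
    Z := (T 1 : k[T;T⁻¹]) • 1
    r_lie := fun _ _ _ _ => rfl
    r_inj := fun _ _ e => e
    closed := isZClosed_of_eq (fun i : L × (n × n) => eqn π i.1.1 i.2) (mem_NN_iff h)
    act_mem := fun w x hx => w.2 x hx
    act_r := fun w x _ => (cj_mul_self w.1 x).symm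
    lie_le := fun y hy => ?_
    lift := fun Θ hΘ hL => ?_
    Z_one := by rw [hZ]; simp
    Z_ker := ?_
    ker_Z := fun w hw => ?_
    Z_tan := fun c _ => ⟨c, ?_⟩
    ker_comm := fun z w hz => ?_
    fin := ?_
    unip1 := fun w hw => cj_unip w.1 hw
    unip2 := fun w hw hw1 => ?_
    ss1 := fun w hw => cj_ss w.1 hw
    ss2 := fun w hw => ss_of_cj w.1 hw }⟩
  · obtain ⟨y', hy', c, e⟩ := h.norm (M := y) fun x hx => by
      rw [← lie_skew]; exact L.neg_mem (lie_NN h hy hx)
    exact ⟨y, by rw [e]; exact L.add_mem hy' (L.smul_mem c h1), rfl⟩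
  · obtain ⟨U, hU, hi⟩ := exists_intertwiner Θ hΘ
    refine ⟨U, hU, fun s g hg => ?_, fun x _ => ?_⟩
    · have e : ∀ a, cj g a = evM s (Θ a) := fun a => cj_eq_of (by
        have := congrArg (evM s) (hi a)
        rw [map_mul, map_mul, evM_cM, ← hg] at this
        exact this)
      exact ⟨fun x hx => by rw [e]; exact hL s x hx, e⟩
    · have := congrArg tan (hi x)
      rw [tan_mul, tan_mul, hΘ, hU, tan_cM, evM_cM] at this
      show ⁅tan U, x⁆ = tan (Θ x)
      rw [Ring.lie_def]
      simp only [mul_one, mul_zero, zero_add] at this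
      rw [← this]; abel
  · rintro g ⟨s, hs⟩
    rw [hZ] at hs
    have e : cj g = 1 := AlgEquiv.ext fun a => cj_eq_of (by rw [hs]; simp)
    exact ⟨fun x hx => by rw [e]; exact hx, e⟩
  · obtain ⟨c, hc, e⟩ := scalar_of_cj (w := w.1) hw
    exact ⟨Units.mk0 c hc, by rw [hZ]; exact e⟩
  · have e : tan (1 : Matrix n n k[T;T⁻¹]) = 0 := by
      rw [← map_one (cM (k := k) (m := n)), tan_cM]
    rw [tan_smul, e, der_T, map_one]
    simp
  · obtain ⟨c, -, e⟩ := scalar_of_cj (w := z.1) hz
    refine Subtype.ext (Units.ext ?_)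
    show (z.1 : Matrix n n k) * w.1 = w.1 * z.1
    rw [e]; simp
  · obtain ⟨o⟩ := h.ne
    refine Set.Finite.of_finite_image (f := fun w : NN L => (w.1 : Matrix n n k) o o) ?_ ?_
    · refine (Polynomial.nthRootsFinset (Fintype.card n) (1 : k)).finite_toSet.subset ?_
      rintro _ ⟨w, ⟨hw, hd⟩, rfl⟩
      obtain ⟨c, -, e⟩ := scalar_of_cj (w := w.1) hw
      rw [Finset.mem_coe, Polynomial.mem_nthRootsFinset Fintype.card_pos]
      show (w.1 : Matrix n n k) o o ^ Fintype.card n = 1
      rw [e] at hd ⊢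
      simpa using hd
    · rintro w ⟨hw, -⟩ w' ⟨hw', -⟩ e
      obtain ⟨c, -, e1⟩ := scalar_of_cj (w := w.1) hw
      obtain ⟨c', -, e2⟩ := scalar_of_cj (w := w'.1) hw'
      have : c = c' := by simpa [e1, e2] using e
      exact Subtype.ext (Units.ext (by rw [e1, e2, this]))
  · obtain ⟨c, -, e⟩ := scalar_of_cj (w := w.1) hw1
    obtain ⟨j, hj⟩ := hw
    have e1 : (w.1 : Matrix n n k) - 1 = (c - 1) • 1 := by rw [e, sub_smul, one_smul]
    have hj' : ((w.1 : Matrix n n k) - 1) ^ j = 0 := hj
    rw [e1, smul_pow, one_pow, smul_eq_zero] at hj'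
    have hc : c - 1 = 0 := pow_eq_zero_iff'.1 (hj'.resolve_right one_ne_zero) |>.1
    refine Subtype.ext (Units.ext ?_)
    show (w.1 : Matrix n n k) = 1
    rw [← sub_eq_zero, e1, hc, zero_smul]

end Pool.Agent.Lib.MP_3a0263_al.R
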