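import Pool.Agent.Lib.MP_3a0263_al.R.Blue
import Pool.Agent.Lib.MP_3a0263_al.R.Basic
import Pool.Agent.Lib.MP_3a0263_al.R.Alg

namespace Pool.Agent.Lib.MP_3a0263_al.R

open Matrix

attribute [local instance 100] LieRing.ofAssociativeRing

universe u

set_option linter.unusedSectionVars false

namespace MOD2

variable {k : Type u} [Field k] {n : Type} [Fintype n] [DecidableEq n]

/-- matrices as vectors -/
def vec (B : Type*) [CommRing B] (n : Type) : Matrix n n B ≃ₗ[B] (n × n → B) where
  toFun a ij := a ij.1 ij.2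
  invFun v := Matrix.of fun i j => v (i, j)
  map_add' _ _ := rfl
  map_smul' _ _ := rfl
  left_inv _ := rfl
  right_inv _ := rfl

/-- operators on the matrix algebra as big matrices -/
noncomputable def F (B : Type*) [CommRing B] (n : Type) [Fintype n] [DecidableEq n] :
    Matrix (n × n) (n × n) B ≃ₐ[B] Module.End B (Matrix n n B) :=
  Matrix.toLinAlgEquiv'.trans ((vec B n).symm.conjAlgEquiv B)

theorem F_apply {B : Type*} [CommRing B] (Y : Matrix (n × n) (n × n) B) (a : Matrix n n B) (i j : n) :
    F B n Y a i j = ∑ kl : n × n, Y (i, j) kl * a kl.1 kl.2 := rfl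

theorem F_vec {B : Type*} [CommRing B] (Y : Matrix (n × n) (n × n) B) :
    (vec B n).toLinearMap ∘ₗ F B n Y = toLin' Y ∘ₗ (vec B n).toLinearMap := by
  ext a ij
  rfl

theorem F_map {B B' : Type*} [CommRing B] [CommRing B'] [Algebra k B] [Algebra k B'] (φ : B →ₐ[k] B')
    (Y : Matrix (n × n) (n × n) B) (a : Matrix n n B) :
    φ.mapMatrix (F B n Y a) = F B' n (φ.mapMatrix Y) (φ.mapMatrix a) := by
  ext i j
  simp [F_apply, map_sum]

theorem F_single {B : Type*} [CommRing B] (Y : Matrix (n × n) (n × n) B) (ij kl : n × n) :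
    F B n Y (single kl.1 kl.2 1) ij.1 ij.2 = Y ij kl := by
  rw [F_apply, Finset.sum_eq_single kl]
  · simp
  · intro b _ hb
    rw [single_apply_of_ne, mul_zero]
    rintro ⟨h1, h2⟩
    exact hb (Prod.ext h1.symm h2.symm)
  · simp

/-- the defining conditions -/
def Cond (L : LieSubalgebra k (Matrix n n k)) (g : Matrix (n × n) (n × n) k) : Prop :=
  (∀ a b, F k n g (a * b) = F k n g a * F k n g b) ∧ F k n g 1 = 1 ∧ ∀ x ∈ L, F k n g x ∈ L

theorem F_inv (g : GL (n × n) k) (a : Matrix n n k) :
    F k n ((g⁻¹ : GL (n × n) k) : Matrix (n × n) (n × n) k) (F k n g a) = a := by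
  rw [← Module.End.mul_apply, ← map_mul, Units.inv_mul, map_one, Module.End.one_apply]

theorem F_inv' (g : GL (n × n) k) (a : Matrix n n k) :
    F k n g (F k n ((g⁻¹ : GL (n × n) k) : Matrix (n × n) (n × n) k) a) = a := F_inv g⁻¹ a

theorem F_inj (g : GL (n × n) k) : Function.Injective (F k n g) :=
  Function.LeftInverse.injective (F_inv g)

/-- algebra automorphisms preserving `L` -/
def NN (L : LieSubalgebra k (Matrix n n k)) : Subgroup (GL (n × n) k) where
  carrier := {g | Cond L g}
  one_mem' := by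
    refine ⟨fun a b => ?_, ?_, fun x hx => ?_⟩ <;> simp only [Units.val_one, map_one, Module.End.one_apply]
    exact hx
  mul_mem' := by
    rintro g h ⟨g1, g2, g3⟩ ⟨h1, h2, h3⟩
    refine ⟨fun a b => ?_, ?_, fun x hx => ?_⟩ <;>
      simp only [Units.val_mul, map_mul, Module.End.mul_apply]
    · rw [h1, g1]
    · rw [h2, g2]
    · exact g3 _ (h3 x hx)
  inv_mem' := by
    rintro g ⟨g1, g2, g3⟩
    refine ⟨fun a b => F_inj g ?_, F_inj g ?_, fun x hx => ?_⟩
    · rw [g1, F_inv', F_inv', F_inv']
    · rw [F_inv', g2]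
    · have hs : Function.Surjective ((F k n g).restrict (p := L.toSubmodule) (q := L.toSubmodule) g3) :=
        LinearMap.injective_iff_surjective.1 fun a b e => Subtype.ext (F_inj g (congrArg Subtype.val e))
      obtain ⟨y, hy⟩ := hs ⟨x, hx⟩
      have h1 : F k n g y.1 = x := congrArg Subtype.val hy
      rw [← h1, F_inv]
      exact y.2

/-- the action of one element -/
noncomputable def act1 {L : LieSubalgebra k (Matrix n n k)} (w : NN L) : Matrix n n k ≃ₐ[k] Matrix n n k :=
  AlgEquiv.ofLinearEquiv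
    { F k n (w : GL (n × n) k) with
      invFun := F k n (((w : GL (n × n) k)⁻¹ : GL (n × n) k) : Matrix (n × n) (n × n) k)
      left_inv := F_inv _
      right_inv := F_inv' _ } w.2.2.1 w.2.1

theorem act1_apply {L : LieSubalgebra k (Matrix n n k)} (w : NN L) (a : Matrix n n k) :
    act1 w a = F k n (w : GL (n × n) k) a := rfl

theorem act1_lin {L : LieSubalgebra k (Matrix n n k)} (w : NN L) :
    (act1 w).toLinearMap = F k n (w : GL (n × n) k) := LinearMap.ext fun _ => rfl

/-- the action -/
noncomputable def act (L : LieSubalgebra k (Matrix n n k)) : NN L →* (Matrix n n k ≃ₐ[k] Matrix n n k) where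
  toFun := act1
  map_one' := AlgEquiv.ext fun a => by
    rw [act1_apply]; simp
  map_mul' v w := AlgEquiv.ext fun a => by
    rw [AlgEquiv.mul_apply, act1_apply, act1_apply, act1_apply, ← Module.End.mul_apply, ← map_mul]
    rfl

theorem act_eq_one {L : LieSubalgebra k (Matrix n n k)} {w : NN L} (h : act L w = 1) : w = 1 := by
  refine Subtype.ext (Units.ext ((F k n).injective ?_))
  rw [← act1_lin, show act1 w = 1 from h]
  simp only [OneMemClass.coe_one, Units.val_one, map_one]
  rfl

/-- the adjoint representation -/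
noncomputable def rr (k : Type u) [Field k] (n : Type) [Fintype n] [DecidableEq n] :
    Matrix n n k →ₗ[k] Matrix (n × n) (n × n) k :=
  (F k n).symm.toLinearMap ∘ₗ (LieAlgebra.ad k (Matrix n n k) : Matrix n n k →ₗ[k] _)

theorem F_rr (x : Matrix n n k) : F k n (rr k n x) = adm x := (F k n).apply_symm_apply _

theorem F_lie (Y Z : Matrix (n × n) (n × n) k) : F k n ⁅Y, Z⁆ = ⁅F k n Y, F k n Z⁆ := by
  simp only [Ring.lie_def, map_sub, map_mul]

/-- derivations of the matrix algebra are inner -/
theorem inner_der [Nonempty n] (D : Module.End k (Matrix n n k))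
    (hD : ∀ a b, D (a * b) = a * D b + D a * b) : ∃ M : Matrix n n k, ∀ a, D a = ⁅M, a⁆ := by
  obtain ⟨o⟩ := ‹Nonempty n›
  refine ⟨∑ i, D (single i o 1) * single o i 1, fun a => ?_⟩
  have h1 : ∑ i, D (a * single i o 1) * single o i 1 =
      a * ∑ i, D (single i o 1) * single o i 1 + D a := by
    simp only [hD, add_mul, Finset.sum_add_distrib, Finset.mul_sum, mul_assoc, single_mul_single_same,
      mul_one]
    rw [← Finset.mul_sum, ← Finset.mul_sum, sum_single_one, mul_one]
  have h2 : ∀ a : Matrix n n k, ∑ i, D (a * single i o 1) * single o i 1 =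
      (∑ i, D (single i o 1) * single o i 1) * a := by
    intro a
    induction a using Matrix.induction_on' with
    | h_zero => simp
    | h_add a b ha hb =>
      rw [mul_add, ← ha, ← hb, ← Finset.sum_add_distrib]
      exact Finset.sum_congr rfl fun i _ => by rw [add_mul, map_add, add_mul]
    | h_std_basis i j c =>
      rw [Finset.sum_mul, Finset.sum_eq_single j, Finset.sum_eq_single i]
      · rw [mul_assoc, single_mul_single_same, single_mul_single_same, mul_one, one_mul]
        have e1 : single i o c = c • single i o (1 : k) := by simp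
        have e2 : single o j c = c • single o j (1 : k) := by simp
        rw [e1, e2, map_smul, smul_mul_assoc, mul_smul_comm]
      · intro l _ hl
        rw [mul_assoc, single_mul_single_of_ne _ _ _ _ hl, mul_zero]
      · simp
      · intro l _ hl
        rw [single_mul_single_of_ne _ _ _ _ hl.symm, map_zero, zero_mul]
      · simp
  rw [Ring.lie_def, ← h2, h1]
  abel

/-- constant matrices over a commutative algebra -/
noncomputable def cB (B : Type*) [CommRing B] [Algebra k B] {m : Type} [Fintype m] [DecidableEq m] :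
    Matrix m m k →ₐ[k] Matrix m m B := (Algebra.ofId k B).mapMatrix

theorem map_cB {B B' : Type*} [CommRing B] [CommRing B'] [Algebra k B] [Algebra k B'] (φ : B →ₐ[k] B')
    {m : Type} [Fintype m] [DecidableEq m] (a : Matrix m m k) : φ.mapMatrix (cB B a) = cB B' a := by
  ext i j; simp [cB, Algebra.ofId_apply]

theorem cB_self {m : Type} [Fintype m] [DecidableEq m] (a : Matrix m m k) : cB k a = a := by
  ext i j; simp [cB]

theorem F_cB {B : Type*} [CommRing B] [Algebra k B] (Y : Matrix (n × n) (n × n) k) (a : Matrix n n k) :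
    F B n (cB B Y) (cB B a) = cB B (F k n Y a) := (F_map (Algebra.ofId k B) Y a).symm

/-- the multiplicativity defect -/
noncomputable def E1 {B : Type*} [CommRing B] [Algebra k B] (a b : Matrix n n k)
    (Y : Matrix (n × n) (n × n) B) : Matrix n n B :=
  F B n Y (cB B (a * b)) - F B n Y (cB B a) * F B n Y (cB B b)

/-- the unit defect -/
noncomputable def E2 {B : Type*} [CommRing B] (Y : Matrix (n × n) (n × n) B) : Matrix n n B :=
  F B n Y 1 - 1

/-- the membership defect -/
noncomputable def E3 {B : Type*} [CommRing B] [Algebra k B] (π : Module.End k (Matrix n n k))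
    (x : Matrix n n k) (Y : Matrix (n × n) (n × n) B) : Matrix n n B :=
  F B n (cB B ((F k n).symm π)) (F B n Y (cB B x)) - F B n Y (cB B x)

section maps

variable {B B' : Type*} [CommRing B] [CommRing B'] [Algebra k B] [Algebra k B'] (φ : B →ₐ[k] B')

theorem map_E1 (a b : Matrix n n k) (Y : Matrix (n × n) (n × n) B) :
    φ.mapMatrix (E1 a b Y) = E1 a b (φ.mapMatrix Y) := by
  simp only [E1, map_sub, map_mul φ.mapMatrix, F_map, map_cB]

theorem map_E2 (Y : Matrix (n × n) (n × n) B) : φ.mapMatrix (E2 Y) = E2 (φ.mapMatrix Y) := by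
  simp only [E2, map_sub, F_map, map_one]

theorem map_E3 (π : Module.End k (Matrix n n k)) (x : Matrix n n k) (Y : Matrix (n × n) (n × n) B) :
    φ.mapMatrix (E3 π x Y) = E3 π x (φ.mapMatrix Y) := by
  simp only [E3, map_sub, F_map, map_cB]

end maps

variable {L : LieSubalgebra k (Matrix n n k)} {π : Matrix n n k →ₗ[k] Matrix n n k}

theorem cond_iff (h : Rich L π) (g : Matrix (n × n) (n × n) k) :
    Cond L g ↔ (∀ a b : Matrix n n k, E1 a b g = 0) ∧ E2 g = 0 ∧ ∀ x ∈ L, E3 π x g = 0 := by
  simp only [Cond, E1, E2, E3, cB_self, sub_eq_zero, AlgEquiv.apply_symm_apply]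
  refine and_congr Iff.rfl (and_congr Iff.rfl (forall₂_congr fun x _ => ⟨fun e => h.left _ e, fun e => ?_⟩))
  rw [← e]; exact h.mem _

theorem vanish_of {S : Set (GL (n × n) k)} {E : Matrix n n (MvPolynomial ((n × n) × (n × n)) k)}
    (h : ∀ g ∈ S, (MvPolynomial.aeval (entries g) : _ →ₐ[k] k).mapMatrix E = 0) (i j : n) :
    E i j ∈ vanish S :=
  mem_vanish.2 fun g hg => congrFun (congrFun (h g hg) i) j

theorem van1 (h : Rich L π) (a b : Matrix n n k) (i j : n) :
    E1 a b (gen k (n × n)) i j ∈ vanish (NN L : Set (GL (n × n) k)) :=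
  vanish_of (fun g hg => by rw [map_E1, aeval_entries_gen]; exact ((cond_iff h g).1 hg).1 a b) i j

theorem van2 (h : Rich L π) (i j : n) : E2 (gen k (n × n)) i j ∈ vanish (NN L : Set (GL (n × n) k)) :=
  vanish_of (fun g hg => by rw [map_E2, aeval_entries_gen]; exact ((cond_iff h g).1 hg).2.1) i j

theorem van3 (h : Rich L π) {x : Matrix n n k} (hx : x ∈ L) (i j : n) :
    E3 π x (gen k (n × n)) i j ∈ vanish (NN L : Set (GL (n × n) k)) :=
  vanish_of (fun g hg => by rw [map_E3, aeval_entries_gen]; exact ((cond_iff h g).1 hg).2.2 x hx) i j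

theorem closed (h : Rich L π) : IsZClosed (NN L : Set (GL (n × n) k)) := by
  intro g hg
  refine (cond_iff h g).2 ⟨fun a b => ?_, ?_, fun x hx => ?_⟩
  · rw [← aeval_entries_gen g, ← map_E1]
    ext i j; exact hg _ (van1 h a b i j)
  · rw [← aeval_entries_gen g, ← map_E2]
    ext i j; exact hg _ (van2 h i j)
  · rw [← aeval_entries_gen g, ← map_E3]
    ext i j; exact hg _ (van3 h hx i j)

theorem eps_inj {m : Type} [Fintype m] [DecidableEq m] {a : Matrix m m k}
    (h : (DualNumber.eps : DualNumber k) • cB (DualNumber k) a = 0) : a = 0 := by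
  ext i j
  have := congrArg TrivSqZeroExt.snd (congrFun (congrFun h i) j)
  simpa [cB, Algebra.ofId_apply, TrivSqZeroExt.algebraMap_eq_inl] using this

theorem lie_le (h : Rich L π) {y : Matrix (n × n) (n × n) k} (hy : y ∈ lie (NN L)) :
    ∃ x ∈ L, rr k n x = y := by
  have := h.ne
  set Y : Matrix (n × n) (n × n) (DualNumber k) := 1 + (DualNumber.eps : DualNumber k) • cB _ y with hY
  have hφ : ∀ E : Matrix n n (MvPolynomial ((n × n) × (n × n)) k),
      (∀ i j, E i j ∈ vanish (NN L : Set (GL (n × n) k))) →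
      (MvPolynomial.aeval fun ij : (n × n) × (n × n) => Y ij.1 ij.2 : _ →ₐ[k] DualNumber k).mapMatrix E
        = 0 := by
    intro E hE
    ext1 i j
    have h1 := hy _ (hE i j)
    have h2 : (fun ij : (n × n) × (n × n) => Y ij.1 ij.2) = fun ij =>
        (TrivSqZeroExt.inl ((1 : Matrix (n × n) (n × n) k) ij.1 ij.2) + TrivSqZeroExt.inr (y ij.1 ij.2) :
          DualNumber k) := by
      funext ij
      rw [hY, ← map_one (cB (k := k) (DualNumber k))]
      generalize (1 : Matrix (n × n) (n × n) k) = o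
      ext <;> simp [cB, Algebra.ofId_apply, TrivSqZeroExt.algebraMap_eq_inl]
    rw [h2]
    exact h1
  have hFY : ∀ a : Matrix n n k, F _ n Y (cB _ a) =
      cB _ a + (DualNumber.eps : DualNumber k) • cB _ (F k n y a) := fun a => by
    rw [hY, map_add, map_one, map_smul, LinearMap.add_apply, LinearMap.smul_apply, F_cB,
      Module.End.one_apply]
  have hD : ∀ a b, F k n y (a * b) = a * F k n y b + F k n y a * b := by
    intro a b
    have h1 := hφ _ (van1 h a b)
    rw [map_E1, aeval_gen, E1, hFY, hFY, hFY] at h1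
    rw [← sub_eq_zero]
    apply eps_inj
    rw [← h1]
    simp only [map_sub, map_add, map_mul, smul_sub, smul_add, add_mul, mul_add, smul_mul_assoc,
      mul_smul_comm, smul_smul, DualNumber.eps_mul_eps, zero_smul]
    abel
  have hL : ∀ x ∈ L, F k n y x ∈ L := by
    intro x hx
    have h1 := hφ _ (van3 h hx)
    rw [map_E3, aeval_gen, E3, hFY, map_add, map_smul, F_cB, F_cB, AlgEquiv.apply_symm_apply,
      h.left x hx] at h1
    have h2 : π (F k n y x) - F k n y x = 0 := by
      apply eps_inj
      rw [← h1, map_sub, smul_sub]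
      abel
    rw [← sub_eq_zero.1 h2]
    exact h.mem _
  obtain ⟨M, hM⟩ := inner_der (F k n y) hD
  obtain ⟨z, hz, c, hc⟩ := h.norm (M := M) fun x hx => by
    rw [← lie_skew, ← hM]; exact L.neg_mem (hL x hx)
  refine ⟨z, hz, (F k n).injective ?_⟩
  rw [F_rr]
  refine LinearMap.ext fun a => ?_
  rw [hM, hc, adm_apply, add_lie, smul_lie, one_lie', smul_zero, add_zero]

theorem lift (Θ : Matrix n n k →ₐ[k] Matrix n n (LaurentPolynomial k)) (h1 : ∀ a, evM 1 (Θ a) = a)
    (h2 : ∀ s, ∀ x ∈ L, evM s (Θ x) ∈ L) :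
    ∃ U : Matrix (n × n) (n × n) (LaurentPolynomial k), evM 1 U = 1 ∧
      (∀ s (g : GL (n × n) k), (g : Matrix (n × n) (n × n) k) = evM s U →
        ∃ hg : g ∈ NN L, ∀ a, act L ⟨g, hg⟩ a = evM s (Θ a)) ∧
      ∀ x ∈ L, ⁅tan U, rr k n x⁆ = rr k n (tan (Θ x)) := by
  set U : Matrix (n × n) (n × n) (LaurentPolynomial k) :=
    Matrix.of fun ij kl => Θ (single kl.1 kl.2 1) ij.1 ij.2 with hU
  have key : ∀ (Y : Matrix (n × n) (n × n) k) (D : Module.End k (Matrix n n k)),
      (∀ ij kl : n × n, Y ij kl = D (single kl.1 kl.2 1) ij.1 ij.2) → F k n Y = D := by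
    intro Y D hY
    have : Y = (F k n).symm D := by
      ext ij kl
      rw [hY, ← F_single ((F k n).symm D), AlgEquiv.apply_symm_apply]
    rw [this, AlgEquiv.apply_symm_apply]
  have hev : ∀ s a, F k n (evM s U) a = evM s (Θ a) := fun s a => by
    rw [key (evM s U) ((evM s).comp Θ).toLinearMap fun ij kl => rfl]
    rfl
  have htan : ∀ a, F k n (tan U) a = tan (Θ a) := fun a => by
    rw [key (tan U) (tanL ∘ₗ Θ.toLinearMap) fun ij kl => rfl]
    rfl
  refine ⟨U, (F k n).injective (LinearMap.ext fun a => ?_), fun s g hg => ⟨⟨fun a b => ?_, ?_, fun x hx => ?_⟩,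
    fun a => ?_⟩, fun x _ => (F k n).injective (LinearMap.ext fun a => ?_)⟩
  · rw [hev, h1, map_one, Module.End.one_apply]
  · rw [hg, hev, hev, hev, map_mul, map_mul]
  · rw [hg, hev, map_one, map_one]
  · rw [hg, hev]; exact h2 s x hx
  · change F k n (g : Matrix (n × n) (n × n) k) a = _
    rw [hg, hev]
  · rw [F_lie, F_rr, F_rr, Ring.lie_def, LinearMap.sub_apply, Module.End.mul_apply, Module.End.mul_apply,
      htan, htan]
    simp only [adm_apply, Ring.lie_def, map_sub, map_mul, ← tanL_apply]
    simp only [tanL_apply, tan_mul, h1]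
    noncomm_ring

theorem ss_of_eig {V : Type*} [AddCommGroup V] [Module k V] [FiniteDimensional k V] (f : Module.End k V)
    (h : (⨆ μ : k, f.eigenspace μ) = ⊤) : f.IsSemisimple := by
  classical
  set S := f.finite_hasEigenvalue.toFinset with hS
  refine Module.End.isSemisimple_of_squarefree_aeval_eq_zero
    (p := ∏ μ ∈ S, (Polynomial.X - Polynomial.C μ))
    (Polynomial.separable_prod_X_sub_C_iff'.2 fun _ _ _ _ e => e).squarefree ?_
  rw [← LinearMap.ker_eq_top, eq_top_iff, ← h]
  refine iSup_le fun μ v hv => ?_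
  by_cases h0 : v = 0
  · rw [h0]; exact Submodule.zero_mem _
  have hμ : μ ∈ S := by
    rw [hS, Set.Finite.mem_toFinset]
    exact Module.End.hasEigenvalue_of_hasEigenvector ⟨hv, h0⟩
  rw [LinearMap.mem_ker, ← Finset.prod_erase_mul _ _ hμ, map_mul, Module.End.mul_apply]
  have : (Polynomial.aeval f (Polynomial.X - Polynomial.C μ)) v = 0 := by
    rw [map_sub, Polynomial.aeval_X, Polynomial.aeval_C, LinearMap.sub_apply,
      Module.End.mem_eigenspace_iff.1 hv, Module.algebraMap_end_apply, sub_self]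
  rw [this, map_zero]

theorem eq_one_of_pts {g : GL (n × n) k} (hg : g ∈ pts (1 : Matrix (n × n) (n × n) (LaurentPolynomial k))) :
    g = 1 := by
  obtain ⟨s, hs⟩ := hg
  rw [map_one] at hs
  exact Units.ext hs

theorem rr_one : rr k n 1 = 0 := (F k n).injective <| by
  rw [F_rr, map_zero]
  exact LinearMap.ext fun a => one_lie' a

/-- the model -/
noncomputable def model (h : Rich L π) (h1 : (1 : Matrix n n k) ∉ L) : Model L (n × n) where
  r := rr k n
  N := NN L
  act := act L
  Z := 1
  r_lie x _ y _ := (F k n).injective <| by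
    rw [F_lie, F_rr, F_rr, F_rr]
    exact (LieAlgebra.ad k (Matrix n n k)).map_lie x y
  r_inj x hx e := by
    have h2 : adm x = 0 := by rw [← F_rr, e, map_zero]
    obtain ⟨c, hc⟩ := h.cent (z := x) fun y _ => by
      rw [← lie_skew, ← adm_apply, h2, LinearMap.zero_apply, neg_zero]
    by_cases h0 : c = 0
    · rw [hc, h0, zero_smul]
    · exfalso
      apply h1
      have := L.smul_mem c⁻¹ hx
      rwa [hc, smul_smul, inv_mul_cancel₀ h0, one_smul] at this
  closed := closed h
  act_mem w x hx := w.2.2.2 x hx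
  act_r w x _ := (F k n).injective <| by
    rw [map_mul, map_mul, F_rr, F_rr, ← act1_lin]
    refine LinearMap.ext fun a => ?_
    change act1 w ⁅x, a⁆ = ⁅act1 w x, act1 w a⁆
    simp only [Ring.lie_def, map_sub, map_mul]
  lie_le _ hy := lie_le h hy
  lift := lift
  Z_one := map_one _
  Z_ker g hg := by
    rw [eq_one_of_pts hg]
    exact ⟨(NN L).one_mem, map_one (act L)⟩
  ker_Z w hw := by
    rw [act_eq_one hw]
    exact one_mem_pts (map_one _)
  Z_tan c _ := ⟨0, by rw [map_smul, rr_one, smul_zero, zero_smul]⟩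
  ker_comm z w hz := by rw [act_eq_one hz, one_mul, mul_one]
  fin := (Set.finite_singleton 1).subset fun w hw => act_eq_one hw.1
  unip1 w hw := by
    have := hw.map (F k n)
    rwa [map_sub, map_one, ← act1_lin] at this
  unip2 w _ hw := act_eq_one hw
  ss1 w hw := (LinearEquiv.isSemisimple_iff _ _ (vec k n) (F_vec _)).2 hw
  ss2 w hw := (LinearEquiv.isSemisimple_iff _ _ (vec k n) (F_vec _)).1 (ss_of_eig _ hw)

end MOD2

theorem st_mod2 (k : Type u) [Field k] [IsAlgClosed k] (p : ℕ) [Fact p.Prime] [CharP k p] : S_mod2 k p := by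
  intro n _ _ L π h h1
  refine ⟨MOD2.model h h1, MOD2.rr_one, fun x => (MOD2.F k n).injective ?_⟩
  change MOD2.F k n (MOD2.rr k n (x ^ p)) = MOD2.F k n (MOD2.rr k n x ^ p)
  rw [map_pow (MOD2.F k n), MOD2.F_rr, MOD2.F_rr]
  exact LinearMap.ext fun a => (adm_pow_p p x a).symm

end Pool.Agent.Lib.MP_3a0263_al.R
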