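import Pool.Agent.Lib.MP_3a0263_al.R.Blue
import Pool.Agent.Lib.MP_3a0263_al.R.Basic

namespace Pool.Agent.Lib.MP_3a0263_al.R

open Matrix

attribute [local instance 100] LieRing.ofAssociativeRing

universe u

namespace Nil0

variable {k : Type u} [Field k] {n : Type} [Fintype n] [DecidableEq n]
variable {L : LieSubalgebra k (Matrix n n k)}

theorem aut_pow {σ : Module.End k (Matrix n n k)} (hσ : IsAut L σ) {x y : Matrix n n k}
    (hx : x ∈ L) (hy : y ∈ L) (j : ℕ) : σ ((adm x ^ j) y) = (adm (σ x) ^ j) (σ y) := by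
  induction j with
  | zero => simp
  | succ j ih => rw [adm_pow_succ, adm_pow_succ, hσ.lie x hx _ (adm_pow_mem hx hy j), ih]

theorem lie_pow_mul {x b z : Matrix n n k} (hb : ⁅x, b⁆ = 1) (hz : ⁅x, z⁆ = 0) (j : ℕ) :
    ⁅x, b ^ (j + 1) * z⁆ = ((j + 1 : ℕ) : k) • (b ^ j * z) := by
  have der : ∀ u v : Matrix n n k, ⁅x, u * v⁆ = ⁅x, u⁆ * v + u * ⁅x, v⁆ := fun u v => by
    simp only [Ring.lie_def]; noncomm_ring
  induction j with
  | zero => rw [zero_add, pow_one, der, hb, hz]; simp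
  | succ j ih =>
    rw [pow_succ' b (j + 1), mul_assoc, der, hb, ih, one_mul, mul_smul_comm, ← mul_assoc,
      ← pow_succ', Nat.cast_succ (j + 1), add_smul, one_smul, add_comm]

theorem adm_pow_fact {x b z : Matrix n n k} (hb : ⁅x, b⁆ = 1) (hz : ⁅x, z⁆ = 0) (j : ℕ) :
    (adm x ^ j) (b ^ j * z) = (j.factorial : k) • z := by
  induction j with
  | zero => simp
  | succ j ih =>
    rw [adm_pow_succ', lie_pow_mul hb hz, map_smul, ih, smul_smul, Nat.factorial_succ,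
      Nat.cast_mul]

end Nil0

open Nil0 in
theorem st_nil (k : Type u) [Field k] [IsAlgClosed k] (p : ℕ) [Fact p.Prime] [CharP k p] :
    S_nil k p := by
  intro n _ _ L π hR Φ _ R
  have hp : p.Prime := Fact.out
  by_cases hN : Nil p R.toFrame
  · exact Or.inl hN
  right
  unfold Nil at hN
  push Not at hN
  obtain ⟨σ, hσ, β, hne⟩ := hN
  have he : R.e β ∈ L := R.e_mem β
  have hx : σ (R.e β) ∈ L := hσ.mem _ he
  obtain ⟨c, hc⟩ : ∃ c : k, σ (R.e β) ^ p = c • 1 := by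
    refine hR.cent fun y hy => ?_
    obtain ⟨y', hy', rfl⟩ := hσ.surj y hy
    obtain ⟨c, hc⟩ := R.pow β
    rw [← lie_skew, ← adm_pow_p, ← aut_pow hσ he hy', adm_pow_p, hc, smul_lie, one_lie',
      smul_zero, map_zero, neg_zero]
  have hc0 : c ≠ 0 := by
    rintro rfl
    exact hne (by rw [hc, zero_smul])
  obtain ⟨a, ha⟩ := IsAlgClosed.exists_pow_nat_eq c hp.pos
  have ha0 : a ≠ 0 := by
    rintro rfl
    exact hc0 (by rw [← ha, zero_pow hp.ne_zero])
  have := hR.ne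
  have : CharP (Matrix n n k) p := Matrix.charP p
  have hnil : IsNilpotent (σ (R.e β) - a • (1 : Matrix n n k)) := by
    refine ⟨p, ?_⟩
    rw [sub_pow_char_of_commute p ((Commute.one_right _).smul_right a), hc, smul_pow, one_pow, ha,
      sub_self]
  obtain ⟨M, hM⟩ := exists_lie_of_nilp hnil
  rw [lie_sub, lie_smul, lie_one', smul_zero, sub_zero] at hM
  obtain ⟨d, hd⟩ : ∃ d : R.t, R.wt β d ≠ 0 := by
    by_contra h
    push Not at h
    exact R.wt_ne β (LinearMap.ext h)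
  have hd1 : ⁅σ (diagonal d.1), σ (R.e β)⁆ = R.wt β d • σ (R.e β) := by
    rw [← hσ.lie _ (R.t_mem d) _ he, R.lie_e, map_smul]
  obtain ⟨b, hb⟩ : ∃ b : Matrix n n k, ⁅σ (R.e β), b⁆ = 1 := by
    refine ⟨a⁻¹ • (M - (R.wt β d)⁻¹ • σ (diagonal d.1)), ?_⟩
    rw [← lie_skew, smul_lie, sub_lie, smul_lie, hM, hd1, smul_smul, inv_mul_cancel₀ hd, one_smul,
      sub_sub_cancel_left, smul_neg, neg_neg, smul_smul, inv_mul_cancel₀ ha0, one_smul]
  refine ⟨⟨_, _, hb⟩, β, fun z hz hez => ?_⟩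
  have hz' : ⁅σ (R.e β), σ z⁆ = 0 := by rw [← hσ.lie _ he _ hz, hez, map_zero]
  have hf : ((p - 1).factorial : k) ≠ 0 := by
    rw [Ne, CharP.cast_eq_zero_iff k p, hp.dvd_factorial]
    have := hp.pos
    omega
  have h1 := congrArg π (adm_pow_fact hb hz' (p - 1))
  rw [hR.equi_pow hx, map_smul, hR.left _ (hσ.mem _ hz)] at h1
  obtain ⟨w, hw, hwe⟩ := hσ.surj _ (hR.mem (b ^ (p - 1) * σ z))
  refine ⟨((p - 1).factorial : k)⁻¹ • w, L.smul_mem _ hw, ?_⟩
  rw [← sub_eq_zero]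
  refine hσ.inj _ (L.sub_mem (adm_pow_mem he (L.smul_mem _ hw) _) hz) ?_
  rw [map_sub, aut_pow hσ he (L.smul_mem _ hw), map_smul, map_smul, hwe, h1, smul_smul,
    inv_mul_cancel₀ hf, one_smul, sub_self]

end Pool.Agent.Lib.MP_3a0263_al.R
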