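import Pool.Agent.Lib.MP_3a0263_al.R.Blue
import Pool.Agent.Lib.MP_3a0263_al.R.Basic

namespace Pool.Agent.Lib.MP_3a0263_al.R

open Matrix

attribute [local instance 100] LieRing.ofAssociativeRing

universe u

set_option linter.unusedSectionVars false
set_option linter.unusedVariables false

namespace Odd1B

variable {k : Type u} [Field k] {n : Type} [Fintype n] [DecidableEq n]
variable {L : LieSubalgebra k (Matrix n n k)} {π : Matrix n n k →ₗ[k] Matrix n n k}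
variable {t : Submodule k (n → k)}

theorem eig_split {V : Type*} [AddCommGroup V] [Module k V] (D : V →ₗ[k] V) {U W : V}
    {α β θ : k} (hU : D U = α • U) (hW : D W = β • W) (hne : α ≠ β)
    (h : D (U + W) = θ • (U + W)) :
    (θ = α ∧ W = 0) ∨ (θ = β ∧ U = 0) ∨ (U = 0 ∧ W = 0) := by
  have h1 : (α - θ) • U + (β - θ) • W = 0 := by
    rw [map_add, hU, hW, smul_add] at h
    rw [sub_smul, sub_smul]
    have := sub_eq_zero.2 h
    rw [← this]; abel
  have h2 : (α - θ) • α • U + (β - θ) • β • W = 0 := by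
    have := congrArg D h1
    rwa [map_add, map_smul, map_smul, hU, hW, map_zero] at this
  have h3 : ((α - β) * (α - θ)) • U = 0 := by
    have e : ((α - β) * (α - θ)) • U = ((α - θ) • α • U + (β - θ) • β • W)
        - β • ((α - θ) • U + (β - θ) • W) := by module
    rw [e, h1, h2, smul_zero, sub_zero]
  have h4 : ((β - α) * (β - θ)) • W = 0 := by
    have e : ((β - α) * (β - θ)) • W = ((α - θ) • α • U + (β - θ) • β • W)
        - α • ((α - θ) • U + (β - θ) • W) := by module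
    rw [e, h1, h2, smul_zero, sub_zero]
  have n1 : α - β ≠ 0 := sub_ne_zero.2 hne
  have n2 : β - α ≠ 0 := sub_ne_zero.2 hne.symm
  rcases smul_eq_zero.1 h3 with h5 | h5
  · have e1 : θ = α := (sub_eq_zero.1 ((mul_eq_zero.1 h5).resolve_left n1)).symm
    rcases smul_eq_zero.1 h4 with h6 | h6
    · have e2 : θ = β := (sub_eq_zero.1 ((mul_eq_zero.1 h6).resolve_left n2)).symm
      exact absurd (e1.symm.trans e2) hne
    · exact Or.inl ⟨e1, h6⟩
  · rcases smul_eq_zero.1 h4 with h6 | h6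
    · exact Or.inr (Or.inl ⟨(sub_eq_zero.1 ((mul_eq_zero.1 h6).resolve_left n2)).symm, h5⟩)
    · exact Or.inr (Or.inr ⟨h5, h6⟩)

theorem smul_of_le_one {S : Submodule k (Matrix n n k)} (hS : Module.finrank k S ≤ 1)
    {f v : Matrix n n k} (hf : f ∈ S) (hv : v ∈ S) (h0 : f ≠ 0) : ∃ c : k, v = c • f := by
  obtain ⟨w, hw⟩ := finrank_le_one_iff.1 hS
  obtain ⟨c1, h1⟩ := hw ⟨f, hf⟩
  obtain ⟨c2, h2⟩ := hw ⟨v, hv⟩
  have e1 : c1 • (w : Matrix n n k) = f := congrArg Subtype.val h1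
  have e2 : c2 • (w : Matrix n n k) = v := congrArg Subtype.val h2
  have hc : c1 ≠ 0 := fun e => h0 (by rw [← e1, e, zero_smul])
  refine ⟨c2 * c1⁻¹, ?_⟩
  rw [← e1, ← e2, smul_smul, mul_assoc, inv_mul_cancel₀ hc, mul_one]

theorem line_of_span (D : Matrix n n k →ₗ[k] Matrix n n k) {u w z : Matrix n n k} {α β θ : k}
    (hu : D u = α • u) (hw : D w = β • w) (hne : α ≠ β)
    (hz : z ∈ Submodule.span k ({u, w} : Set (Matrix n n k))) (h0 : z ≠ 0) (h : D z = θ • z) :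
    (θ = α ∧ ∃ s : k, z = s • u) ∨ (θ = β ∧ ∃ s : k, z = s • w) := by
  obtain ⟨s, r, rfl⟩ := Submodule.mem_span_pair.1 hz
  have h1 : D (s • u) = α • s • u := by rw [map_smul, hu, smul_comm]
  have h2 : D (r • w) = β • r • w := by rw [map_smul, hw, smul_comm]
  rcases eig_split D h1 h2 hne h with ⟨e, e'⟩ | ⟨e, e'⟩ | ⟨e, e'⟩
  · exact Or.inl ⟨e, s, by rw [e', add_zero]⟩
  · exact Or.inr ⟨e, r, by rw [e', zero_add]⟩
  · exact absurd (by rw [e, e', add_zero]) h0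

theorem smul_of_line {u f v : Matrix n n k} {s r : k} (hf : f = s • u) (hv : v = r • u)
    (h0 : f ≠ 0) : ∃ c : k, v = c • f := by
  have hc : s ≠ 0 := fun e => h0 (by rw [hf, e, zero_smul])
  exact ⟨r * s⁻¹, by rw [hf, hv, smul_smul, mul_assoc, inv_mul_cancel₀ hc, mul_one]⟩

/-- the shape of a weight space -/
def Shape (S : Submodule k (Matrix n n k)) (D : Matrix n n k →ₗ[k] Matrix n n k) : Prop :=
  Module.finrank k S ≤ 1 ∨ ∃ x y : Matrix n n k, ∃ ξ η : k, ξ ≠ η ∧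
    D x = ξ • x ∧ D y = η • y ∧ S = Submodule.span k {x, y}

theorem three {S : Submodule k (Matrix n n k)} {D : Matrix n n k →ₗ[k] Matrix n n k}
    (hS : Shape S D) {f g v : Matrix n n k} {φ ψ θ : k} (hf : f ∈ S) (hg : g ∈ S) (hv : v ∈ S)
    (f0 : f ≠ 0) (g0 : g ≠ 0) (v0 : v ≠ 0) (ef : D f = φ • f) (eg : D g = ψ • g)
    (ev : D v = θ • v) (hne : φ ≠ ψ) : (∃ c : k, v = c • f) ∨ θ = ψ := by
  rcases hS with hS | ⟨u, w, α, β, hαβ, hu, hw, rfl⟩
  · exact Or.inl (smul_of_le_one hS hf hv f0)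
  · rcases line_of_span D hu hw hαβ hf f0 ef with ⟨a1, s, a2⟩ | ⟨a1, s, a2⟩ <;>
    rcases line_of_span D hu hw hαβ hg g0 eg with ⟨b1, s', b2⟩ | ⟨b1, s', b2⟩ <;>
    rcases line_of_span D hu hw hαβ hv v0 ev with ⟨c1, s'', c2⟩ | ⟨c1, s'', c2⟩
    · exact Or.inl (smul_of_line a2 c2 f0)
    · exact absurd (a1.trans b1.symm) hne
    · exact Or.inl (smul_of_line a2 c2 f0)
    · exact Or.inr (c1.trans b1.symm)
    · exact Or.inr (c1.trans b1.symm)
    · exact Or.inl (smul_of_line a2 c2 f0)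
    · exact absurd (a1.trans b1.symm) hne
    · exact Or.inl (smul_of_line a2 c2 f0)

theorem two_ne (p : ℕ) [Fact p.Prime] [CharP k p] (hp : p ≠ 2) : (2 : k) ≠ 0 := by
  intro h
  have h2 : ((2 : ℕ) : k) = 0 := by exact_mod_cast h
  rw [CharP.cast_eq_zero_iff k p] at h2
  exact hp ((Nat.prime_dvd_prime_iff_eq Fact.out Nat.prime_two).1 h2)

theorem partner [IsAlgClosed k] (p : ℕ) [Fact p.Prime] [CharP k p] (hj : S_jm k) (hR : Rich L π)
    (hD : Diag L t) {γ : t →ₗ[k] k} (hγ : γ ≠ 0) {x : Matrix n n k} (hx : x ∈ wsp L t γ) {c : k}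
    (hc : x ^ p = c • 1) : ∃ f ∈ wsp L t (-γ), ⁅x, ⁅x, f⁆⁆ = (-2 : k) • x := by
  haveI := hR.ne
  obtain ⟨c0, h0⟩ := IsAlgClosed.exists_pow_nat_eq c (Fact.out : p.Prime).pos
  have hcomm : Commute x (c0 • (1 : Matrix n n k)) := (Commute.one_right x).smul_right c0
  have hnil : IsNilpotent (x - c0 • (1 : Matrix n n k)) :=
    ⟨p, by rw [sub_pow_char_of_commute p hcomm, hc, smul_pow, one_pow, h0, sub_self]⟩
  obtain ⟨N, hN⟩ := hj n _ hnil
  have e : ∀ M : Matrix n n k, ⁅x - c0 • (1 : Matrix n n k), M⁆ = ⁅x, M⁆ := fun M => by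
    rw [sub_lie, smul_lie, one_lie', smul_zero, sub_zero]
  rw [e, e] at hN
  have h1 : comp t γ ⁅x, ⁅x, N⁆⁆ = ⁅x, ⁅x, comp t (-γ) N⁆⁆ := by
    have := comp_lie hx.2 (γ + -γ) ⁅x, N⁆
    rw [comp_lie hx.2 (-γ) N, add_neg_cancel, add_zero] at this
    exact this
  rw [hN, map_smul, map_sub, map_smul, comp_of_mem hx.2, comp_of_ne one_mem_wA hγ.symm,
    smul_zero, sub_zero] at h1
  refine ⟨π (comp t (-γ) N), hR.pi_wA hD (comp_mem_wA _ _), ?_⟩
  rw [← hR.equi x hx.1, ← hR.equi x hx.1, ← h1, map_smul, hR.left x hx.1]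

section

variable {p : ℕ} [Fact p.Prime] [CharP k p] {h : t} {ν : n → ℤ} {γ : t →ₗ[k] k} {a : ℤ}

theorem neg_lift (ha : γ h = a) : (-γ) h = ((-a : ℤ) : k) := by simp [ha]

theorem eig_two (hR : Rich L π) (hν : IsToral h.1 ν) (ha : γ h = a) {x u : Matrix n n k}
    (hx : x ∈ wsp L t γ) (hu : u ∈ wsp L t (-γ)) {ξ ζ : k} (ex : del π p ν a x = ξ • x)
    (eu : del π p ν (-a) u = ζ • u) :
    del π p ν a ⁅x, ⁅x, u⁆⁆ = (ξ + (ξ + ζ)) • ⁅x, ⁅x, u⁆⁆ := by
  have h1 := hR.del_eig_lie (p := p) hν ha (neg_lift ha) hx hu ex eu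
  have h2 := hR.del_eig_lie (p := p) hν ha (b := a + -a) (γ := γ + -γ) (by simp) hx
    (wsp_lie hx hu) ex h1
  rwa [add_neg_cancel, add_zero] at h2

theorem eig_partner (hp : p ≠ 2) (hR : Rich L π) (hD : Diag L t) (hν : IsToral h.1 ν)
    (ha : γ h = a) (hS : Shape (wsp L t (-γ)) (del π p ν (-a))) {x f : Matrix n n k}
    (hx : x ∈ wsp L t γ) (x0 : x ≠ 0) {ξ : k} (ex : del π p ν a x = ξ • x)
    (hf : f ∈ wsp L t (-γ)) (e : ⁅x, ⁅x, f⁆⁆ = (-2 : k) • x) :
    ∃ g ∈ wsp L t (-γ), del π p ν (-a) g = (-ξ) • g ∧ ⁅x, ⁅x, g⁆⁆ = (-2 : k) • x := by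
  have n2 : (-2 : k) • x ≠ 0 := smul_ne_zero (neg_ne_zero.2 (two_ne p hp)) x0
  have ex2 : del π p ν a ((-2 : k) • x) = ξ • (-2 : k) • x := by rw [map_smul, ex, smul_comm]
  rcases hS with hS | ⟨u, w, α, β, hαβ, hu, hw, hS⟩
  · have f0 : f ≠ 0 := fun e0 => n2 (by rw [← e, e0, lie_zero, lie_zero])
    obtain ⟨ζ, hζ⟩ := smul_of_le_one hS hf (hR.del_mem (p := p) (ν := ν) hD (-a) hf.2) f0
    have h1 := eig_two hR hν ha hx hf ex hζ
    rw [e, ex2] at h1
    have h2 : ξ = ξ + (ξ + ζ) := smul_left_injective k n2 h1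
    refine ⟨f, hf, ?_, e⟩
    rw [hζ, show ζ = -ξ by linear_combination -h2]
  · have hf' := hf
    rw [hS] at hf'
    obtain ⟨s, r, rfl⟩ := Submodule.mem_span_pair.1 hf'
    have mu : s • u ∈ wsp L t (-γ) := by
      rw [hS]; exact Submodule.smul_mem _ _ (Submodule.subset_span (by simp))
    have mw : r • w ∈ wsp L t (-γ) := by
      rw [hS]; exact Submodule.smul_mem _ _ (Submodule.subset_span (by simp))
    have h1 : del π p ν (-a) (s • u) = α • s • u := by rw [map_smul, hu, smul_comm]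
    have h2 : del π p ν (-a) (r • w) = β • r • w := by rw [map_smul, hw, smul_comm]
    have h3 := eig_two hR hν ha hx mu ex h1
    have h4 := eig_two hR hν ha hx mw ex h2
    rw [lie_add, lie_add] at e
    have h5 := eig_split (del π p ν a) h3 h4 (θ := ξ)
      (fun e' => hαβ (by linear_combination e')) (by rw [e, ex2])
    rcases h5 with ⟨a1, a2⟩ | ⟨a1, a2⟩ | ⟨a1, a2⟩
    · refine ⟨s • u, mu, ?_, by rw [← e, a2, add_zero]⟩
      rw [h1, show α = -ξ by linear_combination -a1]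
    · refine ⟨r • w, mw, ?_, by rw [← e, a2, zero_add]⟩
      rw [h2, show β = -ξ by linear_combination -a1]
    · exact absurd (by rw [← e, a1, a2, add_zero]) n2

theorem string (hD : Diag L t) {x y f : Matrix n n k} (hx : x ∈ wsp L t γ) (hy : y ∈ wsp L t γ)
    (x0 : x ≠ 0) (hf : f ∈ wsp L t (-γ)) (e : ⁅x, ⁅x, f⁆⁆ = (-2 : k) • x) (fy : ⁅f, y⁆ = 0)
    (j : ℕ) : ⁅f, (adm x ^ (j + 1)) y⁆ = (-(((j : k) + 1) * ((j : k) + 2))) • (adm x ^ j) y := by
  have h0 : ⁅x, f⁆ ∈ wsp L t 0 := by simpa using wsp_lie hx hf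
  obtain ⟨d, hd⟩ := hD.zero h0
  have h1 : γ d = 2 := by
    have h2 : ⁅diagonal d.1, x⁆ = (2 : k) • x := by
      rw [← hd, ← lie_skew, e, neg_smul, neg_neg]
    exact smul_left_injective k x0 ((hx.2 d).symm.trans h2)
  have h3 : ∀ i : ℕ, ⁅⁅f, x⁆, (adm x ^ i) y⁆ = (-(2 * (i : k) + 2)) • (adm x ^ i) y := by
    intro i
    have h4 := wA_adm_pow hx.2 hy.2 i d
    rw [← lie_skew f x, hd, neg_lie, h4, ← neg_smul]
    congr 1
    simp [h1]; ring
  induction j with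
  | zero =>
    rw [adm_pow_succ, leibniz_lie, h3]
    simp [fy]
  | succ j ih =>
    rw [adm_pow_succ x y (j + 1), leibniz_lie, h3, ih, lie_smul, ← adm_pow_succ, ← add_smul]
    congr 1
    push_cast; ring

theorem relation (hp : p ≠ 2) (hR : Rich L π) (hD : Diag L t) (hν : IsToral h.1 ν)
    (ha : γ h = a) (hS : Shape (wsp L t (-γ)) (del π p ν (-a))) {x y f g : Matrix n n k}
    (hx : x ∈ wsp L t γ) (hy : y ∈ wsp L t γ) (x0 : x ≠ 0) (y0 : y ≠ 0) {ξ η c : k}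
    (hne : ξ ≠ η) (ex : del π p ν a x = ξ • x) (ey : del π p ν a y = η • y)
    (hc : x ^ p = c • 1)
    (hf : f ∈ wsp L t (-γ)) (ef : del π p ν (-a) f = (-ξ) • f)
    (e : ⁅x, ⁅x, f⁆⁆ = (-2 : k) • x)
    (hg : g ∈ wsp L t (-γ)) (eg : del π p ν (-a) g = (-η) • g) (g0 : g ≠ 0) :
    2 * η - 2 * ξ + a = 0 := by
  have n2 : (-2 : k) • x ≠ 0 := smul_ne_zero (neg_ne_zero.2 (two_ne p hp)) x0
  have f0 : f ≠ 0 := fun e0 => n2 (by rw [← e, e0, lie_zero, lie_zero])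
  have fy : ⁅f, y⁆ = 0 := by
    have h0 : ⁅f, y⁆ ∈ wsp L t 0 := by simpa using wsp_lie hf hy
    obtain ⟨d, hd⟩ := hD.zero h0
    have h1 := hR.del_eig_lie (p := p) hν (neg_lift ha) ha hf hy ef ey
    rw [neg_add_cancel, hd, del_zero] at h1
    rcases smul_eq_zero.1 h1.symm with h2 | h2
    · exact absurd (by linear_combination -h2) hne
    · rw [hd, h2]
  have hv : ∀ j : ℕ, j + 2 ≤ p → (adm x ^ j) y ≠ 0 := by
    intro j
    induction j with
    | zero => intro _; simpa using y0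
    | succ j ih =>
      intro hj h0
      have h1 := string hD hx hy x0 hf e fy j
      rw [h0, lie_zero] at h1
      have c1 : ((j + 1 : ℕ) : k) ≠ 0 := by
        rw [Ne, CharP.cast_eq_zero_iff k p]
        exact Nat.not_dvd_of_pos_of_lt (by omega) (by omega)
      have c2 : ((j + 2 : ℕ) : k) ≠ 0 := by
        rw [Ne, CharP.cast_eq_zero_iff k p]
        exact Nat.not_dvd_of_pos_of_lt (by omega) (by omega)
      push_cast at c1 c2
      rcases smul_eq_zero.1 h1.symm with h2 | h2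
      · exact mul_ne_zero c1 c2 (neg_eq_zero.1 h2)
      · exact ih (by omega) h2
  obtain ⟨q, hq⟩ : ∃ q, p = q + 2 := ⟨p - 2, by have := (Fact.out : p.Prime).two_le; omega⟩
  have hqk : (q : k) = -2 := by
    have := CharP.cast_eq_zero k p
    rw [hq] at this
    push_cast at this
    linear_combination this
  have v0 := hv q hq.ge
  have mv : (adm x ^ q) y ∈ wsp L t (-γ) := by
    refine ⟨adm_pow_mem hx.1 hy.1 q, ?_⟩
    have := wA_adm_pow hx.2 hy.2 q
    rwa [hqk, show (-2 : k) • γ + γ = -γ by module] at this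
  have ev : del π p ν (-a) ((adm x ^ q) y) = (η - 2 * ξ + a) • (adm x ^ q) y := by
    have h1 := hR.del_eig_pow (p := p) hν ha ha hx hy ex ey q
    have h2 := hR.del_shift (p := p) (ν := ν) (-a) a mv.1
    have h3 : (q : ℤ) * a + a = -a + a * p := by rw [hq]; push_cast; ring
    rw [h3, h2, sub_eq_iff_eq_add, ← add_smul, hqk] at h1
    rw [h1]
    congr 1; ring
  rcases three hS hf hg mv f0 g0 v0 ef eg ev (fun e' => hne (neg_injective e')) with
    ⟨s, hs⟩ | h1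
  · exfalso
    have h1 : ⁅x, ⁅x, (adm x ^ q) y⁆⁆ = 0 := by
      rw [← adm_pow_succ, ← adm_pow_succ, show q + 1 + 1 = p by omega, adm_pow_p, hc, smul_lie,
        one_lie', smul_zero]
    rw [hs, lie_smul, lie_smul, e] at h1
    rcases smul_eq_zero.1 h1 with h2 | h2
    · exact v0 (by rw [hs, h2, zero_smul])
    · exact n2 h2
  · linear_combination h1

end

end Odd1B

open Odd1B in
theorem st_odd1 (k : Type u) [Field k] [IsAlgClosed k] (p : ℕ) [Fact p.Prime] [CharP k p]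
    (he : S_eig k p) (hj : S_jm k) : S_odd1 k p := by
  intro hp n _ _ L π t hR hD γ hγ
  have zero : (∃ c : k, (0 : Matrix n n k) ^ p = c • 1) ∧
      ∃ f ∈ wsp L t (-γ), ⁅(0 : Matrix n n k), ⁅(0 : Matrix n n k), f⁆⁆ =
        (-2 : k) • (0 : Matrix n n k) :=
    ⟨⟨0, by rw [zero_pow (Fact.out : p.Prime).ne_zero, zero_smul]⟩, 0, zero_mem _, by simp⟩
  by_cases hb : wsp L t γ = ⊥
  · refine ⟨by rw [hb]; simp, fun x hx => ?_⟩
    rw [hb, Submodule.mem_bot] at hx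
    subst hx
    exact zero
  obtain ⟨z, hz, z0⟩ := Submodule.exists_mem_ne_zero_of_ne_bot hb
  obtain ⟨h, ν, hν, hh⟩ := hD.toral γ hγ
  obtain ⟨a, ha⟩ := exists_lift hν hz.2 z0
  have a0 : (a : k) ≠ 0 := ha ▸ hh
  obtain ⟨E1, E2⟩ := he n L π t hR hD γ h ν a hν ha a0
  have hS : Shape (wsp L t (-γ)) (del π p ν (-a)) := by
    rcases (he n L π t hR hD (-γ) h ν (-a) hν (neg_lift ha)
      (by rw [Int.cast_neg]; exact neg_ne_zero.2 a0)).2 with
      h1 | ⟨x, y, ξ, η, -, -, h1, h2, h3, h4, -⟩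
    · exact Or.inl h1
    · exact Or.inr ⟨x, y, ξ, η, h1, h2, h3, h4⟩
  rcases E2 with h1 | ⟨x, y, ξ, η, x0, y0, hne, ex, ey, hsp, -⟩
  · refine ⟨h1, fun x hx => ?_⟩
    by_cases x0 : x = 0
    · subst x0; exact zero
    obtain ⟨ξ, hξ⟩ := smul_of_le_one h1 hx (hR.del_mem (p := p) (ν := ν) hD a hx.2) x0
    obtain ⟨c, hc⟩ := E1 x hx ξ hξ
    exact ⟨⟨c, hc⟩, partner p hj hR hD hγ hx hc⟩
  · exfalso
    have hx : x ∈ wsp L t γ := by rw [hsp]; exact Submodule.subset_span (by simp)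
    have hy : y ∈ wsp L t γ := by rw [hsp]; exact Submodule.subset_span (by simp)
    obtain ⟨c, hc⟩ := E1 x hx ξ ex
    obtain ⟨c', hc'⟩ := E1 y hy η ey
    obtain ⟨f1, hf1, e1⟩ := partner p hj hR hD hγ hx hc
    obtain ⟨g1, hg1, e2⟩ := partner p hj hR hD hγ hy hc'
    obtain ⟨f, hf, ef, e3⟩ := eig_partner hp hR hD hν ha hS hx x0 ex hf1 e1
    obtain ⟨g, hg, eg, e4⟩ := eig_partner hp hR hD hν ha hS hy y0 ey hg1 e2
    have n2 : (-2 : k) ≠ 0 := neg_ne_zero.2 (two_ne p hp)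
    have f0 : f ≠ 0 := fun e0 => smul_ne_zero n2 x0 (by rw [← e3, e0, lie_zero, lie_zero])
    have g0 : g ≠ 0 := fun e0 => smul_ne_zero n2 y0 (by rw [← e4, e0, lie_zero, lie_zero])
    have r1 := relation hp hR hD hν ha hS hx hy x0 y0 hne ex ey hc hf ef e3 hg eg g0
    have r2 := relation hp hR hD hν ha hS hy hx y0 x0 hne.symm ey ex hc' hg eg e4 hf ef f0
    exact mul_ne_zero (two_ne p hp) a0 (by linear_combination r1 + r2)

end Pool.Agent.Lib.MP_3a0263_al.R
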