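import Pool.Agent.Lib.MP_3a0263_al.R.Blue
import Pool.Agent.Lib.MP_3a0263_al.R.Basic

namespace Pool.Agent.Lib.MP_3a0263_al.R

open Matrix Finset

attribute [local instance 100] LieRing.ofAssociativeRing

universe u

set_option linter.unusedSectionVars false

namespace ODD2

variable {k : Type u} [Field k] {n : Type} [Fintype n] [DecidableEq n]

/-- `1 / j!`, which is `0` for `j ≥ p` -/
def cf (k : Type u) [Field k] (j : ℕ) : k := (j.factorial : k)⁻¹

/-- the truncated exponential -/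
noncomputable def ex (a : Matrix n n k) : PowerSeries (Matrix n n k) :=
  PowerSeries.mk fun j => cf k j • a ^ j

/-- coefficients of the conjugation by the truncated exponential -/
noncomputable def cn (a : Matrix n n k) (m : ℕ) (y : Matrix n n k) : Matrix n n k :=
  PowerSeries.coeff m (ex a * PowerSeries.C y * ex (-a))

theorem cn_eq (a : Matrix n n k) (m : ℕ) (y : Matrix n n k) :
    cn a m y = ∑ ij ∈ antidiagonal m, (cf k ij.1 * cf k ij.2) • (a ^ ij.1 * y * (-a) ^ ij.2) := by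
  rw [cn, PowerSeries.coeff_mul]
  refine sum_congr rfl fun ij _ => ?_
  rw [PowerSeries.coeff_mul_C, ex, ex, PowerSeries.coeff_mk, PowerSeries.coeff_mk, smul_mul_assoc,
    smul_mul_smul_comm]

theorem cn_zero (a y : Matrix n n k) : cn a 0 y = y := by simp [cn_eq, cf]

theorem cn_sub (a : Matrix n n k) (m : ℕ) (y z : Matrix n n k) :
    cn a m (y - z) = cn a m y - cn a m z := by
  rw [cn, map_sub, mul_sub, sub_mul, map_sub, cn, cn]

variable {p : ℕ} [Fact p.Prime] [CharP k p]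

theorem fact_ne {j : ℕ} (hj : j < p) : (j.factorial : k) ≠ 0 := by
  rw [Ne, CharP.cast_eq_zero_iff k p, (Fact.out : p.Prime).dvd_factorial]
  omega

theorem cf_choose {m i j : ℕ} (hm : m < p) (h : i + j = m) :
    cf k m * (m.choose i : k) = cf k i * cf k j := by
  have h1 := fact_ne (k := k) hm
  have h2 := fact_ne (k := k) (show i < p by omega)
  have h3 := fact_ne (k := k) (show j < p by omega)
  have h4 : (m.choose i : k) * i.factorial * j.factorial = m.factorial := by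
    rw [show j = m - i by omega]
    exact_mod_cast congrArg (Nat.cast : ℕ → k) (Nat.choose_mul_factorial_mul_factorial (show i ≤ m by omega))
  unfold cf
  field_simp
  rw [← h4]

theorem cn_lt (a : Matrix n n k) {m : ℕ} (hm : m < p) (y : Matrix n n k) :
    cn a m y = cf k m • (adm a ^ m) y := by
  have h1 : adm a = LinearMap.mulLeft k a + LinearMap.mulRight k (-a) := by
    ext1 x
    simp [Ring.lie_def, sub_eq_add_neg]
  rw [cn_eq, h1, (LinearMap.commute_mulLeft_right a (-a)).add_pow', LinearMap.sum_apply, smul_sum]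
  refine sum_congr rfl fun ij hij => ?_
  rw [← cf_choose hm (mem_antidiagonal.1 hij), LinearMap.pow_mulLeft, LinearMap.pow_mulRight,
    LinearMap.smul_apply, Module.End.mul_apply, LinearMap.mulLeft_apply, LinearMap.mulRight_apply,
    mul_smul, Nat.cast_smul_eq_nsmul, mul_assoc]

theorem two_ne (hp : p ≠ 2) : (2 : k) ≠ 0 := by
  intro h
  have h1 : p ∣ 2 := (CharP.cast_eq_zero_iff k p 2).1 (by exact_mod_cast h)
  exact hp ((Nat.prime_dvd_prime_iff_eq Fact.out Nat.prime_two).1 h1)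

theorem inv_ex (hp : p ≠ 2) (a : Matrix n n k) {m : ℕ} (hm : m ≤ p) :
    PowerSeries.coeff m (ex (-a) * ex a - 1) = 0 := by
  have h0 : PowerSeries.coeff m (ex (-a) * ex a) = cn (-a) m 1 := by
    rw [cn, map_one, mul_one, neg_neg]
  rw [map_sub, h0, sub_eq_zero, PowerSeries.coeff_one]
  rcases hm.lt_or_eq with hm | rfl
  · rw [cn_lt _ hm]
    rcases m with _ | m
    · simp [cf]
    · rw [adm_pow_succ', lie_one', map_zero, smul_zero, if_neg (Nat.succ_ne_zero m)]
  · rw [if_neg (Fact.out : m.Prime).ne_zero]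
    have hodd : Odd m := (Fact.out : m.Prime).odd_of_ne_two hp
    have h1 : cn (-a) m 1 = -cn (-a) m 1 := by
      conv_rhs => rw [cn_eq, ← Nat.sum_antidiagonal_swap, ← sum_neg_distrib]
      rw [cn_eq]
      refine sum_congr rfl fun ij hij => ?_
      have h2 := mem_antidiagonal.1 hij
      rw [Prod.fst_swap, Prod.snd_swap, neg_neg, mul_one, mul_one, mul_comm (cf k ij.2), ← smul_neg]
      refine congrArg _ ?_
      rcases Nat.even_or_odd ij.1 with h3 | h3
      · have h4 : Odd ij.2 := (Nat.odd_add'.1 (h2 ▸ hodd)).2 h3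
        rw [h3.neg_pow, h4.neg_pow, neg_mul, neg_neg, ← pow_add, ← pow_add, add_comm]
      · have h4 : Even ij.2 := (Nat.odd_add.1 (h2 ▸ hodd)).1 h3
        rw [h3.neg_pow, h4.neg_pow, neg_mul, ← pow_add, ← pow_add, add_comm]
    have h5 : (2 : k) • cn (-a) m 1 = 0 := by
      rw [two_smul]
      exact eq_neg_iff_add_eq_zero.1 h1
    exact (smul_eq_zero.1 h5).resolve_left (two_ne hp)

theorem cn_mul (hp : p ≠ 2) (a y z : Matrix n n k) :
    cn a p (y * z) = ∑ ij ∈ antidiagonal p, cn a ij.1 y * cn a ij.2 z := by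
  have h1 : ex a * PowerSeries.C y * ex (-a) * (ex a * PowerSeries.C z * ex (-a)) =
      ex a * PowerSeries.C (y * z) * ex (-a) +
        ex a * PowerSeries.C y * (ex (-a) * ex a - 1) * (PowerSeries.C z * ex (-a)) := by
    rw [map_mul]; noncomm_ring
  have h2 : PowerSeries.coeff p
      (ex a * PowerSeries.C y * (ex (-a) * ex a - 1) * (PowerSeries.C z * ex (-a))) = 0 := by
    rw [PowerSeries.coeff_mul]
    refine sum_eq_zero fun ij hij => ?_
    rw [PowerSeries.coeff_mul, sum_eq_zero, zero_mul]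
    intro lm hlm
    have := mem_antidiagonal.1 hij
    have := mem_antidiagonal.1 hlm
    rw [inv_ex hp a (show lm.2 ≤ p by omega), mul_zero]
  have h3 := congrArg (PowerSeries.coeff p) h1
  rw [map_add, h2, add_zero, PowerSeries.coeff_mul] at h3
  exact h3.symm

/-- the defect `S_p` as a bilinear map -/
noncomputable def sb (p : ℕ) (a : Matrix n n k) : Matrix n n k →ₗ[k] Matrix n n k →ₗ[k] Matrix n n k :=
  ∑ i ∈ Ioo 0 p, (cf k i * cf k (p - i)) •
    (LieAlgebra.ad k (Matrix n n k)).toLinearMap.compl₁₂ (adm a ^ i) (adm a ^ (p - i))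

theorem sb_apply (p : ℕ) (a y z : Matrix n n k) : sb p a y z =
    ∑ i ∈ Ioo 0 p, (cf k i * cf k (p - i)) • ⁅(adm a ^ i) y, (adm a ^ (p - i)) z⁆ := by
  rw [sb, LinearMap.sum_apply, LinearMap.sum_apply]
  rfl

theorem cn_lie (hp : p ≠ 2) (a y z : Matrix n n k) :
    cn a p ⁅y, z⁆ = ⁅cn a p y, z⁆ + ⁅y, cn a p z⁆ + sb p a y z := by
  have h0 : 0 < p := (Fact.out : p.Prime).pos
  have h1 : cn a p ⁅y, z⁆ = ∑ ij ∈ antidiagonal p, ⁅cn a ij.1 y, cn a ij.2 z⁆ := by
    rw [Ring.lie_def, cn_sub, cn_mul hp, cn_mul hp, ← Nat.sum_antidiagonal_swap (f := fun ij =>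
      cn a ij.1 z * cn a ij.2 y), ← sum_sub_distrib]
    rfl
  rw [h1, Nat.sum_antidiagonal_eq_sum_range_succ_mk, sum_range_succ, range_eq_Ico,
    ← Ioo_insert_left h0, sum_insert left_notMem_Ioo, sb_apply, Nat.sub_zero, Nat.sub_self, cn_zero,
    cn_zero]
  rw [sum_congr rfl (g := fun i => (cf k i * cf k (p - i)) • ⁅(adm a ^ i) y, (adm a ^ (p - i)) z⁆)
    fun i hi => by
      have := mem_Ioo.1 hi
      rw [cn_lt a this.2, cn_lt a (show p - i < p by omega), smul_lie, lie_smul, smul_smul]]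
  abel

variable {L : LieSubalgebra k (Matrix n n k)} {π : Matrix n n k →ₗ[k] Matrix n n k}
variable {t : Submodule k (n → k)} {α β γ : t →ₗ[k] k} {e y z : Matrix n n k}

theorem wt_add {i j : ℕ} (h : i + j = p) : (i : k) • α + β + ((j : k) • α + γ) = β + γ := by
  have : (i : k) + j = 0 := by rw [← Nat.cast_add, h, CharP.cast_eq_zero]
  rw [add_add_add_comm, ← add_smul, this, zero_smul, zero_add]

theorem cn_mem (he : e ∈ wA t α) (hy : y ∈ wA t β) : cn e p y ∈ wA t β := by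
  rw [cn_eq]
  refine Submodule.sum_mem _ fun ij hij => Submodule.smul_mem _ _ ?_
  have := wA_mul (wA_mul (wA_pow he ij.1) hy) (wA_pow ((wA t α).neg_mem he) ij.2)
  rwa [← add_zero ((ij.2 : k) • α), wt_add (mem_antidiagonal.1 hij), add_zero] at this

theorem pow_mem (he : e ∈ wsp L t α) (hy : y ∈ wsp L t β) (i : ℕ) :
    (adm e ^ i) y ∈ wsp L t ((i : k) • α + β) := ⟨adm_pow_mem he.1 hy.1 i, wA_adm_pow he.2 hy.2 i⟩

theorem sb_mem (he : e ∈ wsp L t α) (hy : y ∈ wsp L t β) (hz : z ∈ wsp L t γ) :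
    sb p e y z ∈ wsp L t (β + γ) := by
  rw [sb_apply]
  refine Submodule.sum_mem _ fun i hi => Submodule.smul_mem _ _ ?_
  have := wsp_lie (pow_mem he hy i) (pow_mem he hz (p - i))
  rwa [wt_add (p := p) (by have := mem_Ioo.1 hi; omega)] at this

theorem of_rank {V : Submodule k (Matrix n n k)} (h : Module.finrank k V ≤ 1) (hy : y ∈ V)
    (h0 : y ≠ 0) (hz : z ∈ V) : ∃ c : k, z = c • y := by
  obtain ⟨v, hv⟩ := finrank_le_one_iff.1 h
  obtain ⟨a, ha⟩ := hv ⟨y, hy⟩
  obtain ⟨b, hb⟩ := hv ⟨z, hz⟩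
  have ha' : a • (v : Matrix n n k) = y := congrArg Subtype.val ha
  have hb' : b • (v : Matrix n n k) = z := congrArg Subtype.val hb
  have h1 : a ≠ 0 := fun h => h0 (by rw [← ha', h, zero_smul])
  exact ⟨b * a⁻¹, by rw [← ha', ← hb', smul_smul, inv_mul_cancel_right₀ h1]⟩

theorem lie_t (he : e ∈ wA t α) {c : k} (hc : e ^ p = c • 1) (d : t) (w : Matrix n n k) {i j : ℕ}
    (hi : 0 < i) (h : i + j = p) : ⁅(adm e ^ i) (diagonal d.1), (adm e ^ j) w⁆ = 0 := by
  obtain ⟨i, rfl⟩ := Nat.exists_eq_succ_of_ne_zero hi.ne'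
  rw [adm_pow_succ', ← lie_skew e, he d, map_neg, map_smul, neg_lie, smul_lie]
  rcases i with _ | i
  · rw [pow_zero, Module.End.one_apply, ← adm_pow_succ, show j + 1 = p by omega, adm_pow_p, hc,
      smul_lie, one_lie', smul_zero, smul_zero, neg_zero]
  · rw [adm_pow_succ', lie_self, map_zero, zero_lie, smul_zero, neg_zero]

theorem sb_eig (hR : Rich L π) {h : t} {ν : n → ℤ} (hν : IsToral h.1 ν) {a b c : ℤ} (ha : α h = a)
    (hb : β h = b) (hc : γ h = c) (he : e ∈ wsp L t α) (hy : y ∈ wsp L t β) (hz : z ∈ wsp L t γ)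
    {ξ η ζ : k} (h1 : del π p ν a e = ξ • e) (h2 : del π p ν b y = η • y)
    (h3 : del π p ν c z = ζ • z) :
    del π p ν (b + c) (sb p e y z) = (η + ζ + a) • sb p e y z := by
  have h4 : del π p ν (b + c + a * p) (sb p e y z) = (η + ζ) • sb p e y z := by
    rw [sb_apply, map_sum, smul_sum]
    refine sum_congr rfl fun i hi => ?_
    obtain ⟨j, hj⟩ : ∃ j, i + j = p := ⟨p - i, by have := mem_Ioo.1 hi; omega⟩
    rw [show p - i = j by omega]
    have h5 := hR.del_eig_lie (p := p) hν (a := i * a + b) (b := j * a + c) (by simp [ha, hb])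
      (by simp [ha, hc]) (pow_mem he hy i) (pow_mem he hz j)
      (hR.del_eig_pow hν ha hb he hy h1 h2 i) (hR.del_eig_pow hν ha hc he hz h1 h3 j)
    have h6 : (i : k) + j = 0 := by rw [← Nat.cast_add, hj, CharP.cast_eq_zero]
    have h7 : b + c + a * p = i * a + b + (j * a + c) := by
      rw [← hj]; push_cast; ring
    have h8 : (i : k) * ξ + η + (j * ξ + ζ) = η + ζ := by linear_combination ξ * h6
    rw [map_smul, h7, h5, h8, smul_comm]
  rw [hR.del_shift _ _ (sb_mem he hy hz).1, sub_eq_iff_eq_add] at h4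
  rw [h4, ← add_smul]

theorem main (hp : p ≠ 2) (hR : Rich L π) (hD : Diag L t) (hO : Odd1 p L t) (hα : α ≠ 0)
    (he : e ∈ wsp L t α) (hy : y ∈ wsp L t β) (hz : z ∈ wsp L t γ) : sb p e y z = 0 := by
  obtain ⟨c0, hc0⟩ := ((hO α hα).2 e he).1
  by_cases hβ : β = 0
  · obtain ⟨d, rfl⟩ := hD.zero (hβ ▸ hy)
    rw [sb_apply]
    refine sum_eq_zero fun i hi => ?_
    have := mem_Ioo.1 hi
    rw [lie_t he.2 hc0 d z this.1 (by omega), smul_zero]
  by_cases hγ : γ = 0
  · obtain ⟨d, rfl⟩ := hD.zero (hγ ▸ hz)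
    rw [sb_apply]
    refine sum_eq_zero fun i hi => ?_
    have := mem_Ioo.1 hi
    rw [← lie_skew, lie_t he.2 hc0 d y (i := p - i) (by omega) (by omega), neg_zero, smul_zero]
  by_cases he0 : e = 0
  · rw [sb_apply]
    refine sum_eq_zero fun i hi => ?_
    obtain ⟨j, rfl⟩ := Nat.exists_eq_succ_of_ne_zero (mem_Ioo.1 hi).1.ne'
    rw [adm_pow_succ, he0, zero_lie, zero_lie, smul_zero]
  by_cases hy0 : y = 0
  · rw [hy0, map_zero, LinearMap.zero_apply]
  by_cases hz0 : z = 0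
  · rw [hz0, map_zero]
  obtain ⟨h, ν, hν, hh⟩ := hD.toral α hα
  obtain ⟨a, ha⟩ := exists_lift hν he.2 he0
  obtain ⟨b, hb⟩ := exists_lift hν hy.2 hy0
  obtain ⟨c, hc⟩ := exists_lift hν hz.2 hz0
  obtain ⟨ξ, h1⟩ := of_rank (hO α hα).1 he he0 (hR.del_mem (p := p) (ν := ν) hD a he.2)
  obtain ⟨η, h2⟩ := of_rank (hO β hβ).1 hy hy0 (hR.del_mem (p := p) (ν := ν) hD b hy.2)
  obtain ⟨ζ, h3⟩ := of_rank (hO γ hγ).1 hz hz0 (hR.del_mem (p := p) (ν := ν) hD c hz.2)
  have h4 := sb_eig hR hν ha hb hc he hy hz h1 h2 h3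
  have h5 := hR.del_eig_lie (p := p) hν hb hc hy hz h2 h3
  have hS := sb_mem (p := p) he hy hz
  have hl := wsp_lie hy hz
  suffices h6 : del π p ν (b + c) (sb p e y z) = (η + ζ) • sb p e y z by
    rw [h4, add_smul (η + ζ), add_eq_left, smul_eq_zero] at h6
    exact h6.resolve_left (ha ▸ hh)
  by_cases hs : β + γ = 0
  · have hl0 : ⁅y, z⁆ ≠ 0 := fun h0 => by
      obtain ⟨f, hf, hf2⟩ := ((hO β hβ).2 y hy).2
      rw [neg_eq_of_add_eq_zero_right hs] at hf
      obtain ⟨κ, rfl⟩ := of_rank (hO γ hγ).1 hz hz0 hf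
      rw [lie_smul, h0, smul_zero, lie_zero, eq_comm, smul_eq_zero, neg_eq_zero] at hf2
      exact hf2.elim (two_ne hp) hy0
    have h7 : ((b + c : ℤ) : k) = 0 := by
      rw [Int.cast_add, ← hb, ← hc, ← LinearMap.add_apply, hs, LinearMap.zero_apply]
    obtain ⟨j, hj⟩ := (CharP.intCast_eq_zero_iff k p _).1 h7
    have h8 : ∀ x ∈ wsp L t (β + γ), del π p ν (b + c) x = (-j : k) • x := fun x hx => by
      obtain ⟨d, rfl⟩ := hD.zero (hs ▸ hx)
      rw [hj, show (p : ℤ) * j = 0 + j * p by ring, hR.del_shift _ _ hx.1, del_zero, zero_sub,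
        neg_smul]
    rw [h8 _ hl] at h5
    rw [h8 _ hS, smul_left_injective k hl0 h5]
  · have h7 := congrArg π (cn_lie hp e y z)
    rw [map_add, map_add, hR.equi' hz.1, hR.equi y hy.1, hR.left _ hS.1] at h7
    obtain ⟨κ1, k1⟩ := of_rank (hO β hβ).1 hy hy0 (hR.pi_wA hD (cn_mem (p := p) he.2 hy.2))
    obtain ⟨κ2, k2⟩ := of_rank (hO γ hγ).1 hz hz0 (hR.pi_wA hD (cn_mem (p := p) he.2 hz.2))
    obtain ⟨κ3, k3⟩ : ∃ κ : k, π (cn e p ⁅y, z⁆) = κ • ⁅y, z⁆ := by
      by_cases h0 : ⁅y, z⁆ = 0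
      · exact ⟨0, by rw [h0, cn, map_zero, mul_zero, zero_mul, map_zero, map_zero, smul_zero]⟩
      · exact of_rank (hO _ hs).1 hl h0 (hR.pi_wA hD (cn_mem (p := p) he.2 hl.2))
    rw [k1, k2, k3, smul_lie, lie_smul, ← add_smul, ← sub_eq_iff_eq_add', ← sub_smul] at h7
    rw [← h7, map_smul, h5, smul_comm]

end ODD2

theorem st_odd2 (k : Type u) [Field k] [IsAlgClosed k] (p : ℕ) [Fact p.Prime] [CharP k p] :
    S_odd2 k p := by
  intro hp n _ _ L π t hR hD hO α hα e he y hy z hz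
  refine (ODD2.sb_apply p e y z).symm.trans ?_
  refine hR.le_of_wsp hD (LinearMap.ker (ODD2.sb p e y)) (fun γ z hz => ?_) hz
  exact hR.le_of_wsp hD (LinearMap.ker ((ODD2.sb p e).flip z))
    (fun β y hy => ODD2.main hp hR hD hO hα he hy hz) hy

end Pool.Agent.Lib.MP_3a0263_al.R
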