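import Pool.Agent.Lib.MP_3a0263_al.R.Blue
import Pool.Agent.Lib.MP_3a0263_al.R.Basic

namespace Pool.Agent.Lib.MP_3a0263_al.R

open Matrix

attribute [local instance 100] LieRing.ofAssociativeRing

universe u

namespace ODD3

theorem exists_pairs {Φ M : Type*} [Finite Φ] (neg : Φ → Φ) (h1 : ∀ β, neg (neg β) = β)
    (h2 : ∀ β, neg β ≠ β) (P : Φ → M → M → Prop) (hP : ∀ β, ∃ x f, P β x f)
    (hs : ∀ β x f, P β x f → P (neg β) f x) : ∃ e : Φ → M, ∀ β, P β (e β) (e (neg β)) := by
  obtain ⟨ι, hι⟩ := Countable.exists_injective_nat Φ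
  choose x f h using hP
  refine ⟨fun β => if ι β < ι (neg β) then x β else f (neg β), fun β => ?_⟩
  have hne : ι (neg β) ≠ ι β := fun e => h2 β (hι e)
  simp only [h1]
  by_cases hb : ι β < ι (neg β)
  · rw [if_pos hb, if_neg (by omega)]
    exact h β
  · rw [if_neg hb, if_pos (by omega)]
    have := hs _ _ _ (h (neg β))
    rwa [h1] at this

theorem sum_anti {M : Type*} [AddCommMonoid M] (q : ℕ) (f : ℕ × ℕ → M)
    (hf : ∀ x : ℕ × ℕ, q ≤ x.1 ∨ q ≤ x.2 → f x = 0) :
    ∑ m ∈ Finset.range (q + q), ∑ x ∈ Finset.HasAntidiagonal.antidiagonal m, f x =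
      ∑ i ∈ Finset.range q, ∑ l ∈ Finset.range q, f (i, l) := by
  rw [← Finset.sum_product', ← Finset.sum_fiberwise_of_maps_to (t := Finset.range (q + q))
    (g := fun x : ℕ × ℕ => x.1 + x.2)]
  · refine Finset.sum_congr rfl fun m _ => (Finset.sum_subset ?_ ?_).symm
    · intro x hx
      exact Finset.HasAntidiagonal.mem_antidiagonal.2 (Finset.mem_filter.1 hx).2
    · intro x hx hn
      refine hf x ?_
      by_contra h
      push Not at h
      exact hn (Finset.mem_filter.2 ⟨Finset.mem_product.2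
        ⟨Finset.mem_range.2 h.1, Finset.mem_range.2 h.2⟩, Finset.HasAntidiagonal.mem_antidiagonal.1 hx⟩)
  · intro x hx
    have h := Finset.mem_product.1 hx
    have h1 := Finset.mem_range.1 h.1
    have h2 := Finset.mem_range.1 h.2
    exact Finset.mem_range.2 (by omega)

variable {k : Type u} [Field k] {n : Type} [Fintype n] [DecidableEq n]
variable {L : LieSubalgebra k (Matrix n n k)}

/-- divided powers of the adjoint action -/
noncomputable def DD (e : Matrix n n k) (j : ℕ) : Module.End k (Matrix n n k) :=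
  ((j.factorial : k))⁻¹ • adm e ^ j

theorem DD_apply (e : Matrix n n k) (j : ℕ) (y : Matrix n n k) :
    DD e j y = ((j.factorial : k))⁻¹ • (adm e ^ j) y := rfl

theorem DD_zero (e y : Matrix n n k) : DD e 0 y = y := by simp [DD_apply]

theorem DD_mem {e y : Matrix n n k} (he : e ∈ L) (hy : y ∈ L) (j : ℕ) : DD e j y ∈ L :=
  L.smul_mem _ (adm_pow_mem he hy j)

variable (p : ℕ) [Fact p.Prime] [CharP k p]

theorem DD_big (e y : Matrix n n k) {j : ℕ} (hj : p ≤ j) : DD e j y = 0 := by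
  have h : (j.factorial : k) = 0 :=
    (CharP.cast_eq_zero_iff k p _).2 (Nat.dvd_factorial (Fact.out : p.Prime).pos hj)
  rw [DD_apply, h, _root_.inv_zero, zero_smul]

theorem adm_nil {e : Matrix n n k} (he : ∃ c : k, e ^ p = c • 1) (y : Matrix n n k) :
    (adm e ^ p) y = 0 := by
  obtain ⟨c, hc⟩ := he
  rw [adm_pow_p, hc, smul_lie, one_lie', smul_zero]

theorem DD_succ {e : Matrix n n k} (he : ∃ c : k, e ^ p = c • 1) (i : ℕ) (y : Matrix n n k) :
    ((i + 1 : ℕ) : k) • DD e (i + 1) y = DD e i ⁅e, y⁆ := by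
  rcases lt_trichotomy (i + 1) p with h | h | h
  · have h0 : ((i + 1 : ℕ) : k) ≠ 0 := fun h0 =>
      absurd (Nat.le_of_dvd (Nat.succ_pos i) ((CharP.cast_eq_zero_iff k p _).1 h0)) (by omega)
    rw [DD_apply, DD_apply, adm_pow_succ', smul_smul, Nat.factorial_succ, Nat.cast_mul, mul_inv,
      ← mul_assoc, mul_inv_cancel₀ h0, one_mul]
  · rw [DD_big p e y h.ge, smul_zero, DD_apply, ← adm_pow_succ', h, adm_nil p he, smul_zero]
  · rw [DD_big p e y h.le, smul_zero, DD_big p e _ (by omega)]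

theorem S_succ {e : Matrix n n k} (he : ∃ c : k, e ^ p = c • 1) (m : ℕ) (y z : Matrix n n k) :
    ((m + 1 : ℕ) : k) • ∑ x ∈ Finset.HasAntidiagonal.antidiagonal (m + 1), ⁅DD e x.1 y, DD e x.2 z⁆ =
      ∑ x ∈ Finset.HasAntidiagonal.antidiagonal m, ⁅DD e x.1 ⁅e, y⁆, DD e x.2 z⁆ +
        ∑ x ∈ Finset.HasAntidiagonal.antidiagonal m, ⁅DD e x.1 y, DD e x.2 ⁅e, z⁆⁆ := by
  have h1 : ∑ x ∈ Finset.HasAntidiagonal.antidiagonal (m + 1), (x.1 : k) • ⁅DD e x.1 y, DD e x.2 z⁆ =
      ∑ x ∈ Finset.HasAntidiagonal.antidiagonal m, ⁅DD e x.1 ⁅e, y⁆, DD e x.2 z⁆ := by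
    rw [Finset.Nat.sum_antidiagonal_succ]
    simp only [Nat.cast_zero, zero_smul, zero_add, ← smul_lie, DD_succ p he, zero_lie]
  have h2 : ∑ x ∈ Finset.HasAntidiagonal.antidiagonal (m + 1), (x.2 : k) • ⁅DD e x.1 y, DD e x.2 z⁆ =
      ∑ x ∈ Finset.HasAntidiagonal.antidiagonal m, ⁅DD e x.1 y, DD e x.2 ⁅e, z⁆⁆ := by
    rw [Finset.Nat.sum_antidiagonal_succ']
    simp only [Nat.cast_zero, zero_smul, zero_add, ← lie_smul, DD_succ p he, lie_zero]
  rw [← h1, ← h2, ← Finset.sum_add_distrib, Finset.smul_sum]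
  refine Finset.sum_congr rfl fun x hx => ?_
  rw [← add_smul, ← Nat.cast_add, Finset.HasAntidiagonal.mem_antidiagonal.1 hx]

theorem S_eq {e : Matrix n n k} (heL : e ∈ L) (he : ∃ c : k, e ^ p = c • 1)
    (h2 : ∀ y ∈ L, ∀ z ∈ L, ∑ i ∈ Finset.Ioo 0 p,
      ((i.factorial : k)⁻¹ * ((p - i).factorial : k)⁻¹) •
        ⁅(adm e ^ i) y, (adm e ^ (p - i)) z⁆ = 0) (m : ℕ) :
    ∀ y ∈ L, ∀ z ∈ L, ∑ x ∈ Finset.HasAntidiagonal.antidiagonal m, ⁅DD e x.1 y, DD e x.2 z⁆ = DD e m ⁅y, z⁆ := by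
  induction m with
  | zero => intro y _ z _; simp [DD_zero]
  | succ m ih =>
    intro y hy z hz
    by_cases h0 : ((m + 1 : ℕ) : k) = 0
    · obtain ⟨c, hc⟩ := (CharP.cast_eq_zero_iff k p _).1 h0
      have hp : 0 < p := (Fact.out : p.Prime).pos
      have hc0 : c ≠ 0 := by rintro rfl; omega
      have hle : p ≤ m + 1 := by rw [hc]; exact Nat.le_mul_of_pos_right p (by omega)
      rw [DD_big p e _ hle]
      by_cases hc1 : c = 1
      · rw [hc, hc1, mul_one, Finset.Nat.sum_antidiagonal_eq_sum_range_succ_mk, ← h2 y hy z hz]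
        refine (Finset.sum_subset ?_ ?_).symm.trans (Finset.sum_congr rfl fun i _ => ?_)
        · intro i hi
          have := Finset.mem_Ioo.1 hi
          exact Finset.mem_range.2 (by omega)
        · intro i hi hn
          have h3 := Finset.mem_range.1 hi
          rw [Finset.mem_Ioo] at hn
          rcases Nat.eq_zero_or_pos i with h4 | h4
          · rw [DD_big p e z (j := p - i) (by omega), lie_zero]
          · rw [DD_big p e y (j := i) (by omega), zero_lie]
        · rw [DD_apply, DD_apply, smul_lie, lie_smul, smul_smul]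
      · have h3 : p * 2 ≤ p * c := Nat.mul_le_mul_left p (by omega)
        refine Finset.sum_eq_zero fun x hx => ?_
        have h4 := Finset.HasAntidiagonal.mem_antidiagonal.1 hx
        rcases le_or_gt p x.1 with h5 | h5
        · rw [DD_big p e y h5, zero_lie]
        · rw [DD_big p e z (j := x.2) (by omega), lie_zero]
    · refine smul_right_injective _ h0 ?_
      simp only
      rw [S_succ p he, ih _ (L.lie_mem heL hy) z hz, ih y hy _ (L.lie_mem heL hz), DD_succ p he,
        leibniz_lie e y z, map_add]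

omit [Fact p.Prime] [CharP k p] in
theorem Eop_apply (e : Matrix n n k) (s : k) (y : Matrix n n k) :
    Eop p (DD e) s y = ∑ j ∈ Finset.range (p + 1), s ^ j • DD e j y := by
  simp only [Eop, LinearMap.sum_apply, LinearMap.smul_apply]

theorem isAut {e : Matrix n n k} (heL : e ∈ L) (he : ∃ c : k, e ^ p = c • 1)
    (h2 : ∀ y ∈ L, ∀ z ∈ L, ∑ i ∈ Finset.Ioo 0 p,
      ((i.factorial : k)⁻¹ * ((p - i).factorial : k)⁻¹) •
        ⁅(adm e ^ i) y, (adm e ^ (p - i)) z⁆ = 0) (s : k) : IsAut L (Eop p (DD e) s) := by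
  have hm : ∀ x ∈ L, Eop p (DD e) s x ∈ L := fun x hx => by
    rw [Eop_apply]
    exact L.toSubmodule.sum_mem fun j _ => L.smul_mem _ (DD_mem heL hx j)
  have hi : ∀ x, Eop p (DD e) s x = 0 → x = 0 := fun x hx => by
    have key : ∀ j, (adm e ^ j) x = 0 → x = 0 := fun j => by
      induction j with
      | zero => exact fun h => h
      | succ j ih =>
        intro h
        refine ih ?_
        have h3 := congrArg (adm e ^ j) hx
        rw [Eop_apply, Finset.sum_range_succ', map_add, map_sum, map_zero, pow_zero, one_smul,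
          DD_zero, Finset.sum_eq_zero, zero_add] at h3
        · exact h3
        · intro i _
          rw [DD_apply, map_smul, map_smul, ← Module.End.mul_apply, ← pow_add,
            show j + (i + 1) = i + (j + 1) by ring, pow_add (adm e), Module.End.mul_apply, h, map_zero,
            smul_zero, smul_zero]
    exact key p (adm_nil p he x)
  refine ⟨hm, fun y hy z hz => ?_, fun x _ => hi x, fun y hy => ?_⟩
  · have h3 := sum_anti (p + 1) (fun x => s ^ (x.1 + x.2) • ⁅DD e x.1 y, DD e x.2 z⁆) (by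
      rintro x (h | h)
      · rw [DD_big p e y (j := x.1) (by omega), zero_lie, smul_zero]
      · rw [DD_big p e z (j := x.2) (by omega), lie_zero, smul_zero])
    have h4 : ∑ m ∈ Finset.range (p + 1 + (p + 1)), ∑ x ∈ Finset.HasAntidiagonal.antidiagonal m,
        s ^ (x.1 + x.2) • ⁅DD e x.1 y, DD e x.2 z⁆ =
        ∑ m ∈ Finset.range (p + 1 + (p + 1)), s ^ m • DD e m ⁅y, z⁆ := by
      refine Finset.sum_congr rfl fun m _ => ?_
      rw [← S_eq p heL he h2 m y hy z hz, Finset.smul_sum]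
      exact Finset.sum_congr rfl fun x hx => by rw [Finset.HasAntidiagonal.mem_antidiagonal.1 hx]
    rw [Eop_apply, Eop_apply, Eop_apply, sum_lie]
    simp only [lie_sum, smul_lie, lie_smul, smul_smul, ← pow_add]
    simp only at h3
    rw [Finset.sum_range_add (fun m => s ^ m • DD e m ⁅y, z⁆), Finset.sum_eq_zero (s := Finset.range (p + 1))
      (f := fun x => s ^ (p + 1 + x) • DD e (p + 1 + x) ⁅y, z⁆)
      (fun x _ => by rw [DD_big p e _ (j := p + 1 + x) (by omega), smul_zero]), add_zero] at h4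
    rw [← h4, h3]
    exact Finset.sum_congr rfl fun i _ => Finset.sum_congr rfl fun l _ => by rw [add_comm]
  · have h3 : Function.Injective ((Eop p (DD e) s).restrict (p := L.toSubmodule)
        (q := L.toSubmodule) hm) := by
      rw [injective_iff_map_eq_zero]
      intro x hx
      exact Subtype.ext (hi x.1 (congrArg Subtype.val hx))
    obtain ⟨x, hx⟩ := LinearMap.injective_iff_surjective.1 h3 ⟨y, hy⟩
    exact ⟨x.1, x.2, congrArg Subtype.val hx⟩

end ODD3

open ODD3 in
theorem st_odd3 (k : Type u) [Field k] [IsAlgClosed k] (p : ℕ) [Fact p.Prime] [CharP k p] :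
    S_odd3 k p := by
  intro hp n _ _ L π t hR hD h1 h2
  have two : (2 : k) ≠ 0 := fun h => hp ((Nat.prime_dvd_prime_iff_eq Fact.out Nat.prime_two).1
    ((CharP.cast_eq_zero_iff k p 2).1 (by exact_mod_cast h)))
  let Φ : Type u := {γ : t →ₗ[k] k // γ ≠ 0 ∧ wsp L t γ ≠ ⊥}
  have : Finite Φ := by
    refine Set.Finite.to_subtype ((Set.finite_range fun ij : n × n => wE t ij.1 ij.2).subset ?_)
    rintro γ ⟨-, hγ⟩
    obtain ⟨x, hx, h0⟩ := Submodule.exists_mem_ne_zero_of_ne_bot hγ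
    obtain ⟨i, j, rfl⟩ := eq_wE hx.2 h0
    exact ⟨(i, j), rfl⟩
  let : Fintype Φ := Fintype.ofFinite Φ
  have pair : ∀ β : Φ, ∃ x f, x ∈ wsp L t β.1 ∧ f ∈ wsp L t (-β.1) ∧
      ∃ d : t, ⁅x, f⁆ = diagonal d.1 ∧ β.1 d = 2 := fun β => by
    obtain ⟨x, hx, h0⟩ := Submodule.exists_mem_ne_zero_of_ne_bot β.2.2
    obtain ⟨f, hf, e⟩ := ((h1 β.1 β.2.1).2 x hx).2
    have h3 := wsp_lie hx hf
    rw [add_neg_cancel] at h3
    obtain ⟨d, hd⟩ := hD.zero h3
    refine ⟨x, f, hx, hf, d, hd, ?_⟩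
    rw [hd, ← lie_skew, hx.2 d, ← neg_smul] at e
    exact neg_injective (smul_left_injective k h0 e)
  have nz : ∀ (γ : t →ₗ[k] k) (d : t) (x f : Matrix n n k), ⁅x, f⁆ = diagonal d.1 → γ d = 2 →
      x ≠ 0 ∧ f ≠ 0 := fun γ d x f h h' => by
    have h3 : ⁅x, f⁆ ≠ 0 := fun h0 => by
      have : d = 0 := Subtype.ext (diagonal_injective (h.symm.trans (h0.trans diagonal_zero.symm)))
      rw [this, map_zero] at h'
      exact two h'.symm
    exact ⟨fun h0 => h3 (by rw [h0, zero_lie]), fun h0 => h3 (by rw [h0, lie_zero])⟩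
  let neg : Φ → Φ := fun β => ⟨-β.1, neg_ne_zero.2 β.2.1, fun h => by
    obtain ⟨x, f, -, hf, d, hd, h3⟩ := pair β
    rw [h] at hf
    exact (nz _ d x f hd h3).2 hf⟩
  have nn : ∀ β, neg (neg β) = β := fun β => Subtype.ext (neg_neg β.1)
  have ne : ∀ β, neg β ≠ β := fun β h => by
    obtain ⟨x, f, -, -, d, -, h3⟩ := pair β
    have h4 : -β.1 d = β.1 d := LinearMap.congr_fun (congrArg Subtype.val h) d
    rw [h3] at h4
    exact mul_ne_zero two two (by linear_combination -h4)
  obtain ⟨e, he⟩ := exists_pairs neg nn ne _ pair (by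
    rintro β x f ⟨hx, hf, d, hd, h3⟩
    refine ⟨hf, by simpa [neg] using hx, -d, ?_, by simpa [neg] using h3⟩
    rw [← lie_skew, hd, Submodule.coe_neg, diagonal_neg]
    rfl)
  have em : ∀ β, e β ∈ wsp L t β.1 := fun β => (he β).1
  choose cor hc1 hc2 using fun β => (he β).2.2
  have e0 : ∀ β, e β ≠ 0 := fun β => (nz _ _ _ _ (hc1 β) (hc2 β)).1
  have line : ∀ β : Φ, ∀ y ∈ wsp L t β.1, ∃ c : k, y = c • e β := fun β y hy => by
    obtain ⟨v, hv⟩ := finrank_le_one_iff.1 (h1 β.1 β.2.1).1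
    obtain ⟨a, ha⟩ := hv ⟨e β, em β⟩
    obtain ⟨b, hb⟩ := hv ⟨y, hy⟩
    have ha' : a • v.1 = e β := congrArg Subtype.val ha
    have hb' : b • v.1 = y := congrArg Subtype.val hb
    have a0 : a ≠ 0 := fun h => e0 β (by rw [← ha', h, zero_smul])
    exact ⟨b * a⁻¹, by rw [← ha', ← hb', smul_smul, mul_assoc, inv_mul_cancel₀ a0, mul_one]⟩
  have fn : ∀ β, ∃ φ : Matrix n n k →ₗ[k] k, φ (e β) = 1 := fun β =>
    Module.Projective.exists_dual_eq_one k (e0 β)
  choose φ hφ using fn
  obtain ⟨ψ, hψ⟩ := LinearMap.exists_leftInverse_of_injective t.subtype t.ker_subtype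
  let tp : Matrix n n k →ₗ[k] t := ψ ∘ₗ Matrix.diagLinearMap n k k
  let cf : Φ → Matrix n n k →ₗ[k] k := fun β => φ β ∘ₗ comp t β.1
  have tp_t : ∀ d : t, tp (diagonal d.1) = d := fun d => by
    have h4 : Matrix.diagLinearMap n k k (diagonal d.1) = d.1 := Matrix.diag_diagonal _
    simp only [tp, LinearMap.comp_apply, h4]
    exact LinearMap.congr_fun hψ d
  have tp_e : ∀ β, tp (e β) = 0 := fun β => by
    have h3 : Matrix.diagLinearMap n k k (e β) = 0 := by
      funext i
      by_contra h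
      exact β.2.1 (LinearMap.ext fun d => by
        rw [← mem_wA_iff.1 (em β).2 i i h d, sub_self]; rfl)
    simp only [tp, LinearMap.comp_apply, h3, map_zero]
  have cf_t : ∀ β (d : t), cf β (diagonal d.1) = 0 := fun β d => by
    simp only [cf, LinearMap.comp_apply]
    rw [comp_of_ne (diagonal_mem_wA d.1) β.2.1.symm, map_zero]
  have cf_self : ∀ β, cf β (e β) = 1 := fun β => by
    simp only [cf, LinearMap.comp_apply]
    rw [comp_of_mem (em β).2, hφ]
  have cf_ne : ∀ β γ, β ≠ γ → cf β (e γ) = 0 := fun β γ h => by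
    simp only [cf, LinearMap.comp_apply]
    rw [comp_of_ne (em γ).2 fun h' => h (Subtype.ext h'.symm), map_zero]
  have decomp : ∀ x ∈ L, x = diagonal (tp x).1 + ∑ β, cf β x • e β := fun x hx => by
    let T : Matrix n n k →ₗ[k] Matrix n n k :=
      Matrix.diagonalLinearMap n k k ∘ₗ t.subtype ∘ₗ tp + ∑ β, (cf β).smulRight (e β)
    have hT : ∀ y, T y = diagonal (tp y).1 + ∑ β, cf β y • e β := fun y => by
      simp only [T, LinearMap.add_apply, LinearMap.sum_apply, LinearMap.smulRight_apply]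
      rfl
    have h3 := hR.le_of_wsp hD (LinearMap.eqLocus LinearMap.id T) (fun γ y hy => by
      rw [LinearMap.mem_eqLocus, LinearMap.id_apply]
      by_cases hγ : γ = 0
      · subst hγ
        obtain ⟨d, rfl⟩ := hD.zero hy
        rw [hT, tp_t]
        simp only [cf_t, zero_smul, Finset.sum_const_zero, add_zero]
      · by_cases h0 : y = 0
        · rw [h0, map_zero]
        · let β : Φ := ⟨γ, hγ, fun h => h0 (by rw [h] at hy; exact hy)⟩
          obtain ⟨c, hc⟩ := line β y hy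
          rw [hc, map_smul, hT, tp_e, Finset.sum_eq_single β (fun b _ hb => by
            rw [cf_ne b β hb, zero_smul]) (fun h => absurd (Finset.mem_univ _) h), cf_self]
          simp) hx
    rw [← hT]
    exact h3
  have pw : ∀ β, ∃ c : k, e β ^ p = c • 1 := fun β => ((h1 β.1 β.2.1).2 _ (em β)).1
  have a2 : ∀ β, (adm (e β) ^ 2) (e (neg β)) = (-2 : k) • e β := fun β => by
    rw [adm_pow_succ, pow_one, adm_apply, hc1, ← lie_skew, (em β).2, hc2, neg_smul]
  refine ⟨Φ, inferInstance, ⟨{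
    t := t, e := e, wt := fun β => β.1, tp := tp, cf := cf, neg := neg, cor := cor
    t_mem := fun d => hD.mem _ d.2
    e_mem := fun β => (em β).1
    lie_e := fun d β => (em β).2 d
    wt_ne := fun β => β.2.1
    decomp := decomp, tp_t := tp_t, tp_e := tp_e, cf_t := cf_t, cf_self := cf_self
    cf_ne := cf_ne, neg_neg := nn
    wt_neg := fun _ => rfl
    wt_inj := fun β γ h => Or.inl (Subtype.ext h.symm)
    lie_neg := hc1, wt_cor := hc2
    D := fun α => DD (e α)
    neg_ne := ne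
    cor_nc := fun β => ⟨β, by rw [hc2]; exact two⟩
    br := fun β γ h => ?_
    pow := pw
    D_mem := fun α j x hx => DD_mem (em α).1 hx j
    D_zero := fun α x _ => DD_zero _ x
    D_one := fun α x _ => by simp [DD_apply]
    D_t := fun α d j hj => ?_
    D_neg_two := fun α => ?_
    D_neg := fun α j hj => ?_
    D_e := fun α j κ _ => ⟨_, rfl⟩
    E_aut := fun α s => isAut p (em α).1 (pw α) (h2 α.1 α.2.1 _ (em α)) s }⟩⟩
  · by_cases h0 : ⁅e β, e γ⁆ = 0
    · exact ⟨β, 0, by rw [h0, zero_smul]⟩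
    · have h3 := wsp_lie (em β) (em γ)
      exact ⟨⟨β.1 + γ.1, fun h4 => h (Subtype.ext (eq_neg_of_add_eq_zero_right h4)),
        fun h4 => h0 (by rw [h4] at h3; exact h3)⟩, line _ _ h3⟩
  · obtain ⟨i, rfl⟩ : ∃ i, j = i + 1 + 1 := ⟨j - 2, by omega⟩
    rw [DD_apply, adm_pow_succ', ← lie_skew, (em α).2, map_neg, map_smul, adm_pow_succ', lie_self,
      map_zero, smul_zero, neg_zero, smul_zero]
  · rw [DD_apply, a2, smul_smul, Nat.factorial_two, Nat.cast_ofNat, mul_neg, inv_mul_cancel₀ two,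
      neg_smul, one_smul]
  · obtain ⟨i, rfl⟩ : ∃ i, j = i + 1 + 2 := ⟨j - 3, by omega⟩
    rw [DD_apply, pow_add, Module.End.mul_apply, a2, map_smul, adm_pow_succ', lie_self, map_zero,
      smul_zero, smul_zero]

end Pool.Agent.Lib.MP_3a0263_al.R
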