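import Pool.Agent.Lib.MP_3a0263_al.R.Blue
import Pool.Agent.Lib.MP_3a0263_al.R.Basic

namespace Pool.Agent.Lib.MP_3a0263_al.R

open Matrix

attribute [local instance 100] LieRing.ofAssociativeRing

universe u

namespace P3

set_option linter.unusedSectionVars false

variable {k : Type u} [Field k] {n : Type} [Fintype n] [DecidableEq n]
variable {L : LieSubalgebra k (Matrix n n k)} {π : Matrix n n k →ₗ[k] Matrix n n k}
variable {t : Submodule k (n → k)}

/-- the weight of a basis vector, restricted to the kernel of `γ` -/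
def kw (γ : t →ₗ[k] k) (i : n) : LinearMap.ker γ → k := fun d => d.1.1 i

open Classical in
/-- the diagonal idempotent attached to a weight of the kernel of `γ` -/
noncomputable def PP (γ : t →ₗ[k] k) (μ : LinearMap.ker γ → k) : Matrix n n k :=
  diagonal fun i => if kw γ i = μ then 1 else 0

theorem PP_mul_self (γ : t →ₗ[k] k) (μ : LinearMap.ker γ → k) : PP γ μ * PP γ μ = PP γ μ := by
  unfold PP
  rw [diagonal_mul_diagonal]
  congr 1
  funext i
  split_ifs <;> simp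

theorem PP_comm {γ : t →ₗ[k] k} (μ : LinearMap.ker γ → k) {x : Matrix n n k}
    (hx : x ∈ wA t γ) : PP γ μ * x = x * PP γ μ := by
  ext i j
  unfold PP
  rw [diagonal_mul, mul_diagonal]
  by_cases h : x i j = 0
  · simp [h]
  · have e : kw γ i = kw γ j := by
      funext d
      have h1 := mem_wA_iff.1 hx i j h d.1
      have h2 : γ d.1 = 0 := d.2
      rw [h2] at h1
      exact sub_eq_zero.1 h1
    rw [e, mul_comm]

theorem PP_comm_diag (γ : t →ₗ[k] k) (μ : LinearMap.ker γ → k) (d : n → k) :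
    PP γ μ * diagonal d = diagonal d * PP γ μ := by
  unfold PP
  rw [diagonal_mul_diagonal, diagonal_mul_diagonal]
  congr 1
  funext i
  rw [mul_comm]

theorem PP_mul_diag {γ : t →ₗ[k] k} (μ : LinearMap.ker γ → k) (d : t) (hd : γ d = 0) :
    PP γ μ * diagonal d.1 = μ ⟨d, hd⟩ • PP γ μ := by
  unfold PP
  rw [diagonal_mul_diagonal, ← diagonal_smul]
  congr 1
  funext i
  simp only [Pi.smul_apply, smul_eq_mul]
  split_ifs with h
  · rw [← h]; simp [kw]
  · simp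

theorem PP_mem (γ : t →ₗ[k] k) (μ : LinearMap.ker γ → k) : PP γ μ ∈ wA t 0 :=
  diagonal_mem_wA _

open Classical in
theorem sum_PP (γ : t →ₗ[k] k) :
    ∑ μ ∈ (Finset.univ : Finset n).image (kw γ), PP γ μ = 1 := by
  ext i j
  rw [Matrix.sum_apply]
  by_cases h : i = j
  · subst h
    rw [Finset.sum_eq_single (kw γ i)]
    · simp [PP]
    · intro μ _ hμ
      simp [PP, Ne.symm hμ]
    · intro h
      exact absurd (Finset.mem_image.2 ⟨i, Finset.mem_univ _, rfl⟩) h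
  · simp [PP, diagonal_apply_ne _ h, one_apply_ne h]

theorem pi_PP (hR : Rich L π) (hD : Diag L t) {γ : t →ₗ[k] k} {h : t} (hh : γ h = 1)
    (μ : LinearMap.ker γ → k) : ∃ c : k, ∀ v ∈ wsp L t γ, π (PP γ μ * v) = c • v := by
  have h0 : PP γ μ * diagonal h.1 ∈ wA t 0 := by
    have := wA_mul (PP_mem γ μ) (diagonal_mem_wA (t := t) h.1)
    rwa [zero_add] at this
  obtain ⟨d, hd⟩ := hD.zero (hR.pi_wA hD h0)
  refine ⟨γ d, fun v hv => ?_⟩
  have e : PP γ μ * v = ⁅PP γ μ * diagonal h.1, v⁆ := by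
    have h1 := hv.2 h
    rw [hh, one_smul, Ring.lie_def] at h1
    rw [Ring.lie_def, ← mul_assoc, ← PP_comm μ hv.2, mul_assoc, mul_assoc, ← mul_sub, h1]
  rw [e, hR.equi' hv.1, hd, hv.2 d]

theorem exists_PP (hR : Rich L π) (hD : Diag L t) {γ : t →ₗ[k] k} {h : t} (hh : γ h = 1)
    {v : Matrix n n k} (hv : v ∈ wsp L t γ) (h0 : v ≠ 0) :
    ∃ (μ : LinearMap.ker γ → k) (c : k), c ≠ 0 ∧ ∀ w ∈ wsp L t γ, π (PP γ μ * w) = c • w := by
  classical
  by_contra hc
  push Not at hc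
  apply h0
  have h1 : ∀ μ : LinearMap.ker γ → k, π (PP γ μ * v) = 0 := by
    intro μ
    obtain ⟨c, hc'⟩ := pi_PP hR hD hh μ
    by_cases e : c = 0
    · rw [hc' v hv, e, zero_smul]
    · obtain ⟨w, hw, hw'⟩ := hc μ c e
      exact absurd (hc' w hw) hw'
  rw [← hR.left v hv.1, ← one_mul v, ← sum_PP γ, Finset.sum_mul, map_sum]
  exact Finset.sum_eq_zero fun μ _ => h1 μ

/-- if `c y` is the projection of a bracket with a weight vector `w` then it is a multiple of it -/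
theorem proj_lie (hR : Rich L π) (hD : Diag L t) {γ : t →ₗ[k] k} {w y a : Matrix n n k}
    (hw : w ∈ wsp L t γ) (hy : y ∈ wA t γ) (e : y = π ⁅a, w⁆) : ∃ l : k, y = l • w := by
  obtain ⟨d, hd⟩ := hD.zero (hR.comp_mem hD 0 (hR.mem a))
  refine ⟨γ d, ?_⟩
  have h1 := comp_lie' hw.2 0 (π a)
  rw [zero_add, hd, hw.2 d, ← hR.equi' hw.1, ← e, comp_of_mem hy] at h1
  exact h1

theorem pow_diag (hR : Rich L π) (hD : Diag L t) (p : ℕ) [Fact p.Prime] [CharP k p]
    {γ : t →ₗ[k] k} {x : Matrix n n k} (hx : x ∈ wsp L t γ) (h0 : x ≠ 0) :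
    ∃ d : t, ∃ c : k, γ d = 0 ∧ x ^ p = diagonal d.1 + c • 1 := by
  obtain ⟨d, c, e⟩ := hR.pow_wt hD p hx
  refine ⟨d, c, ?_, e⟩
  have h1 : ⁅x ^ p, x⁆ = 0 := by
    rw [Ring.lie_def, ← pow_succ, ← pow_succ', sub_self]
  rw [e, add_lie, smul_lie, one_lie', smul_zero, add_zero, hx.2 d] at h1
  exact (smul_eq_zero.1 h1).resolve_right h0

theorem PP_mul_pow {γ : t →ₗ[k] k} (μ : LinearMap.ker γ → k) {x : Matrix n n k}
    (hx : x ∈ wA t γ) (j : ℕ) : (PP γ μ * x) ^ (j + 1) = PP γ μ * x ^ (j + 1) := by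
  have hc : Commute (PP γ μ) x := PP_comm μ hx
  rw [hc.mul_pow]
  congr 1
  induction j with
  | zero => simp
  | succ j ih => rw [pow_succ, ih, PP_mul_self]

/-- case (i) -/
theorem case_one [Infinite k] (hR : Rich L π) (hD : Diag L t) (p : ℕ) [Fact p.Prime]
    {γ : t →ₗ[k] k} {μ : LinearMap.ker γ → k} {c : k} (hc : c ≠ 0)
    (hP : ∀ w ∈ wsp L t γ, π (PP γ μ * w) = c • w)
    (hq : ∀ x ∈ wsp L t γ, PP γ μ * x ^ p = 0) {x y : Matrix n n k} (hx : x ∈ wsp L t γ)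
    (hy : y ∈ wsp L t γ) (h0 : y ≠ 0) : ∃ l : k, x = l • y := by
  obtain ⟨q, hq'⟩ : ∃ q, p = q + 1 := ⟨p - 1, by have := (Fact.out : p.Prime).pos; omega⟩
  obtain ⟨s, -, M, hM⟩ := exists_comm_pen (PP γ μ * x) (PP γ μ * y) p fun s => by
    have hw : x + s • y ∈ wsp L t γ := (wsp L t γ).add_mem hx ((wsp L t γ).smul_mem s hy)
    rw [← mul_smul_comm, ← mul_add, hq', PP_mul_pow μ hw.2, ← hq', hq _ hw]
  have hw : x + s • y ∈ wsp L t γ := (wsp L t γ).add_mem hx ((wsp L t γ).smul_mem s hy)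
  rw [← mul_smul_comm, ← mul_add] at hM
  set w := x + s • y with hwdef
  have c1 := PP_comm μ hw.2
  have c2 := PP_comm μ hy.2
  have c3 := PP_mul_self γ μ
  set P := PP γ μ with hPdef
  have e : P * y = ⁅P * M * P, w⁆ := by
    have e1 : P * y = P * (P * y) * P := by
      rw [← mul_assoc, c3, mul_assoc, ← c2, ← mul_assoc, c3]
    have e2 : P * (M * (P * w)) * P = P * M * P * w := by
      rw [mul_assoc, mul_assoc, mul_assoc, ← c1, ← mul_assoc P P, c3]
      simp only [mul_assoc]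
    have e3 : P * (P * w * M) * P = w * (P * M * P) := by
      rw [← mul_assoc, ← mul_assoc, c3, c1]
      simp only [mul_assoc]
    rw [e1]
    conv_lhs => rw [hM]
    rw [mul_sub, sub_mul, e2, e3, Ring.lie_def]
  obtain ⟨l, hl⟩ := proj_lie hR hD hw ((wA t γ).smul_mem c hy.2) (by rw [← e, hP y hy])
  have hl0 : l ≠ 0 := by
    rintro rfl
    rw [zero_smul] at hl
    exact h0 ((smul_eq_zero.1 hl).resolve_left hc)
  refine ⟨l⁻¹ * c - s, ?_⟩
  rw [sub_smul, mul_smul, hl, smul_smul, inv_mul_cancel₀ hl0, one_smul, hwdef]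
  abel

theorem lie_mul' (x a b : Matrix n n k) : ⁅x, a * b⁆ = ⁅x, a⁆ * b + a * ⁅x, b⁆ := by
  simp only [Ring.lie_def]; noncomm_ring

theorem lie_pow_mul {x b P u : Matrix n n k} (h1 : ⁅x, b⁆ = P) (h2 : P * b = b * P)
    (hu : P * u = u) (i : ℕ) :
    ⁅x, b ^ (i + 1) * u⁆ = ((i + 1 : ℕ) : k) • (b ^ i * u) + b ^ (i + 1) * ⁅x, u⁆ := by
  induction i with
  | zero => rw [zero_add, pow_one, lie_mul', h1, hu]; simp
  | succ i ih =>
    have hc : P * b ^ (i + 1) = b ^ (i + 1) * P := (Commute.pow_right h2 (i + 1)).eq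
    rw [pow_succ' b (i + 1), mul_assoc, lie_mul', ih, h1, ← mul_assoc, hc, mul_assoc, hu, mul_add,
      mul_smul_comm, ← mul_assoc, ← mul_assoc, ← pow_succ', Nat.cast_succ (i + 1), add_smul,
      one_smul]
    abel

theorem mem_range (p : ℕ) [Fact p.Prime] [CharP k p] {x b P : Matrix n n k} (h1 : ⁅x, b⁆ = P)
    (h2 : P * b = b * P) (h3 : P * x = x * P) (m : ℕ) :
    ∀ (i : ℕ) (u : Matrix n n k), i + m < p → P * u = u → (adm x ^ m) u = 0 →
      ∃ J, ⁅x, J⁆ = b ^ i * u := by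
  induction m with
  | zero =>
    intro i u _ _ hu
    have : u = 0 := by simpa using hu
    exact ⟨0, by simp [this]⟩
  | succ m ih =>
    intro i u hi hu hm
    have hu' : P * ⁅x, u⁆ = ⁅x, u⁆ := by
      rw [Ring.lie_def, mul_sub, ← mul_assoc, ← mul_assoc, h3, mul_assoc, hu]
    obtain ⟨J, hJ⟩ := ih (i + 1) ⁅x, u⁆ (by omega) hu' (by rw [← adm_pow_succ', hm])
    have hne : ((i + 1 : ℕ) : k) ≠ 0 := by
      rw [Ne, CharP.cast_eq_zero_iff k p]
      exact Nat.not_dvd_of_pos_of_lt (by omega) (by omega)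
    refine ⟨((i + 1 : ℕ) : k)⁻¹ • (b ^ (i + 1) * u - J), ?_⟩
    rw [lie_smul, lie_sub, lie_pow_mul h1 h2 hu, hJ, add_sub_cancel_right, smul_smul,
      inv_mul_cancel₀ hne, one_smul]

theorem PP_adm_pow {γ : t →ₗ[k] k} (μ : LinearMap.ker γ → k) {x : Matrix n n k}
    (hx : x ∈ wA t γ) (y : Matrix n n k) (j : ℕ) :
    (adm x ^ j) (PP γ μ * y) = PP γ μ * (adm x ^ j) y := by
  induction j with
  | zero => simp
  | succ j ih =>
    rw [adm_pow_succ, adm_pow_succ, ih, lie_mul', Ring.lie_def x (PP γ μ), PP_comm μ hx, sub_self,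
      zero_mul, zero_add]

/-- case (ii), the kernel -/
theorem case_two (hR : Rich L π) (hD : Diag L t) (p : ℕ) [Fact p.Prime] [CharP k p]
    {γ : t →ₗ[k] k} {h : t} (hh : γ h = 1) {μ : LinearMap.ker γ → k} {c : k} (hc : c ≠ 0)
    (hP : ∀ w ∈ wsp L t γ, π (PP γ μ * w) = c • w) {x y : Matrix n n k} (hx : x ∈ wsp L t γ)
    {q : k} (hq : q ≠ 0) (hxq : PP γ μ * x ^ p = q • PP γ μ)
    (hy : y ∈ wsp L t γ) (h0 : PP γ μ * (adm x ^ (p - 1)) y = 0) : ∃ l : k, y = l • x := by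
  have hp : 0 < p := (Fact.out : p.Prime).pos
  have c1 := PP_comm μ hx.2
  have c2 := PP_comm_diag γ μ h.1
  have c3 := PP_mul_self γ μ
  have c4 : PP γ μ * x ^ (p - 1) = x ^ (p - 1) * PP γ μ :=
    (Commute.pow_right c1 (p - 1)).eq
  have hH : ⁅x, diagonal h.1⁆ = -x := by
    rw [← lie_skew, hx.2 h, hh, one_smul]
  have h1 : ⁅x, (-q⁻¹) • (PP γ μ * x ^ (p - 1) * diagonal h.1)⁆ = PP γ μ := by
    have e1 : ⁅x, PP γ μ * x ^ (p - 1)⁆ = 0 := by
      rw [Ring.lie_def, ← mul_assoc, ← c1, mul_assoc, mul_assoc, ← pow_succ, ← pow_succ', sub_self]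
    rw [lie_smul, lie_mul', e1, zero_mul, zero_add, hH, mul_neg, mul_assoc, ← pow_succ,
      Nat.sub_add_cancel hp, hxq, neg_smul, smul_neg, neg_neg, smul_smul, inv_mul_cancel₀ hq,
      one_smul]
  have h2 : PP γ μ * ((-q⁻¹) • (PP γ μ * x ^ (p - 1) * diagonal h.1)) =
      ((-q⁻¹) • (PP γ μ * x ^ (p - 1) * diagonal h.1)) * PP γ μ := by
    rw [mul_smul_comm, smul_mul_assoc, mul_assoc _ (diagonal h.1), ← c2, mul_assoc (PP γ μ),
      mul_assoc (PP γ μ), ← mul_assoc (x ^ (p - 1)) (PP γ μ), ← c4]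
    simp only [mul_assoc]
  obtain ⟨J, hJ⟩ := mem_range p h1 h2 c1 (p - 1) 0 (PP γ μ * y) (by omega)
    (by rw [← mul_assoc, c3]) (by rw [PP_adm_pow μ hx.2, h0])
  rw [pow_zero, one_mul] at hJ
  obtain ⟨l, hl⟩ := proj_lie hR hD (a := -J) hx ((wA t γ).smul_mem c hy.2)
    (by rw [neg_lie, lie_skew, hJ, hP y hy])
  exact ⟨c⁻¹ * l, by rw [mul_smul, ← hl, smul_smul, inv_mul_cancel₀ hc, one_smul]⟩

/-- case (ii), the image -/
theorem case_two' (hR : Rich L π) (hD : Diag L t) (p : ℕ) [Fact p.Prime] [CharP k p]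
    {γ : t →ₗ[k] k} (μ : LinearMap.ker γ → k) {x y : Matrix n n k} (hx : x ∈ wsp L t γ)
    (h0 : x ≠ 0) (hy : y ∈ wsp L t γ) :
    ∃ l : k, PP γ μ * (adm x ^ (p - 1)) y = l • PP γ μ := by
  have hp : 0 < p := (Fact.out : p.Prime).pos
  have h1 : (adm x ^ (p - 1)) y ∈ wsp L t 0 := by
    refine ⟨adm_pow_mem hx.1 hy.1 _, ?_⟩
    have := wA_adm_pow hx.2 hy.2 (p - 1)
    have e : ((p - 1 : ℕ) : k) • γ + γ = 0 := by
      ext d
      rw [Nat.cast_pred hp, CharP.cast_eq_zero]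
      simp
    rwa [e] at this
  obtain ⟨d, hd⟩ := hD.zero h1
  obtain ⟨d', c, e1, e2⟩ := pow_diag hR hD p hx h0
  have h2 : ⁅x, (adm x ^ (p - 1)) y⁆ = 0 := by
    rw [← adm_pow_succ, Nat.sub_add_cancel hp, adm_pow_p, e2, add_lie, smul_lie, one_lie',
      smul_zero, add_zero, hy.2 d', e1, zero_smul]
  rw [hd, ← lie_skew, hx.2 d, neg_eq_zero] at h2
  have h3 : γ d = 0 := (smul_eq_zero.1 h2).resolve_right h0
  exact ⟨_, by rw [hd, PP_mul_diag μ d h3]⟩

theorem finrank_le_one {V : Submodule k (Matrix n n k)} {x : Matrix n n k}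
    (h : ∀ y ∈ V, ∃ l : k, y = l • x) : Module.finrank k V ≤ 1 := by
  have h1 : V ≤ Submodule.span k (({x} : Finset (Matrix n n k)) : Set (Matrix n n k)) :=
    fun y hy => by
      obtain ⟨l, rfl⟩ := h y hy
      exact Submodule.smul_mem _ _ (Submodule.subset_span (by simp))
  refine (Submodule.finrank_mono h1).trans ?_
  exact (finrank_span_finset_le_card (R := k) ({x} : Finset (Matrix n n k))).trans
    (Finset.card_singleton x).le

theorem finrank_le_two {V : Submodule k (Matrix n n k)} {x z : Matrix n n k}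
    (h : ∀ y ∈ V, ∃ l l' : k, y = l • x + l' • z) : Module.finrank k V ≤ 2 := by
  classical
  have h1 : V ≤ Submodule.span k (({x, z} : Finset (Matrix n n k)) : Set (Matrix n n k)) :=
    fun y hy => by
      obtain ⟨l, l', rfl⟩ := h y hy
      exact Submodule.add_mem _ (Submodule.smul_mem _ _ (Submodule.subset_span (by simp)))
        (Submodule.smul_mem _ _ (Submodule.subset_span (by simp)))
  refine (Submodule.finrank_mono h1).trans ?_
  exact (finrank_span_finset_le_card (R := k) ({x, z} : Finset (Matrix n n k))).trans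
    Finset.card_le_two

end P3

open P3 in
theorem st_p3 (k : Type u) [Field k] [IsAlgClosed k] (p : ℕ) [Fact p.Prime] [CharP k p] :
    S_p3 k p := by
  intro n _ _ L π t hR hD γ hγ
  have hp : 0 < p := (Fact.out : p.Prime).pos
  by_cases hle : Module.finrank k (wsp L t γ) ≤ 1
  · exact Or.inl hle
  right
  obtain ⟨h, hh⟩ : ∃ h : t, γ h = 1 := by
    obtain ⟨d, hd⟩ : ∃ d : t, γ d ≠ 0 := by
      by_contra hc
      push Not at hc
      exact hγ (LinearMap.ext hc)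
    exact ⟨(γ d)⁻¹ • d, by rw [map_smul, smul_eq_mul, inv_mul_cancel₀ hd]⟩
  obtain ⟨v, hv, hv0⟩ : ∃ v ∈ wsp L t γ, v ≠ 0 := by
    by_contra hc
    push Not at hc
    exact hle (finrank_le_one (x := 0) fun y hy => ⟨0, by rw [hc y hy, zero_smul]⟩)
  obtain ⟨μ, c, hc, hP⟩ := exists_PP hR hD hh hv hv0
  obtain ⟨x, hx, hx0⟩ : ∃ x ∈ wsp L t γ, PP γ μ * x ^ p ≠ 0 := by
    by_contra hq
    push Not at hq
    exact hle (finrank_le_one fun y hy => case_one hR hD p hc hP hq hy hv hv0)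
  have h0 : x ≠ 0 := by
    rintro rfl
    exact hx0 (by rw [zero_pow hp.ne', mul_zero])
  obtain ⟨d, c', e1, e2⟩ := pow_diag hR hD p hx h0
  have hxq : PP γ μ * x ^ p = (μ ⟨d, e1⟩ + c') • PP γ μ := by
    rw [e2, mul_add, PP_mul_diag μ d e1, mul_smul_comm, mul_one, add_smul]
  have hq : μ ⟨d, e1⟩ + c' ≠ 0 := fun e => hx0 (by rw [hxq, e, zero_smul])
  obtain ⟨z, hz, hz0⟩ : ∃ z ∈ wsp L t γ, PP γ μ * (adm x ^ (p - 1)) z ≠ 0 := by
    by_contra hz
    push Not at hz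
    exact hle (finrank_le_one fun y hy => case_two hR hD p hh hc hP hx hq hxq hy (hz y hy))
  refine ⟨?_, x, hx, z, hz, fun e => hz0 (by rw [e, mul_zero])⟩
  obtain ⟨l0, hl0⟩ := case_two' hR hD p μ hx h0 hz
  have hl : l0 ≠ 0 := fun e => hz0 (by rw [hl0, e, zero_smul])
  have h2 : Module.finrank k (wsp L t γ) ≤ 2 := by
    refine finrank_le_two (x := x) (z := z) fun y hy => ?_
    obtain ⟨l, hl'⟩ := case_two' hR hD p μ hx h0 hy
    obtain ⟨l1, h1⟩ := case_two hR hD p hh hc hP hx hq hxq (y := y - (l * l0⁻¹) • z)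
      ((wsp L t γ).sub_mem hy ((wsp L t γ).smul_mem _ hz)) (by
        rw [map_sub, map_smul, mul_sub, mul_smul_comm, hl', hl0, smul_smul, mul_assoc,
          inv_mul_cancel₀ hl, mul_one, sub_self])
    exact ⟨l1, l * l0⁻¹, by rw [← h1]; abel⟩
  omega

end Pool.Agent.Lib.MP_3a0263_al.R
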