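import Pool.Agent.Lib.MP_3a0263_al.R.Blue

namespace Pool.Agent.Lib.MP_3a0263_al.R.Refl

open Matrix Polynomial

attribute [local instance 100] LieRing.ofAssociativeRing

universe u v

variable {k : Type u} [Field k] {n : Type} [Fintype n] [DecidableEq n]
  {p : ℕ} {L : LieSubalgebra k (Matrix n n k)} {Φ : Type u} [Fintype Φ]

/-- homogeneous elements of degree `l` -/
def Hs (R : Frame L Φ) {Λ : Type v} [AddCommGroup Λ] (φ : Φ → Λ) (l : Λ) :
    Submodule k (Matrix n n k) where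
  carrier := {x | x ∈ L ∧ (l ≠ 0 → R.tp x = 0) ∧ ∀ β, φ β ≠ l → R.cf β x = 0}
  zero_mem' := ⟨L.zero_mem, fun _ => map_zero _, fun _ _ => map_zero _⟩
  add_mem' := fun {x y} hx hy => ⟨L.add_mem hx.1 hy.1,
    fun h => by rw [map_add, hx.2.1 h, hy.2.1 h, add_zero],
    fun β h => by rw [map_add, hx.2.2 β h, hy.2.2 β h, add_zero]⟩
  smul_mem' := fun c x hx => ⟨L.smul_mem c hx.1,
    fun h => by rw [map_smul, hx.2.1 h, smul_zero],
    fun β h => by rw [map_smul, hx.2.2 β h, smul_zero]⟩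

section frame

variable (R : Frame L Φ) {Λ : Type v} [AddCommGroup Λ] {φ : Φ → Λ}

theorem e_ne (β : Φ) : R.e β ≠ 0 := fun h => by
  have := R.cf_self β
  rw [h, map_zero] at this
  exact zero_ne_one this

theorem e_Hs (β : Φ) : R.e β ∈ Hs R φ (φ β) :=
  ⟨R.e_mem β, fun _ => R.tp_e β, fun γ h => R.cf_ne γ β fun e => h (by rw [e])⟩

theorem t_Hs (d : R.t) : diagonal d.1 ∈ Hs R φ 0 :=
  ⟨R.t_mem d, fun h => (h rfl).elim, fun β _ => R.cf_t β d⟩

theorem Hs_ind {l : Λ} {x : Matrix n n k} (hx : x ∈ Hs R φ l)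
    (f : Module.End k (Matrix n n k)) (S : Submodule k (Matrix n n k))
    (h0 : l = 0 → ∀ d : R.t, f (diagonal d.1) ∈ S) (h1 : ∀ β, φ β = l → f (R.e β) ∈ S) :
    f x ∈ S := by
  rw [R.decomp x hx.1, map_add, map_sum]
  refine S.add_mem ?_ (S.sum_mem fun β _ => ?_)
  · by_cases hl : l = 0
    · exact h0 hl _
    · rw [hx.2.1 hl]; simp
  · rw [map_smul]
    by_cases hb : φ β = l
    · exact S.smul_mem _ (h1 β hb)
    · rw [hx.2.2 β hb, zero_smul]; exact S.zero_mem

theorem lie_t (α : Φ) (d : R.t) : ⁅R.e α, diagonal d.1⁆ = -(R.wt α d) • R.e α := by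
  rw [← lie_skew, R.lie_e, neg_smul]

theorem diag_neg (d : R.t) : diagonal (-d).1 = - diagonal d.1 := by
  simp [diagonal_neg]

theorem cor_neg (α : Φ) : R.cor (R.neg α) = - R.cor α := by
  have h := R.lie_neg (R.neg α)
  rw [R.neg_neg, ← lie_skew, R.lie_neg] at h
  have := congrArg R.tp h
  rw [map_neg, R.tp_t, R.tp_t] at this
  exact this.symm

theorem wt_grading : IsGrading R R.wt := by
  refine ⟨fun β γ δ c hc h => ?_, R.wt_neg⟩
  ext d
  have h1 : ⁅diagonal d.1, ⁅R.e β, R.e γ⁆⁆ = (R.wt β d + R.wt γ d) • ⁅R.e β, R.e γ⁆ := by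
    rw [leibniz_lie, R.lie_e, R.lie_e, smul_lie, lie_smul, add_smul]
  rw [h, lie_smul, R.lie_e] at h1
  have h2 := congrArg (R.cf δ) h1
  simp only [map_smul, R.cf_self, smul_eq_mul, mul_one] at h2
  rw [mul_comm] at h2
  simpa using mul_right_cancel₀ hc h2

theorem weight_Hs {x : Matrix n n k} (hx : x ∈ L) (γ : R.t →ₗ[k] k)
    (h : ∀ d : R.t, ⁅diagonal d.1, x⁆ = γ d • x) : x ∈ Hs R R.wt γ := by
  classical
  have key : ∀ d : R.t, ⁅diagonal d.1, x⁆ = ∑ β, (R.cf β x * R.wt β d) • R.e β := by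
    intro d
    conv_lhs => rw [R.decomp x hx]
    rw [lie_add, lie_sum]
    have : ⁅diagonal d.1, diagonal (R.tp x).1⁆ = (0 : Matrix n n k) := by
      rw [Ring.lie_def, diagonal_mul_diagonal, diagonal_mul_diagonal]
      simp [mul_comm]
    rw [this, zero_add]
    exact Finset.sum_congr rfl fun β _ => by rw [lie_smul, R.lie_e, smul_smul]
  refine ⟨hx, fun hg => ?_, fun β hb => ?_⟩
  · obtain ⟨d, hd⟩ : ∃ d, γ d ≠ 0 := by
      by_contra hh
      push Not at hh
      exact hg (LinearMap.ext hh)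
    have h1 := congrArg R.tp ((h d).symm.trans (key d))
    rw [map_smul, map_sum] at h1
    simp only [map_smul, R.tp_e, smul_zero, Finset.sum_const_zero] at h1
    exact (smul_eq_zero.1 h1).resolve_left hd
  · obtain ⟨d, hd⟩ : ∃ d, R.wt β d ≠ γ d := by
      by_contra hh
      push Not at hh
      exact hb (LinearMap.ext hh)
    have h1 := congrArg (R.cf β) ((h d).symm.trans (key d))
    rw [map_smul, map_sum, Finset.sum_eq_single β] at h1
    · rw [map_smul, R.cf_self, smul_eq_mul, smul_eq_mul, mul_one, mul_comm] at h1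
      by_contra hc
      exact hd (mul_left_cancel₀ hc h1).symm
    · intro γ _ hγ
      rw [map_smul, R.cf_ne β γ hγ.symm, smul_zero]
    · simp

end frame

variable (R : RootData p L Φ) {Λ : Type v} [AddCommGroup Λ] {φ : Φ → Λ}

theorem ad_Hs (hφ : IsGrading R.toFrame φ) (α : Φ) {l : Λ} {x : Matrix n n k}
    (hx : x ∈ Hs R.toFrame φ l) : ⁅R.e α, x⁆ ∈ Hs R.toFrame φ (l + φ α) := by
  refine Hs_ind R.toFrame hx (adm (R.e α)) _ (fun hl d => ?_) (fun β hb => ?_)
  · rw [LieAlgebra.ad_apply, lie_t, hl, zero_add]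
    exact Submodule.smul_mem _ _ (e_Hs _ α)
  · rw [LieAlgebra.ad_apply]
    by_cases h : β = R.neg α
    · rw [h, R.lie_neg, ← hb, h, hφ.2, neg_add_cancel]
      exact t_Hs _ _
    · obtain ⟨δ, c, hc⟩ := R.br α β h
      by_cases h0 : c = 0
      · rw [hc, h0, zero_smul]; exact Submodule.zero_mem _
      · rw [hc, ← hb, add_comm, ← hφ.1 α β δ c h0 hc]
        exact Submodule.smul_mem _ _ (e_Hs _ δ)

theorem adpow_Hs (hφ : IsGrading R.toFrame φ) (α : Φ) {l : Λ} {x : Matrix n n k}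
    (hx : x ∈ Hs R.toFrame φ l) (j : ℕ) :
    (adm (R.e α) ^ j) x ∈ Hs R.toFrame φ (l + j • φ α) := by
  induction j with
  | zero => simpa using hx
  | succ j ih =>
    rw [pow_succ', Module.End.mul_apply, succ_nsmul, ← add_assoc]
    exact ad_Hs R hφ α ih

theorem D_Hs (hφ : IsGrading R.toFrame φ) (α : Φ) {l : Λ} {x : Matrix n n k}
    (hx : x ∈ Hs R.toFrame φ l) (j : ℕ) : R.D α j x ∈ Hs R.toFrame φ (l + j • φ α) := by
  rcases j with _ | _ | j
  · rw [R.D_zero α x hx.1]; simpa using hx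
  · rw [zero_add, R.D_one α x hx.1, one_smul]; exact ad_Hs R hφ α hx
  · refine Hs_ind R.toFrame hx _ _ (fun _ d => ?_) (fun β hb => ?_)
    · rw [R.D_t α d _ (by omega)]; exact Submodule.zero_mem _
    · by_cases h : β = R.neg α
      · rcases j with _ | j
        · rw [h, zero_add, R.D_neg_two, ← hb, h, hφ.2]
          have : -φ α + (1 + 1) • φ α = φ α := by rw [add_smul, one_smul]; abel
          rw [this]
          exact Submodule.neg_mem _ (e_Hs _ α)
        · rw [h, R.D_neg α _ (by omega)]; exact Submodule.zero_mem _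
      · obtain ⟨c, hc⟩ := R.D_e α (j + 1 + 1) β h
        rw [hc, ← hb]
        exact Submodule.smul_mem _ _ (adpow_Hs R hφ α (e_Hs _ β) _)

omit [Fintype n] [DecidableEq n] in
theorem Eop_apply (D : ℕ → Module.End k (Matrix n n k)) (s : k) (x : Matrix n n k) :
    Eop p D s x = ∑ j ∈ Finset.range (p + 1), s ^ j • D j x := by
  simp [Eop, LinearMap.sum_apply]

omit [Fintype n] [DecidableEq n] in
theorem Eop_three (hp : 2 ≤ p) (D : ℕ → Module.End k (Matrix n n k)) (s : k) (x : Matrix n n k)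
    (h : ∀ j, 3 ≤ j → D j x = 0) : Eop p D s x = D 0 x + s • D 1 x + s ^ 2 • D 2 x := by
  rw [Eop_apply, ← Finset.sum_subset (Finset.range_subset_range.2 (by omega : 3 ≤ p + 1))]
  · simp [Finset.sum_range_succ]
  · intro j _ hj
    rw [h j (by simpa using hj), smul_zero]

theorem E_t (hp : 2 ≤ p) (α : Φ) (s : k) (d : R.t) :
    Eop p (R.D α) s (diagonal d.1) = diagonal d.1 - (s * R.wt α d) • R.e α := by
  rw [Eop_three hp _ _ _ fun j hj => R.D_t α d j (by omega), R.D_zero _ _ (R.t_mem d),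
    R.D_one _ _ (R.t_mem d), R.D_t α d 2 le_rfl, lie_t]
  module

theorem D_self (α : Φ) (j : ℕ) (hj : 1 ≤ j) : R.D α j (R.e α) = 0 := by
  obtain ⟨c, hc⟩ := R.D_e α j α (R.neg_ne α).symm
  obtain ⟨i, rfl⟩ : ∃ i, j = i + 1 := ⟨j - 1, by omega⟩
  rw [hc, pow_succ, Module.End.mul_apply, LieAlgebra.ad_apply, lie_self, map_zero, smul_zero]

theorem E_self (hp : 2 ≤ p) (α : Φ) (s : k) : Eop p (R.D α) s (R.e α) = R.e α := by
  rw [Eop_three hp _ _ _ fun j hj => D_self R α j (by omega), R.D_zero _ _ (R.e_mem α),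
    D_self R α 1 le_rfl, D_self R α 2 (by omega)]
  simp

theorem E_neg (hp : 2 ≤ p) (α : Φ) (s : k) : Eop p (R.D α) s (R.e (R.neg α)) =
    R.e (R.neg α) + s • diagonal (R.cor α).1 - s ^ 2 • R.e α := by
  rw [Eop_three hp _ _ _ fun j hj => R.D_neg α j hj, R.D_zero _ _ (R.e_mem _),
    R.D_one _ _ (R.e_mem _), R.D_neg_two, R.lie_neg]
  module

/-- the Weyl group representative -/
noncomputable def nw (α : Φ) (s : kˣ) : Module.End k (Matrix n n k) :=
  Eop p (R.D α) s * Eop p (R.D (R.neg α)) (-(s : k)⁻¹) * Eop p (R.D α) s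

theorem aut_mul {σ τ : Module.End k (Matrix n n k)} (h : IsAut L σ) (h' : IsAut L τ) :
    IsAut L (σ * τ) where
  mem := fun x hx => h.mem _ (h'.mem x hx)
  lie := fun x hx y hy => by
    simp only [Module.End.mul_apply]
    rw [h'.lie x hx y hy, h.lie _ (h'.mem x hx) _ (h'.mem y hy)]
  inj := fun x hx h0 => h'.inj x hx (h.inj _ (h'.mem x hx) h0)
  surj := fun y hy => by
    obtain ⟨x, hx, rfl⟩ := h.surj y hy
    obtain ⟨z, hz, rfl⟩ := h'.surj x hx
    exact ⟨z, hz, rfl⟩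

theorem nw_aut (α : Φ) (s : kˣ) : IsAut L (nw R α s) :=
  aut_mul (aut_mul (R.E_aut _ _) (R.E_aut _ _)) (R.E_aut _ _)

theorem E_neg' (hp : 2 ≤ p) (α : Φ) (s : k) : Eop p (R.D (R.neg α)) s (R.e α) =
    R.e α - s • diagonal (R.cor α).1 - s ^ 2 • R.e (R.neg α) := by
  have := E_neg R hp (R.neg α) s
  rw [R.neg_neg, cor_neg, diag_neg] at this
  rw [this]; module

/-- the reflection on the torus -/
def rf (α : Φ) (d : R.t) : R.t := d - R.wt α d • R.cor α

theorem rf_rf (α : Φ) (d : R.t) : rf R α (rf R α d) = d := by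
  simp only [rf, map_sub, map_smul, R.wt_cor, smul_eq_mul]
  module

theorem diag_rf (α : Φ) (d : R.t) :
    diagonal (rf R α d).1 = diagonal d.1 - R.wt α d • diagonal (R.cor α).1 := by
  simp [rf, diagonal_sub, ← diagonal_smul]

theorem nw_t (hp : 2 ≤ p) (α : Φ) (s : kˣ) (d : R.t) :
    nw R α s (diagonal d.1) = diagonal (rf R α d).1 := by
  have hs : (s : k) ≠ 0 := s.ne_zero
  simp only [nw, Module.End.mul_apply, E_t R hp, map_sub, map_smul, E_neg' R hp, E_self R hp,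
    E_neg R hp, R.wt_neg, R.wt_cor, diag_rf, LinearMap.neg_apply]
  match_scalars <;> field_simp <;> ring

theorem nw_self (hp : 2 ≤ p) (α : Φ) (s : kˣ) :
    nw R α s (R.e α) = -(((s : k)⁻¹) ^ 2) • R.e (R.neg α) := by
  have hs : (s : k) ≠ 0 := s.ne_zero
  simp only [nw, Module.End.mul_apply, E_t R hp, map_sub, map_smul, E_neg' R hp, E_self R hp,
    E_neg R hp, R.wt_cor]
  match_scalars <;> field_simp <;> ring

theorem nw_wt (hp : 2 ≤ p) (α β : Φ) (s : kˣ) (d : R.t) :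
    ⁅diagonal d.1, nw R α s (R.e β)⁆ = R.wt β (rf R α d) • nw R α s (R.e β) := by
  conv_lhs => rw [← rf_rf R α d, ← nw_t R hp α s]
  rw [← (nw_aut R α s).lie _ (R.t_mem _) _ (R.e_mem _), R.lie_e, map_smul]

/-- the weight of the reflected root vector -/
def rw' (α β : Φ) : R.t →ₗ[k] k := R.wt β - R.wt β (R.cor α) • R.wt α

theorem rw'_apply (α β : Φ) (d : R.t) : rw' R α β d = R.wt β (rf R α d) := by
  simp [rw', rf, mul_comm]

theorem nw_Hs (hp : 2 ≤ p) (α β : Φ) (s : kˣ) :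
    nw R α s (R.e β) ∈ Hs R.toFrame R.wt (rw' R α β) :=
  weight_Hs _ ((nw_aut R α s).mem _ (R.e_mem _)) _ fun d => by rw [nw_wt R hp, rw'_apply]

theorem rw'_ne (α β : Φ) : rw' R α β ≠ 0 := fun h => R.wt_ne β (LinearMap.ext fun d => by
  rw [← rf_rf R α d, ← rw'_apply, h]; rfl)

theorem two_lines {x : Matrix n n k} {κ : Φ} (hx : x ∈ Hs R.toFrame R.wt (R.wt κ)) :
    x = R.cf κ x • R.e κ + R.cf (R.neg κ) x • R.e (R.neg κ) := by
  classical
  conv_lhs => rw [R.decomp x hx.1, hx.2.1 (R.wt_ne κ)]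
  rw [Finset.sum_eq_add_of_mem κ (R.neg κ) (Finset.mem_univ _) (Finset.mem_univ _)
    (R.neg_ne κ).symm]
  · simp
  · intro c _ hc
    rw [hx.2.2 c fun h => ?_, zero_smul]
    rcases R.wt_inj κ c h.symm with h | h
    · exact hc.1 h
    · exact hc.2 h

theorem cf_mul [Fact p.Prime] [CharP k p] (α β κ : Φ) (hκ : R.wt κ = rw' R α β) (s : kˣ) :
    R.cf κ (nw R α s (R.e β)) * R.cf (R.neg κ) (nw R α s (R.e β)) = 0 := by
  have hp : 2 ≤ p := (Fact.out : p.Prime).two_le
  have hx := nw_Hs R hp α β s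
  rw [← hκ] at hx
  by_cases hw : R.wt (R.neg κ) = R.wt κ
  swap
  · rw [hx.2.2 _ hw, mul_zero]
  have h2 : (2 : k) = 0 := by
    obtain ⟨d, hd⟩ : ∃ d, R.wt κ d ≠ 0 := by
      by_contra hh
      push Not at hh
      exact R.wt_ne κ (LinearMap.ext hh)
    have := LinearMap.congr_fun hw d
    rw [R.wt_neg, LinearMap.neg_apply] at this
    have h3 : 2 * R.wt κ d = 0 := by linear_combination -this
    exact (mul_eq_zero.1 h3).resolve_right hd
  have hp2 : p = 2 := by
    have : p ∣ 2 := (CharP.cast_eq_zero_iff k p 2).1 (by exact_mod_cast h2)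
    exact le_antisymm (Nat.le_of_dvd two_pos this) hp
  have sq : ∀ a y : Matrix n n k, ⁅a, ⁅a, y⁆⁆ = ⁅a ^ 2, y⁆ := by
    intro a y
    have : ⁅a, ⁅a, y⁆⁆ = ⁅a ^ 2, y⁆ + (2 : k) • (y * a * a - a * y * a) := by
      simp only [Ring.lie_def, two_smul]; noncomm_ring
    rw [this, h2, zero_smul, add_zero]
  have sc : ∀ γ, ∀ y : Matrix n n k, ⁅R.e γ ^ 2, y⁆ = 0 := by
    intro γ y
    obtain ⟨c, hc⟩ := R.pow γ
    rw [← hp2, hc, Ring.lie_def]; simp
  obtain ⟨γ, hγ⟩ := R.cor_nc κ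
  obtain ⟨y, hy, hy'⟩ := (nw_aut R α s).surj _ (R.e_mem γ)
  have h1 : ⁅nw R α s (R.e β), ⁅nw R α s (R.e β), R.e γ⁆⁆ = 0 := by
    rw [← hy', ← (nw_aut R α s).lie _ (R.e_mem _) _ hy,
      ← (nw_aut R α s).lie _ (R.e_mem _) _ (L.lie_mem (R.e_mem _) hy), sq, sc, map_zero]
  set A := R.cf κ (nw R α s (R.e β))
  set B := R.cf (R.neg κ) (nw R α s (R.e β))
  have h3 : (A • R.e κ + B • R.e (R.neg κ)) ^ 2 = A ^ 2 • R.e κ ^ 2 + B ^ 2 • R.e (R.neg κ) ^ 2 +
      (A * B) • ⁅R.e κ, R.e (R.neg κ)⁆ + (2 : k) • (A * B) • (R.e (R.neg κ) * R.e κ) := by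
    simp only [Ring.lie_def, pow_two, add_mul, mul_add, smul_mul_assoc, mul_smul_comm]
    module
  rw [sq, two_lines R hx, h3, h2, zero_smul, add_zero, add_lie, add_lie, smul_lie, smul_lie,
    smul_lie, sc, sc, R.lie_neg, R.lie_e] at h1
  simp only [smul_zero, zero_add, smul_eq_zero, hγ, e_ne, or_false] at h1
  exact h1

/-- index triples -/
def tri (p : ℕ) : Finset (ℕ × ℕ × ℕ) :=
  Finset.range (p + 1) ×ˢ Finset.range (p + 1) ×ˢ Finset.range (p + 1)

/-- a coefficient of the expansion -/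
def co3 (α β κ : Φ) (i : ℕ × ℕ × ℕ) : k :=
  R.cf κ (R.D α i.1 (R.D (R.neg α) i.2.1 (R.D α i.2.2 (R.e β))))

/-- the polynomial `s ^ p * cf κ (n(s) e β)` -/
noncomputable def pol (α β κ : Φ) : k[X] :=
  ∑ i ∈ tri p, monomial (i.1 + (p - i.2.1) + i.2.2) ((-1) ^ i.2.1 * co3 R α β κ i)

theorem nw_apply (α : Φ) (s : kˣ) (x : Matrix n n k) : nw R α s x =
    ∑ i ∈ tri p, ((s : k) ^ i.1 * (-(s : k)⁻¹) ^ i.2.1 * (s : k) ^ i.2.2) •
      R.D α i.1 (R.D (R.neg α) i.2.1 (R.D α i.2.2 x)) := by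
  simp only [nw, Module.End.mul_apply, tri, Finset.sum_product]
  rw [Eop_apply]
  refine Finset.sum_congr rfl fun a _ => ?_
  rw [Eop_apply, map_sum, Finset.smul_sum]
  refine Finset.sum_congr rfl fun b _ => ?_
  rw [Eop_apply, map_smul, map_sum, map_sum, Finset.smul_sum, Finset.smul_sum]
  refine Finset.sum_congr rfl fun c _ => ?_
  rw [map_smul, map_smul, smul_smul, smul_smul]

theorem pol_eval (α β κ : Φ) (s : kˣ) :
    (pol R α β κ).eval (s : k) = (s : k) ^ p * R.cf κ (nw R α s (R.e β)) := by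
  have hs : (s : k) ≠ 0 := s.ne_zero
  rw [pol, eval_finsetSum, nw_apply, map_sum, Finset.mul_sum]
  refine Finset.sum_congr rfl fun i hi => ?_
  have h2 : i.2.1 ≤ p := by
    simp only [tri, Finset.mem_product, Finset.mem_range] at hi
    omega
  obtain ⟨j, hj⟩ := Nat.exists_eq_add_of_le h2
  have h3 : p - i.2.1 = j := by omega
  rw [eval_monomial, map_smul, smul_eq_mul, h3, co3]
  have h4 : (s : k) ^ p = (s : k) ^ i.2.1 * (s : k) ^ j := by rw [← pow_add, ← hj]
  rw [h4, neg_pow ((s : k)⁻¹), inv_pow]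
  field_simp
  ring

theorem poly_zero [Infinite k] (P : k[X]) (h : ∀ s : kˣ, P.eval (s : k) = 0) : P = 0 := by
  have : X * P = 0 := by
    refine Polynomial.funext fun a => ?_
    by_cases ha : a = 0
    · simp [ha]
    · simpa [ha] using h (Units.mk0 a ha)
  exact (mul_eq_zero.1 this).resolve_left X_ne_zero

theorem poly_mono [IsAlgClosed k] (P : k[X]) (h : ∀ s : kˣ, P.eval (s : k) ≠ 0) :
    ∃ (j : ℕ) (c : k), c ≠ 0 ∧ P = monomial j c := by
  have h0 : P ≠ 0 := fun e => h 1 (by simp [e])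
  obtain ⟨Q, hQ, hd⟩ := exists_eq_pow_rootMultiplicity_mul_and_not_dvd P h0 0
  have hQ0 : Q.degree = 0 := by
    by_contra hh
    obtain ⟨a, ha⟩ := IsAlgClosed.exists_root Q hh
    by_cases ha0 : a = 0
    · exact hd (dvd_iff_isRoot.2 (ha0 ▸ ha))
    · refine h (Units.mk0 a ha0) ?_
      rw [hQ, eval_mul, Units.val_mk0, ha.eq_zero, mul_zero]
  refine ⟨P.rootMultiplicity 0, Q.coeff 0, fun e => h0 ?_, ?_⟩
  · rw [hQ, eq_C_of_degree_eq_zero hQ0, e]; simp
  · conv_lhs => rw [hQ, eq_C_of_degree_eq_zero hQ0]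
    rw [map_zero, sub_zero, mul_comm, C_mul_X_pow_eq_monomial]

theorem zpow_inj [Infinite k] {a b : ℤ} (h : ∀ s : kˣ, (s : k) ^ a = (s : k) ^ b) : a = b := by
  have key : ∀ j : ℕ, (∀ s : kˣ, (s : k) ^ j = 1) → j = 0 := by
    intro j hj
    by_contra h0
    have := poly_zero (X ^ j - C (1 : k)) fun s => by simp [hj s]
    exact X_pow_sub_C_ne_zero (Nat.pos_of_ne_zero h0) _ this
  have h1 : ∀ s : kˣ, (s : k) ^ (a - b) = 1 := fun s => by
    rw [zpow_sub₀ s.ne_zero, h s, div_self (zpow_ne_zero _ s.ne_zero)]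
  have := key (a - b).natAbs fun s => by
    rcases Int.natAbs_eq (a - b) with e | e
    · rw [← zpow_natCast, ← e, h1]
    · have := h1 s
      rw [e, _root_.zpow_neg, inv_eq_one, zpow_natCast] at this
      exact this
  omega

theorem exists_refl [IsAlgClosed k] [Fact p.Prime] [CharP k p] (α β : Φ) :
    ∃ (κ : Φ) (m : ℤ) (c : k), c ≠ 0 ∧
      (∀ s : kˣ, nw R α s (R.e β) = (c * (s : k) ^ (-m)) • R.e κ) ∧
      ∃ i : ℕ × ℕ × ℕ, co3 R α β κ i ≠ 0 ∧ (i.1 : ℤ) - i.2.1 + i.2.2 = -m := by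
  have hp : 2 ≤ p := (Fact.out : p.Prime).two_le
  have hne : ∀ s, nw R α s (R.e β) ≠ 0 := fun s h =>
    e_ne R.toFrame β ((nw_aut R α s).inj _ (R.e_mem β) h)
  obtain ⟨κ₀, h0⟩ : ∃ κ, R.wt κ = rw' R α β := by
    by_contra hh
    push Not at hh
    have hx := nw_Hs R hp α β 1
    apply hne 1
    rw [R.decomp _ hx.1, hx.2.1 (rw'_ne R α β)]
    simp [fun γ => hx.2.2 γ (hh γ)]
  have h2 : ∀ s, nw R α s (R.e β) = R.cf κ₀ (nw R α s (R.e β)) • R.e κ₀ +
      R.cf (R.neg κ₀) (nw R α s (R.e β)) • R.e (R.neg κ₀) := fun s =>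
    two_lines R (h0 ▸ nw_Hs R hp α β s)
  have h3 : pol R α β κ₀ * pol R α β (R.neg κ₀) = 0 := poly_zero _ fun s => by
    rw [eval_mul, pol_eval, pol_eval, mul_mul_mul_comm, cf_mul R α β κ₀ h0, mul_zero]
  have z : ∀ κ, pol R α β κ = 0 → ∀ s, R.cf κ (nw R α s (R.e β)) = 0 := fun κ h s => by
    have := pol_eval R α β κ s
    rw [h, eval_zero] at this
    exact (mul_eq_zero.1 this.symm).resolve_left (pow_ne_zero _ s.ne_zero)
  obtain ⟨κ, hκ⟩ : ∃ κ, ∀ s, nw R α s (R.e β) = R.cf κ (nw R α s (R.e β)) • R.e κ := by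
    rcases mul_eq_zero.1 h3 with h | h
    · exact ⟨R.neg κ₀, fun s => by
        conv_lhs => rw [h2 s, z _ h, zero_smul, zero_add]⟩
    · exact ⟨κ₀, fun s => by
        conv_lhs => rw [h2 s, z _ h, zero_smul, add_zero]⟩
  obtain ⟨j, c, hc, hP⟩ := poly_mono (pol R α β κ) fun s h => by
    rw [pol_eval] at h
    have := (mul_eq_zero.1 h).resolve_left (pow_ne_zero _ s.ne_zero)
    exact hne s (by rw [hκ s, this, zero_smul])
  refine ⟨κ, p - j, c, hc, fun s => ?_, ?_⟩
  · have := pol_eval R α β κ s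
    rw [hP, eval_monomial] at this
    rw [hκ s, neg_sub, zpow_sub₀ s.ne_zero, zpow_natCast, zpow_natCast, ← mul_div_assoc, this,
      mul_div_cancel_left₀ _ (pow_ne_zero _ s.ne_zero)]
  · have h4 : (pol R α β κ).coeff j ≠ 0 := by rw [hP, coeff_monomial_same]; exact hc
    rw [pol, finsetSum_coeff] at h4
    obtain ⟨i, hi, h5⟩ := Finset.exists_ne_zero_of_sum_ne_zero h4
    rw [coeff_monomial] at h5
    have h6 : i.2.1 ≤ p := by
      simp only [tri, Finset.mem_product, Finset.mem_range] at hi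
      omega
    split_ifs at h5 with h7
    · exact ⟨i, right_ne_zero_of_mul h5, by omega⟩
    · exact (h5 rfl).elim

theorem co3_deg (hφ : IsGrading R.toFrame φ) {α β κ : Φ} {i : ℕ × ℕ × ℕ} {m : ℤ}
    (h : co3 R α β κ i ≠ 0) (hm : (i.1 : ℤ) - i.2.1 + i.2.2 = -m) : φ κ = φ β - m • φ α := by
  have h1 := D_Hs R hφ α (D_Hs R hφ (R.neg α) (D_Hs R hφ α (e_Hs (φ := φ) R.toFrame β) i.2.2)
    i.2.1) i.1
  by_contra hh
  refine h (h1.2.2 κ fun e => hh ?_)
  rw [e, hφ.2, sub_eq_add_neg, ← neg_smul, ← hm]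
  simp only [add_smul, sub_smul, natCast_zsmul, smul_neg]
  abel

theorem cor_ne (β : Φ) : diagonal (R.cor β).1 ≠ 0 := fun h => by
  obtain ⟨γ, hγ⟩ := R.cor_nc β
  have := R.tp_t (R.cor β)
  rw [h, map_zero] at this
  rw [← this, map_zero] at hγ
  exact hγ rfl

section main

variable {m : Φ → Φ → ℤ} {s : Φ → Φ → Φ} {c : Φ → Φ → k}

theorem m_grading [Infinite k] (hp : 2 ≤ p) (hc : ∀ α β, c α β ≠ 0)
    (hn : ∀ α β (u : kˣ), nw R α u (R.e β) = (c α β * (u : k) ^ (-m α β)) • R.e (s α β))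
    (α : Φ) : IsGrading R.toFrame (m α) := by
  have key : ∀ β γ (u : kˣ), nw R α u ⁅R.e β, R.e γ⁆ =
      (u : k) ^ (-(m α β + m α γ)) • nw R α 1 ⁅R.e β, R.e γ⁆ := by
    intro β γ u
    rw [(nw_aut R α u).lie _ (R.e_mem _) _ (R.e_mem _),
      (nw_aut R α 1).lie _ (R.e_mem _) _ (R.e_mem _), hn, hn, hn, hn]
    simp only [smul_lie, lie_smul, smul_smul, Units.val_one, _root_.one_zpow, neg_add,
      zpow_add₀ u.ne_zero]
    congr 1
    ring
  refine ⟨fun β γ δ a ha h => ?_, fun β => ?_⟩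
  · have : -m α δ = -(m α β + m α γ) := zpow_inj (k := k) fun u => by
      have h1 := key β γ u
      rw [h, map_smul, map_smul, hn, hn] at h1
      have h2 := congrArg (R.cf (s α δ)) h1
      simp only [map_smul, R.cf_self, smul_eq_mul, mul_one, Units.val_one, _root_.one_zpow] at h2
      have h3 : (a * c α δ) * (u : k) ^ (-m α δ) = (a * c α δ) * (u : k) ^ (-(m α β + m α γ)) := by
        linear_combination h2
      exact mul_left_cancel₀ (mul_ne_zero ha (hc α δ)) h3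
    omega
  · have : -(m α β + m α (R.neg β)) = 0 := zpow_inj (k := k) fun u => by
      have h1 := key β (R.neg β) u
      rw [R.lie_neg, nw_t R hp, nw_t R hp] at h1
      have h2 : diagonal (rf R α (R.cor β)).1 ≠ 0 := by
        rw [← nw_t R hp α 1]
        exact fun h => cor_ne R β ((nw_aut R α 1).inj _ (R.t_mem _) h)
      have h3 : ((u : k) ^ (-(m α β + m α (R.neg β))) - 1) • diagonal (rf R α (R.cor β)).1 = 0 := by
        rw [sub_smul, ← h1, one_smul, sub_self]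
      rw [zpow_zero]
      exact sub_eq_zero.1 ((smul_eq_zero.1 h3).resolve_right h2)
    omega

theorem m_two [Infinite k] (hp : 2 ≤ p)
    (hn : ∀ α β (u : kˣ), nw R α u (R.e β) = (c α β * (u : k) ^ (-m α β)) • R.e (s α β))
    (α : Φ) : m α α = 2 ∧ s α α = R.neg α := by
  have h1 : s α α = R.neg α := by
    by_contra hh
    have := congrArg (R.cf (R.neg α)) ((hn α α 1).symm.trans (nw_self R hp α 1))
    rw [map_smul, map_smul, R.cf_self, R.cf_ne _ _ (Ne.symm hh)] at this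
    simp at this
  have h2 : ∀ u : kˣ, c α α * (u : k) ^ (-m α α) = -((u : k)⁻¹ ^ 2) := fun u => by
    have := congrArg (R.cf (R.neg α)) ((hn α α u).symm.trans (nw_self R hp α u))
    rw [h1, map_smul, map_smul, R.cf_self] at this
    simpa using this
  have h3 : c α α = -1 := by simpa using h2 1
  refine ⟨?_, h1⟩
  have : -m α α = -2 := zpow_inj (k := k) fun u => by
    have := h2 u
    rw [h3, neg_one_mul, neg_inj] at this
    rw [this, _root_.zpow_neg, inv_pow, zpow_ofNat]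
  omega

theorem lowest (ψ : Φ → ℤ) (hψ : IsGrading R.toFrame ψ)
    {β κ κ' : Φ} (h2 : ψ β = 2) (hκ : κ ≠ β) (h0 : ⁅R.e (R.neg β), R.e κ⁆ = 0) {a : k}
    (ha : a ≠ 0) (hn : nw R β 1 (R.e κ) = a • R.e κ') (hk : ψ κ' = -ψ κ) : ψ κ ≤ 0 := by
  by_contra hpos
  push Not at hpos
  set v : ℕ → Matrix n n k := fun j => (adm (R.e β) ^ j) (R.e κ) with hv
  have vs : ∀ j, v (j + 1) = ⁅R.e β, v j⁆ := fun j => by
    simp only [hv]
    rw [pow_succ', Module.End.mul_apply, LieAlgebra.ad_apply]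
  have gen : ∀ j, v j = 0 ∨ ∃ δ, ∃ b : k, v j = b • R.e δ ∧ ψ δ = ψ κ + 2 * j ∧ δ ≠ β := by
    intro j
    induction j with
    | zero => exact Or.inr ⟨κ, 1, by simp [hv], by simp, hκ⟩
    | succ j ih =>
      rcases ih with h | ⟨δ, b, h, h', _⟩
      · left; rw [vs, h, lie_zero]
      · have hd : δ ≠ R.neg β := fun e => by
          have := hψ.2 β
          rw [← e] at this
          omega
        obtain ⟨δ', b', hb⟩ := R.br β δ hd
        by_cases hb0 : b' = 0
        · left; rw [vs, h, lie_smul, hb, hb0, zero_smul, smul_zero]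
        · have := hψ.1 β δ δ' b' hb0 hb
          refine Or.inr ⟨δ', b * b', by rw [vs, h, lie_smul, hb, smul_smul], by push_cast; omega,
            fun e => ?_⟩
          rw [e] at this
          omega
  set M : Submodule k (Matrix n n k) := Submodule.span k (Set.range v) with hM
  have vM : ∀ j, v j ∈ M := fun j => Submodule.subset_span ⟨j, rfl⟩
  have stab : ∀ f : Module.End k (Matrix n n k), (∀ j, f (v j) ∈ M) → ∀ x ∈ M, f x ∈ M := by
    intro f hf x hx
    have : M ≤ M.comap f := Submodule.span_le.2 (by rintro _ ⟨j, rfl⟩; exact hf j)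
    exact this hx
  have s1 : ∀ x ∈ M, adm (R.e β) x ∈ M := stab _ fun j => by
    rw [LieAlgebra.ad_apply, ← vs]; exact vM _
  have sh : ∀ j, ⁅diagonal (R.cor (R.neg β)).1, v j⁆ ∈ M := fun j => by
    rcases gen j with h | ⟨δ, b, h, -, -⟩
    · rw [h, lie_zero]; exact M.zero_mem
    · rw [h, lie_smul, R.lie_e, smul_comm, ← h]; exact M.smul_mem _ (vM j)
  have s2 : ∀ x ∈ M, adm (R.e (R.neg β)) x ∈ M := stab _ fun j => by
    rw [LieAlgebra.ad_apply]
    induction j with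
    | zero => simp only [hv, pow_zero, Module.End.one_apply, h0]; exact M.zero_mem
    | succ j ih =>
      have e := R.lie_neg (R.neg β)
      rw [R.neg_neg] at e
      rw [vs, leibniz_lie, e]
      exact M.add_mem (sh j) (s1 _ ih)
  have pw : ∀ f : Module.End k (Matrix n n k), (∀ x ∈ M, f x ∈ M) → ∀ i : ℕ, ∀ x ∈ M,
      (f ^ i) x ∈ M := by
    intro f hf i
    induction i with
    | zero => intro x hx; simpa using hx
    | succ i ih => intro x hx; rw [pow_succ', Module.End.mul_apply]; exact hf _ (ih x hx)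
  have sD : ∀ α, (α = β ∨ α = R.neg β) → ∀ (t : k), ∀ x ∈ M, Eop p (R.D α) t x ∈ M := by
    intro α hα t
    refine stab _ fun j => ?_
    rcases gen j with h | ⟨δ, b, h, h', h''⟩
    · rw [h, map_zero]; exact M.zero_mem
    · rw [Eop_apply]
      refine M.sum_mem fun i _ => M.smul_mem _ ?_
      have hd : δ ≠ R.neg α := by
        rcases hα with rfl | rfl
        · intro e
          have := hψ.2 α
          rw [← e] at this
          omega
        · rwa [R.neg_neg]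
      obtain ⟨b', hb⟩ := R.D_e α i δ hd
      rw [h, map_smul, hb, smul_comm, ← map_smul, ← h]
      refine M.smul_mem _ (pw _ ?_ i _ (vM j))
      rcases hα with rfl | rfl
      · exact s1
      · exact s2
  have h3 : nw R β 1 (R.e κ) ∈ M :=
    sD β (Or.inl rfl) _ _ (sD _ (Or.inr rfl) _ _ (sD β (Or.inl rfl) _ _ (by simpa [hv] using vM 0)))
  have h4 : M ≤ LinearMap.ker (R.cf κ') := Submodule.span_le.2 (by
    rintro _ ⟨j, rfl⟩
    rcases gen j with h | ⟨δ, b, h, h', -⟩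
    · simp [h]
    · have : κ' ≠ δ := fun e => by rw [e] at hk; omega
      simp [h, R.cf_ne κ' δ this])
  have h5 := h4 h3
  rw [LinearMap.mem_ker, hn, map_smul, R.cf_self, smul_eq_mul, mul_one] at h5
  exact ha h5

end main

end Pool.Agent.Lib.MP_3a0263_al.R.Refl

namespace Pool.Agent.Lib.MP_3a0263_al.R

open Matrix Refl

attribute [local instance 100] LieRing.ofAssociativeRing

universe u

theorem st_refl (k : Type u) [Field k] [IsAlgClosed k] (p : ℕ) [Fact p.Prime] [CharP k p] :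
    S_refl k p := by
  intro n _ _ L Φ _ R
  have hp : 2 ≤ p := (Fact.out : p.Prime).two_le
  choose s m c hc hn i hi hm using exists_refl R
  have hg := m_grading R hp hc hn
  have h2 := m_two R hp hn
  have low : ∀ β κ, κ ≠ β → 0 < m β κ → ∃ δ, ∃ a : k, a ≠ 0 ∧
      ⁅R.e (R.neg β), R.e κ⁆ = a • R.e δ := by
    intro β κ hκ hpos
    obtain ⟨δ, a, ha⟩ := R.br (R.neg β) κ (by rwa [R.neg_neg])
    refine ⟨δ, a, fun h0 => ?_, ha⟩
    have h3 := co3_deg R (hg β) (hi β κ) (hm β κ)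
    have := lowest R (m β) (hg β) (h2 β).1 hκ (by rw [ha, h0, zero_smul])
      (a := c β κ * ((1 : kˣ) : k) ^ (-m β κ)) (by simpa using hc β κ) (hn β κ 1)
      (by rw [h3, (h2 β).1, smul_eq_mul]; ring)
    omega
  have inj : ∀ β β', (∀ γ, m γ β = m γ β') → β = β' := by
    intro β β' h
    by_contra hh
    obtain ⟨δ, a, ha, e⟩ := low β β' (Ne.symm hh) (by rw [← h, (h2 β).1]; norm_num)
    have h3 := (hg δ).1 _ _ _ a ha e
    rw [(hg δ).2, (h2 δ).1, h δ] at h3
    omega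
  refine ⟨m, s, hg, fun α => (h2 α).1, fun α => (h2 α).2, fun φ hφ α β => ?_,
    fun Λ _ φ hφ α β => co3_deg R hφ (hi α β) (hm α β), inj, fun β κ h => ?_, fun α β => ?_⟩
  · simpa using co3_deg R hφ (hi α β) (hm α β)
  · have h4 : m β κ = 4 := by rw [h, (h2 β).1]; norm_num
    have hκ : κ ≠ β := fun e => by rw [e, (h2 β).1] at h4; omega
    have hκ' : κ ≠ R.neg β := fun e => by rw [e, (hg β).2, (h2 β).1] at h4; omega
    obtain ⟨δ, a, ha, e⟩ := low β κ hκ (by omega)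
    have hδ : δ = β := inj δ β fun γ => by
      rw [(hg γ).1 _ _ _ a ha e, (hg γ).2, h γ]; ring
    subst hδ
    have hw := (wt_grading R.toFrame).1 _ _ _ a ha e
    rw [R.wt_neg] at hw
    have hw' : R.wt κ = (2 : k) • R.wt δ := by
      rw [two_smul]
      exact (neg_add_eq_iff_eq_add.1 hw.symm)
    obtain ⟨δ', a', e'⟩ := R.br δ κ hκ'
    have ha' : a' = 0 := by
      by_contra h0
      have h3 := (hg δ').1 _ _ _ a' h0 e'
      rw [(h2 δ').1, h δ'] at h3
      omega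
    have h5 : ⁅R.e δ, ⁅R.e (R.neg δ), R.e κ⁆⁆ = 0 := by rw [e, lie_smul, lie_self, smul_zero]
    rw [leibniz_lie, e', ha', zero_smul, lie_zero, add_zero, R.lie_neg, R.lie_e, hw',
      LinearMap.smul_apply, R.wt_cor, smul_eq_mul] at h5
    have h6 : (2 : k) = 0 := by
      simpa using (smul_eq_zero.1 h5).resolve_right (e_ne R.toFrame κ)
    exact R.wt_ne κ (by rw [hw', h6, zero_smul])
  · have h3 := co3_deg R (wt_grading R.toFrame) (hi α β) (hm α β)
    have h4 : R.wt (s α β) = rw' R α β := by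
      by_contra hh
      have := (nw_Hs R hp α β 1).2.2 _ hh
      rw [hn, map_smul, R.cf_self] at this
      simp [hc α β] at this
    obtain ⟨d, hd⟩ : ∃ d, R.wt α d ≠ 0 := by
      by_contra hh
      push Not at hh
      exact R.wt_ne α (LinearMap.ext hh)
    have h5 := LinearMap.congr_fun (h3.symm.trans h4) d
    simp only [rw', LinearMap.sub_apply, LinearMap.smul_apply, smul_eq_mul, zsmul_eq_mul,
      sub_right_inj] at h5
    exact mul_right_cancel₀ hd h5

end Pool.Agent.Lib.MP_3a0263_al.R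

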