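import Pool.Agent.Lib.MP_3a0263_al.R.Blue
import Pool.Agent.Lib.MP_3a0263_al.Proj

namespace Pool.Agent.Lib.MP_3a0263_al.R

attribute [local instance 100] LieRing.ofAssociativeRing

universe u

namespace Setup

/-- Burnside's theorem: a subalgebra of endomorphisms acting simply is everything. -/
theorem burnside_alg {k : Type*} [Field k] [IsAlgClosed k] {Y : Type*} [AddCommGroup Y]
    [Module k Y] [FiniteDimensional k Y] (A : Subalgebra k (Module.End k Y))
    [IsSimpleModule A Y] : A = ⊤ := by
  classical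
  rw [eq_top_iff]
  intro f _
  have hs := (IsSimpleModule.algebraMap_end_bijective_of_isAlgClosed (A := A) (V := Y) k).2
  let F : Module.End (Module.End A Y) Y :=
    { toFun := f
      map_add' := f.map_add
      map_smul' := by
        intro g m
        obtain ⟨c, rfl⟩ := hs g
        simp }
  obtain ⟨s, hs'⟩ := Module.Finite.fg_top (R := k) (M := Y)
  obtain ⟨r, hr⟩ := jacobson_density F s
  have : f = r.1 := by
    apply LinearMap.ext_on hs'
    intro m hm
    exact hr m hm
  rw [this]
  exact r.2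

/-- Burnside's theorem for irreducible Lie modules. -/
theorem burnside_lie {k : Type*} [Field k] [IsAlgClosed k] {g : Type*} [LieRing g]
    [LieAlgebra k g] {Y : Type*} [AddCommGroup Y] [Module k Y] [LieRingModule g Y]
    [LieModule k g Y] [FiniteDimensional k Y] (hi : LieModule.IsIrreducible k g Y) :
    Algebra.adjoin k (Set.range (LieModule.toEnd k g Y)) = ⊤ := by
  have : Nontrivial Y := LieModule.nontrivial_of_isIrreducible k g Y
  set A := Algebra.adjoin k (Set.range (LieModule.toEnd k g Y)) with hA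
  have hmem : ∀ x : g, LieModule.toEnd k g Y x ∈ A := fun x =>
    Algebra.subset_adjoin ⟨x, rfl⟩
  have : IsSimpleModule A Y := by
    rw [isSimpleModule_iff]
    refine { eq_bot_or_eq_top := fun W => ?_ }
    let N : LieSubmodule k g Y :=
      { carrier := W
        add_mem' := fun ha hb => W.add_mem ha hb
        zero_mem' := W.zero_mem
        smul_mem' := fun c m hm => by
          have := W.smul_mem (algebraMap k A c) hm
          simpa using this
        lie_mem := fun {x m} hm => W.smul_mem (⟨_, hmem x⟩ : A) hm }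
    rcases eq_bot_or_eq_top N with h | h
    · left
      rw [eq_bot_iff]
      intro m hm
      have : m ∈ N := hm
      rw [h] at this
      simpa using this
    · right
      rw [eq_top_iff]
      intro m _
      have : m ∈ N := by rw [h]; trivial
      exact this
  exact burnside_alg A

end Setup

theorem st_setup (k : Type u) [Field k] [IsAlgClosed k] : S_setup k := by
  intro g _ _ hR
  obtain ⟨Y, _, _, _, _, hfd, hf, hi, R, hc, hR⟩ := hR
  have : Nontrivial Y := LieModule.nontrivial_of_isIrreducible k g Y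
  obtain ⟨π, h1, h2⟩ := exists_proj hf R hc (fun x r hr => hR x r hr)
  let θ : Module.End k Y ≃ₐ[k] Matrix (Fin (Module.finrank k Y)) (Fin (Module.finrank k Y)) k :=
    LinearMap.toMatrixAlgEquiv (Module.finBasis k Y)
  let ρ : g →ₗ⁅k⁆ Matrix (Fin (Module.finrank k Y)) (Fin (Module.finrank k Y)) k :=
    (θ : Module.End k Y →ₐ[k] _).toLieHom.comp (LieModule.toEnd k g Y)
  have hρ : ∀ x, ρ x = θ (LieModule.toEnd k g Y x) := fun x => rfl
  refine ⟨Fin (Module.finrank k Y), inferInstance, inferInstance, ρ,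
    (ρ : g →ₗ[k] _) ∘ₗ π ∘ₗ θ.symm.toLinearMap, ?_, ?_, ?_, ?_, ?_, ?_⟩
  · intro x y hxy
    rw [hρ, hρ] at hxy
    exact hf.injective_toEnd (θ.injective hxy)
  · exact ⟨⟨0, Module.finrank_pos⟩⟩
  · intro a
    exact ⟨_, rfl⟩
  · rintro _ ⟨x, rfl⟩
    change ρ (π (θ.symm (ρ x))) = ρ x
    rw [hρ x, θ.symm_apply_apply, h1, hρ]
  · rintro _ ⟨x, rfl⟩ a
    change ρ (π (θ.symm ⁅ρ x, a⁆)) = ⁅ρ x, ρ (π (θ.symm a))⁆
    rw [← LieHom.map_lie, ← h2, Ring.lie_def, map_sub, map_mul, map_mul, hρ x,
      θ.symm_apply_apply]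
  · have h3 : (ρ.range : Set (Matrix (Fin (Module.finrank k Y)) (Fin (Module.finrank k Y)) k)) =
        (θ : Module.End k Y →ₐ[k] _) '' Set.range (LieModule.toEnd k g Y) := by
      ext a
      constructor
      · rintro ⟨x, rfl⟩
        exact ⟨_, ⟨x, rfl⟩, rfl⟩
      · rintro ⟨_, ⟨x, rfl⟩, rfl⟩
        exact ⟨x, rfl⟩
    rw [h3, ← AlgHom.map_adjoin, Setup.burnside_lie hi, Algebra.map_top, AlgHom.range_eq_top]
    exact θ.surjective

end Pool.Agent.Lib.MP_3a0263_al.R
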