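import Pool.Agent.Lib.MP_3a0263_al.R.Blue
import Pool.Agent.Lib.MP_3a0263_al.R.Basic

namespace Pool.Agent.Lib.MP_3a0263_al.R

open Matrix LieAlgebra.SpecialLinear

attribute [local instance 100] LieRing.ofAssociativeRing

universe u

set_option linter.unusedSectionVars false
set_option linter.unusedVariables false

namespace SL2

variable {k : Type u} [Field k] {n : Type} [Fintype n] [DecidableEq n] {p : ℕ}
variable {L : LieSubalgebra k (Matrix n n k)} {Φ : Type u} [Fintype Φ]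

theorem e_lie_diag (R : Frame L Φ) (α : Φ) (d : R.t) :
    ⁅R.e α, diagonal d.1⁆ = (- R.wt α d) • R.e α := by
  rw [← lie_skew, R.lie_e, neg_smul]

theorem diag_smul (R : Frame L Φ) (c : k) (d : R.t) :
    (diagonal (c • d).1 : Matrix n n k) = c • diagonal d.1 := by
  rw [Submodule.coe_smul, diagonal_smul]

/-- the shape of the iterated brackets of root vectors -/
theorem string (R : RootData p L Φ) (φ : Φ → ℤ) (hφ : IsGrading R.toFrame φ) (α β : Φ) (j : ℕ) :
    (∃ δ, ∃ c : k, (adm (R.e α) ^ j) (R.e β) = c • R.e δ ∧ (c ≠ 0 → φ δ = φ β + j * φ α)) ∨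
      ∃ d : R.t, (adm (R.e α) ^ j) (R.e β) = diagonal d.1 ∧ φ β + j * φ α = 0 := by
  induction j with
  | zero => exact Or.inl ⟨β, 1, by simp, fun _ => by simp⟩
  | succ j ih =>
    rcases ih with ⟨δ, c, h1, h2⟩ | ⟨d, h1, h2⟩
    · by_cases hc : c = 0
      · refine Or.inl ⟨β, 0, ?_, fun h => absurd rfl h⟩
        rw [adm_pow_succ, h1, hc]; simp
      by_cases hδ : δ = R.neg α
      · refine Or.inr ⟨c • R.cor α, ?_, ?_⟩
        · rw [adm_pow_succ, h1, hδ, lie_smul, R.lie_neg, diag_smul]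
        · have := h2 hc
          rw [hδ, hφ.2] at this
          push_cast
          linarith
      · obtain ⟨δ', c', h3⟩ := R.br α δ hδ
        refine Or.inl ⟨δ', c * c', ?_, fun h => ?_⟩
        · rw [adm_pow_succ, h1, lie_smul, h3, smul_smul]
        · have := hφ.1 α δ δ' c' (right_ne_zero_of_mul h) h3
          have := h2 hc
          push_cast
          linarith
    · refine Or.inl ⟨α, - R.wt α d, ?_, fun _ => ?_⟩
      · rw [adm_pow_succ, h1, e_lie_diag]
      · push_cast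
        linarith

theorem pow_diag (R : Frame L Φ) (α : Φ) (d : R.t) {j : ℕ} (hj : 2 ≤ j) :
    (adm (R.e α) ^ j) (diagonal d.1) = 0 := by
  obtain ⟨i, rfl⟩ := Nat.exists_eq_add_of_le' hj
  rw [show i + 2 = i + 1 + 1 from rfl, adm_pow_succ', adm_pow_succ', e_lie_diag, lie_smul,
    lie_self, smul_zero, map_zero]

theorem expand (R : Frame L Φ) (α : Φ) {w : Matrix n n k} (hw : w ∈ L) {j : ℕ} (hj : 2 ≤ j) :
    (adm (R.e α) ^ j) w = ∑ β, R.cf β w • (adm (R.e α) ^ j) (R.e β) := by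
  conv_lhs => rw [R.decomp w hw]
  rw [map_add, pow_diag R α _ hj, zero_add, map_sum]
  simp only [map_smul]

theorem three [Fact p.Prime] (hp : p ≠ 2) (R : RootData p L Φ) {Δ : Finset Φ} {co : Φ → Φ → ℤ}
    (hB : BaseData R.toFrame Δ co) {α : Φ} (hK : KerCond p R.toFrame α) : p = 3 := by
  have hp2 : 2 ≤ p := (Fact.out : p.Prime).two_le
  obtain ⟨w, hw, h1⟩ := hK (R.e α) (R.e_mem α) (lie_self _)
  rw [expand R.toFrame α hw (by omega)] at h1
  have h2 := congrArg (R.cf α) h1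
  rw [R.cf_self, map_sum] at h2
  obtain ⟨β, -, hβ⟩ := Finset.exists_ne_zero_of_sum_ne_zero (h2 ▸ one_ne_zero)
  rw [map_smul, smul_eq_mul] at hβ
  have h3 := right_ne_zero_of_mul hβ
  have h4 : ∀ i ∈ Δ, co β i = (2 - p : ℤ) * co α i := by
    intro i hi
    rcases string R _ (hB.grad i hi) α β (p - 1) with ⟨δ, c, h5, h6⟩ | ⟨d, h5, -⟩
    · rw [h5, map_smul, smul_eq_mul] at h3
      have hδ : α = δ := by
        by_contra hne
        exact right_ne_zero_of_mul h3 (R.cf_ne _ _ hne)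
      subst hδ
      have := h6 (left_ne_zero_of_mul h3)
      rw [Nat.cast_sub (by omega)] at this
      push_cast at this
      linarith
    · rw [h5, R.cf_t] at h3
      exact absurd rfl h3
  rcases hB.red α β _ h4 with h | h <;> omega

theorem ker_wt (R : RootData p L Φ) {Δ : Finset Φ} {co : Φ → Φ → ℤ}
    (hB : BaseData R.toFrame Δ co) {α : Φ} (hK : KerCond 3 R.toFrame α) (d : R.t)
    (hd : R.wt α d = 0) : d = 0 := by
  by_contra hne
  obtain ⟨w, hw, h1⟩ := hK (diagonal d.1) (R.t_mem d) (by rw [e_lie_diag, hd]; simp)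
  rw [expand R.toFrame α hw (by omega)] at h1
  have h2 := congrArg R.tp h1
  rw [R.tp_t, map_sum] at h2
  obtain ⟨β, -, hβ⟩ := Finset.exists_ne_zero_of_sum_ne_zero (h2 ▸ hne)
  rw [map_smul] at hβ
  have h3 := right_ne_zero_of_smul hβ
  have h4 : ∀ i ∈ Δ, co β i = (-2 : ℤ) * co α i := by
    intro i hi
    rcases string R _ (hB.grad i hi) α β (3 - 1) with ⟨δ, c, h5, -⟩ | ⟨d', -, h6⟩
    · rw [h5, map_smul, R.tp_e, smul_zero] at h3
      exact absurd rfl h3
    · push_cast at h6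
      linarith
  rcases hB.red α β _ h4 with h | h <;> omega

theorem two_ne [CharP k 3] : (2 : k) ≠ 0 := by
  intro h
  have := (CharP.cast_eq_zero_iff k 3 2).1 (by exact_mod_cast h)
  omega

theorem t_eq [CharP k 3] (R : Frame L Φ) {α : Φ} (hk : ∀ d : R.t, R.wt α d = 0 → d = 0)
    (d : R.t) : d = (R.wt α d / 2) • R.cor α := by
  refine sub_eq_zero.1 (hk _ ?_)
  rw [map_sub, map_smul, R.wt_cor, smul_eq_mul, div_mul_cancel₀ _ two_ne, sub_self]

theorem roots [CharP k 3] (R : Frame L Φ) {α : Φ} (hk : ∀ d : R.t, R.wt α d = 0 → d = 0)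
    (hi : ∀ β, ∃ z : ℤ, R.wt β (R.cor α) = z) (β : Φ) : β = α ∨ β = R.neg α := by
  obtain ⟨z, hz⟩ := hi β
  have h3 : (3 : k) = 0 := by exact_mod_cast CharP.cast_eq_zero k 3
  have hw : ∀ c : k, (z : k) = 2 * c → R.wt β = c • R.wt α := by
    intro c hc
    ext d
    rw [t_eq R hk d, map_smul, map_smul, LinearMap.smul_apply, R.wt_cor, hz, hc]
    simp [mul_comm]
  obtain ⟨q, hq⟩ : ∃ q : ℤ, z = 3 * q ∨ z = 3 * q + 1 ∨ z = 3 * q + 2 := ⟨z / 3, by omega⟩
  rcases hq with h | h | h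
  · refine absurd ?_ (R.wt_ne β)
    rw [hw 0 (by rw [h]; push_cast; linear_combination (q : k) * h3), zero_smul]
  · have := hw (-1) (by rw [h]; push_cast; linear_combination (q + 1 : k) * h3)
    have h2 : R.wt (R.neg α) = R.wt β := by
      rw [this, R.wt_neg]
      ext d
      simp
    rcases R.wt_inj _ _ h2 with h | h
    · exact Or.inr h
    · exact Or.inl (by rw [h, R.neg_neg])
  · have := hw 1 (by rw [h]; push_cast; linear_combination (q : k) * h3)
    rw [one_smul] at this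
    exact R.wt_inj _ _ this.symm

theorem tr0 (M : sl (Fin 2) k) : M.1 1 1 = - M.1 0 0 := by
  have h : Matrix.trace M.1 = 0 := M.2
  rw [Matrix.trace_fin_two] at h
  linear_combination h

/-- the linear map attached to a triple -/
def lin (h e f : L) : sl (Fin 2) k →ₗ[k] L where
  toFun M := M.1 0 0 • h + M.1 0 1 • e + M.1 1 0 • f
  map_add' M N := by
    simp only [AddMemClass.coe_add, Matrix.add_apply, add_smul]
    abel
  map_smul' c M := by
    simp only [SetLike.val_smul, Matrix.smul_apply, smul_eq_mul, RingHom.id_apply, smul_add,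
      mul_smul]

theorem lin_apply (h e f : L) (M : sl (Fin 2) k) :
    lin h e f M = M.1 0 0 • h + M.1 0 1 • e + M.1 1 0 • f := rfl

theorem lin_lie {h e f : L} (he : ⁅h, e⁆ = (2 : k) • e) (hf : ⁅h, f⁆ = (-2 : k) • f)
    (hef : ⁅e, f⁆ = h) (M N : sl (Fin 2) k) :
    lin h e f ⁅M, N⁆ = ⁅lin h e f M, lin h e f N⁆ := by
  have he' : ⁅e, h⁆ = (-2 : k) • e := by rw [← lie_skew, he, neg_smul]
  have hf' : ⁅f, h⁆ = (2 : k) • f := by rw [← lie_skew, hf, neg_smul, neg_neg]
  have hfe : ⁅f, e⁆ = (-1 : k) • h := by rw [← lie_skew, hef, neg_smul, one_smul]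
  rw [lin_apply, lin_apply, lin_apply, sl_bracket]
  simp only [add_lie, lie_add, smul_lie, lie_smul, he, hf, hef, he', hf', hfe, lie_self,
    Matrix.sub_apply, Matrix.mul_apply, Fin.sum_univ_two, tr0]
  module

theorem iso [CharP k 3] (R : Frame L Φ) {α : Φ} (hne : R.neg α ≠ α)
    (hk : ∀ d : R.t, R.wt α d = 0 → d = 0) (hr : ∀ β, β = α ∨ β = R.neg α) :
    Nonempty (L ≃ₗ⁅k⁆ sl (Fin 2) k) := by
  classical
  let h : L := ⟨diagonal (R.cor α).1, R.t_mem _⟩
  let e : L := ⟨R.e α, R.e_mem _⟩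
  let f : L := ⟨R.e (R.neg α), R.e_mem _⟩
  have he : ⁅h, e⁆ = (2 : k) • e := Subtype.ext (by
    change ⁅diagonal (R.cor α).1, R.e α⁆ = (2 : k) • R.e α
    rw [R.lie_e, R.wt_cor])
  have hf : ⁅h, f⁆ = (-2 : k) • f := Subtype.ext (by
    change ⁅diagonal (R.cor α).1, R.e (R.neg α)⁆ = (-2 : k) • R.e (R.neg α)
    rw [R.lie_e, R.wt_neg, LinearMap.neg_apply, R.wt_cor])
  have hef : ⁅e, f⁆ = h := Subtype.ext (R.lie_neg α)
  let ψ : sl (Fin 2) k →ₗ⁅k⁆ L := { lin h e f with map_lie' := fun {M N} => lin_lie he hf hef M N }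
  have hψ : ∀ M, ((ψ M : L) : Matrix n n k) =
      M.1 0 0 • diagonal (R.cor α).1 + M.1 0 1 • R.e α + M.1 1 0 • R.e (R.neg α) := fun M => rfl
  refine ⟨(LieEquiv.ofBijective ψ ⟨?_, ?_⟩).symm⟩
  · refine (injective_iff_map_eq_zero ψ).2 fun M hM => ?_
    have h0 := hψ M
    rw [hM, ZeroMemClass.coe_zero] at h0
    have h1 := congrArg (fun x => R.wt α (R.tp x)) h0
    have h2 := congrArg (R.cf α) h0
    have h3 := congrArg (R.cf (R.neg α)) h0
    simp only [map_add, map_smul, map_zero, R.tp_t, R.tp_e, R.wt_cor, smul_eq_mul, mul_zero,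
      add_zero, R.cf_t, R.cf_self, R.cf_ne _ _ hne, R.cf_ne _ _ hne.symm, zero_add,
      mul_one] at h1 h2 h3
    have h4 : M.1 0 0 = 0 := (mul_eq_zero.1 h1.symm).resolve_right two_ne
    have h5 := tr0 M
    refine Subtype.ext ?_
    ext i j
    fin_cases i <;> fin_cases j <;> simp [h4, h5, ← h2, ← h3]
  · intro x
    let c : k := R.wt α (R.tp x.1) / 2
    refine ⟨⟨!![c, R.cf α x.1; R.cf (R.neg α) x.1, -c], ?_⟩, Subtype.ext ?_⟩
    · change Matrix.trace (!![c, R.cf α x.1; R.cf (R.neg α) x.1, -c] : Matrix (Fin 2) (Fin 2) k) = 0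
      simp [Matrix.trace_fin_two]
    · rw [hψ]
      have hu : (Finset.univ : Finset Φ) = {α, R.neg α} := by
        ext β
        simpa using hr β
      conv_rhs => rw [R.decomp x.1 x.2, hu, Finset.sum_pair hne.symm, t_eq R hk (R.tp x.1),
        diag_smul]
      simp [c, add_assoc]

end SL2

theorem st_sl2 (k : Type u) [Field k] [IsAlgClosed k] (p : ℕ) [Fact p.Prime] [CharP k p] :
    S_sl2 k p := by
  intro hp n _ _ L Φ _ R Δ co hB α hK
  obtain rfl := SL2.three hp R hB hK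
  have hk := SL2.ker_wt R hB hK
  exact SL2.iso R.toFrame (R.neg_ne α) hk (SL2.roots R.toFrame hk (hB.int α))

end Pool.Agent.Lib.MP_3a0263_al.R
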