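import Pool.Agent.Lib.MP_3a0263_al.R.Blue

namespace Pool.Agent.Lib.MP_3a0263_al.R

open Matrix LieAlgebra.SpecialLinear

attribute [local instance 100] LieRing.ofAssociativeRing

universe u

namespace SL3

section Serre

variable {k : Type u} [Field k] {M : Type*} [LieRing M] [LieAlgebra k M]

/-- the Serre relations of type `A2` -/
structure Ser (k : Type u) [Field k] {M : Type*} [LieRing M] [LieAlgebra k M] (a a' b b' c c' H K : M) :
    Prop where
  ab : ⁅a, b⁆ = c
  ba' : ⁅b', a'⁆ = c'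
  aa : ⁅a, a'⁆ = H
  bb : ⁅b, b'⁆ = K
  ab' : ⁅a, b'⁆ = 0
  a'b : ⁅a', b⁆ = 0
  Ha : ⁅H, a⁆ = (2 : k) • a
  Ha' : ⁅H, a'⁆ = -((2 : k) • a')
  Hb : ⁅H, b⁆ = -b
  Hb' : ⁅H, b'⁆ = b'
  Ka : ⁅K, a⁆ = -a
  Ka' : ⁅K, a'⁆ = a'
  Kb : ⁅K, b⁆ = (2 : k) • b
  Kb' : ⁅K, b'⁆ = -((2 : k) • b')
  HK : ⁅H, K⁆ = 0
  ac : ⁅a, c⁆ = 0
  bc : ⁅b, c⁆ = 0
  ac' : ⁅a', c'⁆ = 0
  bc' : ⁅b', c'⁆ = 0

variable {a a' b b' c c' H K : M}

theorem sk {x y z : M} (h : ⁅x, y⁆ = z) : ⁅y, x⁆ = -z := by rw [← lie_skew, h]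

theorem Ser.a'c (h : Ser k a a' b b' c c' H K) : ⁅a', c⁆ = b := by
  rw [← h.ab, leibniz_lie, sk h.aa, h.a'b, neg_lie, h.Hb]; simp

theorem Ser.b'c (h : Ser k a a' b b' c c' H K) : ⁅b', c⁆ = -a := by
  rw [← h.ab, leibniz_lie, sk h.ab', sk h.bb, lie_neg, sk h.Ka]; simp

theorem Ser.a_c' (h : Ser k a a' b b' c c' H K) : ⁅a, c'⁆ = -b' := by
  rw [← h.ba', leibniz_lie, h.ab', h.aa, sk h.Hb']; simp

theorem Ser.b_c' (h : Ser k a a' b b' c c' H K) : ⁅b, c'⁆ = a' := by
  rw [← h.ba', leibniz_lie, h.bb, sk h.a'b, h.Ka']; simp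

theorem Ser.Hc (h : Ser k a a' b b' c c' H K) : ⁅H, c⁆ = c := by
  rw [← h.ab, leibniz_lie, h.Ha, h.Hb, smul_lie, lie_neg]; module

theorem Ser.Kc (h : Ser k a a' b b' c c' H K) : ⁅K, c⁆ = c := by
  rw [← h.ab, leibniz_lie, h.Ka, h.Kb, lie_smul, neg_lie]; module

theorem Ser.Hc' (h : Ser k a a' b b' c c' H K) : ⁅H, c'⁆ = -c' := by
  rw [← h.ba', leibniz_lie, h.Ha', h.Hb', lie_neg, lie_smul]; module

theorem Ser.Kc' (h : Ser k a a' b b' c c' H K) : ⁅K, c'⁆ = -c' := by
  rw [← h.ba', leibniz_lie, h.Ka', h.Kb', neg_lie, smul_lie]; module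

theorem Ser.cc (h : Ser k a a' b b' c c' H K) : ⁅c, c'⁆ = H + K := by
  rw [← h.ab, lie_lie, h.b_c', h.a_c', lie_neg, h.aa, h.bb, sub_neg_eq_add]

/-- the linear map from `3 × 3` matrices -/
def F (k : Type u) [Field k] {M : Type*} [LieRing M] [LieAlgebra k M] (a a' b b' c c' H K : M) :
    Matrix (Fin 3) (Fin 3) k →ₗ[k] M where
  toFun X := X 0 1 • a + X 1 0 • a' + X 1 2 • b + X 2 1 • b' + X 0 2 • c + X 2 0 • c' + X 0 0 • H - X 2 2 • K
  map_add' X Y := by simp only [Matrix.add_apply]; module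
  map_smul' r X := by simp only [Matrix.smul_apply, RingHom.id_apply, smul_eq_mul]; module

theorem F_apply (X : Matrix (Fin 3) (Fin 3) k) : F k a a' b b' c c' H K X =
    X 0 1 • a + X 1 0 • a' + X 1 2 • b + X 2 1 • b' + X 0 2 • c + X 2 0 • c' + X 0 0 • H - X 2 2 • K := rfl

theorem mid (X : sl (Fin 3) k) : X.1 1 1 = -X.1 0 0 - X.1 2 2 := by
  have h : Matrix.trace X.1 = 0 := X.2
  rw [Matrix.trace_fin_three] at h
  linear_combination h

theorem Ser.lie (h : Ser k a a' b b' c c' H K) (X Y : sl (Fin 3) k) :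
    F k a a' b b' c c' H K ⁅X, Y⁆.1 = ⁅F k a a' b b' c c' H K X.1, F k a a' b b' c c' H K Y.1⁆ := by
  simp only [F_apply, sl_bracket, Matrix.sub_apply, Matrix.mul_apply, Fin.sum_univ_three, mid X, mid Y, lie_add,
    add_lie, lie_sub, sub_lie, lie_smul, smul_lie, lie_self, h.ab, h.ba', h.aa, h.bb, h.ab', h.a'b, h.Ha, h.Ha',
    h.Hb, h.Hb', h.Ka, h.Ka', h.Kb, h.Kb', h.HK, h.ac, h.bc, h.ac', h.bc', h.a'c, h.b'c, h.a_c', h.b_c', h.Hc,
    h.Kc, h.Hc', h.Kc', h.cc, sk h.ab, sk h.ba', sk h.aa, sk h.bb, sk h.ab', sk h.a'b, sk h.Ha, sk h.Ha',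
    sk h.Hb, sk h.Hb', sk h.Ka, sk h.Ka', sk h.Kb, sk h.Kb', sk h.HK, sk h.ac, sk h.bc, sk h.ac', sk h.bc',
    sk h.a'c, sk h.b'c, sk h.a_c', sk h.b_c', sk h.Hc, sk h.Kc, sk h.Hc', sk h.Kc', sk h.cc]
  module

theorem Ser.indep (h : Ser k a a' b b' c c' H K) (hc : c ≠ 0) (h3 : (3 : k) ≠ 0) {x1 x2 x3 x4 x5 x6 x7 x8 : k}
    (hu : x1 • a + x2 • a' + x3 • b + x4 • b' + x5 • c + x6 • c' + x7 • H - x8 • K = 0) :
    x1 = 0 ∧ x2 = 0 ∧ x3 = 0 ∧ x4 = 0 ∧ x5 = 0 ∧ x6 = 0 ∧ x7 = 0 ∧ x8 = 0 := by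
  have z : ∀ x : k, x • c = 0 → x = 0 := fun x hx => (smul_eq_zero.1 hx).resolve_right hc
  have e1 := congrArg (fun v => ⁅c, v⁆) hu
  have e2 := congrArg (fun v => ⁅a, v⁆) hu
  have e3 := congrArg (fun v => ⁅b, v⁆) hu
  simp only [lie_add, lie_sub, lie_smul, lie_self, lie_zero, sk h.ac, sk h.a'c, sk h.bc, sk h.b'c, h.cc, sk h.Hc,
    sk h.Kc, h.aa, h.ab, h.ab', h.ac, h.a_c', sk h.Ha, sk h.Ka, sk h.ab, sk h.a'b, h.bb, h.bc, h.b_c', sk h.Hb,
    sk h.Kb] at e1 e2 e3
  have e4 := congrArg (fun v => ⁅a, v⁆) e1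
  have e5 := congrArg (fun v => ⁅b, v⁆) e1
  simp only [lie_add, lie_sub, lie_smul, lie_neg, lie_self, lie_zero, h.ab, h.ac, sk h.Ha, sk h.Ka, sk h.ab, h.bc,
    sk h.Hb, sk h.Kb] at e4 e5
  have e6 := congrArg (fun v => ⁅b, v⁆) e4
  simp only [lie_add, lie_sub, lie_smul, lie_neg, lie_zero, sk h.ab, h.bc] at e6
  have h6 : x6 = 0 := z _ (by linear_combination (norm := module) e6)
  subst h6
  have h2 : x2 = 0 := z _ (by linear_combination (norm := module) -e4)
  have h4 : x4 = 0 := z _ (by linear_combination (norm := module) -e5)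
  subst h2 h4
  have h78 : x8 - x7 = 0 := z _ (by linear_combination (norm := module) e1)
  have e7 := congrArg (fun v => ⁅b, v⁆) e2
  simp only [lie_add, lie_sub, lie_smul, lie_neg, lie_zero, sk h.ab, h.bc, h.bb, sk h.Hb] at e7
  have h9 : 2 * x7 + x8 = 0 := z _ (by linear_combination (norm := module) e7)
  have h7 : x7 = 0 := (mul_eq_zero.1 (by linear_combination h9 - h78 : 3 * x7 = 0)).resolve_left h3
  subst h7
  have h8 : x8 = 0 := by linear_combination h78
  subst h8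
  have h3' : x3 = 0 := z _ (by linear_combination (norm := module) e2)
  have h1 : x1 = 0 := z _ (by linear_combination (norm := module) -e3)
  subst h3' h1
  exact ⟨rfl, rfl, rfl, rfl, z _ (by linear_combination (norm := module) hu), rfl, rfl, rfl⟩

theorem Ser.equiv (h : Ser k a a' b b' c c' H K) (hc : c ≠ 0) (h3 : (3 : k) ≠ 0) (L : LieSubalgebra k M)
    (hL : L.toSubmodule = Submodule.span k {a, a', b, b', c, c', H, K}) : Nonempty (L ≃ₗ⁅k⁆ sl (Fin 3) k) := by
  let f : sl (Fin 3) k →ₗ⁅k⁆ M :=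
    { (F k a a' b b' c c' H K).comp (sl (Fin 3) k).toSubmodule.subtype with
      map_lie' := fun {X Y} => h.lie X Y }
  have hf : ∀ X, f X = F k a a' b b' c c' H K X.1 := fun _ => rfl
  have hi : Function.Injective f := by
    refine (injective_iff_map_eq_zero f).2 fun X hX => ?_
    rw [hf, F_apply] at hX
    obtain ⟨h1, h2, h3, h4, h5, h6, h7, h8⟩ := h.indep hc h3 hX
    have h9 := mid X
    rw [h7, h8, neg_zero, sub_zero] at h9
    ext i j
    fin_cases i <;> fin_cases j <;> assumption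
  have hr : ∀ x1 x2 x3 x4 x5 x6 x7 x8 : k,
      x1 • a + x2 • a' + x3 • b + x4 • b' + x5 • c + x6 • c' + x7 • H - x8 • K ∈ f.range := by
    intro x1 x2 x3 x4 x5 x6 x7 x8
    refine ⟨⟨!![x7, x1, x5; x2, -x7 - x8, x3; x6, x4, x8], ?_⟩, rfl⟩
    change Matrix.trace (!![x7, x1, x5; x2, -x7 - x8, x3; x6, x4, x8]) = 0
    simp [Matrix.trace_fin_three]
    ring
  have he : (f.range : Set M) = L := by
    apply Set.Subset.antisymm
    · rintro _ ⟨X, rfl⟩
      change f X ∈ L.toSubmodule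
      rw [hf, F_apply, hL]
      refine sub_mem (add_mem (add_mem (add_mem (add_mem (add_mem (add_mem ?_ ?_) ?_) ?_) ?_) ?_) ?_) ?_ <;>
        exact Submodule.smul_mem _ _ (Submodule.subset_span (by simp))
    · change L.toSubmodule ≤ f.range.toSubmodule
      rw [hL, Submodule.span_le]
      intro x hx
      change x ∈ f.range
      simp only [Set.mem_insert_iff, Set.mem_singleton_iff] at hx
      rcases hx with rfl | rfl | rfl | rfl | rfl | rfl | rfl | rfl
      · simpa using hr 1 0 0 0 0 0 0 0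
      · simpa using hr 0 1 0 0 0 0 0 0
      · simpa using hr 0 0 1 0 0 0 0 0
      · simpa using hr 0 0 0 1 0 0 0 0
      · simpa using hr 0 0 0 0 1 0 0 0
      · simpa using hr 0 0 0 0 0 1 0 0
      · simpa using hr 0 0 0 0 0 0 1 0
      · simpa using hr 0 0 0 0 0 0 0 (-1)
  exact ⟨((f.equivRangeOfInjective hi).trans (LieEquiv.ofEq _ _ he)).symm⟩

end Serre

section Roots

variable {k : Type u} [Field k] [CharP k 2] {n : Type} [Fintype n] [DecidableEq n]
  {L : LieSubalgebra k (Matrix n n k)} {Φ : Type u} [Fintype Φ] (R : RootData 2 L Φ)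
  {Δ : Finset Φ} {co : Φ → Φ → ℤ}

omit [CharP k 2] in
theorem e_ne (β : Φ) : R.e β ≠ 0 := fun h => by
  have := R.cf_self β
  rw [h, map_zero] at this
  exact zero_ne_one this

theorem wneg (β : Φ) : R.wt (R.neg β) = R.wt β := by
  rw [R.wt_neg]
  ext d
  exact CharTwo.neg_eq _

theorem wadd (f : R.t →ₗ[k] k) : f + f = 0 := by
  ext d
  exact CharTwo.add_self_eq_zero _

theorem wcor (β : Φ) : R.wt β (R.cor β) = 0 := by rw [R.wt_cor, CharTwo.two_eq_zero]

omit [CharP k 2] in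
theorem cor_neg (β : Φ) : R.cor (R.neg β) = - R.cor β := by
  have h := R.lie_neg (R.neg β)
  rw [R.neg_neg, sk (R.lie_neg β)] at h
  have h2 := congrArg R.tp h
  rw [map_neg, R.tp_t, R.tp_t] at h2
  exact h2.symm

omit [CharP k 2] in
theorem wt_br {x y z : Φ} {c : k} (hc : c ≠ 0) (h : ⁅R.e x, R.e y⁆ = c • R.e z) : R.wt z = R.wt x + R.wt y := by
  ext d
  have h1 := leibniz_lie (diagonal d.1) (R.e x) (R.e y)
  rw [R.lie_e, R.lie_e, smul_lie, lie_smul, h, lie_smul, R.lie_e, smul_smul, smul_smul, smul_smul, ← add_smul] at h1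
  have h2 := smul_left_injective k (e_ne R z) h1
  rw [LinearMap.add_apply]
  exact mul_left_cancel₀ hc (by linear_combination h2)

theorem val01 (hB : BaseData R.toFrame Δ co) (x y : Φ) : R.wt y (R.cor x) = 0 ∨ R.wt y (R.cor x) = 1 := by
  obtain ⟨z, hz⟩ := hB.int x y
  rw [hz]
  rcases Int.even_or_odd' z with ⟨j, rfl | rfl⟩
  · left; push_cast; rw [CharTwo.two_eq_zero, zero_mul]
  · right; push_cast; rw [CharTwo.two_eq_zero, zero_mul, zero_add]

omit [CharP k 2] in
theorem co_neg (hB : BaseData R.toFrame Δ co) (x : Φ) {i : Φ} (hi : i ∈ Δ) : co (R.neg x) i = - co x i :=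
  (hB.grad i hi).2 x

omit [CharP k 2] in
theorem nz (hB : BaseData R.toFrame Δ co) (x : Φ) : ¬ ∀ i ∈ Δ, co x i = 0 := fun h =>
  R.neg_ne x (hB.inj _ _ fun i hi => by rw [co_neg R hB x hi, h i hi, neg_zero])

theorem br3 (hB : BaseData R.toFrame Δ co) {x y z : Φ} (h : R.wt x + R.wt y = R.wt z)
    (h2 : ¬ ∀ i ∈ Δ, -co z i = co x i + co y i) :
    ∃ c : k, ⁅R.e x, R.e y⁆ = c • R.e z ∧ (c ≠ 0 → ∀ i ∈ Δ, co z i = co x i + co y i) := by
  have hne : y ≠ R.neg x := by
    rintro rfl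
    rw [wneg, wadd] at h
    exact R.wt_ne z h.symm
  obtain ⟨δ, c, hc⟩ := R.br x y hne
  by_cases h0 : c = 0
  · exact ⟨0, by rw [hc, h0, zero_smul, zero_smul], fun h => absurd rfl h⟩
  rcases R.wt_inj z δ (by rw [wt_br R h0 hc, h]) with rfl | rfl
  · exact ⟨c, hc, fun _ i hi => (hB.grad i hi).1 _ _ _ c h0 hc⟩
  · exact absurd (fun i hi => by rw [← co_neg R hB z hi]; exact (hB.grad i hi).1 _ _ _ c h0 hc) h2

theorem br0 (hB : BaseData R.toFrame Δ co) {x y : Φ} (z : Φ) (h : R.wt x + R.wt y = R.wt z)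
    (h1 : ¬ ∀ i ∈ Δ, co z i = co x i + co y i) (h2 : ¬ ∀ i ∈ Δ, -co z i = co x i + co y i) :
    ⁅R.e x, R.e y⁆ = 0 := by
  obtain ⟨c, hc, h3⟩ := br3 R hB h h2
  by_cases h0 : c = 0
  · rw [hc, h0, zero_smul]
  · exact absurd (h3 h0) h1

omit [CharP k 2] in
theorem ker_le {α : Φ} (hK : KerCond 2 R.toFrame α) (d : R.t) (hd : R.wt α d = 0) : ∃ c : k, d = c • R.cor α := by
  obtain ⟨w, hw, h⟩ := hK (diagonal d.1) (R.t_mem d) (by rw [sk (R.lie_e d α), hd, zero_smul, neg_zero])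
  rw [show 2 - 1 = 1 from rfl, pow_one, LieAlgebra.ad_apply, R.decomp w hw, lie_add, sk (R.lie_e _ α), lie_sum] at h
  have h2 := congrArg R.tp h
  rw [R.tp_t, map_add, map_neg, map_smul, R.tp_e, smul_zero, neg_zero, zero_add, map_sum,
    Finset.sum_eq_single (R.neg α)] at h2
  · exact ⟨_, by rw [← h2, lie_smul, map_smul, R.lie_neg, R.tp_t]⟩
  · intro β _ hβ
    obtain ⟨δ, c, hc⟩ := R.br α β hβ
    rw [lie_smul, hc, map_smul, map_smul, R.tp_e, smul_zero, smul_zero]
  · simp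

theorem main (hB : BaseData R.toFrame Δ co) {α β : Φ} (hk : ∀ d : R.t, R.wt α d = 0 → ∃ c : k, d = c • R.cor α)
    (hβ : R.wt β (R.cor α) = 1) (hne : ⁅R.e α, R.e β⁆ ≠ 0) : Nonempty (L ≃ₗ⁅k⁆ sl (Fin 3) k) := by
  have hα : R.wt α (R.cor β) = 1 := by
    refine (val01 R hB β α).resolve_left fun h => ?_
    obtain ⟨c, hc⟩ := hk _ h
    have h1 := wcor R β
    rw [hc, map_smul, hβ, smul_eq_mul, mul_one] at h1
    obtain ⟨γ, hγ⟩ := R.cor_nc β
    rw [hc, h1, zero_smul, map_zero] at hγ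
    exact hγ rfl
  have ht : ∀ d : R.t, ∃ c c' : k, d = c • R.cor α + c' • R.cor β := fun d => by
    obtain ⟨c, hc⟩ := hk (d - R.wt α d • R.cor β) (by rw [map_sub, map_smul, hα, smul_eq_mul, mul_one, sub_self])
    exact ⟨c, _, sub_eq_iff_eq_add.1 hc⟩
  have hext : ∀ f g : R.t →ₗ[k] k, f (R.cor α) = g (R.cor α) → f (R.cor β) = g (R.cor β) → f = g := by
    intro f g h1 h2
    ext d
    obtain ⟨c, c', rfl⟩ := ht d
    simp only [map_add, map_smul, h1, h2]
  have hβα : β ≠ R.neg α := by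
    rintro rfl
    rw [wneg, wcor] at hβ
    exact zero_ne_one hβ
  obtain ⟨γ, x, hx⟩ := R.br α β hβα
  have hx0 : x ≠ 0 := by
    rintro rfl
    exact hne (by rw [hx, zero_smul])
  have hw : R.wt γ = R.wt α + R.wt β := wt_br R hx0 hx
  have hc : ∀ i ∈ Δ, co γ i = co α i + co β i := fun i hi => (hB.grad i hi).1 _ _ _ x hx0 hx
  have hwa : R.wt α + R.wt γ = R.wt β := by rw [hw, ← add_assoc, wadd, zero_add]
  have hwb : R.wt β + R.wt γ = R.wt α := by rw [hw, add_left_comm, wadd, add_zero]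
  have N := fun (x : Φ) (i : Φ) (hi : i ∈ Δ) => co_neg R hB x hi
  obtain ⟨y, hy, -⟩ := br3 R hB (x := R.neg β) (y := R.neg α) (z := R.neg γ)
    (by rw [wneg, wneg, wneg, hw, add_comm]) fun H => nz R hB γ fun i hi => by
      have := H i hi; have := hc i hi; simp only [N _ i hi] at *; omega
  have m1 : (-1 : k) = 1 := CharTwo.neg_eq 1
  have S : Ser k (R.e α) (R.e (R.neg α)) (R.e β) (R.e (R.neg β)) (x • R.e γ) (y • R.e (R.neg γ))
      (diagonal (R.cor α).1) (diagonal (R.cor β).1) :=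
    { ab := hx
      ba' := hy
      aa := R.lie_neg α
      bb := R.lie_neg β
      ab' := br0 R hB γ (by rw [wneg, hw])
        (fun H => nz R hB β fun i hi => by have := H i hi; have := hc i hi; simp only [N _ i hi] at *; omega)
        fun H => nz R hB α fun i hi => by have := H i hi; have := hc i hi; simp only [N _ i hi] at *; omega
      a'b := br0 R hB γ (by rw [wneg, hw])
        (fun H => nz R hB α fun i hi => by have := H i hi; have := hc i hi; simp only [N _ i hi] at *; omega)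
        fun H => nz R hB β fun i hi => by have := H i hi; have := hc i hi; simp only [N _ i hi] at *; omega
      Ha := by rw [R.lie_e, R.wt_cor]
      Ha' := by rw [R.lie_e, R.wt_neg, LinearMap.neg_apply, R.wt_cor, neg_smul]
      Hb := by rw [R.lie_e, hβ, ← m1, neg_smul, one_smul]
      Hb' := by rw [R.lie_e, wneg, hβ, one_smul]
      Ka := by rw [R.lie_e, hα, ← m1, neg_smul, one_smul]
      Ka' := by rw [R.lie_e, wneg, hα, one_smul]
      Kb := by rw [R.lie_e, R.wt_cor]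
      Kb' := by rw [R.lie_e, R.wt_neg, LinearMap.neg_apply, R.wt_cor, neg_smul]
      HK := by rw [Ring.lie_def, diagonal_mul_diagonal, diagonal_mul_diagonal]; simp only [mul_comm, sub_self]
      ac := by
        rw [lie_smul, br0 R hB β hwa
          (fun H => nz R hB α fun i hi => by have := H i hi; have := hc i hi; omega)
          fun H => nz R hB γ fun i hi => by have := H i hi; have := hc i hi; omega, smul_zero]
      bc := by
        rw [lie_smul, br0 R hB α hwb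
          (fun H => nz R hB β fun i hi => by have := H i hi; have := hc i hi; omega)
          fun H => nz R hB γ fun i hi => by have := H i hi; have := hc i hi; omega, smul_zero]
      ac' := by
        rw [lie_smul, br0 R hB β (by rw [wneg, wneg, hwa])
          (fun H => nz R hB γ fun i hi => by have := H i hi; have := hc i hi; simp only [N _ i hi] at *; omega)
          fun H => nz R hB α fun i hi => by have := H i hi; have := hc i hi; simp only [N _ i hi] at *; omega,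
          smul_zero]
      bc' := by
        rw [lie_smul, br0 R hB α (by rw [wneg, wneg, hwb])
          (fun H => nz R hB γ fun i hi => by have := H i hi; have := hc i hi; simp only [N _ i hi] at *; omega)
          fun H => nz R hB β fun i hi => by have := H i hi; have := hc i hi; simp only [N _ i hi] at *; omega,
          smul_zero] }
  have hy0 : y ≠ 0 := by
    rintro rfl
    have := S.b_c'
    rw [zero_smul, lie_zero] at this
    exact e_ne R _ this.symm
  have h3 : (3 : k) ≠ 0 := by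
    rw [show (3 : k) = 2 + 1 by norm_num, CharTwo.two_eq_zero, zero_add]
    exact one_ne_zero
  refine S.equiv (smul_ne_zero hx0 (e_ne R γ)) h3 L (le_antisymm ?_ ?_)
  · intro v hv
    rw [R.decomp v hv]
    refine add_mem ?_ (sum_mem fun δ _ => Submodule.smul_mem _ _ ?_)
    · obtain ⟨c, c', h⟩ := ht (R.tp v)
      have hd : ∀ f g : n → k, diagonal (f + g) = diagonal f + diagonal g := fun f g => (diagonal_add f g).symm
      rw [h, Submodule.coe_add, Submodule.coe_smul, Submodule.coe_smul, hd, diagonal_smul, diagonal_smul]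
      refine add_mem ?_ ?_ <;> exact Submodule.smul_mem _ _ (Submodule.subset_span (by simp))
    · rcases val01 R hB α δ with h1 | h1 <;> rcases val01 R hB β δ with h2 | h2
      · exact absurd (hext _ 0 h1 h2) (R.wt_ne δ)
      · rcases R.wt_inj α δ (hext _ _ (by rw [h1, wcor]) (by rw [h2, hα])) with rfl | rfl <;>
          exact Submodule.subset_span (by simp)
      · rcases R.wt_inj β δ (hext _ _ (by rw [h1, hβ]) (by rw [h2, wcor])) with rfl | rfl <;>
          exact Submodule.subset_span (by simp)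
      · rcases R.wt_inj γ δ (hext _ _ (by rw [h1, hw, LinearMap.add_apply, hβ, wcor, zero_add])
          (by rw [h2, hw, LinearMap.add_apply, hα, wcor, add_zero])) with rfl | rfl
        · exact (Submodule.smul_mem_iff _ hx0).1 (Submodule.subset_span (by simp))
        · exact (Submodule.smul_mem_iff _ hy0).1 (Submodule.subset_span (by simp))
  · rw [Submodule.span_le]
    intro v hv
    simp only [Set.mem_insert_iff, Set.mem_singleton_iff] at hv
    rcases hv with rfl | rfl | rfl | rfl | rfl | rfl | rfl | rfl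
    exacts [R.e_mem _, R.e_mem _, R.e_mem _, R.e_mem _, L.smul_mem _ (R.e_mem _), L.smul_mem _ (R.e_mem _),
      R.t_mem _, R.t_mem _]

end Roots

end SL3

open SL3 in
theorem st_sl3 (k : Type u) [Field k] [IsAlgClosed k] (p : ℕ) [Fact p.Prime] [CharP k p] : S_sl3 k p := by
  rintro rfl n _ _ L Φ _ R Δ co hB α hK
  obtain ⟨β, hβ⟩ := R.cor_nc α
  have h1 : R.wt β (R.cor α) = 1 := (val01 R hB α β).resolve_left hβ
  by_cases h : ⁅R.e α, R.e β⁆ = 0
  · refine main R hB (α := R.neg α) (β := β) (fun d hd => ?_) ?_ fun h' => e_ne R β ?_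
    · obtain ⟨c, hc⟩ := ker_le R hK d (by rwa [wneg] at hd)
      exact ⟨-c, by rw [cor_neg, neg_smul_neg, hc]⟩
    · rw [cor_neg, map_neg, h1, CharTwo.neg_eq]
    · have := lie_lie (R.e α) (R.e (R.neg α)) (R.e β)
      rwa [h, h', lie_zero, lie_zero, sub_zero, R.lie_neg, R.lie_e, h1, one_smul] at this
  · exact main R hB (ker_le R hK) h1 h

end Pool.Agent.Lib.MP_3a0263_al.R
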