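import Pool.Agent.Lib.MP_3a0263_al.R.Basic

namespace Pool.Agent.Lib.MP_3a0263_al.R

open Matrix

attribute [local instance 100] LieRing.ofAssociativeRing

universe u

set_option linter.unusedSectionVars false

variable {k : Type u} [Field k] {n : Type} [Fintype n] [DecidableEq n]
variable {L : LieSubalgebra k (Matrix n n k)} {Φ : Type u} [Fintype Φ]

theorem diagonal_coe_smul {t : Submodule k (n → k)} (c : k) (d : t) :
    diagonal (c • d).1 = c • diagonal d.1 := by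
  rw [Submodule.coe_smul, diagonal_smul]

theorem diagonal_coe_add {t : Submodule k (n → k)} (d d' : t) :
    diagonal (d + d').1 = diagonal d.1 + diagonal d'.1 := by
  rw [Submodule.coe_add, diagonal_add]; rfl

theorem diagonal_coe_zero {t : Submodule k (n → k)} : diagonal (0 : t).1 = 0 := diagonal_zero

theorem lie_diag_diag (d d' : n → k) : ⁅diagonal d, diagonal d'⁆ = 0 := by
  rw [Ring.lie_def, diagonal_mul_diagonal, diagonal_mul_diagonal]; simp [mul_comm]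

/-- the diagonal embedding of a torus -/
def dg (t : Submodule k (n → k)) : t →ₗ[k] Matrix n n k where
  toFun d := diagonal d.1
  map_add' := diagonal_coe_add
  map_smul' := diagonal_coe_smul

theorem dg_apply {t : Submodule k (n → k)} (d : t) : dg t d = diagonal d.1 := rfl

/-- coordinate functionals for an independent family -/
theorem exists_coords (t : Submodule k (n → k)) (e : Φ → Matrix n n k)
    (h : ∀ (d : t) (c : Φ → k), diagonal d.1 + ∑ β, c β • e β = 0 → d = 0 ∧ ∀ β, c β = 0) :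
    ∃ (tp : Matrix n n k →ₗ[k] t) (cf : Φ → Matrix n n k →ₗ[k] k),
      (∀ (d : t) (c : Φ → k), tp (diagonal d.1 + ∑ β, c β • e β) = d ∧
        ∀ β, cf β (diagonal d.1 + ∑ β, c β • e β) = c β) ∧
      (∀ d : t, tp (diagonal d.1) = d) ∧ (∀ β, tp (e β) = 0) ∧
      (∀ β (d : t), cf β (diagonal d.1) = 0) ∧ (∀ β, cf β (e β) = 1) ∧
      ∀ β γ, β ≠ γ → cf β (e γ) = 0 := by
  classical
  let f : (t × (Φ → k)) →ₗ[k] Matrix n n k :=
    LinearMap.coprod (dg t) (Fintype.linearCombination k e)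
  have hf : ∀ d c, f (d, c) = diagonal d.1 + ∑ β, c β • e β := fun d c => rfl
  obtain ⟨g, hg⟩ := f.exists_leftInverse_of_injective (LinearMap.ker_eq_bot'.2 fun x hx => by
    obtain ⟨h1, h2⟩ := h x.1 x.2 hx
    exact Prod.ext h1 (funext h2))
  have hg' : ∀ d c, g (diagonal d.1 + ∑ β, c β • e β) = (d, c) := fun d c =>
    LinearMap.congr_fun hg (d, c)
  have h1 : ∀ d : t, g (diagonal d.1) = (d, 0) := fun d => by simpa using hg' d 0
  have h2 : ∀ β, g (e β) = (0, Pi.single β 1) := fun β => by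
    have := hg' 0 (Pi.single β 1)
    rw [diagonal_coe_zero] at this
    simpa [Pi.single_apply] using this
  refine ⟨LinearMap.fst k _ _ ∘ₗ g, fun β => LinearMap.proj β ∘ₗ LinearMap.snd k _ _ ∘ₗ g,
    fun d c => ⟨?_, fun β => ?_⟩, fun d => ?_, fun β => ?_, fun β d => ?_, fun β => ?_,
    fun β γ h => ?_⟩
  · rw [LinearMap.comp_apply, hg']; rfl
  · rw [LinearMap.comp_apply, LinearMap.comp_apply, hg']; rfl
  · simp [h1]
  · simp [h2]
  · simp [h1]
  · simp [h2]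
  · simp [h2, h]

namespace Frame

variable (R : Frame L Φ)

theorem e_ne (β : Φ) : R.e β ≠ 0 := fun h => by simpa [h] using R.cf_self β

theorem e_wA (β : Φ) : R.e β ∈ wA R.t (R.wt β) := fun d => R.lie_e d β

theorem eq_zero {x : Matrix n n k} (hx : x ∈ L) (h1 : R.tp x = 0) (h2 : ∀ β, R.cf β x = 0) :
    x = 0 := by
  rw [R.decomp x hx, h1, diagonal_coe_zero]; simp [h2]

theorem mem_of (J : Submodule k (Matrix n n k)) (h1 : ∀ d : R.t, diagonal d.1 ∈ J)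
    (h2 : ∀ β, R.e β ∈ J) {x : Matrix n n k} (hx : x ∈ L) : x ∈ J := by
  rw [R.decomp x hx]
  exact J.add_mem (h1 _) (J.sum_mem fun β _ => J.smul_mem _ (h2 β))

theorem lin_ext {V : Type*} [AddCommGroup V] [Module k V] (f g : Matrix n n k →ₗ[k] V)
    (h1 : ∀ d : R.t, f (diagonal d.1) = g (diagonal d.1)) (h2 : ∀ β, f (R.e β) = g (R.e β))
    {x : Matrix n n k} (hx : x ∈ L) : f x = g x :=
  R.mem_of (LinearMap.eqLocus f g) h1 h2 hx

theorem cf_lie_t (d : R.t) (β : Φ) {x : Matrix n n k} (hx : x ∈ L) :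
    R.cf β ⁅diagonal d.1, x⁆ = R.wt β d * R.cf β x := by
  refine R.lin_ext (R.cf β ∘ₗ adm (diagonal d.1)) (R.wt β d • R.cf β) (fun d' => ?_)
    (fun γ => ?_) hx
  · simp [lie_diag_diag, R.cf_t]
  · by_cases h : β = γ
    · simp [R.lie_e, h]
    · simp [R.lie_e, R.cf_ne β γ h]

theorem tp_lie_t (d : R.t) {x : Matrix n n k} (hx : x ∈ L) : R.tp ⁅diagonal d.1, x⁆ = 0 := by
  refine R.lin_ext (R.tp ∘ₗ adm (diagonal d.1)) 0 (fun d' => ?_) (fun γ => ?_) hx
  · simp [lie_diag_diag]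
  · simp [R.lie_e, R.tp_e]

theorem wt_of_cf {ω : R.t →ₗ[k] k} {x : Matrix n n k} (hx : x ∈ wsp L R.t ω) {β : Φ}
    (h : R.cf β x ≠ 0) : R.wt β = ω := by
  ext d
  have := R.cf_lie_t d β hx.1
  rw [hx.2 d, map_smul, smul_eq_mul] at this
  exact (mul_right_cancel₀ h this).symm

theorem tp_of_wt {ω : R.t →ₗ[k] k} {x : Matrix n n k} (hx : x ∈ wsp L R.t ω) (h : ω ≠ 0) :
    R.tp x = 0 := by
  obtain ⟨d, hd⟩ : ∃ d, ω d ≠ 0 := by
    by_contra h0
    push Not at h0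
    exact h (LinearMap.ext h0)
  have := R.tp_lie_t d hx.1
  rw [hx.2 d, map_smul] at this
  exact (smul_eq_zero.1 this).resolve_left hd

theorem eq_diag_of_wt {x : Matrix n n k} (hx : x ∈ wsp L R.t 0) : x = diagonal (R.tp x).1 := by
  have h : ∀ β, R.cf β x = 0 := fun β => by
    by_contra h
    exact R.wt_ne β (R.wt_of_cf hx h)
  conv_lhs => rw [R.decomp x hx.1]
  simp [h]

theorem eq_zero_of_wt {ω : R.t →ₗ[k] k} {x : Matrix n n k} (hx : x ∈ wsp L R.t ω) (h : ω ≠ 0)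
    (h' : ∀ β, R.wt β ≠ ω) : x = 0 :=
  R.eq_zero hx.1 (R.tp_of_wt hx h) fun β => by
    by_contra h0
    exact h' β (R.wt_of_cf hx h0)

theorem eq_pair_of_wt {κ : Φ} {x : Matrix n n k} (hx : x ∈ wsp L R.t (R.wt κ))
    (h : R.neg κ ≠ κ) : x = R.cf κ x • R.e κ + R.cf (R.neg κ) x • R.e (R.neg κ) := by
  classical
  conv_lhs => rw [R.decomp x hx.1]
  rw [R.tp_of_wt hx (R.wt_ne κ), diagonal_coe_zero, zero_add]
  refine Fintype.sum_eq_add κ (R.neg κ) h.symm fun β hβ => ?_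
  by_cases h0 : R.cf β x = 0
  · simp [h0]
  · rcases R.wt_inj κ β (R.wt_of_cf hx h0).symm with h1 | h1
    · exact absurd h1 hβ.1
    · exact absurd h1 hβ.2

theorem eq_single_of_wt {κ : Φ} {x : Matrix n n k} (hx : x ∈ wsp L R.t (R.wt κ))
    (h : R.neg κ = κ ∨ R.cf (R.neg κ) x = 0) : x = R.cf κ x • R.e κ := by
  classical
  conv_lhs => rw [R.decomp x hx.1]
  rw [R.tp_of_wt hx (R.wt_ne κ), diagonal_coe_zero, zero_add]
  refine Fintype.sum_eq_single κ fun β hβ => ?_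
  by_cases h0 : R.cf β x = 0
  · simp [h0]
  · rcases R.wt_inj κ β (R.wt_of_cf hx h0).symm with h1 | h1
    · exact absurd h1 hβ
    · rcases h with h | h
      · exact absurd (h1.trans h) hβ
      · exact absurd (h1 ▸ h) h0

theorem wt_of_lie {β γ δ : Φ} {c : k} (hc : c ≠ 0) (h : ⁅R.e β, R.e γ⁆ = c • R.e δ) :
    R.wt δ = R.wt β + R.wt γ :=
  R.wt_of_cf (x := ⁅R.e β, R.e γ⁆) (wsp_lie ⟨R.e_mem β, R.e_wA β⟩ ⟨R.e_mem γ, R.e_wA γ⟩)
    (by rw [h, map_smul, R.cf_self]; simpa using hc)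

theorem isGrading_wt : IsGrading R R.wt := ⟨fun _ _ _ _ hc h => R.wt_of_lie hc h, R.wt_neg⟩

theorem cor_neg (β : Φ) : R.cor (R.neg β) = - R.cor β := by
  have h1 := R.lie_neg (R.neg β)
  rw [R.neg_neg, ← lie_skew, R.lie_neg] at h1
  have := congrArg R.tp h1
  rw [map_neg, R.tp_t, R.tp_t] at this
  exact this.symm

variable {Λ : Type*} [AddCommGroup Λ]

/-- the homogeneous piece of degree `l` -/
def gr (φ : Φ → Λ) (l : Λ) : Submodule k (Matrix n n k) where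
  carrier := {x | x ∈ L ∧ (∀ β, φ β ≠ l → R.cf β x = 0) ∧ (l ≠ 0 → R.tp x = 0)}
  zero_mem' := ⟨L.zero_mem, fun _ _ => map_zero _, fun _ => map_zero _⟩
  add_mem' := fun {x y} hx hy => ⟨L.add_mem hx.1 hy.1,
    fun β h => by rw [map_add, hx.2.1 β h, hy.2.1 β h, add_zero],
    fun h => by rw [map_add, hx.2.2 h, hy.2.2 h, add_zero]⟩
  smul_mem' := fun c x hx => ⟨L.smul_mem c hx.1,
    fun β h => by rw [map_smul, hx.2.1 β h, smul_zero],
    fun h => by rw [map_smul, hx.2.2 h, smul_zero]⟩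

theorem mem_gr {φ : Φ → Λ} {l : Λ} {x : Matrix n n k} : x ∈ R.gr φ l ↔
    x ∈ L ∧ (∀ β, φ β ≠ l → R.cf β x = 0) ∧ (l ≠ 0 → R.tp x = 0) := Iff.rfl

theorem e_mem_gr (φ : Φ → Λ) (β : Φ) : R.e β ∈ R.gr φ (φ β) :=
  ⟨R.e_mem β, fun γ h => R.cf_ne γ β fun e => h (by rw [e]), fun _ => R.tp_e β⟩

theorem t_mem_gr (φ : Φ → Λ) (d : R.t) : diagonal d.1 ∈ R.gr φ 0 :=
  ⟨R.t_mem d, fun β _ => R.cf_t β d, fun h => absurd rfl h⟩

theorem gr_disj {φ : Φ → Λ} {l l' : Λ} {x : Matrix n n k} (h : x ∈ R.gr φ l) (h' : x ∈ R.gr φ l')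
    (hl : l ≠ l') : x = 0 := by
  refine R.eq_zero h.1 ?_ fun β => ?_
  · by_cases h0 : l = 0
    · exact h'.2.2 fun e => hl (h0.trans e.symm)
    · exact h.2.2 h0
  · by_cases h0 : φ β = l
    · exact h'.2.1 β fun e => hl (h0.symm.trans e)
    · exact h.2.1 β h0

theorem gr_le {φ : Φ → Λ} {l : Λ} (J : Submodule k (Matrix n n k))
    (h1 : l = 0 → ∀ d : R.t, diagonal d.1 ∈ J) (h2 : ∀ β, φ β = l → R.e β ∈ J) :
    R.gr φ l ≤ J := by
  intro x hx
  rw [R.decomp x hx.1]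
  refine J.add_mem ?_ (J.sum_mem fun β _ => ?_)
  · by_cases h : l = 0
    · exact h1 h _
    · rw [hx.2.2 h, diagonal_coe_zero]; exact J.zero_mem
  · by_cases h : φ β = l
    · exact J.smul_mem _ (h2 β h)
    · rw [hx.2.1 β h, zero_smul]; exact J.zero_mem

theorem gr_map {φ : Φ → Λ} {l : Λ} (f : Matrix n n k →ₗ[k] Matrix n n k)
    (J : Submodule k (Matrix n n k)) (h1 : l = 0 → ∀ d : R.t, f (diagonal d.1) ∈ J)
    (h2 : ∀ β, φ β = l → f (R.e β) ∈ J) {x : Matrix n n k} (hx : x ∈ R.gr φ l) : f x ∈ J :=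
  R.gr_le (J.comap f) h1 h2 hx

theorem lie_t_gr {φ : Φ → Λ} {l : Λ} (d : R.t) {x : Matrix n n k} (hx : x ∈ R.gr φ l) :
    ⁅diagonal d.1, x⁆ ∈ R.gr φ l :=
  ⟨L.lie_mem (R.t_mem d) hx.1, fun β h => by rw [R.cf_lie_t d β hx.1, hx.2.1 β h, mul_zero],
    fun _ => R.tp_lie_t d hx.1⟩

/-- brackets add degrees, given that they do so on root vectors -/
theorem lie_gr {φ : Φ → Λ} (h : ∀ β γ, ⁅R.e β, R.e γ⁆ ∈ R.gr φ (φ β + φ γ)) {l l' : Λ}
    {x y : Matrix n n k} (hx : x ∈ R.gr φ l) (hy : y ∈ R.gr φ l') : ⁅x, y⁆ ∈ R.gr φ (l + l') := by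
  rw [← lie_skew]
  refine Submodule.neg_mem _ (R.gr_map (adm y) _ (fun h0 d => ?_) (fun β hβ => ?_) hx)
  · rw [adm_apply, ← lie_skew, h0, zero_add]
    exact Submodule.neg_mem _ (R.lie_t_gr d hy)
  · rw [adm_apply, ← lie_skew]
    refine Submodule.neg_mem _ (R.gr_map (adm (R.e β)) _ (fun h0 d => ?_) (fun γ hγ => ?_) hy)
    · rw [adm_apply, ← lie_skew, h0, add_zero, ← hβ]
      exact Submodule.neg_mem _ (R.lie_t_gr d (R.e_mem_gr φ β))
    · rw [← hβ, ← hγ]; exact h β γ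

theorem adm_pow_gr {φ : Φ → Λ} (h : ∀ β γ, ⁅R.e β, R.e γ⁆ ∈ R.gr φ (φ β + φ γ)) {l l' : Λ}
    {x y : Matrix n n k} (hx : x ∈ R.gr φ l) (hy : y ∈ R.gr φ l') (j : ℕ) :
    (adm x ^ j) y ∈ R.gr φ (j • l + l') := by
  induction j with
  | zero => simpa using hy
  | succ j ih => rw [adm_pow_succ, succ_nsmul', add_assoc]; exact R.lie_gr h hx ih

open Classical in
/-- the projection onto the homogeneous piece of degree `l` -/
noncomputable def prj (φ : Φ → Λ) (l : Λ) : Matrix n n k →ₗ[k] Matrix n n k :=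
  (if l = 0 then dg R.t ∘ₗ R.tp else 0) +
    ∑ β ∈ Finset.univ.filter (fun β => φ β = l), (R.cf β).smulRight (R.e β)

theorem prj_t (φ : Φ → Λ) (l : Λ) (d : R.t) [Decidable (l = 0)] :
    R.prj φ l (diagonal d.1) = if l = 0 then diagonal d.1 else 0 := by
  rw [prj]
  split_ifs <;> simp [LinearMap.sum_apply, R.cf_t, R.tp_t, dg_apply]

theorem prj_e (φ : Φ → Λ) (l : Λ) (β : Φ) [Decidable (φ β = l)] :
    R.prj φ l (R.e β) = if φ β = l then R.e β else 0 := by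
  classical
  have h1 : (if l = 0 then dg R.t ∘ₗ R.tp else 0) (R.e β) = 0 := by
    split_ifs <;> simp [R.tp_e]
  rw [prj, LinearMap.add_apply, h1, zero_add, LinearMap.sum_apply]
  split_ifs with h
  · rw [Finset.sum_eq_single β]
    · simp [R.cf_self]
    · intro γ _ hγ; simp [R.cf_ne γ β hγ]
    · simp [h]
  · refine Finset.sum_eq_zero fun γ hγ => ?_
    have : γ ≠ β := fun e => h (e ▸ (Finset.mem_filter.1 hγ).2)
    simp [R.cf_ne γ β this]

theorem prj_of_mem {φ : Φ → Λ} {l : Λ} {x : Matrix n n k} (hx : x ∈ R.gr φ l) :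
    R.prj φ l x = x := by
  classical
  exact R.gr_le (LinearMap.eqLocus (R.prj φ l) LinearMap.id)
    (fun h d => by rw [LinearMap.mem_eqLocus, prj_t, if_pos h]; rfl)
    (fun β h => by rw [LinearMap.mem_eqLocus, prj_e, if_pos h]; rfl) hx

theorem prj_of_ne {φ : Φ → Λ} {l l' : Λ} {x : Matrix n n k} (hx : x ∈ R.gr φ l) (h : l ≠ l') :
    R.prj φ l' x = 0 := by
  classical
  exact R.gr_le (LinearMap.ker (R.prj φ l'))
    (fun h0 d => by rw [LinearMap.mem_ker, prj_t, if_neg fun e => h (h0.trans e.symm)])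
    (fun β h0 => by rw [LinearMap.mem_ker, prj_e, if_neg fun e => h (h0.symm.trans e)]) hx

theorem prj_mem (φ : Φ → Λ) (l : Λ) {x : Matrix n n k} (hx : x ∈ L) : R.prj φ l x ∈ R.gr φ l := by
  classical
  refine R.mem_of ((R.gr φ l).comap (R.prj φ l)) (fun d => ?_) (fun β => ?_) hx
  · rw [Submodule.mem_comap, prj_t]
    split_ifs with h
    · rw [h]; exact R.t_mem_gr φ d
    · exact Submodule.zero_mem _
  · rw [Submodule.mem_comap, prj_e]
    split_ifs with h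
    · rw [← h]; exact R.e_mem_gr φ β
    · exact Submodule.zero_mem _

theorem prj_map {φ : Φ → Λ} (f : Matrix n n k →ₗ[k] Matrix n n k) (a : Λ)
    (hf : ∀ l, ∀ x ∈ R.gr φ l, f x ∈ R.gr φ (a + l)) (l : Λ) {x : Matrix n n k} (hx : x ∈ L) :
    R.prj φ (a + l) (f x) = f (R.prj φ l x) := by
  have h : ∀ l', ∀ y ∈ R.gr φ l', R.prj φ (a + l) (f y) = f (R.prj φ l y) := by
    intro l' y hy
    by_cases e : l' = l
    · rw [e] at hy
      rw [R.prj_of_mem hy, R.prj_of_mem (hf _ _ hy)]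
    · rw [R.prj_of_ne hy e, map_zero, R.prj_of_ne (hf _ _ hy) fun e' => e (add_left_cancel e')]
  exact R.lin_ext (R.prj φ (a + l) ∘ₗ f) (f ∘ₗ R.prj φ l) (fun d => h _ _ (R.t_mem_gr φ d))
    (fun β => h _ _ (R.e_mem_gr φ β)) hx

end Frame

namespace RootData

variable {p : ℕ} (R : RootData p L Φ) {Λ : Type*} [AddCommGroup Λ]

theorem cor_ne (β : Φ) : R.cor β ≠ 0 := fun h => by
  obtain ⟨γ, hγ⟩ := R.cor_nc β
  exact hγ (by rw [h, map_zero])

theorem lie_e_gr {φ : Φ → Λ} (h : IsGrading R.toFrame φ) (β γ : Φ) :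
    ⁅R.e β, R.e γ⁆ ∈ R.gr φ (φ β + φ γ) := by
  by_cases hγ : γ = R.neg β
  · rw [hγ, R.lie_neg, h.2, add_neg_cancel]; exact R.t_mem_gr φ _
  · obtain ⟨δ, c, e⟩ := R.br β γ hγ
    by_cases hc : c = 0
    · rw [e, hc, zero_smul]; exact Submodule.zero_mem _
    · rw [e, ← h.1 β γ δ c hc e]; exact Submodule.smul_mem _ c (R.e_mem_gr φ δ)

theorem D_self (α : Φ) {j : ℕ} (hj : 1 ≤ j) : R.D α j (R.e α) = 0 := by
  obtain ⟨c, hc⟩ := R.D_e α j α (R.neg_ne α).symm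
  obtain ⟨j, rfl⟩ := Nat.exists_eq_add_of_le' hj
  rw [hc, adm_pow_succ', lie_self, map_zero, smul_zero]

theorem D_gr {φ : Φ → Λ} (h : IsGrading R.toFrame φ) (α : Φ) (j : ℕ) {l : Λ} {x : Matrix n n k}
    (hx : x ∈ R.gr φ l) : R.D α j x ∈ R.gr φ (j • φ α + l) := by
  have h1 : ∀ y ∈ R.gr φ l, R.D α 1 y ∈ R.gr φ (1 • φ α + l) := fun y hy => by
    rw [R.D_one α y hy.1, one_smul]
    exact R.lie_gr (R.lie_e_gr h) (R.e_mem_gr φ α) hy
  rcases Nat.lt_or_ge j 2 with hj | hj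
  · interval_cases j
    · rw [R.D_zero α x hx.1]; simpa using hx
    · exact h1 x hx
  refine R.gr_map (R.D α j) _ (fun _ d => ?_) (fun κ hκ => ?_) hx
  · rw [R.D_t α d j hj]; exact Submodule.zero_mem _
  · by_cases e : κ = R.neg α
    · rcases hj.eq_or_lt with hj | hj
      · have : φ α = j • φ α + l := by rw [← hκ, e, h.2, ← hj, two_smul]; abel
        rw [e, ← this, ← hj, R.D_neg_two]
        exact Submodule.neg_mem _ (R.e_mem_gr φ α)
      · rw [e, R.D_neg α j hj]; exact Submodule.zero_mem _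
    · obtain ⟨c, hc⟩ := R.D_e α j κ e
      rw [hc, ← hκ]
      exact Submodule.smul_mem _ c
        (R.adm_pow_gr (R.lie_e_gr h) (R.e_mem_gr φ α) (R.e_mem_gr φ κ) j)

theorem adm_e_pow [Fact p.Prime] [CharP k p] (α : Φ) (y : Matrix n n k) :
    (adm (R.e α) ^ p) y = 0 := by
  obtain ⟨c, hc⟩ := R.pow α
  rw [adm_pow_p, hc, smul_lie, one_lie', smul_zero]

end RootData

theorem IsAut.comp {σ τ : Module.End k (Matrix n n k)} (h : IsAut L σ) (h' : IsAut L τ) :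
    IsAut L (σ * τ) where
  mem x hx := h.mem _ (h'.mem x hx)
  lie x hx y hy := by
    simp only [Module.End.mul_apply]
    rw [h'.lie x hx y hy, h.lie _ (h'.mem x hx) _ (h'.mem y hy)]
  inj x hx e := h'.inj x hx (h.inj _ (h'.mem x hx) e)
  surj y hy := by
    obtain ⟨x, hx, rfl⟩ := h.surj y hy
    obtain ⟨z, hz, rfl⟩ := h'.surj x hx
    exact ⟨z, hz, rfl⟩

theorem isAut_one : IsAut L 1 :=
  ⟨fun _ h => h, fun _ _ _ _ => rfl, fun _ _ h => h, fun y h => ⟨y, h, rfl⟩⟩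

theorem IsAut.adm_pow {σ : Module.End k (Matrix n n k)} (h : IsAut L σ) {x y : Matrix n n k}
    (hx : x ∈ L) (hy : y ∈ L) (j : ℕ) : σ ((adm x ^ j) y) = (adm (σ x) ^ j) (σ y) := by
  induction j with
  | zero => simp
  | succ j ih => rw [adm_pow_succ, adm_pow_succ, h.lie x hx _ (adm_pow_mem hx hy j), ih]

end Pool.Agent.Lib.MP_3a0263_al.R
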