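import Pool.Agent.Lib.MP_3a0263_al.R.Blue
import Pool.Agent.Lib.MP_3a0263_al.R.Basic
import Pool.Agent.Lib.MP_3a0263_al.R.Alg
import Pool.Agent.Lib.MP_3a0263_al.R.Fr

namespace Pool.Agent.Lib.MP_3a0263_al.R

open Matrix LaurentPolynomial

attribute [local instance 100] LieRing.ofAssociativeRing

universe u

set_option linter.unusedSectionVars false

namespace Theta

variable {k : Type u} [Field k] {n : Type} [Fintype n] [DecidableEq n]

theorem pow_mul_d {d e : Matrix n n k} {a : k} (h : ⁅d, e⁆ = a • e) (j : ℕ) :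
    e ^ j * d = d * e ^ j - ((j : k) * a) • e ^ j := by
  have h1 : e * d = d * e - a • e := by rw [← h, Ring.lie_def]; abel
  induction j with
  | zero => simp
  | succ j ih =>
    rw [pow_succ', mul_assoc, ih, mul_sub, ← mul_assoc, h1, sub_mul, mul_assoc, Matrix.mul_smul,
      Matrix.smul_mul, Nat.cast_succ, add_mul, one_mul, add_smul]
    abel

theorem aeval_semiconj {u x y : Matrix n n k} (h : u * x = y * u) (P : Polynomial k) :
    u * Polynomial.aeval x P = Polynomial.aeval y P * u := by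
  have hp : ∀ j : ℕ, u * x ^ j = y ^ j * u := fun j => (SemiconjBy.pow_right h j)
  induction P using Polynomial.induction_on' with
  | add P Q hP hQ => rw [map_add, map_add, mul_add, add_mul, hP, hQ]
  | monomial j c =>
    rw [Polynomial.aeval_monomial, Polynomial.aeval_monomial, ← Algebra.smul_def,
      ← Algebra.smul_def, Matrix.mul_smul, Matrix.smul_mul, hp]

theorem aeval_shift (p : ℕ) [hp : Fact p.Prime] [CharP k p] {d e : Matrix n n k} {a : k}
    (h : ⁅d, e⁆ = a • e) (he : e ^ p = 0) (t : k) {P : Polynomial k}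
    (hP : Polynomial.aeval d P = 0) : Polynomial.aeval (d - (a * t) • e) P = 0 := by
  obtain ⟨q, hq⟩ : ∃ q, p = q + 1 := ⟨p - 1, (Nat.succ_pred_eq_of_pos hp.out.pos).symm⟩
  let c : ℕ → k := fun j => t ^ j * ((j.factorial : k))⁻¹
  have hc : ∀ j, j < q → c (j + 1) * (((j + 1 : ℕ) : k) * a) = c j * (a * t) := by
    intro j hj
    have h1 : ((j + 1 : ℕ) : k) ≠ 0 := by
      rw [Ne, CharP.cast_eq_zero_iff k p]
      exact Nat.not_dvd_of_pos_of_lt (Nat.succ_pos j) (by omega)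
    simp only [c]
    rw [Nat.factorial_succ, Nat.cast_mul, mul_inv, pow_succ]
    field_simp
  let u : Matrix n n k := ∑ j ∈ Finset.range (q + 1), c j • e ^ j
  have h1 : ∑ j ∈ Finset.range (q + 1), (c j * ((j : k) * a)) • e ^ j =
      ∑ j ∈ Finset.range (q + 1), (c j * (a * t)) • e ^ (j + 1) := by
    rw [Finset.sum_range_succ', Finset.sum_range_succ, ← hq, he]
    simp only [Nat.cast_zero, zero_mul, mul_zero, zero_smul, smul_zero, add_zero]
    exact Finset.sum_congr rfl fun j hj => by rw [hc j (Finset.mem_range.1 hj)]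
  have hu : u * d = (d - (a * t) • e) * u := by
    have e1 : u * d = d * u - ∑ j ∈ Finset.range (q + 1), (c j * ((j : k) * a)) • e ^ j := by
      simp only [u, Finset.sum_mul, Finset.mul_sum, ← Finset.sum_sub_distrib]
      refine Finset.sum_congr rfl fun j _ => ?_
      rw [Matrix.smul_mul, pow_mul_d h, smul_sub, Matrix.mul_smul, smul_smul]
    have e2 : ((a * t) • e) * u = ∑ j ∈ Finset.range (q + 1), (c j * (a * t)) • e ^ (j + 1) := by
      simp only [u, Finset.mul_sum]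
      refine Finset.sum_congr rfl fun j _ => ?_
      rw [Matrix.smul_mul, Matrix.mul_smul, smul_smul, pow_succ', mul_comm (c j)]
    rw [e1, sub_mul, e2, h1]
  have hun : IsUnit u := by
    have e1 : u = e * (∑ j ∈ Finset.range q, c (j + 1) • e ^ j) + 1 := by
      simp only [u]
      rw [Finset.sum_range_succ', Finset.mul_sum]
      congr 1
      · refine Finset.sum_congr rfl fun j _ => ?_
        rw [Matrix.mul_smul, pow_succ']
      · simp [c]
    rw [e1]
    refine IsNilpotent.isUnit_add_one (Commute.isNilpotent_mul_right ?_ ⟨p, he⟩)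
    exact Commute.sum_right _ _ _ fun j _ => ((Commute.refl e).pow_right j).smul_right _
  have h2 := aeval_semiconj hu P
  rw [hP, mul_zero] at h2
  exact (hun.mul_left_eq_zero).1 h2.symm

/-- the local parameter at `1` -/
noncomputable def w (k : Type u) [Field k] : k[T;T⁻¹] := T 1 - 1

theorem ev_w (s : kˣ) : ev s (w k) = (s : k) - 1 := by
  rw [w, map_sub, ev_T, map_one, zpow_one]

theorem der_w : der (w k) = 1 := by
  have h1 : der (1 : k[T;T⁻¹]) = 0 := by simpa using der_C (1 : k)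
  have h2 : derL (w k) = derL (T 1 : k[T;T⁻¹]) - derL (1 : k[T;T⁻¹]) := map_sub _ _ _
  have h3 : der (w k) = der (T 1 : k[T;T⁻¹]) - der (1 : k[T;T⁻¹]) := h2
  rw [h3, h1, der_T]; simp

theorem der_w_pow (j : ℕ) : der (w k ^ j) = if j = 1 then 1 else 0 := by
  cases j with
  | zero => simpa using der_C (1 : k)
  | succ j =>
    rw [pow_succ, der_mul, der_w, map_pow, ev_w]
    cases j <;> simp

/-- the unipotent family -/
noncomputable def FU (p : ℕ) (D : ℕ → Module.End k (Matrix n n k)) :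
    Matrix n n k →ₗ[k] Matrix n n k[T;T⁻¹] :=
  ∑ j ∈ Finset.range (p + 1), (w k ^ j) • (cM.toLinearMap ∘ₗ D j)

theorem FU_apply (p : ℕ) (D : ℕ → Module.End k (Matrix n n k)) (x : Matrix n n k) :
    FU p D x = ∑ j ∈ Finset.range (p + 1), (w k ^ j) • cM (D j x) := by
  rw [FU, LinearMap.sum_apply]; rfl

theorem Eop_apply (p : ℕ) (D : ℕ → Module.End k (Matrix n n k)) (s : k) (x : Matrix n n k) :
    Eop p D s x = ∑ j ∈ Finset.range (p + 1), s ^ j • D j x := by
  rw [Eop, LinearMap.sum_apply]; rfl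

theorem evM_FU (p : ℕ) (D : ℕ → Module.End k (Matrix n n k)) (s : kˣ) (x : Matrix n n k) :
    evM s (FU p D x) = Eop p D ((s : k) - 1) x := by
  rw [FU_apply, Eop_apply, map_sum]
  refine Finset.sum_congr rfl fun j _ => ?_
  rw [evM_smul, evM_cM, map_pow, ev_w]

theorem tan_FU {p : ℕ} (hp : 1 ≤ p) (D : ℕ → Module.End k (Matrix n n k)) (x : Matrix n n k) :
    tan (FU p D x) = D 1 x := by
  rw [FU_apply, ← tanL_apply, map_sum, Finset.sum_eq_single 1]
  · rw [tanL_apply, tan_smul, tan_cM, der_w_pow, evM_cM]; simp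
  · intro j _ hj
    rw [tanL_apply, tan_smul, tan_cM, der_w_pow, if_neg hj]; simp
  · intro h
    exact absurd (Finset.mem_range.2 (by omega)) h

theorem Eop_zero (p : ℕ) (D : ℕ → Module.End k (Matrix n n k)) (x : Matrix n n k) :
    Eop p D 0 x = D 0 x := by
  rw [Eop_apply, Finset.sum_range_succ']; simp

variable {L : LieSubalgebra k (Matrix n n k)} {Φ : Type u} [Fintype Φ]

theorem Eop_t {p : ℕ} (hp : 1 ≤ p) (R : RootData p L Φ) (α : Φ) (s : k) (d : R.t) :
    Eop p (R.D α) s (diagonal d.1) = diagonal d.1 - (R.wt α d * s) • R.e α := by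
  obtain ⟨q, rfl⟩ : ∃ q, p = q + 1 := ⟨p - 1, by omega⟩
  rw [Eop_apply, Finset.sum_range_succ', Finset.sum_range_succ', Finset.sum_eq_zero,
    R.D_zero α _ (R.t_mem d), zero_add, zero_add, R.D_one α _ (R.t_mem d), ← lie_skew, R.lie_e]
  · simp only [pow_zero, one_smul, pow_one, smul_neg, smul_smul, mul_comm s]
    abel
  · intro j _
    rw [R.D_t α d _ (by omega), smul_zero]

/-- the torus family -/
noncomputable def FT (R : Frame L Φ) (φ : Φ → ℤ) : Matrix n n k →ₗ[k] Matrix n n k[T;T⁻¹] :=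
  cM.toLinearMap ∘ₗ dg R.t ∘ₗ R.tp +
    ∑ β, (T (φ β) : k[T;T⁻¹]) • (cM.toLinearMap ∘ₗ (R.cf β).smulRight (R.e β))

theorem FT_apply (R : Frame L Φ) (φ : Φ → ℤ) (x : Matrix n n k) :
    FT R φ x = cM (diagonal (R.tp x).1) +
      ∑ β, (T (φ β) : k[T;T⁻¹]) • cM (R.cf β x • R.e β) := by
  rw [FT, LinearMap.add_apply, LinearMap.sum_apply]; rfl

theorem FT_t (R : Frame L Φ) (φ : Φ → ℤ) (d : R.t) :
    FT R φ (diagonal d.1) = cM (diagonal d.1) := by
  rw [FT_apply, R.tp_t, Finset.sum_eq_zero, add_zero]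
  intro β _
  rw [R.cf_t, zero_smul, map_zero, smul_zero]

theorem FT_e (R : Frame L Φ) (φ : Φ → ℤ) (β : Φ) :
    FT R φ (R.e β) = (T (φ β) : k[T;T⁻¹]) • cM (R.e β) := by
  rw [FT_apply, R.tp_e, diagonal_coe_zero, map_zero, zero_add, Finset.sum_eq_single β,
    R.cf_self, one_smul]
  · intro γ _ hγ
    rw [R.cf_ne γ β hγ, zero_smul, map_zero, smul_zero]
  · intro h
    exact absurd (Finset.mem_univ β) h

/-- the members of the torus family -/
noncomputable def GT (R : Frame L Φ) (φ : Φ → ℤ) (s : kˣ) : Module.End k (Matrix n n k) :=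
  (evM s).toLinearMap ∘ₗ FT R φ

theorem GT_apply (R : Frame L Φ) (φ : Φ → ℤ) (s : kˣ) (x : Matrix n n k) :
    GT R φ s x = evM s (FT R φ x) := rfl

theorem GT_t (R : Frame L Φ) (φ : Φ → ℤ) (s : kˣ) (d : R.t) :
    GT R φ s (diagonal d.1) = diagonal d.1 := by rw [GT_apply, FT_t, evM_cM]

theorem GT_e (R : Frame L Φ) (φ : Φ → ℤ) (s : kˣ) (β : Φ) :
    GT R φ s (R.e β) = ((s ^ φ β : kˣ) : k) • R.e β := by
  rw [GT_apply, FT_e, evM_smul, evM_cM, ev_T]

theorem GT_gr (R : Frame L Φ) (φ : Φ → ℤ) (s : kˣ) {l : ℤ} {x : Matrix n n k}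
    (hx : x ∈ R.gr φ l) : GT R φ s x = ((s ^ l : kˣ) : k) • x := by
  have h0 := R.gr_le (φ := φ) (l := l)
    (LinearMap.eqLocus (GT R φ s) (((s ^ l : kˣ) : k) • LinearMap.id))
    (fun h d => by rw [LinearMap.mem_eqLocus, GT_t, h]; simp)
    (fun β h => by rw [LinearMap.mem_eqLocus, GT_e, h]; rfl) hx
  exact LinearMap.mem_eqLocus.1 h0

theorem GT_mem (R : Frame L Φ) (φ : Φ → ℤ) (s : kˣ) {x : Matrix n n k} (hx : x ∈ L) :
    GT R φ s x ∈ L :=
  R.mem_of (L.toSubmodule.comap (GT R φ s))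
    (fun d => by rw [Submodule.mem_comap, GT_t]; exact R.t_mem d)
    (fun β => by rw [Submodule.mem_comap, GT_e]; exact L.smul_mem _ (R.e_mem β)) hx

theorem GT_inv (R : Frame L Φ) (φ : Φ → ℤ) (s : kˣ) {x : Matrix n n k} (hx : x ∈ L) :
    GT R φ s (GT R φ s⁻¹ x) = x :=
  R.lin_ext (GT R φ s ∘ₗ GT R φ s⁻¹) LinearMap.id
    (fun d => by rw [LinearMap.comp_apply, GT_t, GT_t]; rfl)
    (fun β => by
      rw [LinearMap.comp_apply, GT_e, map_smul, GT_e, smul_smul, ← Units.val_mul, _root_.inv_zpow,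
        inv_mul_cancel]
      simp) hx

theorem GT_lie {p : ℕ} (R : RootData p L Φ) {φ : Φ → ℤ} (h : IsGrading R.toFrame φ) (s : kˣ)
    {x y : Matrix n n k} (hx : x ∈ L) (hy : y ∈ L) :
    GT R.toFrame φ s ⁅x, y⁆ = ⁅GT R.toFrame φ s x, GT R.toFrame φ s y⁆ := by
  have h1 : ∀ l l', ∀ x ∈ R.gr φ l, ∀ y ∈ R.gr φ l',
      GT R.toFrame φ s ⁅x, y⁆ = ⁅GT R.toFrame φ s x, GT R.toFrame φ s y⁆ := by
    intro l l' x hx y hy
    rw [GT_gr _ φ s (R.lie_gr (R.lie_e_gr h) hx hy), GT_gr _ φ s hx, GT_gr _ φ s hy, smul_lie,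
      lie_smul, smul_smul, _root_.zpow_add, Units.val_mul]
  have h2 : ∀ l, ∀ x ∈ R.gr φ l,
      GT R.toFrame φ s ⁅x, y⁆ = ⁅GT R.toFrame φ s x, GT R.toFrame φ s y⁆ := fun l x hx =>
    R.lin_ext (GT R.toFrame φ s ∘ₗ adm x) (adm (GT R.toFrame φ s x) ∘ₗ GT R.toFrame φ s)
      (fun d => h1 _ _ x hx _ (R.t_mem_gr φ d)) (fun β => h1 _ _ x hx _ (R.e_mem_gr φ β)) hy
  have h3 := R.lin_ext (GT R.toFrame φ s ∘ₗ adm y) (adm (GT R.toFrame φ s y) ∘ₗ GT R.toFrame φ s)
    (fun d => by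
      simp only [LinearMap.comp_apply, adm_apply]
      rw [← lie_skew, map_neg, h2 _ _ (R.t_mem_gr φ d), lie_skew])
    (fun β => by
      simp only [LinearMap.comp_apply, adm_apply]
      rw [← lie_skew, map_neg, h2 _ _ (R.e_mem_gr φ β), lie_skew]) hx
  simp only [LinearMap.comp_apply, adm_apply] at h3
  rw [← lie_skew, map_neg, h3, lie_skew]

end Theta

open Theta in
theorem st_theta (k : Type u) [Field k] [IsAlgClosed k] (p : ℕ) [hp : Fact p.Prime] [CharP k p]
    (hf : S_fam k) : S_theta k p := by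
  intro n _ _ L π hR Φ _ R hN
  have hp1 : 1 ≤ p := hp.out.pos
  have he : ∀ β, R.e β ^ p = 0 := fun β => hN 1 isAut_one β
  have hX : (Polynomial.X ^ p : Polynomial k) ≠ 0 := pow_ne_zero _ Polynomial.X_ne_zero
  refine ⟨fun α => ?_, fun φ hφ => ?_⟩
  · obtain ⟨Θ, h1, h2⟩ := hf n L hR.gen (FU p (R.D α))
      (fun x hx => by rw [evM_FU, Units.val_one, sub_self, Eop_zero, R.D_zero α x hx])
      (fun s x hx y hy => by rw [evM_FU, evM_FU, evM_FU, (R.E_aut α _).lie x hx y hy])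
      (fun s y hy => by simpa only [evM_FU] using (R.E_aut α ((s : k) - 1)).surj y hy)
      (fun x hx => R.mem_of _
        (fun d => Submodule.subset_span <| Set.mem_ofPred.2 ⟨R.t_mem d, (diagonal d.1).charpoly,
          (Matrix.charpoly_monic _).ne_zero, fun s => by
            rw [evM_FU, Eop_t hp1]
            exact aeval_shift p (R.lie_e d α) (he α) _ (Matrix.aeval_self_charpoly _)⟩)
        (fun β => Submodule.subset_span <| Set.mem_ofPred.2 ⟨R.e_mem β, Polynomial.X ^ p, hX, fun s => by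
          rw [evM_FU, map_pow, Polynomial.aeval_X]
          exact hN _ (R.E_aut α _) β⟩) hx)
    refine ⟨Θ, h1, fun s x hx => ?_, fun x hx => ?_⟩
    · rw [h2 x hx, evM_FU]; exact (R.E_aut α _).mem x hx
    · rw [h2 x hx, tan_FU hp1, R.D_one α x hx]
  · obtain ⟨Θ, h1, h2⟩ := hf n L hR.gen (FT R.toFrame φ)
      (fun x hx => R.lin_ext (GT R.toFrame φ 1) LinearMap.id (fun d => GT_t _ φ 1 d)
        (fun β => by rw [GT_e]; simp) hx)
      (fun s x hx y hy => GT_lie R hφ s hx hy)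
      (fun s y hy => ⟨_, GT_mem _ φ s⁻¹ hy, GT_inv _ φ s hy⟩)
      (fun x hx => R.mem_of _
        (fun d => Submodule.subset_span <| Set.mem_ofPred.2 ⟨R.t_mem d, (diagonal d.1).charpoly,
          (Matrix.charpoly_monic _).ne_zero, fun s => by
            rw [← GT_apply, GT_t]
            exact Matrix.aeval_self_charpoly _⟩)
        (fun β => Submodule.subset_span <| Set.mem_ofPred.2 ⟨R.e_mem β, Polynomial.X ^ p, hX, fun s => by
          rw [← GT_apply, GT_e, map_pow, Polynomial.aeval_X, smul_pow, he, smul_zero]⟩) hx)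
    refine ⟨Θ, h1, fun d => ?_, fun β => ?_⟩
    · rw [h2 _ (R.t_mem d), FT_t]
    · rw [h2 _ (R.e_mem β), FT_e]

end Pool.Agent.Lib.MP_3a0263_al.R
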