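import Pool.Agent.Lib.MP_3a0263_al.R.Blue
import Pool.Agent.Lib.MP_3a0263_al.R.Alg

namespace Pool.Agent.Lib.MP_3a0263_al.R

open Matrix

attribute [local instance 100] LieRing.ofAssociativeRing

universe u

namespace Tor1

variable {k : Type u} [Field k] {n : Type} [Fintype n] [DecidableEq n]
  {L : LieSubalgebra k (Matrix n n k)} {Φ : Type u} [Fintype Φ]
  {m : Type} [Fintype m] [DecidableEq m]

theorem e_ne (R : Frame L Φ) (β : Φ) : R.e β ≠ 0 := fun h => by
  have := R.cf_self β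
  rw [h, map_zero] at this
  exact zero_ne_one this

/-- elements fixing the torus and every root line -/
def Fix (R : Frame L Φ) (M : Model L m) (w : M.N) : Prop :=
  (∀ d : R.t, M.act w (diagonal d.1) = diagonal d.1) ∧ ∀ β, ∃ c : k, M.act w (R.e β) = c • R.e β

variable {R : Frame L Φ} {M : Model L m}

theorem c_ne {w : M.N} {β : Φ} {c : k} (h : M.act w (R.e β) = c • R.e β) : c ≠ 0 := by
  rintro rfl
  rw [zero_smul] at h
  exact e_ne R β ((M.act w).injective (h.trans (map_zero _).symm))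

theorem act_mul (w w' : M.N) (a : Matrix n n k) : M.act (w * w') a = M.act w (M.act w' a) := by
  rw [map_mul]; rfl

theorem act_inv (w : M.N) (a : Matrix n n k) : M.act w⁻¹ (M.act w a) = a := by
  rw [← act_mul, inv_mul_cancel, map_one]; rfl

theorem Fix.of_one {w : M.N} (h : M.act w = 1) : Fix R M w :=
  ⟨fun d => by rw [h]; rfl, fun β => ⟨1, by rw [h, one_smul]; rfl⟩⟩

theorem Fix.mul {w w' : M.N} (h : Fix R M w) (h' : Fix R M w') : Fix R M (w * w') := by
  refine ⟨fun d => by rw [act_mul, h'.1, h.1], fun β => ?_⟩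
  obtain ⟨c, hc⟩ := h.2 β
  obtain ⟨c', hc'⟩ := h'.2 β
  exact ⟨c' * c, by rw [act_mul, hc', map_smul, hc, smul_smul]⟩

theorem Fix.inv {w : M.N} (h : Fix R M w) : Fix R M w⁻¹ := by
  refine ⟨fun d => ?_, fun β => ?_⟩
  · have := act_inv w (diagonal d.1)
    rwa [h.1] at this
  · obtain ⟨c, hc⟩ := h.2 β
    have := act_inv w (R.e β)
    rw [hc, map_smul] at this
    refine ⟨c⁻¹, ?_⟩
    rw [eq_inv_smul_iff₀ (c_ne hc), this]

/-- the torus -/
def tor (R : Frame L Φ) (M : Model L m) (G : Subgroup (GL m k)) : Subgroup (GL m k) where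
  carrier := {g | g ∈ G ∧ ∃ hg : g ∈ M.N, Fix R M ⟨g, hg⟩}
  one_mem' := ⟨G.one_mem, M.N.one_mem, Fix.of_one (map_one M.act)⟩
  mul_mem' := fun ⟨a, ha, h⟩ ⟨b, hb, h'⟩ => ⟨G.mul_mem a b, M.N.mul_mem ha hb, h.mul h'⟩
  inv_mem' := fun ⟨a, ha, h⟩ => ⟨G.inv_mem a, M.N.inv_mem ha, h.inv⟩

variable {G : Subgroup (GL m k)}

theorem tor_le : tor R M G ≤ M.N := fun _ h => h.2.1

/-- the inclusion into the ambient group -/
def inc (R : Frame L Φ) (M : Model L m) (G : Subgroup (GL m k)) : tor R M G →* M.N :=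
  Subgroup.inclusion tor_le

theorem fix_inc (w : tor R M G) : Fix R M (inc R M G w) := w.2.2.2

theorem act_cf (w : tor R M G) (β : Φ) :
    M.act (inc R M G w) (R.e β) = R.cf β (M.act (inc R M G w) (R.e β)) • R.e β := by
  obtain ⟨c, hc⟩ := (fix_inc w).2 β
  rw [hc, map_smul, R.cf_self, smul_eq_mul, mul_one]

theorem smul_e_inj {β : Φ} {c c' : k} (h : c • R.e β = c' • R.e β) : c = c' :=
  smul_left_injective k (e_ne R β) h

/-- the characters -/
noncomputable def chi (R : Frame L Φ) (M : Model L m) (G : Subgroup (GL m k)) (β : Φ) :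
    tor R M G →* kˣ :=
  MonoidHom.mk' (fun w => Units.mk0 (R.cf β (M.act (inc R M G w) (R.e β))) (c_ne (act_cf w β)))
    fun w w' => Units.ext <| smul_e_inj (R := R) (β := β) <| by
      rw [Units.val_mul, Units.val_mk0, Units.val_mk0, Units.val_mk0, ← act_cf, map_mul, act_mul,
        mul_comm, mul_smul, ← act_cf, ← map_smul, ← act_cf]

theorem act_chi (w : tor R M G) (β : Φ) :
    M.act (inc R M G w) (R.e β) = (chi R M G β w : k) • R.e β := act_cf w β

theorem chi_eq {w : tor R M G} {β : Φ} {c : kˣ}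
    (h : M.act (inc R M G w) (R.e β) = (c : k) • R.e β) : chi R M G β w = c :=
  Units.ext (smul_e_inj ((act_chi w β).symm.trans h))

theorem act_lie (w : M.N) (x y : Matrix n n k) : M.act w ⁅x, y⁆ = ⁅M.act w x, M.act w y⁆ := by
  simp only [Ring.lie_def, map_sub, map_mul]

theorem grading (hc : ∀ β, R.cor β ≠ 0) (w : tor R M G) :
    IsGrading R fun β => Additive.ofMul (chi R M G β w) := by
  refine ⟨fun β γ δ c c0 h => ?_, fun β => ?_⟩
  · have h1 := congrArg (M.act (inc R M G w)) h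
    rw [act_lie, map_smul, act_chi, act_chi, act_chi, smul_lie, lie_smul, h, smul_smul, smul_smul,
      smul_smul] at h1
    have h2 := smul_e_inj h1
    rw [mul_comm c] at h2
    exact congrArg Additive.ofMul (Units.ext (mul_right_cancel₀ c0 h2).symm)
  · have h1 := congrArg (M.act (inc R M G w)) (R.lie_neg β)
    rw [act_lie, (fix_inc w).1, act_chi, act_chi, smul_lie, lie_smul, R.lie_neg, smul_smul] at h1
    have h2 := congrArg R.tp h1
    rw [map_smul, R.tp_t] at h2
    have h3 := smul_left_injective k (hc β) (h2.trans (one_smul k _).symm)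
    exact congrArg Additive.ofMul (eq_inv_of_mul_eq_one_right (Units.ext h3))

theorem chi_lin {Δ : Finset Φ} {co : Φ → Φ → ℤ} (hB : BaseData R Δ co) (hc : ∀ β, R.cor β ≠ 0)
    (w : tor R M G) (β : Φ) : chi R M G β w = ∏ α ∈ Δ, chi R M G α w ^ co β α := by
  have := hB.lin (Additive kˣ) _ (grading hc w) β
  apply Additive.ofMul.injective
  rw [ofMul_prod]
  simpa only [ofMul_zpow] using this

theorem act_one (hg : Algebra.adjoin k (L : Set (Matrix n n k)) = ⊤) {w : tor R M G}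
    (h : ∀ β, chi R M G β w = 1) : M.act (inc R M G w) = 1 := by
  have : (M.act (inc R M G w) : Matrix n n k →ₐ[k] Matrix n n k) = AlgHom.id k _ := by
    refine AlgHom.ext_of_adjoin_eq_top hg fun x hx => ?_
    change M.act (inc R M G w) x = x
    rw [R.decomp x hx, map_add, map_sum, (fix_inc w).1]
    simp only [map_smul, act_chi, h, Units.val_one, one_smul]
  exact AlgEquiv.ext fun a => AlgHom.congr_fun this a

theorem r_eq (w : M.N) {x y : Matrix n n k} (hx : x ∈ L) (hy : y ∈ L) :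
    M.act w x = y ↔
      ((w : GL m k) : Matrix m m k) * M.r x = M.r y * ((w : GL m k) : Matrix m m k) := by
  rw [M.act_r w x hx, Units.mul_left_inj]
  refine ⟨fun h => by rw [h], fun h => sub_eq_zero.1 (M.r_inj _ ?_ ?_)⟩
  · exact L.sub_mem (M.act_mem w x hx) hy
  · rw [map_sub, h, sub_self]

theorem closed (hle : G ≤ M.N) (hG : IsZClosed (G : Set (GL m k))) :
    IsZClosed (tor R M G : Set (GL m k)) := by
  have : (tor R M G : Set (GL m k)) = (G : Set (GL m k)) ∩
      ((⋂ d : R.t, {g : GL m k | (g : Matrix m m k) * M.r (diagonal d.1) =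
        M.r (diagonal d.1) * g}) ∩
      ⋂ β, {g : GL m k | ∃ c : k, (g : Matrix m m k) * M.r (R.e β) = c • (M.r (R.e β) * g)}) := by
    have key : ∀ w : M.N, Fix R M w ↔ (∀ d : R.t, ((w : GL m k) : Matrix m m k) *
        M.r (diagonal d.1) = M.r (diagonal d.1) * ((w : GL m k) : Matrix m m k)) ∧
        ∀ β, ∃ c : k, ((w : GL m k) : Matrix m m k) * M.r (R.e β) =
          c • (M.r (R.e β) * ((w : GL m k) : Matrix m m k)) := fun w =>
      and_congr (forall_congr' fun d => r_eq w (R.t_mem d) (R.t_mem d))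
        (forall_congr' fun β => exists_congr fun c => by
          rw [r_eq w (R.e_mem β) (L.smul_mem c (R.e_mem β)), map_smul, smul_mul_assoc])
    ext g
    simp only [Set.mem_inter_iff, Set.mem_iInter, Set.mem_ofPred_eq]
    exact ⟨fun ⟨h1, h2, h3⟩ => ⟨h1, (key ⟨g, h2⟩).1 h3⟩,
      fun ⟨h1, h3⟩ => ⟨h1, hle h1, (key ⟨g, hle h1⟩).2 h3⟩⟩
  rw [this]
  exact hG.inter ((isZClosed_iInter fun d => isZClosed_comm _ _).inter
    (isZClosed_iInter fun β => isZClosed_line _ fun h => e_ne R β (M.r_inj _ (R.e_mem β) h)))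

theorem semis (hg : Algebra.adjoin k (L : Set (Matrix n n k)) = ⊤) {w : M.N} (h : Fix R M w) :
    (⨆ μ : k, Module.End.eigenspace (M.act w).toLinearMap μ) = ⊤ := by
  obtain ⟨E, hE⟩ : ∃ E, E = ⨆ μ : k, Module.End.eigenspace (M.act w).toLinearMap μ := ⟨_, rfl⟩
  have h0 : ∀ (μ : k) a, M.act w a = μ • a → a ∈ E := fun μ a ha =>
    hE ▸ Submodule.mem_iSup_of_mem μ (Module.End.mem_eigenspace_iff.2 ha)
  have h1 : ∀ P : Submodule k (Matrix n n k), (∀ (μ : k) a, M.act w a = μ • a → a ∈ P) → E ≤ P :=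
    fun P hP => hE ▸ iSup_le fun μ a ha => hP μ a (Module.End.mem_eigenspace_iff.1 ha)
  rw [← hE, eq_top_iff]
  intro a ha
  have ha' : a ∈ Algebra.adjoin k (L : Set (Matrix n n k)) := hg ▸ Algebra.mem_top
  clear ha
  induction ha' using Algebra.adjoin_induction with
  | mem x hx =>
    rw [R.decomp x hx]
    refine E.add_mem (h0 1 _ (by rw [h.1, one_smul])) (E.sum_mem fun β _ => E.smul_mem _ ?_)
    obtain ⟨c, hc⟩ := h.2 β
    exact h0 c _ hc
  | algebraMap c => exact h0 1 _ (by rw [AlgEquiv.commutes, one_smul])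
  | add x y _ _ hx hy => exact E.add_mem hx hy
  | mul x y _ _ hx hy =>
    refine h1 (E.comap (LinearMap.mulRight k y)) (fun μ a ha => ?_) hx
    refine h1 (E.comap (LinearMap.mulLeft k a)) (fun ν b hb => ?_) hy
    exact h0 (μ * ν) (a * b) (by rw [map_mul, ha, hb, smul_mul_smul_comm])

theorem comm (hg : Algebra.adjoin k (L : Set (Matrix n n k)) = ⊤)
    (hp : (vanish (tor R M G : Set (GL m k))).IsPrime) (s t : tor R M G) :
    (s : GL m k) * t = t * s := by
  obtain ⟨z, -, hz⟩ := subset_of_cover hp M.fin.toFinset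
    (fun z : M.N => {g : GL m k | (g : Matrix m m k) * ((s : GL m k) : Matrix m m k) =
      (((z : GL m k) * s : GL m k) : Matrix m m k) * g})
    (fun z _ => isZClosed_comm _ _) fun g hg' => by
      refine ⟨inc R M G (⟨g, hg'⟩ * s * ⟨g, hg'⟩⁻¹ * s⁻¹), ?_, ?_⟩
      · rw [Set.Finite.mem_toFinset]
        refine ⟨act_one hg fun β => ?_, ?_⟩
        · rw [map_mul, map_mul, map_mul, map_inv, map_inv, mul_inv_cancel_comm, mul_inv_cancel]
        · change (Matrix.GeneralLinearGroup.det (g * (s : GL m k) * g⁻¹ * (s : GL m k)⁻¹) : k) = 1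
          rw [map_mul, map_mul, map_mul, map_inv, map_inv, mul_inv_cancel_comm, mul_inv_cancel,
            Units.val_one]
      · change (g : Matrix m m k) * ((s : GL m k) : Matrix m m k) =
          ((g * s * g⁻¹ * (s : GL m k)⁻¹ * s : GL m k) : Matrix m m k) * g
        rw [← Units.val_mul, ← Units.val_mul, inv_mul_cancel_right, inv_mul_cancel_right]
  have h1 := hz (tor R M G).one_mem
  have h2 := hz t.2
  simp only [Set.mem_ofPred_eq, Units.val_one, one_mul, mul_one] at h1 h2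
  rw [← h1] at h2
  exact Units.ext h2.symm

end Tor1

open Tor1 in
theorem st_tor1 (k : Type u) [Field k] [IsAlgClosed k] (p : ℕ) [Fact p.Prime] [CharP k p]
    (hz : S_zar k) : S_tor1 k p := by
  classical
  intro n _ _ L π hR Φ _ R Δ co hB m _ _ M G hG
  have hc : ∀ β, R.cor β ≠ 0 := fun β h => by
    obtain ⟨γ, hγ⟩ := R.cor_nc β
    exact hγ (by rw [h, map_zero])
  choose! U hU1 hU using hG.tor
  have hpt : ∀ i ∈ Δ, ∀ s : kˣ, (evM s (U i)).det ≠ 0 → ∃ g : tor R.toFrame M G,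
      (g : GL m k) ∈ pts (U i) ∧ ∀ β, chi R.toFrame M G β g = s ^ co β i := by
    intro i hi s hs
    obtain ⟨g, hg⟩ := exists_gl hs
    obtain ⟨h1, h2, h3, h4⟩ := hU i hi s g hg
    exact ⟨⟨g, h1, h2, h3, fun β => ⟨_, h4 β⟩⟩, ⟨s, hg⟩, fun β => chi_eq (h4 β)⟩
  obtain ⟨C, hC⟩ : ∃ C : Set (Matrix m m (LaurentPolynomial k)), C = insert M.Z (U '' Δ) :=
    ⟨_, rfl⟩
  have hsub : ∀ V ∈ C, pts V ⊆ Submonoid.closure (⋃ V ∈ C, pts V) := fun V hV g hg =>
    Submonoid.subset_closure (Set.mem_biUnion hV hg)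
  have hCU : ∀ i ∈ Δ, U i ∈ C := fun i hi => hC ▸ Or.inr ⟨i, hi, rfl⟩
  have heq : (Submonoid.closure (⋃ V ∈ C, pts V) : Set (GL m k)) = tor R.toFrame M G := by
    refine Set.Subset.antisymm ?_ fun g hg => ?_
    · refine (Submonoid.closure_le (S := (tor R.toFrame M G).toSubmonoid)).2
        (Set.iUnion₂_subset fun V hV g hg => ?_)
      rw [hC] at hV
      rcases hV with rfl | ⟨i, hi, rfl⟩
      · obtain ⟨h1, h2⟩ := M.Z_ker g hg
        exact ⟨hG.Z_sub hg, h1, Fix.of_one h2⟩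
      · obtain ⟨s, hs⟩ := hg
        obtain ⟨h1, h2, h3, h4⟩ := hU i hi s g hs
        exact ⟨h1, h2, h3, fun β => ⟨_, h4 β⟩⟩
    · have h1 : ∀ (c : Φ → kˣ) (S : Finset Φ), S ⊆ Δ → ∃ w : tor R.toFrame M G,
          (w : GL m k) ∈ Submonoid.closure (⋃ V ∈ C, pts V) ∧
          ∀ β, chi R.toFrame M G β w = ∏ α ∈ S, c α ^ co β α := by
        intro c S
        induction S using Finset.induction_on with
        | empty => exact fun _ => ⟨1, Submonoid.one_mem _, fun β => by simp⟩
        | insert i S hi ih =>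
          intro hS
          obtain ⟨w, w1, w2⟩ := ih ((Finset.subset_insert _ _).trans hS)
          have hiΔ := hS (Finset.mem_insert_self i S)
          have hF := finite_det (hU1 i hiΔ)
          obtain ⟨s, -, hs⟩ := (units_infinite (k := k)).exists_notMem_finite
            (hF.union (hF.image fun s => c i / s))
          obtain ⟨g₁, a1, a2⟩ := hpt i hiΔ s fun h => hs (Or.inl h)
          obtain ⟨g₂, b1, b2⟩ := hpt i hiΔ (c i / s) fun h =>
            hs (Or.inr ⟨_, h, div_div_cancel _ _⟩)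
          refine ⟨g₁ * g₂ * w, Submonoid.mul_mem _ (Submonoid.mul_mem _
            (hsub _ (hCU i hiΔ) a1) (hsub _ (hCU i hiΔ) b1)) w1, fun β => ?_⟩
          rw [map_mul, map_mul, a2, b2, w2, Finset.prod_insert hi, ← mul_zpow, mul_div_cancel]
      obtain ⟨w, w1, w2⟩ := h1 (fun α => chi R.toFrame M G α ⟨g, hg⟩) Δ subset_rfl
      have h2 := M.ker_Z _ (act_one hR.gen (w := w⁻¹ * ⟨g, hg⟩) fun β => by
        rw [map_mul, map_inv, w2, ← chi_lin hB hc, inv_mul_cancel])
      have h3 : (w : GL m k) * ((w : GL m k)⁻¹ * g) ∈ Submonoid.closure (⋃ V ∈ C, pts V) :=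
        Submonoid.mul_mem _ w1 (hsub _ (hC ▸ Or.inl rfl) h2)
      rwa [mul_inv_cancel_left] at h3
  have hprime : (vanish (tor R.toFrame M G : Set (GL m k))).IsPrime := by
    rw [← heq]
    refine (hz m).2 C fun V hV => ?_
    rw [hC] at hV
    rcases hV with rfl | ⟨i, hi, rfl⟩
    · exact M.Z_one
    · exact hU1 i hi
  refine ⟨tor R.toFrame M G, chi R.toFrame M G, fun g hg => hg.1,
    ⟨⟨closed hG.le hG.red.1.1, hprime⟩, fun s hs t ht => comm hR.gen hprime ⟨s, hs⟩ ⟨t, ht⟩,
      fun t ht => M.ss2 ⟨t, ht.2.1⟩ (semis hR.gen ht.2.2)⟩,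
    fun w h1 h2 h3 => ⟨h1, w.2, h2, h3⟩, fun w => ⟨w.2.2.1, (fix_inc w).1, act_chi w⟩,
    fun β => MonoidHom.ext fun w => ?_, fun c h i hi => ?_⟩
  · rw [chi_lin hB hc, MonoidHom.finsetProd_apply]
    rfl
  · refine zpow_inj_of_cofinite (finite_det (hU1 i hi)) fun s hs => ?_
    obtain ⟨g, -, hg⟩ := hpt i hi s hs
    have h1 := DFunLike.congr_fun h g
    rw [MonoidHom.finsetProd_apply, Finset.prod_eq_single i] at h1
    · change chi R.toFrame M G i g ^ c i = 1 at h1
      rw [hg, hB.self i hi, zpow_one] at h1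
      rw [h1, zpow_zero]
    · intro α hα hne
      change chi R.toFrame M G α g ^ c α = 1
      rw [hg, hB.ne α hα i hi hne, zpow_zero, _root_.one_zpow]
    · exact fun h => absurd hi h

end Pool.Agent.Lib.MP_3a0263_al.R
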