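import Pool.Agent.Lib.MP_3a0263_al.R.Blue
import Pool.Agent.Lib.MP_3a0263_al.R.Basic

namespace Pool.Agent.Lib.MP_3a0263_al.R

open Matrix

attribute [local instance 100] LieRing.ofAssociativeRing

universe u

namespace Tor2

variable {k : Type u} [Field k] {n : Type} [Fintype n] [DecidableEq n]
  {L : LieSubalgebra k (Matrix n n k)} {Φ : Type u} [Fintype Φ] {R : Frame L Φ}
  {Δ : Finset Φ} {co : Φ → Φ → ℤ} {m : Type} [Fintype m] [DecidableEq m] {M : Model L m}
  {G T : Subgroup (GL m k)} {χ : Φ → T →* kˣ}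

theorem e_ne (R : Frame L Φ) (β : Φ) : R.e β ≠ 0 := fun h => by
  have := R.cf_self β
  rw [h, map_zero] at this
  exact zero_ne_one this

theorem prod_sub {A ι : Type*} [CommGroup A] (s : Finset ι) (f : ι → A) (c c' : ι → ℤ) :
    ∏ i ∈ s, f i ^ (c i - c' i) = (∏ i ∈ s, f i ^ c i) * (∏ i ∈ s, f i ^ c' i)⁻¹ := by
  simp only [_root_.zpow_sub, Finset.prod_mul_distrib, Finset.prod_inv_distrib]

theorem coef_eq (hT : TData R Δ co M G T χ) {c c' : Φ → ℤ}
    (h : ∏ α ∈ Δ, χ α ^ c α = ∏ α ∈ Δ, χ α ^ c' α) : ∀ α ∈ Δ, c α = c' α := by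
  intro α hα
  have := hT.indep (fun α => c α - c' α) ((prod_sub Δ χ c c').trans
    ((congrArg (· * _) h).trans (mul_inv_cancel _))) α hα
  omega

theorem chi_inj (hB : BaseData R Δ co) (hT : TData R Δ co M G T χ) : Function.Injective χ :=
  fun β γ h => hB.inj β γ (coef_eq hT (by rw [← hT.lin, ← hT.lin, h]))

theorem chi_ne (hB : BaseData R Δ co) (hT : TData R Δ co M G T χ) (β : Φ) : χ β ≠ 1 := by
  intro h
  have h0 := hT.indep (co β) (by rw [← hT.lin, h])
  have := hB.red β β 2 fun α hα => by rw [h0 α hα]; rfl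
  omega

/-- coordinates of a common eigenvector -/
theorem eig (hT : TData R Δ co M G T χ) {y : Matrix n n k} (hy : y ∈ L) (ψ : T →* kˣ)
    (h : ∀ (w : T) (hw : (w : GL m k) ∈ M.N), M.act ⟨w, hw⟩ y = (ψ w : k) • y) :
    (ψ ≠ 1 → R.tp y = 0) ∧ ∀ β, χ β ≠ ψ → R.cf β y = 0 := by
  have key : ∀ w : T, (ψ w : k) • y =
      diagonal (R.tp y).1 + ∑ β, (R.cf β y * (χ β w : k)) • R.e β := by
    intro w
    obtain ⟨hw, h1, h2⟩ := hT.act w
    rw [← h w hw]
    conv_lhs => rw [R.decomp y hy]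
    rw [map_add, h1, map_sum]
    simp only [map_smul, h2, smul_smul]
  constructor
  · intro hψ
    obtain ⟨w, hw⟩ := DFunLike.ne_iff.1 hψ
    have h1 := congrArg R.tp (key w)
    rw [map_smul, map_add, R.tp_t, map_sum] at h1
    simp only [map_smul, R.tp_e, smul_zero, Finset.sum_const_zero, add_zero] at h1
    refine Subtype.ext (funext fun i => ?_)
    have h2 : (ψ w : k) * (R.tp y).1 i = (R.tp y).1 i := congrFun (congrArg Subtype.val h1) i
    by_contra h0
    exact hw (Units.ext (mul_right_cancel₀ h0 (h2.trans (one_mul _).symm)))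
  · intro β hβ
    obtain ⟨w, hw⟩ := DFunLike.ne_iff.1 hβ
    have h1 := congrArg (R.cf β) (key w)
    rw [map_smul, map_add, R.cf_t, map_sum, zero_add, Finset.sum_eq_single β] at h1
    · rw [map_smul, R.cf_self, smul_eq_mul, smul_eq_mul, mul_one, mul_comm] at h1
      by_contra h0
      exact hw (Units.ext (mul_left_cancel₀ h0 h1).symm)
    · intro γ _ hγ
      rw [map_smul, R.cf_ne β γ hγ.symm, smul_zero]
    · intro h0; exact absurd (Finset.mem_univ β) h0

theorem conj_r (w : GL m k) (hw : w ∈ M.N) {x : Matrix n n k} (hx : x ∈ L) :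
    (w : Matrix m m k) * M.r x * ((w⁻¹ : GL m k) : Matrix m m k) = M.r (M.act ⟨w, hw⟩ x) := by
  rw [M.act_r ⟨w, hw⟩ x hx, mul_assoc, ← Units.val_mul, mul_inv_cancel, Units.val_one, mul_one]

theorem root_chi (hB : BaseData R Δ co) (hG : GData R Δ co M G) (hT : TData R Δ co M G T χ)
    (β : Φ) : IsRoot G T (χ β) := by
  refine ⟨chi_ne hB hT β, M.r (R.e β), ?_, fun h => e_ne R β (M.r_inj _ (R.e_mem β) h), ?_⟩
  · rw [hG.lie_eq]; exact ⟨_, R.e_mem β, rfl⟩
  · intro w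
    obtain ⟨hw, -, h2⟩ := hT.act w
    rw [conj_r _ hw (R.e_mem β), h2, map_smul]

theorem root_iff (hG : GData R Δ co M G) (hT : TData R Δ co M G T χ) {ψ : T →* kˣ}
    (h : IsRoot G T ψ) : ∃ β, ψ = χ β := by
  obtain ⟨h1, x, hx, hx0, h2⟩ := h
  rw [hG.lie_eq] at hx
  obtain ⟨y, hy, rfl⟩ := hx
  have hy' : y ∈ L := hy
  obtain ⟨e1, e2⟩ := eig hT hy' ψ fun w hw => by
    have h3 := h2 w
    rw [conj_r _ hw hy'] at h3
    refine sub_eq_zero.1 (M.r_inj _ (L.sub_mem (M.act_mem _ y hy') (L.smul_mem _ hy')) ?_)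
    rw [map_sub, map_smul, h3, sub_self]
  by_contra hc
  apply hx0
  have : y = 0 := by
    rw [R.decomp y hy', e1 h1]
    have : ∀ β, R.cf β y = 0 := fun β => e2 β fun h => hc ⟨β, h.symm⟩
    simp [this]
  rw [this, map_zero]

theorem fix_of_ss {V : Type*} [AddCommGroup V] [Module k V] {f : Module.End k V}
    (hf : f.IsSemisimple) {v z : V} (h1 : f v = v + z) (h2 : f z = z) : f v = v := by
  have h := hf.isFinitelySemisimple.genEigenspace_eq_eigenspace 1 (k := ((2 : ℕ) : ℕ∞))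
    (by norm_num)
  have hv : v ∈ f.genEigenspace 1 ((2 : ℕ) : ℕ∞) := by
    rw [Module.End.mem_genEigenspace_nat, LinearMap.mem_ker, pow_two, Module.End.mul_apply]
    simp [h1, h2]
  rw [h, Module.End.mem_eigenspace_iff, one_smul] at hv
  exact hv

theorem max_torus {π : Matrix n n k →ₗ[k] Matrix n n k} (hR : Rich L π) (hB : BaseData R Δ co)
    (hG : GData R Δ co M G) (hT : TData R Δ co M G T χ) : IsMaxTorus G T := by
  refine ⟨hT.le, hT.torus, fun T' h1 h2 h3 => le_antisymm (fun w hw => ?_) h1⟩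
  have hN : w ∈ M.N := hG.le (h2 hw)
  have hc : ∀ (s : T) (hs : (s : GL m k) ∈ M.N) (x : Matrix n n k),
      M.act ⟨s, hs⟩ (M.act ⟨w, hN⟩ x) = M.act ⟨w, hN⟩ (M.act ⟨s, hs⟩ x) := by
    intro s hs x
    have : (⟨s, hs⟩ * ⟨w, hN⟩ : M.N) = ⟨w, hN⟩ * ⟨s, hs⟩ :=
      Subtype.ext (h3.2.1 _ (h1 s.2) _ hw)
    rw [← AlgEquiv.mul_apply, ← map_mul, this, map_mul, AlgEquiv.mul_apply]
  have he : ∀ β, M.act ⟨w, hN⟩ (R.e β) = R.cf β (M.act ⟨w, hN⟩ (R.e β)) • R.e β := by
    intro β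
    have hy := M.act_mem ⟨w, hN⟩ _ (R.e_mem β)
    obtain ⟨e1, e2⟩ := eig hT hy (χ β) fun s hs => by
      obtain ⟨_, -, h5⟩ := hT.act s
      rw [hc, h5, map_smul]
    conv_lhs => rw [R.decomp _ hy, e1 (chi_ne hB hT β)]
    rw [Finset.sum_eq_single β]
    · simp
    · intro γ _ hγ
      rw [e2 γ fun h => hγ (chi_inj hB hT h), zero_smul]
    · intro h0; exact absurd (Finset.mem_univ β) h0
  refine hT.mem ⟨w, hN⟩ (h2 hw) (fun d => ?_) fun β => ⟨_, he β⟩
  have hy := M.act_mem ⟨w, hN⟩ _ (R.t_mem d)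
  obtain ⟨-, e2⟩ := eig hT hy 1 fun s hs => by
    obtain ⟨_, h5, -⟩ := hT.act s
    rw [hc, h5]; simp
  obtain ⟨d', hd'⟩ : ∃ d' : R.t, M.act ⟨w, hN⟩ (diagonal d.1) = diagonal d'.1 := by
    refine ⟨R.tp (M.act ⟨w, hN⟩ (diagonal d.1)), ?_⟩
    conv_lhs => rw [R.decomp _ hy]
    have : ∀ β, R.cf β (M.act ⟨w, hN⟩ (diagonal d.1)) = 0 := fun β => e2 β (chi_ne hB hT β)
    simp [this]
  have hwt : ∀ β, R.wt β d' = R.wt β d := by
    intro β
    have h4 : M.act ⟨w, hN⟩ ⁅diagonal d.1, R.e β⁆ =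
        ⁅M.act ⟨w, hN⟩ (diagonal d.1), M.act ⟨w, hN⟩ (R.e β)⁆ := by
      simp only [Ring.lie_def, map_sub, map_mul]
    have h5 : M.act ⟨w, hN⟩ (R.e β) ≠ 0 := fun h =>
      e_ne R β ((M.act ⟨w, hN⟩).injective (by rw [h, map_zero]))
    have h6 : ⁅diagonal d'.1, M.act ⟨w, hN⟩ (R.e β)⁆ = R.wt β d' • M.act ⟨w, hN⟩ (R.e β) := by
      rw [he β, lie_smul, R.lie_e, smul_comm]
    rw [R.lie_e, map_smul, hd', h6] at h4
    exact (smul_left_injective k h5 h4).symm
  obtain ⟨c, hcz⟩ := hR.cent (z := diagonal (d' - d).1) fun x hx => by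
    rw [← lie_skew, neg_eq_zero, R.decomp x hx, lie_add, lie_sum]
    have h7 : ⁅diagonal (d' - d).1, diagonal (R.tp x).1⁆ = 0 := by
      rw [Ring.lie_def, diagonal_mul_diagonal, diagonal_mul_diagonal, sub_eq_zero]
      congr 1
      funext i
      exact mul_comm _ _
    rw [h7, zero_add]
    refine Finset.sum_eq_zero fun β _ => ?_
    rw [lie_smul, R.lie_e, map_sub, hwt, sub_self, zero_smul, smul_zero]
  refine fix_of_ss (M.ss1 ⟨w, hN⟩ (h3.2.2 w hw)) (z := c • 1) ?_ ?_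
  · show M.act ⟨w, hN⟩ (diagonal d.1) = _
    rw [hd', ← hcz, diagonal_add]
    congr 1
    funext i
    simp
  · show M.act ⟨w, hN⟩ (c • 1) = _
    rw [map_smul, map_one]

end Tor2

open Tor2 in
theorem st_tor2 (k : Type u) [Field k] [IsAlgClosed k] (p : ℕ) [Fact p.Prime] [CharP k p] :
    S_tor2 k p := by
  intro n _ _ L π hR Φ _ R Δ co hB hgood m _ _ M G hG T χ hT
  have hinj := chi_inj hB hT
  refine ⟨T, max_torus hR hB hG hT, Δ.map ⟨χ, hinj⟩, ⟨?_, ?_, ?_⟩, ?_⟩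
  · intro α hα
    obtain ⟨β, -, rfl⟩ := Finset.mem_map.1 hα
    exact root_chi hB hG hT β
  · intro c hc α hα
    obtain ⟨β, hβ, rfl⟩ := Finset.mem_map.1 hα
    rw [Finset.prod_map] at hc
    exact hT.indep (fun α => c (χ α)) hc β hβ
  · intro ψ hψ
    obtain ⟨β, rfl⟩ := root_iff hG hT hψ
    rcases hB.sign β with h | h
    · refine ⟨Function.extend χ (fun α => (co β α).toNat) 0, Or.inl ?_⟩
      rw [Finset.prod_map, hT.lin β]
      refine Finset.prod_congr rfl fun α hα => ?_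
      show _ = χ α ^ Function.extend χ (fun α => (co β α).toNat) 0 (χ α)
      rw [hinj.extend_apply]
      conv_lhs => rw [← Int.toNat_of_nonneg (h α hα)]
      exact _root_.zpow_natCast (χ α) _
    · refine ⟨Function.extend χ (fun α => (-co β α).toNat) 0, Or.inr ?_⟩
      rw [Finset.prod_map, hT.lin β]
      refine (Finset.prod_inv_distrib fun α => χ α ^ co β α).symm.trans ?_
      refine Finset.prod_congr rfl fun α hα => ?_
      show _ = χ α ^ Function.extend χ (fun α => (-co β α).toNat) 0 (χ α)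
      rw [hinj.extend_apply]
      refine (_root_.zpow_neg (χ α) _).symm.trans ?_
      conv_lhs => rw [← Int.toNat_of_nonneg (neg_nonneg.2 (h α hα))]
      exact _root_.zpow_natCast (χ α) _
  · intro θ hθ c hc α hα hc0
    obtain ⟨β, hβ, rfl⟩ := Finset.mem_map.1 hα
    obtain ⟨θ0, rfl⟩ := root_iff hG hT hθ.1
    rw [Finset.prod_map, hT.lin θ0] at hc
    have h1 : co θ0 β = (c (χ β) : ℤ) := coef_eq hT (c' := fun α => (c (χ α) : ℤ))
      (by rw [hc]; exact Finset.prod_congr rfl fun α _ => (_root_.zpow_natCast (χ α) _).symm) β hβ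
    intro hd
    refine hgood θ0 β hβ ?_ ?_
    · rw [h1]; exact_mod_cast hc0
    · rw [h1]; exact_mod_cast hd

end Pool.Agent.Lib.MP_3a0263_al.R
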