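import Pool.Agent.Lib.MP_3a0263_al.R.Blue
import Pool.Agent.Lib.MP_3a0263_al.R.Basic

namespace Pool.Agent.Lib.MP_3a0263_al.R

open Matrix

attribute [local instance 100] LieRing.ofAssociativeRing

universe u

namespace Two1

set_option linter.unusedSectionVars false

variable {k : Type u} [Field k] [CharP k 2] {n : Type} [Fintype n] [DecidableEq n]
variable {L : LieSubalgebra k (Matrix n n k)} {π : Matrix n n k →ₗ[k] Matrix n n k}
variable {t : Submodule k (n → k)}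

theorem neg_eq {V : Type*} [AddCommGroup V] [Module k V] (x : V) : -x = x := by
  rw [← neg_one_smul k x, CharTwo.neg_eq, one_smul]

/-- the square is a scalar -/
def Null (x : Matrix n n k) : Prop := ∃ c : k, x ^ 2 = c • 1

theorem Null.line (hS : ∀ c : k, c • (1 : Matrix n n k) ∈ L → c = 0) {x y w : Matrix n n k}
    (hx : Null x) (hy : Null y) (hL : ⁅x, y⁆ ∈ L) (h0 : ⁅x, y⁆ ≠ 0)
    (hw : w ∈ Submodule.span k {x, y}) (hn : Null w) : (∃ c : k, w = c • x) ∨ ∃ c : k, w = c • y := by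
  obtain ⟨s, r, rfl⟩ := Submodule.mem_span_pair.1 hw
  obtain ⟨a, ha⟩ := hx
  obtain ⟨b, hb⟩ := hy
  obtain ⟨c, hc⟩ := hn
  have e : (s * r) • ⁅x, y⁆ = (c - s * s * a - r * r * b) • (1 : Matrix n n k) := by
    rw [Ring.lie_def, sub_eq_add_neg, neg_eq (k := k) (y * x), sub_smul, sub_smul, ← hc, mul_smul (s * s),
      mul_smul (r * r), ← ha, ← hb]
    simp only [pow_two, mul_add, add_mul, smul_mul_assoc, mul_smul_comm, smul_add, smul_smul]
    rw [mul_comm r s]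
    abel
  have e1 := hS _ (e ▸ L.smul_mem _ hL)
  rw [e1, zero_smul, smul_eq_zero, mul_eq_zero] at e
  rcases e with (e | e) | e
  · exact Or.inr ⟨r, by rw [e, zero_smul, zero_add]⟩
  · exact Or.inl ⟨s, by rw [e, zero_smul, add_zero]⟩
  · exact absurd e h0

theorem of_le_one {V : Submodule k (Matrix n n k)} (h : Module.finrank k V ≤ 1)
    {x y : Matrix n n k} (hx : x ∈ V) (h0 : x ≠ 0) (hy : y ∈ V) : ∃ c : k, y = c • x := by
  obtain ⟨v, hv⟩ := finrank_le_one_iff.1 h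
  obtain ⟨a, ha⟩ := hv ⟨x, hx⟩
  obtain ⟨b, hb⟩ := hv ⟨y, hy⟩
  have e1 : x = a • v.1 := (congrArg Subtype.val ha).symm
  have e2 : y = b • v.1 := (congrArg Subtype.val hb).symm
  have a0 : a ≠ 0 := fun e => h0 (by rw [e1, e, zero_smul])
  exact ⟨b / a, by rw [e1, e2, smul_smul, div_mul_cancel₀ _ a0]⟩

theorem eig_odd (he : S_eig k 2) (hR : Rich L π) (hD : Diag L t)
    (hS : ∀ c : k, c • (1 : Matrix n n k) ∈ L → c = 0) {γ : t →ₗ[k] k} {x : Matrix n n k}
    (hx : x ∈ wsp L t γ) (hn : Null x) {h : t} {ν : n → ℤ} {a : ℤ} (hν : IsToral h.1 ν)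
    (ha : γ h = a) (a0 : (a : k) ≠ 0) : ∃ ξ : k, del π 2 ν a x = ξ • x := by
  obtain ⟨H, h1 | ⟨y, z, ξ, η, -, -, -, hy, hz, hsp, hyz⟩⟩ := he n L π t hR hD γ h ν a hν ha a0
  · by_cases h0 : x = 0
    · exact ⟨0, by simp [h0]⟩
    · exact of_le_one h1 hx h0 (hR.del_mem hD a hx.2)
  · have my : y ∈ wsp L t γ := hsp ▸ Submodule.subset_span (by simp)
    have mz : z ∈ wsp L t γ := hsp ▸ Submodule.subset_span (by simp)
    rcases Null.line hS (H y my ξ hy) (H z mz η hz) (L.lie_mem my.1 mz.1) (hyz rfl) (hsp ▸ hx) hn with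
      ⟨c, rfl⟩ | ⟨c, rfl⟩
    · exact ⟨ξ, by rw [map_smul, hy, smul_comm]⟩
    · exact ⟨η, by rw [map_smul, hz, smul_comm]⟩

theorem eig (he : S_eig k 2) (hR : Rich L π) (hD : Diag L t)
    (hS : ∀ c : k, c • (1 : Matrix n n k) ∈ L → c = 0) {γ : t →ₗ[k] k} (hγ : γ ≠ 0)
    {x : Matrix n n k} (hx : x ∈ wsp L t γ) (h0 : x ≠ 0) (hn : Null x) {h : t} {ν : n → ℤ}
    (hν : IsToral h.1 ν) : ∃ (a : ℤ) (ξ : k), γ h = a ∧ del π 2 ν a x = ξ • x := by
  obtain ⟨a, ha⟩ := exists_lift hν hx.2 h0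
  refine ⟨a, ?_⟩
  simp only [ha, true_and]
  by_cases a0 : (a : k) = 0
  · obtain ⟨h', ν', hν', e'⟩ := hD.toral γ hγ
    obtain ⟨b, hb⟩ := exists_lift hν' hx.2 h0
    obtain ⟨ξ, hξ⟩ := eig_odd he hR hD hS hx hn hν' hb (hb ▸ e')
    obtain ⟨η, hη⟩ := eig_odd he hR hD hS hx hn (h := h' + h) (a := b + a) (hν'.add hν)
      (by rw [map_add, ha, hb, Int.cast_add]) (by rw [Int.cast_add, a0, add_zero]; exact hb ▸ e')
    rw [del_add hν' ν a hb hx.2, hξ] at hη
    exact ⟨η - ξ, by rw [sub_smul, ← hη, add_sub_cancel_left]⟩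
  · exact eig_odd he hR hD hS hx hn hν ha a0

theorem null_of_eig (he : S_eig k 2) (hR : Rich L π) (hD : Diag L t) {γ : t →ₗ[k] k} (hγ : γ ≠ 0)
    {x : Matrix n n k} (hx : x ∈ wsp L t γ)
    (H : ∀ (h : t) (ν : n → ℤ), IsToral h.1 ν → ∃ (a : ℤ) (ξ : k), γ h = a ∧ del π 2 ν a x = ξ • x) :
    Null x := by
  obtain ⟨h, ν, hν, e⟩ := hD.toral γ hγ
  obtain ⟨a, ξ, ha, hξ⟩ := H h ν hν
  exact (he n L π t hR hD γ h ν a hν ha (ha ▸ e)).1 x hx ξ hξ

/-- the canonical vectors of a weight space -/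
structure Spec (L : LieSubalgebra k (Matrix n n k)) (t : Submodule k (n → k)) (γ : t →ₗ[k] k)
    (v : Bool → Matrix n n k) (T : Prop) (z : t) : Prop where
  mem : ∀ b, v b ∈ wsp L t γ
  ne : ∀ b, v b ≠ 0
  null : ∀ b, Null (v b)
  lie : ⁅v false, v true⁆ = diagonal z.1
  nc : T → ∃ β, wsp L t β ≠ ⊥ ∧ β z = 1
  one : ¬ T → v true = v false
  span : wsp L t γ ≤ Submodule.span k {v false, v true}
  line : ∀ x ∈ wsp L t γ, Null x → ∃ b, ∃ c : k, x = c • v b

theorem exists_spec (he : S_eig k 2) (hR : Rich L π) (hD : Diag L t)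
    (hS : ∀ c : k, c • (1 : Matrix n n k) ∈ L → c = 0) {γ : t →ₗ[k] k} (hγ : γ ≠ 0)
    (hb : wsp L t γ ≠ ⊥) : ∃ v T z, Spec L t γ v T z := by
  obtain ⟨h, ν, hν, e⟩ := hD.toral γ hγ
  obtain ⟨x, hx, x0⟩ := Submodule.exists_mem_ne_zero_of_ne_bot hb
  obtain ⟨a, ha⟩ := exists_lift hν hx.2 x0
  obtain ⟨H, h1 | ⟨y, z, ξ, η, y0, z0, -, hy, hz, hsp, hyz⟩⟩ :=
    he n L π t hR hD γ h ν a hν ha (ha ▸ e)
  · obtain ⟨ξ, hξ⟩ := of_le_one h1 hx x0 (hR.del_mem (p := 2) (ν := ν) hD a hx.2)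
    refine ⟨fun _ => x, False, 0, fun _ => hx, fun _ => x0, fun _ => H x hx ξ hξ, by simp, False.elim,
      fun _ => rfl, fun y hy => ?_, fun y hy _ => ⟨false, of_le_one h1 hx x0 hy⟩⟩
    obtain ⟨c, rfl⟩ := of_le_one h1 hx x0 hy
    exact Submodule.smul_mem _ _ (Submodule.subset_span (by simp))
  · have my : y ∈ wsp L t γ := hsp ▸ Submodule.subset_span (by simp)
    have mz : z ∈ wsp L t γ := hsp ▸ Submodule.subset_span (by simp)
    have m0 : ⁅y, z⁆ ∈ wsp L t 0 := by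
      have := wsp_lie my mz
      rwa [← neg_eq (k := k) γ, neg_add_eq_zero.2 (neg_eq (k := k) γ).symm] at this
    obtain ⟨d, hd⟩ := hD.zero m0
    obtain ⟨β, hβ, β0⟩ : ∃ β, wsp L t β ≠ ⊥ ∧ β d ≠ 0 := by
      by_contra hc
      push Not at hc
      obtain ⟨c, hc⟩ := hR.central_diag hD d hc
      have := hS c (hc ▸ hD.mem _ d.2)
      exact hyz rfl (by rw [hd, hc, this, zero_smul])
    have i0 : (β d)⁻¹ ≠ 0 := inv_ne_zero β0
    have ny := H y my ξ hy
    have nz := H z mz η hz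
    refine ⟨fun b => cond b z ((β d)⁻¹ • y), True, (β d)⁻¹ • d, ?_, ?_, ?_, ?_, fun _ => ⟨β, hβ, ?_⟩,
      fun e => absurd trivial e, ?_, fun w hw hn => ?_⟩
    · rintro (_ | _)
      exacts [Submodule.smul_mem _ _ my, mz]
    · rintro (_ | _)
      exacts [smul_ne_zero i0 y0, z0]
    · rintro (_ | _)
      · obtain ⟨c, hc⟩ := ny
        exact ⟨(β d)⁻¹ ^ 2 * c, by rw [cond_false, smul_pow, hc, smul_smul]⟩
      · exact nz
    · rw [cond_false, cond_true, smul_lie, hd, Submodule.coe_smul, diagonal_smul]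
    · rw [map_smul, smul_eq_mul, inv_mul_cancel₀ β0]
    · rw [hsp, Submodule.span_le]
      rintro w (rfl | rfl)
      · exact Submodule.mem_span_pair.2 ⟨β d, 0, by simp [smul_smul, β0]⟩
      · exact Submodule.subset_span (by simp)
    · rcases Null.line hS ny nz (L.lie_mem my.1 mz.1) (hyz rfl) (hsp ▸ hw) hn with ⟨c, rfl⟩ | ⟨c, rfl⟩
      · exact ⟨false, c * β d, by simp [smul_smul, β0]⟩
      · exact ⟨true, c, rfl⟩

/-- the grading group of one toral element -/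
abbrev Lam (k : Type u) [Field k] : Type u := (ℤ × k) ⧸ AddSubgroup.zmultiples ((2, -1) : ℤ × k)

/-- the class of a pair -/
def cl (a : ℤ) (ξ : k) : Lam k := QuotientAddGroup.mk (a, ξ)

theorem cl_add (a b : ℤ) (ξ η : k) : cl a ξ + cl b η = cl (a + b) (ξ + η) := rfl

theorem cl_shift (a j : ℤ) (ξ : k) : cl (a + j * 2) (ξ - j) = cl a ξ := by
  refine QuotientAddGroup.eq.2 (AddSubgroup.mem_zmultiples_iff.2 ⟨-j, ?_⟩)
  ext
  · simp
  · simp

theorem cl_two (a : ℤ) (ξ : k) : cl a ξ + cl a ξ = cl 0 (a : k) := by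
  rw [cl_add, CharTwo.add_self_eq_zero ξ, ← cl_shift 0 a (a : k), sub_self, zero_add, mul_two]

theorem cl_zero {ξ : k} (h : cl 0 ξ = 0) : ξ = 0 := by
  obtain ⟨j, hj⟩ := AddSubgroup.mem_zmultiples_iff.1 ((QuotientAddGroup.eq_zero_iff _).1 h)
  have h1 : j = 0 := by simpa using congrArg Prod.fst hj
  simpa [h1] using (congrArg Prod.snd hj).symm

theorem cl_eq (hR : Rich L π) {x : Matrix n n k} (hx : x ∈ L) (h0 : x ≠ 0) {ν : n → ℤ} {a b : ℤ}
    {ξ η : k} (e : (a : k) = b) (ha : del π 2 ν a x = ξ • x) (hb : del π 2 ν b x = η • x) :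
    cl a ξ = cl b η := by
  obtain ⟨j, hj⟩ := (CharP.intCast_eq_intCast k 2).1 e |>.dvd
  have e1 : b = a + j * (2 : ℕ) := by linarith
  rw [e1, hR.del_shift a j hx, ha, ← sub_smul] at hb
  rw [e1, ← smul_left_injective k h0 hb]
  exact (cl_shift a j ξ).symm

theorem exists_dual {x y : Matrix n n k} (h : ∀ c : k, c • y ≠ x) :
    ∃ φ : Matrix n n k →ₗ[k] k, φ x = 1 ∧ φ y = 0 := by
  obtain ⟨f, h1, h2⟩ := Submodule.exists_dual_map_eq_bot_of_notMem (p := Submodule.span k {y})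
    (fun e => (Submodule.mem_span_singleton.1 e).elim h) inferInstance
  refine ⟨(f x)⁻¹ • f, by simp [h1], ?_⟩
  have : f y = 0 := by
    rw [← Submodule.mem_bot k, ← h2]
    exact Submodule.mem_map_of_mem (Submodule.mem_span_singleton_self y)
  simp [this]

/-- toral elements with their lifts -/
abbrev Tor (t : Submodule k (n → k)) : Type u := {i : t × (n → ℤ) // IsToral i.1.1 i.2}

theorem exists_deg (he : S_eig k 2) (hR : Rich L π) (hD : Diag L t)
    (hS : ∀ c : k, c • (1 : Matrix n n k) ∈ L → c = 0) {γ : t →ₗ[k] k} (hγ : γ ≠ 0)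
    {x : Matrix n n k} (hx : x ∈ wsp L t γ) (h0 : x ≠ 0) (hn : Null x) :
    ∃ l : Tor t → Lam k, ∀ i : Tor t, ∃ (a : ℤ) (ξ : k), γ i.1.1 = a ∧ del π 2 i.1.2 a x = ξ • x ∧
      l i = cl a ξ := by
  choose a ξ h using fun i : Tor t => eig he hR hD hS hγ hx h0 hn i.2
  exact ⟨fun i => cl (a i) (ξ i), fun i => ⟨a i, ξ i, (h i).1, (h i).2, rfl⟩⟩

theorem exists_tp (t : Submodule k (n → k)) :
    ∃ g : Matrix n n k →ₗ[k] t, ∀ d : t, g (diagonal d.1) = d := by
  obtain ⟨g, hg⟩ := LinearMap.exists_leftInverse_of_injective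
    (diagonalLinearMap n k k ∘ₗ t.subtype) (LinearMap.ker_eq_bot.2
      (diagonal_injective.comp Subtype.val_injective))
  exact ⟨g, fun d => LinearMap.congr_fun hg d⟩

end Two1

open Two1 in
theorem st_two1 (k : Type u) [Field k] [IsAlgClosed k] (p : ℕ) [Fact p.Prime] [CharP k p]
    (he : S_eig k p) : S_two1 k p := by
  classical
  rintro rfl n _ _ L π t hR hD hS
  let Wt : Type u := {γ : t →ₗ[k] k // γ ≠ 0 ∧ wsp L t γ ≠ ⊥}
  have : Finite Wt := (Set.finite_range fun ij : n × n => wE t ij.1 ij.2).subset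
    (t := {γ : t →ₗ[k] k | γ ≠ 0 ∧ wsp L t γ ≠ ⊥}) fun γ hγ => by
      obtain ⟨x, hx, x0⟩ := Submodule.exists_mem_ne_zero_of_ne_bot hγ.2
      obtain ⟨i, j, e⟩ := eq_wE hx.2 x0
      exact ⟨(i, j), e.symm⟩
  choose v T z hv using fun γ : Wt => exists_spec he hR hD hS γ.2.1 γ.2.2
  let Φ : Type u := {q : Wt × Bool // T q.1 ∨ q.2 = false}
  let _ : Fintype Φ := Fintype.ofFinite Φ
  let e : Φ → Matrix n n k := fun q => v q.1.1 q.1.2
  let wt : Φ → t →ₗ[k] k := fun q => q.1.1.1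
  let ng : Φ → Φ := fun q => if h : T q.1.1 then ⟨(q.1.1, !q.1.2), Or.inl h⟩ else q
  have em : ∀ q, e q ∈ wsp L t (wt q) := fun q => (hv _).mem _
  have e0 : ∀ q, e q ≠ 0 := fun q => (hv _).ne _
  have w0 : ∀ q, wt q ≠ 0 := fun q => q.1.1.2.1
  have ng1 : ∀ q, (ng q).1.1 = q.1.1 := fun q => by
    simp only [ng]; split_ifs <;> rfl
  have wng : ∀ q, wt (ng q) = wt q := fun q => congrArg Subtype.val (ng1 q)
  have ngT : ∀ q, ng q ≠ q → T q.1.1 := fun q h => by_contra fun h' => h (dif_neg h')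
  have ex : ∀ γ b, ∃ q : Φ, q.1.1 = γ ∧ e q = v γ b := fun γ b => by
    by_cases h : T γ
    · exact ⟨⟨(γ, b), Or.inl h⟩, rfl, rfl⟩
    · refine ⟨⟨(γ, false), Or.inr rfl⟩, rfl, ?_⟩
      cases b
      exacts [rfl, ((hv γ).one h).symm]
  have inj : ∀ q r : Φ, wt q = wt r → r = q ∨ r = ng q := by
    rintro ⟨⟨γ, b⟩, h⟩ ⟨⟨γ', b'⟩, h'⟩ e
    obtain rfl : γ = γ' := Subtype.ext e
    by_cases hT : T γ
    · simp only [ng, dif_pos hT]
      cases b <;> cases b' <;> simp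
    · obtain rfl := h.resolve_left hT
      obtain rfl := h'.resolve_left hT
      exact Or.inl rfl
  have lng : ∀ q, ⁅e q, e (ng q)⁆ = diagonal (z q.1.1).1 := by
    rintro ⟨⟨γ, b⟩, h⟩
    by_cases hT : T γ
    · simp only [ng, e, dif_pos hT]
      cases b
      · exact (hv γ).lie
      · rw [← lie_skew, neg_eq (k := k)]; exact (hv γ).lie
    · obtain rfl := h.resolve_left hT
      simp only [ng, e, dif_neg hT]
      rw [← (hv γ).lie, (hv γ).one hT]
  have l0 : ∀ q, ng q ≠ q → ⁅e q, e (ng q)⁆ ≠ 0 := fun q h h0 => by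
    obtain ⟨β, -, hβ⟩ := (hv _).nc (ngT q h)
    rw [lng, ← diagonal_zero] at h0
    rw [show z q.1.1 = 0 from Subtype.ext (diagonal_injective h0), map_zero] at hβ
    exact zero_ne_one hβ
  choose φ hφ1 hφ0 using fun q : Φ => exists_dual (x := e q) (y := if ng q = q then 0 else e (ng q))
    fun c hc => by
      split_ifs at hc with h
      · exact e0 q (by rw [← hc, smul_zero])
      · exact l0 q h (by rw [← hc, smul_lie, lie_self, smul_zero])
  obtain ⟨g, hg⟩ := exists_tp t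
  choose deg hdeg using fun q : Φ => exists_deg he hR hD hS (w0 q) (em q) (e0 q) ((hv _).null _)
  have tpt : ∀ d : t, (g ∘ₗ comp t 0) (diagonal d.1) = d := fun d => by
    rw [LinearMap.comp_apply, comp_of_mem (diagonal_mem_wA _), hg]
  have tpe : ∀ q, (g ∘ₗ comp t 0) (e q) = 0 := fun q => by
    rw [LinearMap.comp_apply, comp_of_ne (em q).2 (w0 q), map_zero]
  have cft : ∀ q (d : t), (φ q ∘ₗ comp t (wt q)) (diagonal d.1) = 0 := fun q d => by
    rw [LinearMap.comp_apply, comp_of_ne (diagonal_mem_wA _) (w0 q).symm, map_zero]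
  have cfs : ∀ q, (φ q ∘ₗ comp t (wt q)) (e q) = 1 := fun q => by
    rw [LinearMap.comp_apply, comp_of_mem (em q).2, hφ1]
  have cfn : ∀ q r, q ≠ r → (φ q ∘ₗ comp t (wt q)) (e r) = 0 := fun q r h => by
    rw [LinearMap.comp_apply]
    by_cases hw : wt r = wt q
    · obtain rfl := (inj q r hw.symm).resolve_left h.symm
      rw [← hw, comp_of_mem (em _).2, ← if_neg (t := 0) (e := e (ng q)) h.symm, hφ0]
    · rw [comp_of_ne (em r).2 hw, map_zero]
  have two : ∀ q (i : Tor t), deg q i + deg q i = cl 0 (wt q i.1.1) := fun q i => by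
    obtain ⟨a, ξ, h1, -, h3⟩ := hdeg q i
    rw [h3, cl_two, h1]
  have sep : ∀ γ : t →ₗ[k] k, (∀ i : Tor t, cl 0 (γ i.1.1) = 0) → γ = 0 := fun γ h => by_contra fun h0 => by
    obtain ⟨d, ν, hν, hd⟩ := hD.toral γ h0
    exact hd (cl_zero (h ⟨(d, ν), hν⟩))
  refine ⟨Φ, inferInstance, Tor t → Lam k, inferInstance, ⟨{
    t := t
    e := e
    wt := wt
    tp := g ∘ₗ comp t 0
    cf := fun q => φ q ∘ₗ comp t (wt q)
    neg := ng
    cor := fun q => z q.1.1
    t_mem := fun d => hD.mem _ d.2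
    e_mem := fun q => (em q).1
    lie_e := fun d q => (em q).2 d
    wt_ne := w0
    decomp := fun x hx => ?_
    tp_t := tpt
    tp_e := tpe
    cf_t := cft
    cf_self := cfs
    cf_ne := cfn
    neg_neg := fun q => ?_
    wt_neg := fun q => by rw [wng, neg_eq (k := k)]
    wt_inj := inj
    lie_neg := lng
    wt_cor := fun q => ?_
    deg := deg
    cor_nc := fun q h => ?_
    br := fun q r h => ?_
    deg_neg := fun q h => ?_
    deg_two := fun q r h => ?_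
    deg_ne := fun q h => w0 q (sep _ fun i => (two q i).symm.trans (congrFun h i))
    pow := fun q => (hv _).null _ }⟩⟩
  · let J := LinearMap.eqLocus (LinearMap.id : Matrix n n k →ₗ[k] Matrix n n k)
      ((diagonalLinearMap n k k ∘ₗ t.subtype) ∘ₗ (g ∘ₗ comp t 0) +
        ∑ q, (φ q ∘ₗ comp t (wt q)).smulRight (e q))
    have hJ : ∀ y, y ∈ J ↔ y = diagonal ((g ∘ₗ comp t 0) y).1 + ∑ q, (φ q ∘ₗ comp t (wt q)) y • e q :=
      fun y => by
        simp only [J, LinearMap.mem_eqLocus, LinearMap.add_apply, LinearMap.sum_apply,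
          LinearMap.smulRight_apply]
        rfl
    have Je : ∀ q, e q ∈ J := fun q => by
      rw [hJ, tpe, Finset.sum_eq_single q (fun r _ h => by rw [cfn r q h, zero_smul]) (by simp), cfs]
      simp
    refine (hJ x).1 (hR.le_of_wsp hD J (fun γ y hy => ?_) hx)
    by_cases h0 : γ = 0
    · obtain ⟨d, rfl⟩ := hD.zero (h0 ▸ hy)
      rw [hJ, tpt]
      simp only [cft, zero_smul, Finset.sum_const_zero, add_zero]
    by_cases hb : wsp L t γ = ⊥
    · rw [hb] at hy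
      exact bot_le (a := J) hy
    refine Submodule.span_le.2 ?_ ((hv ⟨γ, h0, hb⟩).span hy)
    rintro w (rfl | rfl)
    · obtain ⟨q, -, hq⟩ := ex ⟨γ, h0, hb⟩ false
      exact hq ▸ Je q
    · obtain ⟨q, -, hq⟩ := ex ⟨γ, h0, hb⟩ true
      exact hq ▸ Je q
  · by_cases hT : T q.1.1
    · simp only [ng, dif_pos hT, Bool.not_not]
      rfl
    · simp only [ng, dif_neg hT]
  · obtain ⟨c, hc⟩ : Null (e q) := (hv _).null _
    have h1 := (em q).2 (z q.1.1)
    rw [← lng, ← lie_skew, ← adm_apply, ← adm_apply, ← Module.End.mul_apply, ← pow_two, adm_pow_p, hc,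
      smul_lie, one_lie', smul_zero, neg_zero] at h1
    rw [CharTwo.two_eq_zero]
    exact (smul_eq_zero.1 h1.symm).resolve_right (e0 q)
  · obtain ⟨β, hβ, h1⟩ := (hv _).nc (ngT q h)
    exact ⟨⟨(⟨β, fun h0 => by simp [h0] at h1, hβ⟩, false), Or.inr rfl⟩, h1⟩
  · by_cases h0 : ⁅e q, e r⁆ = 0
    · exact ⟨q, 0, by rw [h0, zero_smul], fun h => absurd rfl h⟩
    have hw : wt q + wt r ≠ 0 := fun hw => by
      rw [add_eq_zero_iff_eq_neg, neg_eq (k := k)] at hw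
      exact h0 (by rw [(inj q r hw).resolve_right h, lie_self])
    have hm := wsp_lie (em q) (em r)
    have key : ∀ i : Tor t, ∃ (a : ℤ) (ξ : k), (wt q + wt r) i.1.1 = a ∧
        del π 2 i.1.2 a ⁅e q, e r⁆ = ξ • ⁅e q, e r⁆ ∧ deg q i + deg r i = cl a ξ := fun i => by
      obtain ⟨a, ξ, a1, a2, a3⟩ := hdeg q i
      obtain ⟨b, η, b1, b2, b3⟩ := hdeg r i
      exact ⟨a + b, ξ + η, by rw [LinearMap.add_apply, a1, b1, Int.cast_add],
        hR.del_eig_lie i.2 a1 b1 (em q) (em r) a2 b2, by rw [a3, b3, cl_add]⟩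
    obtain ⟨b, c, hc⟩ := (hv ⟨_, hw, fun hb => h0 (by rwa [hb] at hm)⟩).line _ hm
      (null_of_eig he hR hD hw hm fun d ν hν => by
        obtain ⟨a, ξ, h1, h2, -⟩ := key ⟨(d, ν), hν⟩
        exact ⟨a, ξ, h1, h2⟩)
    obtain ⟨s, s1, s2⟩ := ex _ b
    rw [← s2] at hc
    refine ⟨s, c, hc, fun c0 => funext fun i => ?_⟩
    obtain ⟨a, ξ, a1, a2, a3⟩ := key i
    obtain ⟨a', ξ', b1, b2, b3⟩ := hdeg s i
    rw [Pi.add_apply, a3, b3]
    refine cl_eq hR hm.1 h0 ?_ (by rw [hc, map_smul, b2, smul_comm]) a2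
    rw [← a1, ← b1]
    exact LinearMap.congr_fun (congrArg Subtype.val s1) _
  · refine eq_neg_of_add_eq_zero_right (funext fun i => ?_)
    obtain ⟨a, ξ, a1, a2, a3⟩ := hdeg q i
    obtain ⟨b, η, b1, b2, b3⟩ := hdeg (ng q) i
    have h1 := hR.del_eig_lie i.2 a1 b1 (em q) (em _) a2 b2
    rw [Pi.add_apply, a3, b3, cl_add, cl_eq hR (b := 0) (η := 0) (L.lie_mem (em q).1 (em _).1) (l0 q h)
      (by rw [Int.cast_add, ← a1, ← b1, wng, CharTwo.add_self_eq_zero, Int.cast_zero]) h1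
      (by rw [lng, del_zero, zero_smul])]
    rfl
  · have := sep (wt r + wt q) fun i => by
      have h1 := congrFun h i
      simp only [Pi.add_apply, two, cl_add] at h1
      exact h1
    rwa [add_eq_zero_iff_eq_neg, neg_eq (k := k)] at this

end Pool.Agent.Lib.MP_3a0263_al.R
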