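import Pool.Agent.Lib.MP_3a0263_al.R.Blue

namespace Pool.Agent.Lib.MP_3a0263_al.R

open Matrix

attribute [local instance 100] LieRing.ofAssociativeRing

universe u

namespace Two2

variable {k : Type u} [Field k] {n : Type} [Fintype n] [DecidableEq n]
  {L : LieSubalgebra k (Matrix n n k)} {Φ : Type u} [Fintype Φ] {Λ : Type u} [AddCommGroup Λ]

theorem e_ne (R : Frame L Φ) (β : Φ) : R.e β ≠ 0 := by
  intro h
  have := R.cf_self β
  rw [h, map_zero] at this
  exact zero_ne_one this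

/-- induction over `L` by the basis -/
theorem ind (R : Frame L Φ) (P : Matrix n n k → Prop) (h0 : P 0)
    (hadd : ∀ x y, P x → P y → P (x + y)) (hsm : ∀ (c : k) x, P x → P (c • x))
    (ht : ∀ d : R.t, P (diagonal d.1)) (he : ∀ β, P (R.e β)) : ∀ x ∈ L, P x := by
  intro x hx
  rw [R.decomp x hx]
  refine hadd _ _ (ht _) ?_
  exact Finset.sum_induction _ P hadd h0 fun β _ => hsm _ _ (he β)

theorem diag_comm (a b : n → k) : ⁅(diagonal a : Matrix n n k), (diagonal b : Matrix n n k)⁆ = 0 := by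
  rw [Ring.lie_def, diagonal_mul_diagonal, diagonal_mul_diagonal, sub_eq_zero]
  congr 1
  funext i
  ring

theorem e_lie_t (R : Frame L Φ) (β : Φ) (d : R.t) :
    ⁅R.e β, (diagonal d.1 : Matrix n n k)⁆ = -(R.wt β d • R.e β) := by
  rw [← lie_skew, R.lie_e]

theorem wt_add (R : Frame L Φ) {β γ δ : Φ} {c : k} (hc : c ≠ 0)
    (h : ⁅R.e β, R.e γ⁆ = c • R.e δ) : R.wt δ = R.wt β + R.wt γ := by
  ext d
  have h1 : ⁅(diagonal d.1 : Matrix n n k), ⁅R.e β, R.e γ⁆⁆
      = (R.wt β d + R.wt γ d) • ⁅R.e β, R.e γ⁆ := by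
    rw [leibniz_lie, R.lie_e, R.lie_e, smul_lie, lie_smul, add_smul]
  rw [h, lie_smul, R.lie_e, smul_smul, smul_smul] at h1
  have h2 := smul_left_injective k (e_ne R δ) h1
  have h3 : c * R.wt δ d = c * (R.wt β d + R.wt γ d) := by rw [h2]; ring
  simpa using mul_left_cancel₀ hc h3

/-- coefficients of a weight vector -/
theorem cf_lie (R : Frame L Φ) (d : R.t) (κ : Φ) :
    ∀ x ∈ L, R.cf κ ⁅(diagonal d.1 : Matrix n n k), x⁆ = R.wt κ d * R.cf κ x := by
  refine ind R _ (by simp) ?_ ?_ ?_ ?_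
  · intro x y hx hy; rw [lie_add, map_add, map_add, hx, hy]; ring
  · intro c x hx; rw [lie_smul, map_smul, map_smul, hx]; simp; ring
  · intro d'; rw [diag_comm, map_zero, R.cf_t]; ring
  · intro β
    rw [R.lie_e, map_smul]
    by_cases h : κ = β
    · subst h; simp
    · rw [R.cf_ne _ _ h]; simp

theorem tp_lie (R : Frame L Φ) (d : R.t) :
    ∀ x ∈ L, R.tp ⁅(diagonal d.1 : Matrix n n k), x⁆ = 0 := by
  refine ind R _ (by simp) ?_ ?_ ?_ ?_
  · intro x y hx hy; rw [lie_add, map_add, hx, hy, add_zero]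
  · intro c x hx; rw [lie_smul, map_smul, hx, smul_zero]
  · intro d'; rw [diag_comm, map_zero]
  · intro β; rw [R.lie_e, map_smul, R.tp_e, smul_zero]

theorem wt_vec (R : Frame L Φ) (w : R.t →ₗ[k] k) {x : Matrix n n k} (hx : x ∈ L)
    (h : ∀ d : R.t, ⁅(diagonal d.1 : Matrix n n k), x⁆ = w d • x) :
    (w ≠ 0 → R.tp x = 0) ∧ ∀ κ, R.wt κ ≠ w → R.cf κ x = 0 := by
  constructor
  · intro hw
    obtain ⟨d, hd⟩ : ∃ d, w d ≠ 0 := by
      by_contra hh
      push Not at hh
      exact hw (LinearMap.ext hh)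
    have := tp_lie R d x hx
    rw [h, map_smul] at this
    exact (smul_eq_zero.1 this).resolve_left hd
  · intro κ hκ
    obtain ⟨d, hd⟩ : ∃ d, R.wt κ d ≠ w d := by
      by_contra hh
      push Not at hh
      exact hκ (LinearMap.ext hh)
    have := cf_lie R d κ x hx
    rw [h, map_smul, smul_eq_mul] at this
    by_contra hc
    exact hd (mul_right_cancel₀ hc this).symm

open Classical in
/-- projection on the homogeneous component of degree `g` -/
noncomputable def P (R : Pre2 L Φ Λ) (g : Λ) : Module.End k (Matrix n n k) where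
  toFun x := (if g = 0 then (diagonal (R.tp x).1 : Matrix n n k) else 0) +
    ∑ β, if R.deg β = g then R.cf β x • R.e β else 0
  map_add' x y := by
    rw [map_add, add_add_add_comm, ← Finset.sum_add_distrib]
    congr 1
    · split_ifs
      · simp [diagonal_add]
      · simp
    · refine Finset.sum_congr rfl fun β _ => ?_
      split_ifs
      · rw [map_add, add_smul]
      · simp
  map_smul' c x := by
    rw [map_smul, RingHom.id_apply, smul_add, Finset.smul_sum]
    congr 1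
    · split_ifs
      · simp [diagonal_smul]
      · simp
    · refine Finset.sum_congr rfl fun β _ => ?_
      split_ifs
      · rw [map_smul, smul_smul, smul_eq_mul]
      · simp

open Classical in
theorem P_apply (R : Pre2 L Φ Λ) (g : Λ) (x : Matrix n n k) :
    P R g x = (if g = 0 then (diagonal (R.tp x).1 : Matrix n n k) else 0) +
      ∑ β, if R.deg β = g then R.cf β x • R.e β else 0 := rfl

open Classical in
theorem P_t (R : Pre2 L Φ Λ) (g : Λ) (d : R.t) :
    P R g (diagonal d.1) = if g = 0 then diagonal d.1 else 0 := by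
  rw [P_apply, R.tp_t]
  simp [R.cf_t]

open Classical in
theorem P_e (R : Pre2 L Φ Λ) (g : Λ) (β : Φ) :
    P R g (R.e β) = if R.deg β = g then R.e β else 0 := by
  rw [P_apply, R.tp_e, Finset.sum_eq_single β]
  · simp [R.cf_self]
  · intro γ _ hγ
    simp [R.cf_ne _ _ hγ]
  · simp

open Classical in
theorem P_ee (R : Pre2 L Φ Λ) (g : Λ) (κ γ : Φ) :
    P R g ⁅R.e κ, R.e γ⁆ = if R.deg κ + R.deg γ = g then ⁅R.e κ, R.e γ⁆ else 0 := by
  by_cases h : γ = R.neg κ
  · by_cases h' : R.neg κ = κ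
    · rw [h, h']; simp
    · rw [h, R.deg_neg κ h', R.lie_neg, P_t, add_neg_cancel]
      simp only [eq_comm]
  · obtain ⟨δ, c, h1, h2⟩ := R.br κ γ h
    by_cases hc : c = 0
    · rw [h1, hc]; simp
    · rw [h1, map_smul, P_e, h2 hc]
      split_ifs <;> simp

theorem P_lie_e (R : Pre2 L Φ Λ) (g : Λ) (γ : Φ) :
    ∀ x ∈ L, P R (g + R.deg γ) ⁅x, R.e γ⁆ = ⁅P R g x, R.e γ⁆ := by
  classical
  refine ind R.toFrame _ (by simp) ?_ ?_ ?_ ?_
  · intro x y hx hy; rw [add_lie, map_add, map_add, hx, hy, add_lie]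
  · intro c x hx; rw [smul_lie, map_smul, map_smul, hx, smul_lie]
  · intro d
    rw [R.lie_e, map_smul, P_e, P_t]
    by_cases hg : g = 0
    · simp [hg, R.lie_e]
    · have : R.deg γ ≠ g + R.deg γ := fun h => hg (by simpa using h)
      simp [hg, this]
  · intro κ
    rw [P_ee, P_e]
    by_cases hg : R.deg κ = g
    · simp [hg]
    · have : R.deg κ + R.deg γ ≠ g + R.deg γ := fun h => hg (by simpa using h)
      simp [hg, this]

theorem P_lie_t (R : Pre2 L Φ Λ) (g : Λ) (d : R.t) :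
    ∀ x ∈ L, P R g ⁅x, (diagonal d.1 : Matrix n n k)⁆ = ⁅P R g x, (diagonal d.1 : Matrix n n k)⁆ := by
  classical
  refine ind R.toFrame _ (by simp) ?_ ?_ ?_ ?_
  · intro x y hx hy; rw [add_lie, map_add, map_add, hx, hy, add_lie]
  · intro c x hx; rw [smul_lie, map_smul, map_smul, hx, smul_lie]
  · intro d'
    rw [diag_comm, map_zero, P_t]
    split_ifs
    · rw [diag_comm]
    · simp
  · intro κ
    rw [e_lie_t, map_neg, map_smul, P_e]
    split_ifs
    · rw [e_lie_t]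
    · simp

theorem P_lie (R : Pre2 L Φ Λ) (g h : Λ) {x y : Matrix n n k} (hx : x ∈ L) (hy : P R h y = y) :
    P R (g + h) ⁅x, y⁆ = ⁅P R g x, y⁆ := by
  classical
  rw [← hy, P_apply R h y, lie_add, lie_add, map_add, lie_sum, lie_sum, map_sum]
  congr 1
  · split_ifs with h0
    · rw [h0, add_zero, P_lie_t R g _ x hx]
    · simp
  · refine Finset.sum_congr rfl fun β _ => ?_
    split_ifs with h0
    · rw [lie_smul, lie_smul, map_smul, ← h0, P_lie_e R g β x hx]
    · simp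

/-- the divided square -/
noncomputable def D2 (R : Frame L Φ) (α : Φ) : Module.End k (Matrix n n k) :=
  (R.cf (R.neg α)).smulRight (R.e α)

theorem D2_apply (R : Frame L Φ) (α : Φ) (x : Matrix n n k) :
    D2 R α x = R.cf (R.neg α) x • R.e α := rfl

/-- `y ↦ e e y - e y e` -/
def T (e : Matrix n n k) : Module.End k (Matrix n n k) where
  toFun y := e * e * y - e * y * e
  map_add' x y := by noncomm_ring
  map_smul' c x := by simp [smul_sub]

theorem T_apply (e y : Matrix n n k) : T e y = e * e * y - e * y * e := rfl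

theorem T_lie (e y z : Matrix n n k) :
    T e ⁅y, z⁆ = ⁅T e y, z⁆ + ⁅y, T e z⁆ + ⁅⁅e, y⁆, ⁅e, z⁆⁆ := by
  simp only [T_apply, Ring.lie_def]
  noncomm_ring

section two

variable [CharP k 2]

theorem add_self (x : Matrix n n k) : x + x = 0 := by
  have h : (2 : k) = 0 := CharP.ofNat_eq_zero k 2
  rw [← two_smul k, h, zero_smul]

theorem neg_self (x : Matrix n n k) : -x = x := by
  rw [neg_eq_iff_add_eq_zero, add_self]

theorem neg_k (x : k) : -x = x := CharTwo.neg_eq x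

theorem wt_neg' (R : Frame L Φ) (β : Φ) : R.wt (R.neg β) = R.wt β := by
  rw [R.wt_neg]
  ext d
  simp [neg_k]

theorem T_wt (e d y : Matrix n n k) (a : k) (h : ⁅d, e⁆ = a • e) :
    ⁅d, T e y⁆ = T e ⁅d, y⁆ := by
  have h1 : ⁅d, T e y⁆ = T e ⁅d, y⁆ + ((⁅d, e⁆ * e * y + e * ⁅d, e⁆ * y)
      - (⁅d, e⁆ * y * e + e * y * ⁅d, e⁆)) := by
    simp only [T_apply, Ring.lie_def]
    noncomm_ring
  rw [h1, h]
  simp only [smul_mul_assoc, mul_smul_comm, add_self, sub_zero, add_zero]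

theorem ee_lie (R : Pre2 L Φ Λ) (α : Φ) (x : Matrix n n k) : ⁅R.e α, ⁅R.e α, x⁆⁆ = 0 := by
  obtain ⟨c, hc⟩ := R.pow α
  have h1 : ⁅R.e α, ⁅R.e α, x⁆⁆ = (R.e α ^ 2 * x + x * R.e α ^ 2)
      - (R.e α * x * R.e α + R.e α * x * R.e α) := by
    simp only [Ring.lie_def]
    noncomm_ring
  rw [h1, hc, add_self]
  simp [add_self]

section key

variable {π : Matrix n n k →ₗ[k] Matrix n n k}

theorem equi' (hπ : Rich L π) {x : Matrix n n k} (hx : x ∈ L) (a : Matrix n n k) :
    π ⁅a, x⁆ = ⁅π a, x⁆ := by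
  rw [← lie_skew, map_neg, hπ.equi x hx, lie_skew]

theorem del_lie (hπ : Rich L π) {e y z : Matrix n n k} (he : e ∈ L) (hy : y ∈ L) (hz : z ∈ L) :
    π (T e ⁅y, z⁆) = ⁅π (T e y), z⁆ + ⁅y, π (T e z)⁆ + ⁅⁅e, y⁆, ⁅e, z⁆⁆ := by
  rw [T_lie, map_add, map_add, equi' hπ hz, hπ.equi y hy,
    hπ.left _ (L.lie_mem (L.lie_mem he hy) (L.lie_mem he hz))]

theorem del_wt (hπ : Rich L π) (R : Frame L Φ) (α : Φ) (w : R.t →ₗ[k] k) {y : Matrix n n k}
    (hy : ∀ d : R.t, ⁅(diagonal d.1 : Matrix n n k), y⁆ = w d • y) (d : R.t) :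
    ⁅(diagonal d.1 : Matrix n n k), π (T (R.e α) y)⁆ = w d • π (T (R.e α) y) := by
  rw [← hπ.equi _ (R.t_mem d), T_wt _ _ _ _ (R.lie_e d α), hy, map_smul, map_smul]

theorem shift_t (hπ : Rich L π) (R : Pre2 L Φ Λ) (α : Φ) (d : R.t) :
    P R (R.deg α + R.deg α) (π (T (R.e α) (diagonal d.1))) = 0 := by
  classical
  have h := (wt_vec R.toFrame 0 (hπ.mem _) (del_wt hπ R.toFrame α 0 (y := diagonal d.1)
    (fun d' => by rw [diag_comm]; simp))).2
  rw [P_apply, if_neg (R.deg_ne α), zero_add]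
  refine Finset.sum_eq_zero fun β _ => ?_
  rw [h β (R.wt_ne β)]
  simp

theorem shift_e (hπ : Rich L π) (R : Pre2 L Φ Λ) {α : Φ} (hα : R.neg α ≠ α) (β : Φ) :
    P R (R.deg β + (R.deg α + R.deg α)) (π (T (R.e α) (R.e β))) =
      R.cf α (π (T (R.e α) (R.e (R.neg α)))) • D2 R.toFrame α (R.e β) := by
  classical
  obtain ⟨h1, h2⟩ := wt_vec R.toFrame (R.wt β) (hπ.mem _) (del_wt hπ R.toFrame α (R.wt β)
    (y := R.e β) (fun d => R.lie_e d β))
  have h0 : (if R.deg β + (R.deg α + R.deg α) = 0 then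
      (diagonal (R.tp (π (T (R.e α) (R.e β)))).1 : Matrix n n k) else 0) = 0 := by
    rw [h1 (R.wt_ne β)]; simp
  rw [P_apply, h0, zero_add, D2_apply]
  by_cases hβ : β = R.neg α
  · subst hβ
    rw [R.cf_self, one_smul, Finset.sum_eq_single α]
    · rw [if_pos]
      rw [R.deg_neg α hα]; abel
    · intro κ _ hκ
      split_ifs with hd
      · by_cases hw : R.wt κ = R.wt (R.neg α)
        · rcases R.wt_inj _ _ hw.symm with h | h
          · exfalso
            apply R.deg_ne α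
            rw [h] at hd
            simpa using hd
          · rw [R.neg_neg] at h; exact absurd h hκ
        · rw [h2 κ hw, zero_smul]
      · rfl
    · simp
  · rw [R.cf_ne _ _ (Ne.symm hβ), zero_smul, smul_zero]
    refine Finset.sum_eq_zero fun κ _ => ?_
    split_ifs with hd
    · by_cases hw : R.wt κ = R.wt β
      · have hκ : κ ≠ β := by
          rintro rfl
          exact R.deg_ne α (by simpa using hd)
        rcases R.wt_inj _ _ hw.symm with h | h
        · exact absurd h hκ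
        · have hn : R.neg β ≠ β := h ▸ hκ
          rw [h, R.deg_neg β hn] at hd
          have h3 : R.wt β = R.wt α := R.deg_two α β (by
            rw [add_assoc, ← hd, add_neg_cancel])
          rcases R.wt_inj _ _ h3.symm with h4 | h4
          · rw [h4]
            have : T (R.e α) (R.e α) = 0 := by rw [T_apply, sub_self]
            rw [this]; simp
          · exact absurd h4 hβ
      · rw [h2 κ hw, zero_smul]
    · rfl

theorem shift (hπ : Rich L π) (R : Pre2 L Φ Λ) {α : Φ} (hα : R.neg α ≠ α) (β γ : Φ) :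
    P R (R.deg β + R.deg γ + (R.deg α + R.deg α)) (π (T (R.e α) ⁅R.e β, R.e γ⁆)) =
      R.cf α (π (T (R.e α) (R.e (R.neg α)))) • D2 R.toFrame α ⁅R.e β, R.e γ⁆ := by
  by_cases h : γ = R.neg β
  · by_cases h' : R.neg β = β
    · rw [h, h']; simp
    · rw [h, R.deg_neg β h', R.lie_neg, add_neg_cancel, zero_add, shift_t hπ, D2_apply, R.cf_t]
      simp
  · obtain ⟨δ, c, h1, h2⟩ := R.br β γ h
    by_cases hc : c = 0
    · rw [h1, hc]; simp
    · rw [h1, map_smul, map_smul, map_smul, map_smul, ← h2 hc, shift_e hπ R hα, smul_comm]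

theorem keyc_ee (hπ : Rich L π) (R : Pre2 L Φ Λ) {α : Φ} (hα : R.neg α ≠ α) (β γ : Φ) :
    R.cf α (π (T (R.e α) (R.e (R.neg α)))) • D2 R.toFrame α ⁅R.e β, R.e γ⁆ =
      R.cf α (π (T (R.e α) (R.e (R.neg α)))) • ⁅D2 R.toFrame α (R.e β), R.e γ⁆ +
      R.cf α (π (T (R.e α) (R.e (R.neg α)))) • ⁅R.e β, D2 R.toFrame α (R.e γ)⁆ +
      ⁅⁅R.e α, R.e β⁆, ⁅R.e α, R.e γ⁆⁆ := by
  classical
  rw [← shift hπ R hα, del_lie hπ (R.e_mem α) (R.e_mem β) (R.e_mem γ), map_add, map_add]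
  congr 1
  · congr 1
    · have : R.deg β + R.deg γ + (R.deg α + R.deg α)
          = R.deg β + (R.deg α + R.deg α) + R.deg γ := by abel
      rw [this, P_lie_e R _ γ _ (hπ.mem _), shift_e hπ R hα, smul_lie]
    · have : R.deg β + R.deg γ + (R.deg α + R.deg α)
          = R.deg γ + (R.deg α + R.deg α) + R.deg β := by abel
      rw [this, ← lie_skew, map_neg, P_lie_e R _ β _ (hπ.mem _), shift_e hπ R hα, smul_lie,
        ← smul_neg, lie_skew]
  · have : R.deg β + R.deg γ + (R.deg α + R.deg α)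
        = (R.deg α + R.deg β) + (R.deg α + R.deg γ) := by abel
    rw [this, P_lie R _ _ (L.lie_mem (R.e_mem α) (R.e_mem β)) (by rw [P_ee, if_pos rfl]),
      P_ee, if_pos rfl]

theorem cf_neg_lie (R : Pre2 L Φ Λ) {α : Φ} (hα : R.neg α ≠ α) :
    ∀ x ∈ L, R.cf (R.neg α) ⁅R.e α, x⁆ = 0 := by
  refine ind R.toFrame _ (by simp) ?_ ?_ ?_ ?_
  · intro x y hx hy; rw [lie_add, map_add, hx, hy, add_zero]
  · intro c x hx; rw [lie_smul, map_smul, hx, smul_zero]
  · intro d; rw [e_lie_t, map_neg, map_smul, R.cf_ne _ _ hα]; simp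
  · intro β
    by_cases h : β = R.neg α
    · rw [h, R.lie_neg, R.cf_t]
    · obtain ⟨δ, c, h1, -⟩ := R.br α β h
      by_cases hc : c = 0
      · rw [h1, hc]; simp
      · have hw := wt_add R.toFrame hc h1
        have hδ : R.neg α ≠ δ := by
          rintro rfl
          rw [wt_neg'] at hw
          exact R.wt_ne β (by simpa using hw)
        rw [h1, map_smul, R.cf_ne _ _ hδ, smul_zero]

theorem c_one (hπ : Rich L π) (R : Pre2 L Φ Λ) {α : Φ} (hα : R.neg α ≠ α) :
    R.cf α (π (T (R.e α) (R.e (R.neg α)))) = 1 := by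
  have h2 : (2 : k) = 0 := CharP.ofNat_eq_zero k 2
  have hα0 : R.wt α (R.cor α) = 0 := by rw [R.wt_cor, h2]
  have hα1 : R.wt (R.neg α) (R.cor α) = 0 := by rw [wt_neg', hα0]
  obtain ⟨β, hβ, hne⟩ : ∃ β, R.wt β (R.cor α) = 1 ∧ ⁅R.e α, R.e β⁆ ≠ 0 := by
    obtain ⟨γ, hγ⟩ := R.cor_nc α hα
    by_cases h : ⁅R.e α, R.e γ⁆ = 0
    · have h1 : γ ≠ R.neg (R.neg α) := by
        rw [R.neg_neg]; rintro rfl
        rw [hα0] at hγ; exact zero_ne_one hγ
      obtain ⟨δ, c, h3, -⟩ := R.br _ γ h1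
      have h4 : R.e γ = c • ⁅R.e α, R.e δ⁆ := by
        have := R.lie_e (R.cor α) γ
        rw [hγ, one_smul, ← R.lie_neg, lie_lie, h, lie_zero, sub_zero, h3, lie_smul] at this
        exact this.symm
      have hc : c ≠ 0 := by
        rintro rfl
        exact e_ne R.toFrame γ (by simpa using h4)
      refine ⟨δ, ?_, fun h5 => e_ne R.toFrame γ (by simpa [h5] using h4)⟩
      rw [wt_add R.toFrame hc h3, LinearMap.add_apply, hα1, hγ, zero_add]
    · exact ⟨γ, hγ, h⟩
  have hβ1 : R.neg α ≠ β := by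
    rintro rfl
    rw [hα1] at hβ; exact zero_ne_one hβ
  have h := keyc_ee hπ R hα (R.neg α) β
  have h5 : D2 R.toFrame α ⁅R.e (R.neg α), R.e β⁆ = 0 := by
    have h1 : β ≠ R.neg (R.neg α) := by
      rw [R.neg_neg]; rintro rfl
      rw [hα0] at hβ; exact zero_ne_one hβ
    obtain ⟨δ, c, h3, -⟩ := R.br _ β h1
    by_cases hc : c = 0
    · rw [h3, hc]; simp
    · have hw := wt_add R.toFrame hc h3
      have hδ : R.neg α ≠ δ := by
        rintro rfl
        exact R.wt_ne β (by simpa using hw)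
      rw [h3, map_smul, D2_apply, R.cf_ne _ _ hδ]; simp
  have h6 : ⁅(diagonal (R.cor α).1 : Matrix n n k), ⁅R.e α, R.e β⁆⁆ = ⁅R.e α, R.e β⁆ := by
    rw [leibniz_lie, R.lie_e, R.lie_e, hα0, hβ]; simp
  rw [h5, D2_apply, D2_apply, R.cf_self, R.cf_ne _ _ hβ1, R.lie_neg, h6] at h
  simp only [smul_zero, one_smul, zero_smul, lie_zero, add_zero] at h
  have h7 : (R.cf α (π (T (R.e α) (R.e (R.neg α)))) + 1) • ⁅R.e α, R.e β⁆ = 0 := by
    rw [add_smul, one_smul]; exact h.symm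
  have h8 := (smul_eq_zero.1 h7).resolve_right hne
  rw [eq_neg_of_add_eq_zero_left h8, neg_k]

theorem key (hπ : Rich L π) (R : Pre2 L Φ Λ) {α : Φ} (hα : R.neg α ≠ α) :
    ∀ y ∈ L, ∀ z ∈ L, D2 R.toFrame α ⁅y, z⁆ = ⁅D2 R.toFrame α y, z⁆ + ⁅y, D2 R.toFrame α z⁆ +
      ⁅⁅R.e α, y⁆, ⁅R.e α, z⁆⁆ := by
  have ht : ∀ d : R.t, ∀ z ∈ L, D2 R.toFrame α ⁅(diagonal d.1 : Matrix n n k), z⁆ =
      ⁅D2 R.toFrame α (diagonal d.1), z⁆ + ⁅(diagonal d.1 : Matrix n n k), D2 R.toFrame α z⁆ +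
      ⁅⁅R.e α, (diagonal d.1 : Matrix n n k)⁆, ⁅R.e α, z⁆⁆ := by
    intro d z hz
    rw [e_lie_t, neg_lie, smul_lie, ee_lie, D2_apply, D2_apply, D2_apply, R.cf_t,
      cf_lie R.toFrame d _ z hz, lie_smul, R.lie_e, wt_neg', smul_smul, mul_comm]
    simp
  intro y hy z hz
  revert z
  revert y
  refine ind R.toFrame _ (by simp) ?_ ?_ ht ?_
  · intro x y hx hy z hz
    rw [add_lie, map_add, map_add, hx z hz, hy z hz]
    simp only [add_lie, lie_add]
    abel
  · intro c x hx z hz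
    rw [smul_lie, map_smul, map_smul, hx z hz]
    simp only [smul_lie, lie_smul, smul_add]
  · intro β
    refine ind R.toFrame _ (by simp) ?_ ?_ ?_ ?_
    · intro x y hx hy
      rw [lie_add, map_add, map_add, hx, hy]
      simp only [lie_add]
      abel
    · intro c x hx
      rw [lie_smul, map_smul, map_smul, hx]
      simp only [lie_smul, smul_add]
    · intro d
      have h := ht d _ (R.e_mem β)
      rw [← lie_skew, map_neg, h, ← lie_skew (D2 R.toFrame α (R.e β)), ← lie_skew (R.e β),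
        ← lie_skew ⁅R.e α, R.e β⁆]
      abel
    · intro γ
      have h := keyc_ee hπ R hα β γ
      rw [c_one hπ R hα] at h
      simpa using h

theorem cor_ne (R : Pre2 L Φ Λ) {b : Φ} (hb : R.neg b ≠ b) :
    ⁅R.e b, R.e (R.neg b)⁆ ≠ 0 := by
  intro h
  obtain ⟨γ, hγ⟩ := R.cor_nc b hb
  have := R.lie_e (R.cor b) γ
  rw [← R.lie_neg, h, hγ, zero_lie, one_smul] at this
  exact e_ne R.toFrame γ this.symm

theorem type_one (hπ : Rich L π) (R : Pre2 L Φ Λ) {κ g b : Φ} (hg : R.neg g = g) {c : k}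
    (hc : c ≠ 0) (h : ⁅R.e κ, R.e g⁆ = c • R.e b) (hd : R.deg b = R.deg κ + R.deg g) :
    R.neg b = b := by
  by_contra hb
  have hw := wt_add R.toFrame hc h
  have hz : ∀ w : R.t →ₗ[k] k, w + w = 0 := fun w => by
    ext d; simp [CharTwo.add_self_eq_zero]
  have hj : c • ⁅R.e b, R.e (R.neg b)⁆ = ⁅R.e κ, ⁅R.e g, R.e (R.neg b)⁆⁆
      - ⁅R.e g, ⁅R.e κ, R.e (R.neg b)⁆⁆ := by rw [← lie_lie, h, smul_lie]
  have hne : c • ⁅R.e b, R.e (R.neg b)⁆ ≠ 0 := smul_ne_zero hc (cor_ne R hb)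
  have hinj : ∀ x y, R.neg x = R.neg y → x = y := fun x y hxy => by
    rw [← R.neg_neg x, hxy, R.neg_neg]
  have hbg : R.neg b ≠ R.neg g := fun h' => hb (by rw [hinj _ _ h', hg])
  have hbκ : R.neg b ≠ R.neg κ := fun h' => by
    rw [hinj _ _ h'] at hw
    exact R.wt_ne g (by simpa using hw)
  obtain ⟨δ, c1, h1, -⟩ := R.br g _ hbg
  obtain ⟨ε, c2, h2, h2'⟩ := R.br κ _ hbκ
  have hε : c2 ≠ 0 → ε = g := fun hc2 => by
    have h3 := wt_add R.toFrame hc2 h2
    rw [wt_neg', hw, ← add_assoc, hz, zero_add] at h3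
    rcases R.wt_inj _ _ h3.symm with h4 | h4
    · exact h4
    · rw [h4, hg]
  have hδ : c1 ≠ 0 → δ = κ ∨ δ = R.neg κ := fun hc1 => by
    have h3 := wt_add R.toFrame hc1 h1
    rw [wt_neg', hw, add_comm (R.wt κ), ← add_assoc, hz, zero_add] at h3
    exact R.wt_inj _ _ h3.symm
  have h5 : ⁅R.e g, ⁅R.e κ, R.e (R.neg b)⁆⁆ = 0 := by
    rw [h2]
    by_cases hc2 : c2 = 0
    · simp [hc2]
    · rw [hε hc2]; simp
  rw [h5, sub_zero, h1, lie_smul] at hj
  have hc1 : c1 ≠ 0 := by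
    rintro rfl
    exact hne (by simpa using hj)
  have hδκ : δ ≠ κ := by
    rintro rfl
    exact hne (by simpa using hj)
  have hδ' : δ = R.neg κ := (hδ hc1).resolve_left hδκ
  have hκ : R.neg κ ≠ κ := hδ' ▸ hδκ
  have hc2 : c2 = 0 := by
    by_contra hc2
    have h6 := h2' hc2
    rw [hε hc2, R.deg_neg b hb, hd] at h6
    apply R.deg_ne g
    have : R.deg g + R.deg g = R.deg g + (R.deg κ + -(R.deg κ + R.deg g)) := by rw [← h6]
    rw [this]; abel
  have hk := key hπ R hκ _ (R.e_mem g) _ (R.e_mem (R.neg b))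
  have hgκ : R.neg κ ≠ g := fun h' => hκ (by
    have := hg
    rw [← h', R.neg_neg] at this
    exact this.symm)
  rw [h1, h2, hc2, hδ', map_smul, D2_apply, D2_apply, D2_apply, R.cf_self, R.cf_ne _ _ hgκ,
    R.cf_ne _ _ hbκ.symm] at hk
  simp only [one_smul, zero_smul, zero_lie, lie_zero, add_zero] at hk
  exact smul_ne_zero hc1 (e_ne R.toFrame κ) hk

/-- the span of the root vectors without a partner -/
def J (hπ : Rich L π) (R : Pre2 L Φ Λ) : LieIdeal k L where
  carrier := {x | R.tp x.1 = 0 ∧ ∀ β, R.neg β ≠ β → R.cf β x.1 = 0}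
  zero_mem' := by simp
  add_mem' := fun {x y} hx hy => ⟨by simp [hx.1, hy.1], fun β hβ => by simp [hx.2 β hβ, hy.2 β hβ]⟩
  smul_mem' := fun c x hx => ⟨by simp [hx.1], fun β hβ => by simp [hx.2 β hβ]⟩
  lie_mem := fun {x y} hy => by
    have h1 : ∀ g, R.neg g = g → ∀ x ∈ L, R.tp ⁅x, R.e g⁆ = 0 ∧
        ∀ β, R.neg β ≠ β → R.cf β ⁅x, R.e g⁆ = 0 := by
      intro g hg
      have hne : ∀ b, R.neg b = b → ∀ β, R.neg β ≠ β → R.cf β (R.e b) = 0 := fun b hb β hβ =>
        R.cf_ne _ _ (by rintro rfl; exact hβ hb)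
      refine ind R.toFrame _ (by simp) ?_ ?_ ?_ ?_
      · intro x y hx hy
        exact ⟨by rw [add_lie, map_add, hx.1, hy.1, add_zero],
          fun β hβ => by rw [add_lie, map_add, hx.2 β hβ, hy.2 β hβ, add_zero]⟩
      · intro c x hx
        exact ⟨by rw [smul_lie, map_smul, hx.1, smul_zero],
          fun β hβ => by rw [smul_lie, map_smul, hx.2 β hβ, smul_zero]⟩
      · intro d
        rw [R.lie_e]
        exact ⟨by rw [map_smul, R.tp_e, smul_zero],
          fun β hβ => by rw [map_smul, hne g hg β hβ, smul_zero]⟩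
      · intro κ
        by_cases hκ : g = R.neg κ
        · have : κ = g := by rw [← R.neg_neg κ, ← hκ, hg]
          rw [this]; simp
        · obtain ⟨b, c, h2, h3⟩ := R.br κ g hκ
          by_cases hc : c = 0
          · rw [h2, hc]; simp
          · have hb := type_one hπ R hg hc h2 (h3 hc)
            rw [h2]
            exact ⟨by rw [map_smul, R.tp_e, smul_zero],
              fun β hβ => by rw [map_smul, hne b hb β hβ, smul_zero]⟩
    have hy' : y.1 = ∑ β, R.cf β y.1 • R.e β := by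
      have := R.decomp y.1 y.2
      rw [hy.1] at this
      simpa using this
    have h2 : (⁅x, y⁆ : L).1 = ∑ β, R.cf β y.1 • ⁅x.1, R.e β⁆ := by
      rw [LieSubalgebra.coe_bracket]
      conv_lhs => rw [hy']
      rw [lie_sum]
      simp only [lie_smul]
    constructor
    · show R.tp (⁅x, y⁆ : L).1 = 0
      rw [h2, map_sum]
      refine Finset.sum_eq_zero fun g _ => ?_
      by_cases hg : R.neg g = g
      · rw [map_smul, (h1 g hg x.1 x.2).1, smul_zero]
      · rw [hy.2 g hg]; simp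
    · intro β hβ
      show R.cf β (⁅x, y⁆ : L).1 = 0
      rw [h2, map_sum]
      refine Finset.sum_eq_zero fun g _ => ?_
      by_cases hg : R.neg g = g
      · rw [map_smul, (h1 g hg x.1 x.2).2 β hβ, smul_zero]
      · rw [hy.2 g hg]; simp

theorem all_two (hπ : Rich L π) (hs : LieAlgebra.IsSimple k L) (R : Pre2 L Φ Λ) (g : Φ) :
    R.neg g ≠ g := by
  intro hg
  rcases hs.eq_bot_or_eq_top (J hπ R) with h | h
  · have : (⟨R.e g, R.e_mem g⟩ : L) ∈ J hπ R :=
      ⟨R.tp_e g, fun β hβ => R.cf_ne _ _ (by rintro rfl; exact hβ hg)⟩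
    rw [h, LieSubmodule.mem_bot] at this
    exact e_ne R.toFrame g (congrArg Subtype.val this)
  · apply R.wt_ne g
    ext d
    have : (⟨diagonal d.1, R.t_mem d⟩ : L) ∈ J hπ R := by rw [h]; trivial
    have h1 : R.tp (diagonal d.1) = 0 := this.1
    rw [R.tp_t] at h1
    simp [h1]

/-- the divided powers -/
noncomputable def DD (R : Frame L Φ) (α : Φ) : ℕ → Module.End k (Matrix n n k)
  | 0 => 1
  | 1 => adm (R.e α)
  | 2 => D2 R α
  | _ + 3 => 0

theorem Eop_apply (R : Frame L Φ) (α : Φ) (s : k) (x : Matrix n n k) :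
    Eop 2 (DD R α) s x = x + s • ⁅R.e α, x⁆ + s ^ 2 • D2 R α x := by
  simp [Eop, Finset.sum_range_succ, DD]

theorem E_aut (hπ : Rich L π) (R : Pre2 L Φ Λ) {α : Φ} (hα : R.neg α ≠ α) (s : k) :
    IsAut L (Eop 2 (DD R.toFrame α) s) := by
  have hm : ∀ x ∈ L, Eop 2 (DD R.toFrame α) s x ∈ L := fun x hx => by
    rw [Eop_apply, D2_apply]
    exact L.add_mem (L.add_mem hx (L.smul_mem _ (L.lie_mem (R.e_mem α) hx)))
      (L.smul_mem _ (L.smul_mem _ (R.e_mem α)))
  have hi : ∀ x ∈ L, Eop 2 (DD R.toFrame α) s (Eop 2 (DD R.toFrame α) s x) = x := fun x hx => by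
    rw [Eop_apply, Eop_apply]
    simp only [D2_apply, lie_add, lie_smul, ee_lie, lie_self, map_add, map_smul,
      cf_neg_lie R hα x hx, R.cf_ne _ _ hα, zero_smul, smul_zero, add_zero]
    have h1 := add_self (s • ⁅R.e α, x⁆)
    have h2 := add_self (s ^ 2 • R.cf (R.neg α) x • R.e α)
    calc _ = x + (s • ⁅R.e α, x⁆ + s • ⁅R.e α, x⁆) + (s ^ 2 • R.cf (R.neg α) x • R.e α +
          s ^ 2 • R.cf (R.neg α) x • R.e α) := by abel
      _ = x := by rw [h1, h2]; simp
  refine ⟨hm, fun x hx y hy => ?_, fun x hx h => ?_, fun y hy => ⟨_, hm y hy, hi y hy⟩⟩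
  · rw [Eop_apply, Eop_apply, Eop_apply, key hπ R hα x hx y hy, leibniz_lie]
    have h1 : ∀ z : Matrix n n k, ⁅⁅R.e α, z⁆, R.e α⁆ = 0 := fun z => by
      rw [← lie_skew, ee_lie, neg_zero]
    simp only [D2_apply, lie_add, add_lie, lie_smul, smul_lie, ee_lie, h1, lie_self, smul_zero,
      add_zero, smul_add]
    module
  · rw [← hi x hx, h, map_zero]

end key

end two

end Two2

open Two2 in
theorem st_two2 (k : Type u) [Field k] [IsAlgClosed k] (p : ℕ) [Fact p.Prime] [CharP k p] :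
    S_two2 k p := by
  rintro rfl n _ _ L π hπ hs Φ _ Λ _ R
  have ha := all_two hπ hs R
  refine ⟨{ R.toFrame with
    D := DD R.toFrame
    neg_ne := ha
    cor_nc := fun β => ?_
    br := fun β γ h => ?_
    pow := R.pow
    D_mem := fun α j x hx => ?_
    D_zero := fun α x _ => rfl
    D_one := fun α x _ => rfl
    D_t := fun α d j hj => ?_
    D_neg_two := fun α => ?_
    D_neg := fun α j hj => ?_
    D_e := fun α j κ hκ => ?_
    E_aut := fun α s => E_aut hπ R (ha α) s }⟩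
  · obtain ⟨γ, hγ⟩ := R.cor_nc β (ha β)
    exact ⟨γ, by rw [hγ]; exact one_ne_zero⟩
  · obtain ⟨δ, c, h1, -⟩ := R.br β γ h
    exact ⟨δ, c, h1⟩
  · match j with
    | 0 => exact hx
    | 1 => exact L.lie_mem (R.e_mem α) hx
    | 2 => exact L.smul_mem _ (R.e_mem α)
    | _ + 3 => exact L.zero_mem
  · match j, hj with
    | 2, _ =>
      show R.cf (R.neg α) (diagonal d.1) • R.e α = 0
      rw [R.cf_t, zero_smul]
    | _ + 3, _ => rfl
  · show R.cf (R.neg α) (R.e (R.neg α)) • R.e α = - R.e α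
    rw [R.cf_self, one_smul, neg_self]
  · match j, hj with
    | _ + 3, _ => rfl
  · match j with
    | 0 => exact ⟨1, by simp [DD]⟩
    | 1 => exact ⟨1, by simp [DD]⟩
    | 2 =>
      refine ⟨0, ?_⟩
      show R.cf (R.neg α) (R.e κ) • R.e α = _
      rw [R.cf_ne _ _ (Ne.symm hκ)]; simp
    | _ + 3 => exact ⟨0, by simp [DD]⟩

end Pool.Agent.Lib.MP_3a0263_al.R
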