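import Pool.Agent.Lib.MP_3a0263_al.R.Blue
import Pool.Agent.Lib.MP_3a0263_al.R.Alg

namespace Pool.Agent.Lib.MP_3a0263_al.R

open Matrix

attribute [local instance 100] LieRing.ofAssociativeRing

universe u

namespace ZAR

variable {k : Type u} [Field k] {m : Type} [Fintype m] [DecidableEq m]

/-- two-sided translate of a polynomial function -/
noncomputable def tr (a b : GL m k) (f : MvPolynomial (m × m) k) : MvPolynomial (m × m) k :=
  MvPolynomial.aeval (fun ij : m × m =>
    (cP (a : Matrix m m k) * gen k m * cP (b : Matrix m m k)) ij.1 ij.2) f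

theorem aeval_tr (a b g : GL m k) (f : MvPolynomial (m × m) k) :
    MvPolynomial.aeval (entries g) (tr a b f) = MvPolynomial.aeval (entries (a * g * b)) f := by
  rw [tr, ← AlgHom.comp_apply, MvPolynomial.comp_aeval]
  have h : (MvPolynomial.aeval (entries g) : _ →ₐ[k] k).mapMatrix
      (cP (a : Matrix m m k) * gen k m * cP (b : Matrix m m k)) =
      ((a * g * b : GL m k) : Matrix m m k) := by
    rw [map_mul, map_mul, aeval_cP, aeval_cP, aeval_entries_gen, Units.val_mul, Units.val_mul]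
  have h2 : (fun ij : m × m => MvPolynomial.aeval (entries g)
      ((cP (a : Matrix m m k) * gen k m * cP (b : Matrix m m k)) ij.1 ij.2)) =
      entries (a * g * b) := by
    funext ij
    exact congrFun (congrFun h ij.1) ij.2
  rw [h2]

/-- Zariski closure -/
def cl (S : Set (GL m k)) : Set (GL m k) :=
  {g | ∀ f ∈ vanish S, MvPolynomial.aeval (entries g) f = 0}

theorem subset_cl (S : Set (GL m k)) : S ⊆ cl S := fun g hg _ hf => mem_vanish.1 hf g hg

theorem vanish_cl (S : Set (GL m k)) : vanish (cl S) = vanish S :=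
  le_antisymm (vanish_anti (subset_cl S)) fun f hf => mem_vanish.2 fun _ hg => hg f hf

theorem closed_cl (S : Set (GL m k)) : IsZClosed (cl S) := fun g hg f hf =>
  hg f (by rw [vanish_cl]; exact hf)

theorem cl_min {S T : Set (GL m k)} (hT : IsZClosed T) (h : S ⊆ T) : cl S ⊆ T :=
  fun g hg => hT g fun f hf => hg f (vanish_anti h hf)

theorem mul_mem_cl (M : Submonoid (GL m k)) {g h : GL m k} (hg : g ∈ cl (M : Set (GL m k)))
    (hh : h ∈ cl (M : Set (GL m k))) : g * h ∈ cl (M : Set (GL m k)) := by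
  have h1 : ∀ x ∈ M, x * h ∈ cl (M : Set (GL m k)) := by
    intro x hx f hf
    have := hh (tr x 1 f) (mem_vanish.2 fun y hy => by
      rw [aeval_tr, mul_one]; exact mem_vanish.1 hf _ (M.mul_mem hx hy))
    rwa [aeval_tr, mul_one] at this
  intro f hf
  have := hg (tr 1 h f) (mem_vanish.2 fun y hy => by
    rw [aeval_tr, one_mul]; exact h1 y hy f hf)
  rwa [aeval_tr, one_mul] at this

theorem inv_mem_of_closed (M : Submonoid (GL m k)) (hM : IsZClosed (M : Set (GL m k)))
    {g : GL m k} (hg : g ∈ M) : g⁻¹ ∈ M := by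
  let J : ℕ →o Ideal (MvPolynomial (m × m) k) :=
    ⟨fun n => vanish ((fun x => g ^ n * x) '' (M : Set (GL m k))),
      monotone_nat_of_le_succ fun n => vanish_anti (by
        rintro _ ⟨x, hx, rfl⟩
        exact ⟨g * x, M.mul_mem hg hx, by simp only [pow_succ, mul_assoc]⟩)⟩
  obtain ⟨n, hn⟩ := monotone_stabilizes_iff_noetherian.2
    (inferInstance : IsNoetherian (MvPolynomial (m × m) k) (MvPolynomial (m × m) k)) J
  refine hM _ fun f hf => ?_
  have h1 : tr (g ^ (n + 1))⁻¹ 1 f ∈ J (n + 1) := mem_vanish.2 (by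
    rintro _ ⟨x, hx, rfl⟩
    rw [aeval_tr, mul_one, inv_mul_cancel_left]
    exact mem_vanish.1 hf x hx)
  rw [← hn (n + 1) (Nat.le_succ n)] at h1
  have h2 := mem_vanish.1 h1 (g ^ n * 1) ⟨1, M.one_mem, rfl⟩
  rw [aeval_tr, mul_one, mul_one] at h2
  have h3 : (g ^ (n + 1))⁻¹ * g ^ n = g⁻¹ := by group
  rwa [h3] at h2

/-- irreducibility without the nonemptiness clause -/
def Irr (S : Set (GL m k)) : Prop :=
  ∀ f g : MvPolynomial (m × m) k, f * g ∈ vanish S → f ∈ vanish S ∨ g ∈ vanish S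

theorem irr_one : Irr ({1} : Set (GL m k)) := fun f g h => by
  have := mem_vanish.1 h 1 rfl
  rw [map_mul] at this
  refine (mul_eq_zero.1 this).imp (fun e => ?_) (fun e => ?_) <;>
    exact mem_vanish.2 fun x hx => by rw [show x = 1 from hx]; exact e

theorem irr_pts [Infinite k] {U : Matrix m m (LaurentPolynomial k)} (h : evM 1 U = 1) :
    Irr (pts U) := fun f g hfg => by
  rw [mem_vanish_pts h, map_mul] at hfg
  rw [mem_vanish_pts h, mem_vanish_pts h]
  exact mul_eq_zero.1 hfg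

theorem Irr.mul {S T : Set (GL m k)} (hS : Irr S) (hT : Irr T) :
    Irr (Set.image2 (fun x y => x * y) S T) := fun f g hfg => by
  by_contra hc
  rw [not_or, mem_vanish, mem_vanish] at hc
  obtain ⟨h1, h2⟩ := hc
  push Not at h1 h2
  obtain ⟨_, ⟨s1, hs1, t1, ht1, rfl⟩, h1⟩ := h1
  obtain ⟨_, ⟨s2, hs2, t2, ht2, rfl⟩, h2⟩ := h2
  have h3 : tr 1 t1 f * tr 1 t2 g ∈ vanish S := mem_vanish.2 fun s hs => by
    have h4 : tr s 1 f * tr s 1 g ∈ vanish T := mem_vanish.2 fun t ht => by
      rw [map_mul, aeval_tr, aeval_tr, mul_one, ← map_mul]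
      exact mem_vanish.1 hfg _ ⟨s, hs, t, ht, rfl⟩
    rw [map_mul, aeval_tr, aeval_tr, one_mul]
    rcases hT _ _ h4 with h5 | h5
    · have := mem_vanish.1 h5 t1 ht1
      rw [aeval_tr, mul_one] at this
      rw [this, zero_mul]
    · have := mem_vanish.1 h5 t2 ht2
      rw [aeval_tr, mul_one] at this
      rw [this, mul_zero]
  rcases hS _ _ h3 with h5 | h5
  · have := mem_vanish.1 h5 s1 hs1
    rw [aeval_tr, one_mul] at this
    exact h1 this
  · have := mem_vanish.1 h5 s2 hs2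
    rw [aeval_tr, one_mul] at this
    exact h2 this

theorem exists_irr [Infinite k] {C : Set (Matrix m m (LaurentPolynomial k))}
    (hC : ∀ U ∈ C, evM 1 U = 1) {x : GL m k} (hx : x ∈ Submonoid.closure (⋃ U ∈ C, pts U)) :
    ∃ S : Set (GL m k), Irr S ∧ S ⊆ Submonoid.closure (⋃ U ∈ C, pts U) ∧ 1 ∈ S ∧ x ∈ S := by
  induction hx using Submonoid.closure_induction with
  | mem x hx =>
    obtain ⟨U, hU, hx⟩ := Set.mem_iUnion₂.1 hx
    exact ⟨pts U, irr_pts (hC U hU),
      fun y hy => Submonoid.subset_closure (Set.mem_iUnion₂.2 ⟨U, hU, hy⟩),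
      one_mem_pts (hC U hU), hx⟩
  | one =>
    exact ⟨{1}, irr_one, fun y hy => by rw [show y = 1 from hy]; exact Submonoid.one_mem _,
      rfl, rfl⟩
  | mul x y _ _ hx hy =>
    obtain ⟨S, hS, hS1, hS2, hS3⟩ := hx
    obtain ⟨T, hT, hT1, hT2, hT3⟩ := hy
    refine ⟨_, hS.mul hT, ?_, ⟨1, hS2, 1, hT2, mul_one 1⟩, ⟨x, hS3, y, hT3, rfl⟩⟩
    rintro _ ⟨a, ha, b, hb, rfl⟩
    exact Submonoid.mul_mem _ (hS1 ha) (hT1 hb)

end ZAR

open ZAR in
theorem st_zar (k : Type u) [Field k] [Infinite k] : S_zar k := by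
  intro m _ _
  refine ⟨fun M => ?_, fun C hC => ?_⟩
  · let N : Submonoid (GL m k) :=
      { carrier := cl (M : Set (GL m k))
        mul_mem' := fun ha hb => mul_mem_cl M ha hb
        one_mem' := subset_cl _ M.one_mem }
    let G : Subgroup (GL m k) :=
      { N with inv_mem' := fun hg => inv_mem_of_closed N (closed_cl _) hg }
    exact ⟨G, closed_cl _, vanish_cl _, subset_cl _, fun S hS h => cl_min hS h⟩
  · refine ⟨fun h => ?_, fun {f g} hfg => ?_⟩
    · have h1 : (1 : MvPolynomial (m × m) k) ∈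
          vanish (Submonoid.closure (⋃ U ∈ C, pts U) : Set (GL m k)) := by
        rw [h]; trivial
      have := mem_vanish.1 h1 1 (Submonoid.one_mem _)
      rw [map_one] at this
      exact one_ne_zero this
    · by_contra hc
      rw [not_or, mem_vanish, mem_vanish] at hc
      obtain ⟨h1, h2⟩ := hc
      push Not at h1 h2
      obtain ⟨x, hx, h1⟩ := h1
      obtain ⟨y, hy, h2⟩ := h2
      obtain ⟨S, hS, hS1, hS2, hS3⟩ := exists_irr hC hx
      obtain ⟨T, hT, hT1, hT2, hT3⟩ := exists_irr hC hy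
      have h3 : Set.image2 (fun x y => x * y) S T ⊆
          (Submonoid.closure (⋃ U ∈ C, pts U) : Set (GL m k)) := by
        rintro _ ⟨a, ha, b, hb, rfl⟩
        exact Submonoid.mul_mem _ (hS1 ha) (hT1 hb)
      rcases hS.mul hT f g (vanish_anti h3 hfg) with h4 | h4
      · exact h1 (mem_vanish.1 h4 x ⟨x, hS3, 1, hT2, mul_one x⟩)
      · exact h2 (mem_vanish.1 h4 y ⟨1, hS2, y, hT3, one_mul y⟩)

end Pool.Agent.Lib.MP_3a0263_al.R
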