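import Pool.Agent.Lib.MP_3a0263_al.R.Defs

namespace Pool.Agent.Lib.MP_3a0263_al.R

open Matrix

attribute [local instance 100] LieRing.ofAssociativeRing

universe u

variable {k : Type u} [Field k] {n : Type} [Fintype n] [DecidableEq n]

/-- An irreducible matrix Lie algebra with an equivariant projection onto it. -/
structure Rich (L : LieSubalgebra k (Matrix n n k)) (π : Matrix n n k →ₗ[k] Matrix n n k) :
    Prop where
  ne : Nonempty n
  mem : ∀ a, π a ∈ L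
  left : ∀ x ∈ L, π x = x
  equi : ∀ x ∈ L, ∀ a, π ⁅x, a⁆ = ⁅x, π a⁆
  gen : Algebra.adjoin k (L : Set (Matrix n n k)) = ⊤

/-- `h` is toral modulo scalars, with integer lifts `ν` of its diagonal entries. -/
def IsToral (h : n → k) (ν : n → ℤ) : Prop := ∀ i j, h i - h j = ((ν i - ν j : ℤ) : k)

/-- A self-centralising diagonal torus spanned by toral elements. -/
structure Diag (L : LieSubalgebra k (Matrix n n k)) (t : Submodule k (n → k)) : Prop where
  mem : ∀ d ∈ t, diagonal d ∈ L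
  cent : ∀ x ∈ L, (∀ d ∈ t, ⁅diagonal d, x⁆ = 0) → ∃ d ∈ t, x = diagonal d
  toral : ∀ γ : t →ₗ[k] k, γ ≠ 0 → ∃ (h : t) (ν : n → ℤ), IsToral h.1 ν ∧ γ h ≠ 0

/-- weight space in the full matrix algebra -/
def wA (t : Submodule k (n → k)) (γ : t →ₗ[k] k) : Submodule k (Matrix n n k) where
  carrier := {x | ∀ d : t, ⁅diagonal d.1, x⁆ = γ d • x}
  zero_mem' := fun d => by simp
  add_mem' := fun {x y} hx hy d => by rw [lie_add, hx d, hy d, smul_add]
  smul_mem' := fun c x hx d => by rw [lie_smul, hx d, smul_comm]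

/-- weight space in `L` -/
def wsp (L : LieSubalgebra k (Matrix n n k)) (t : Submodule k (n → k)) (γ : t →ₗ[k] k) :
    Submodule k (Matrix n n k) := L.toSubmodule ⊓ wA t γ

open Classical in
/-- the weight `γ` component of a matrix -/
noncomputable def comp (t : Submodule k (n → k)) (γ : t →ₗ[k] k) :
    Matrix n n k →ₗ[k] Matrix n n k where
  toFun a := Matrix.of fun i j => if ∀ d : t, d.1 i - d.1 j = γ d then a i j else 0
  map_add' a b := by ext i j; simp only [of_apply, Matrix.add_apply]; split_ifs <;> simp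
  map_smul' c a := by
    ext i j; simp only [of_apply, Matrix.smul_apply, RingHom.id_apply]; split_ifs <;> simp

/-- the carry operator -/
def W (p : ℕ) (ν : n → ℤ) (a : ℤ) : Matrix n n k →ₗ[k] Matrix n n k where
  toFun x := Matrix.of fun i j => (((ν i - ν j - a) / p : ℤ) : k) * x i j
  map_add' x y := by ext i j; simp [mul_add]
  map_smul' c x := by ext i j; simp [mul_left_comm]

/-- the projected carry operator -/
def del (π : Matrix n n k →ₗ[k] Matrix n n k) (p : ℕ) (ν : n → ℤ) (a : ℤ) :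
    Module.End k (Matrix n n k) := π ∘ₗ W p ν a

/-- adjoint action in the matrix algebra -/
abbrev adm (x : Matrix n n k) : Module.End k (Matrix n n k) := LieAlgebra.ad k (Matrix n n k) x

/-- `∑ s ^ j • D j` -/
noncomputable def Eop (p : ℕ) (D : ℕ → Module.End k (Matrix n n k)) (s : k) :
    Module.End k (Matrix n n k) := ∑ j ∈ Finset.range (p + 1), s ^ j • D j

/-- a linear map that restricts to an automorphism of the Lie algebra `L` -/
structure IsAut (L : LieSubalgebra k (Matrix n n k)) (σ : Module.End k (Matrix n n k)) : Prop where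
  mem : ∀ x ∈ L, σ x ∈ L
  lie : ∀ x ∈ L, ∀ y ∈ L, σ ⁅x, y⁆ = ⁅σ x, σ y⁆
  inj : ∀ x ∈ L, σ x = 0 → x = 0
  surj : ∀ y ∈ L, ∃ x ∈ L, σ x = y

/-- a torus `t` and root vectors `e` with coordinate functionals -/
structure Frame (L : LieSubalgebra k (Matrix n n k)) (Φ : Type u) [Fintype Φ] where
  t : Submodule k (n → k)
  e : Φ → Matrix n n k
  wt : Φ → t →ₗ[k] k
  tp : Matrix n n k →ₗ[k] t
  cf : Φ → Matrix n n k →ₗ[k] k
  neg : Φ → Φ
  cor : Φ → t
  t_mem : ∀ d : t, diagonal d.1 ∈ L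
  e_mem : ∀ β, e β ∈ L
  lie_e : ∀ (d : t) β, ⁅diagonal d.1, e β⁆ = wt β d • e β
  wt_ne : ∀ β, wt β ≠ 0
  decomp : ∀ x ∈ L, x = diagonal (tp x).1 + ∑ β, cf β x • e β
  tp_t : ∀ d : t, tp (diagonal d.1) = d
  tp_e : ∀ β, tp (e β) = 0
  cf_t : ∀ β (d : t), cf β (diagonal d.1) = 0
  cf_self : ∀ β, cf β (e β) = 1
  cf_ne : ∀ β γ, β ≠ γ → cf β (e γ) = 0
  neg_neg : ∀ β, neg (neg β) = β
  wt_neg : ∀ β, wt (neg β) = - wt β
  wt_inj : ∀ β γ, wt β = wt γ → γ = β ∨ γ = neg β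
  lie_neg : ∀ β, ⁅e β, e (neg β)⁆ = diagonal (cor β).1
  wt_cor : ∀ β, wt β (cor β) = 2

/-- the intermediate data in characteristic two; `neg β = β` marks roots without a partner -/
structure Pre2 (L : LieSubalgebra k (Matrix n n k)) (Φ : Type u) [Fintype Φ]
    (Λ : Type u) [AddCommGroup Λ] extends Frame L Φ where
  deg : Φ → Λ
  cor_nc : ∀ β, neg β ≠ β → ∃ γ, wt γ (cor β) = 1
  br : ∀ β γ, γ ≠ neg β → ∃ δ, ∃ c : k, ⁅e β, e γ⁆ = c • e δ ∧ (c ≠ 0 → deg δ = deg β + deg γ)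
  deg_neg : ∀ β, neg β ≠ β → deg (neg β) = - deg β
  deg_two : ∀ α β, deg β + deg β + (deg α + deg α) = 0 → wt β = wt α
  deg_ne : ∀ α, deg α + deg α ≠ 0
  pow : ∀ β, ∃ c : k, e β ^ 2 = c • 1

/-- the output of the structure theory -/
structure RootData (p : ℕ) (L : LieSubalgebra k (Matrix n n k)) (Φ : Type u) [Fintype Φ]
    extends Frame L Φ where
  D : Φ → ℕ → Module.End k (Matrix n n k)
  neg_ne : ∀ β, neg β ≠ β
  cor_nc : ∀ β, ∃ γ, wt γ (cor β) ≠ 0
  br : ∀ β γ, γ ≠ neg β → ∃ δ, ∃ c : k, ⁅e β, e γ⁆ = c • e δ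
  pow : ∀ β, ∃ c : k, e β ^ p = c • 1
  D_mem : ∀ α j, ∀ x ∈ L, D α j x ∈ L
  D_zero : ∀ α, ∀ x ∈ L, D α 0 x = x
  D_one : ∀ α, ∀ x ∈ L, D α 1 x = ⁅e α, x⁆
  D_t : ∀ α (d : t) j, 2 ≤ j → D α j (diagonal d.1) = 0
  D_neg_two : ∀ α, D α 2 (e (neg α)) = - e α
  D_neg : ∀ α j, 3 ≤ j → D α j (e (neg α)) = 0
  D_e : ∀ α j κ, κ ≠ neg α → ∃ c : k, D α j (e κ) = c • (adm (e α) ^ j) (e κ)
  E_aut : ∀ α s, IsAut L (Eop p (D α) s)

variable {p : ℕ} {L : LieSubalgebra k (Matrix n n k)} {Φ : Type u} [Fintype Φ]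

/-- a function on the roots that defines a grading of `L` -/
def IsGrading (R : Frame L Φ) {Λ : Type*} [AddCommGroup Λ] (φ : Φ → Λ) : Prop :=
  (∀ β γ δ (c : k), c ≠ 0 → ⁅R.e β, R.e γ⁆ = c • R.e δ → φ δ = φ β + φ γ) ∧
    ∀ β, φ (R.neg β) = - φ β

/-- Cartan integers `m α β` and reflections `s α β` -/
structure RefData (R : Frame L Φ) (m : Φ → Φ → ℤ) (s : Φ → Φ → Φ) : Prop where
  grad : ∀ α, IsGrading R (m α)
  two : ∀ α, m α α = 2
  s_self : ∀ α, s α α = R.neg α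
  refl_int : ∀ φ : Φ → ℤ, IsGrading R φ → ∀ α β, φ (s α β) = φ β - m α β * φ α
  refl : ∀ (Λ : Type u) [AddCommGroup Λ] (φ : Φ → Λ), IsGrading R φ →
    ∀ α β, φ (s α β) = φ β - m α β • φ α
  inj : ∀ β β', (∀ γ, m γ β = m γ β') → β = β'
  red : ∀ β κ, ¬ ∀ γ, m γ κ = 2 * m γ β
  cast : ∀ α β, ((m α β : ℤ) : k) = R.wt β (R.cor α)

/-- a base `Δ` and the coordinates `co β α` of the roots -/
structure BaseData (R : Frame L Φ) (Δ : Finset Φ) (co : Φ → Φ → ℤ) : Prop where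
  grad : ∀ α ∈ Δ, IsGrading R fun β => co β α
  self : ∀ α ∈ Δ, co α α = 1
  ne : ∀ α ∈ Δ, ∀ α' ∈ Δ, α ≠ α' → co α α' = 0
  sign : ∀ β, (∀ α ∈ Δ, 0 ≤ co β α) ∨ ∀ α ∈ Δ, co β α ≤ 0
  lin : ∀ (Λ : Type u) [AddCommGroup Λ] (φ : Φ → Λ), IsGrading R φ →
    ∀ β, φ β = ∑ α ∈ Δ, co β α • φ α
  inj : ∀ β γ, (∀ α ∈ Δ, co β α = co γ α) → β = γ
  red : ∀ β γ (j : ℤ), (∀ α ∈ Δ, co γ α = j * co β α) → j = 1 ∨ j = -1
  int : ∀ α β, ∃ z : ℤ, R.wt β (R.cor α) = z

/-- all conjugates of root vectors have zero `p`-th power -/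
def Nil (p : ℕ) (R : Frame L Φ) : Prop := ∀ σ, IsAut L σ → ∀ β, σ (R.e β) ^ p = 0

/-- the exceptional situation -/
def KerCond (p : ℕ) (R : Frame L Φ) (α : Φ) : Prop :=
  ∀ c ∈ L, ⁅R.e α, c⁆ = 0 → ∃ w ∈ L, (adm (R.e α) ^ (p - 1)) w = c

/-- evaluation of a Laurent polynomial at a unit -/
noncomputable def evB {B : Type*} [CommRing B] [Algebra k B] (v : Bˣ) :
    LaurentPolynomial k →ₐ[k] B :=
  { LaurentPolynomial.eval₂ (algebraMap k B) v with
    commutes' := fun c => by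
      rw [← LaurentPolynomial.C_eq_algebraMap]
      exact LaurentPolynomial.eval₂_C _ _ c }

/-- evaluation at a point of `kˣ` -/
noncomputable def ev (s : kˣ) : LaurentPolynomial k →ₐ[k] k := evB s

/-- the unit `1 + ε` -/
def oneEps (k : Type u) [Field k] : (DualNumber k)ˣ where
  val := 1 + DualNumber.eps
  inv := 1 - DualNumber.eps
  val_inv := by
    rw [add_mul, mul_sub, mul_sub, DualNumber.eps_mul_eps]; simp
  inv_val := by
    rw [sub_mul, mul_add, mul_add, DualNumber.eps_mul_eps]; simp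

/-- derivative at `1` -/
noncomputable def der (f : LaurentPolynomial k) : k := (evB (oneEps k) f).snd

/-- entrywise evaluation -/
noncomputable def evM {m : Type} [Fintype m] [DecidableEq m] (s : kˣ) :
    Matrix m m (LaurentPolynomial k) →ₐ[k] Matrix m m k := (ev s).mapMatrix

/-- tangent vector at `1` -/
noncomputable def tan {m : Type} (U : Matrix m m (LaurentPolynomial k)) : Matrix m m k := U.map der

/-- constant matrices -/
noncomputable def cM {m : Type} [Fintype m] [DecidableEq m] :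
    Matrix m m k →ₐ[k] Matrix m m (LaurentPolynomial k) :=
  (Algebra.ofId k (LaurentPolynomial k)).mapMatrix

/-- the invertible points of a curve -/
def pts {m : Type} [Fintype m] [DecidableEq m] (U : Matrix m m (LaurentPolynomial k)) :
    Set (GL m k) := {g | ∃ s : kˣ, (g : Matrix m m k) = evM s U}

/-- the one parameter families of algebra automorphisms -/
structure Thetas (R : Frame L Φ) : Prop where
  root : ∀ α, ∃ Θ : Matrix n n k →ₐ[k] Matrix n n (LaurentPolynomial k),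
    (∀ a, evM 1 (Θ a) = a) ∧ (∀ s, ∀ x ∈ L, evM s (Θ x) ∈ L) ∧ ∀ x ∈ L, tan (Θ x) = ⁅R.e α, x⁆
  tor : ∀ φ : Φ → ℤ, IsGrading R φ → ∃ Θ : Matrix n n k →ₐ[k] Matrix n n (LaurentPolynomial k),
    (∀ a, evM 1 (Θ a) = a) ∧ (∀ d : R.t, Θ (diagonal d.1) = cM (diagonal d.1)) ∧
      ∀ β, Θ (R.e β) = (LaurentPolynomial.T (φ β) : LaurentPolynomial k) • cM (R.e β)

/-- an ambient algebraic group `N` with Lie algebra inside `r L`, acting on the matrix algebra -/
structure Model (L : LieSubalgebra k (Matrix n n k)) (m : Type) [Fintype m] [DecidableEq m] where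
  r : Matrix n n k →ₗ[k] Matrix m m k
  N : Subgroup (GL m k)
  act : N →* (Matrix n n k ≃ₐ[k] Matrix n n k)
  Z : Matrix m m (LaurentPolynomial k)
  r_lie : ∀ x ∈ L, ∀ y ∈ L, r ⁅x, y⁆ = ⁅r x, r y⁆
  r_inj : ∀ x ∈ L, r x = 0 → x = 0
  closed : IsZClosed (N : Set (GL m k))
  act_mem : ∀ w, ∀ x ∈ L, act w x ∈ L
  act_r : ∀ w : N, ∀ x ∈ L,
    ((w : GL m k) : Matrix m m k) * r x = r (act w x) * ((w : GL m k) : Matrix m m k)
  lie_le : ∀ y ∈ lie N, ∃ x ∈ L, r x = y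
  lift : ∀ Θ : Matrix n n k →ₐ[k] Matrix n n (LaurentPolynomial k), (∀ a, evM 1 (Θ a) = a) →
    (∀ s, ∀ x ∈ L, evM s (Θ x) ∈ L) → ∃ U : Matrix m m (LaurentPolynomial k), evM 1 U = 1 ∧
      (∀ s (g : GL m k), (g : Matrix m m k) = evM s U →
        ∃ hg : g ∈ N, ∀ a, act ⟨g, hg⟩ a = evM s (Θ a)) ∧
      ∀ x ∈ L, ⁅tan U, r x⁆ = r (tan (Θ x))
  Z_one : evM 1 Z = 1
  Z_ker : ∀ g ∈ pts Z, ∃ hg : g ∈ N, act ⟨g, hg⟩ = 1
  ker_Z : ∀ w : N, act w = 1 → (w : GL m k) ∈ pts Z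
  Z_tan : ∀ c : k, c • (1 : Matrix n n k) ∈ L → ∃ c' : k, r (c • 1) = c' • tan Z
  ker_comm : ∀ z w : N, act z = 1 → z * w = w * z
  fin : {w : N | act w = 1 ∧ ((w : GL m k) : Matrix m m k).det = 1}.Finite
  unip1 : ∀ w : N, IsNilpotent (((w : GL m k) : Matrix m m k) - 1) →
    IsNilpotent ((act w).toLinearMap - 1 : Module.End k (Matrix n n k))
  unip2 : ∀ w : N, IsNilpotent (((w : GL m k) : Matrix m m k) - 1) → act w = 1 → w = 1
  ss1 : ∀ w : N, Module.End.IsSemisimple (toLin' ((w : GL m k) : Matrix m m k)) →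
    Module.End.IsSemisimple (act w).toLinearMap
  ss2 : ∀ w : N, (⨆ μ : k, Module.End.eigenspace (act w).toLinearMap μ) = ⊤ →
    Module.End.IsSemisimple (toLin' ((w : GL m k) : Matrix m m k))

/-- the group constructed inside a model -/
structure GData (R : Frame L Φ) (Δ : Finset Φ) (co : Φ → Φ → ℤ) {m : Type} [Fintype m]
    [DecidableEq m] (M : Model L m) (G : Subgroup (GL m k)) : Prop where
  le : G ≤ M.N
  red : IsReductive G
  lie_eq : lie G = M.r '' (L : Set (Matrix n n k))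
  Z_sub : pts M.Z ⊆ G
  tor : ∀ i ∈ Δ, ∃ U : Matrix m m (LaurentPolynomial k), evM 1 U = 1 ∧
    ∀ (s : kˣ) (g : GL m k), (g : Matrix m m k) = evM s U → g ∈ G ∧ ∃ hg : g ∈ M.N,
      (∀ d : R.t, M.act ⟨g, hg⟩ (diagonal d.1) = diagonal d.1) ∧
      ∀ β, M.act ⟨g, hg⟩ (R.e β) = ((s ^ co β i : kˣ) : k) • R.e β

end Pool.Agent.Lib.MP_3a0263_al.R
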