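import Pool.Agent.Lib.MP_3a0263_al.R.Base

namespace Pool.Agent.Lib.MP_3a0263_al.R

open Matrix LieAlgebra.SpecialLinear

attribute [local instance 100] LieRing.ofAssociativeRing

universe u

variable (k : Type u) [Field k] (p : ℕ)

/-- SETUP (paper, first lines): Burnside and the projection. -/
def S_setup : Prop :=
  ∀ (g : Type u) [LieRing g] [LieAlgebra k g], HasRichardson k g →
    ∃ (n : Type) (_ : Fintype n) (_ : DecidableEq n) (ρ : g →ₗ⁅k⁆ Matrix n n k)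
      (π : Matrix n n k →ₗ[k] Matrix n n k), Function.Injective ρ ∧ Rich ρ.range π

/-- DIAG (paper S1) -/
def S_diag : Prop :=
  ∀ (n : Type) [Fintype n] [DecidableEq n] (L : LieSubalgebra k (Matrix n n k))
    (π : Matrix n n k →ₗ[k] Matrix n n k), Rich L π →
    ∃ (θ : Matrix n n k ≃ₐ[k] Matrix n n k) (L' : LieSubalgebra k (Matrix n n k))
      (π' : Matrix n n k →ₗ[k] Matrix n n k) (t : Submodule k (n → k)),
      (∀ x, x ∈ L ↔ θ x ∈ L') ∧ Rich L' π' ∧ Diag L' t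

/-- JM (paper S0) -/
def S_jm : Prop :=
  ∀ (n : Type) [Fintype n] [DecidableEq n] (a : Matrix n n k), IsNilpotent a →
    ∃ N : Matrix n n k, ⁅a, ⁅a, N⁆⁆ = (-2 : k) • a

/-- P3 (paper S3) -/
def S_p3 : Prop :=
  ∀ (n : Type) [Fintype n] [DecidableEq n] (L : LieSubalgebra k (Matrix n n k))
    (π : Matrix n n k →ₗ[k] Matrix n n k) (t : Submodule k (n → k)), Rich L π → Diag L t →
    ∀ γ : t →ₗ[k] k, γ ≠ 0 → Module.finrank k (wsp L t γ) ≤ 1 ∨
      (Module.finrank k (wsp L t γ) = 2 ∧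
        ∃ x ∈ wsp L t γ, ∃ y ∈ wsp L t γ, (adm x ^ (p - 1)) y ≠ 0)

/-- EIG (paper S2 (H), (Z) and the last sentence of S3) -/
def S_eig : Prop :=
  ∀ (n : Type) [Fintype n] [DecidableEq n] (L : LieSubalgebra k (Matrix n n k))
    (π : Matrix n n k →ₗ[k] Matrix n n k) (t : Submodule k (n → k)), Rich L π → Diag L t →
    ∀ (γ : t →ₗ[k] k) (h : t) (ν : n → ℤ) (a : ℤ), IsToral h.1 ν → γ h = a → (a : k) ≠ 0 →
      (∀ x ∈ wsp L t γ, ∀ ξ : k, del π p ν a x = ξ • x → ∃ c : k, x ^ p = c • 1) ∧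
      (Module.finrank k (wsp L t γ) ≤ 1 ∨ ∃ x y : Matrix n n k, ∃ ξ η : k, x ≠ 0 ∧ y ≠ 0 ∧ ξ ≠ η ∧
        del π p ν a x = ξ • x ∧ del π p ν a y = η • y ∧
        wsp L t γ = Submodule.span k {x, y} ∧ (p = 2 → ⁅x, y⁆ ≠ 0))

/-- the conclusion of paper S4 -/
def Odd1 {k : Type u} [Field k] (p : ℕ) {n : Type} [Fintype n] [DecidableEq n]
    (L : LieSubalgebra k (Matrix n n k)) (t : Submodule k (n → k)) : Prop :=
  ∀ γ : t →ₗ[k] k, γ ≠ 0 → Module.finrank k (wsp L t γ) ≤ 1 ∧ ∀ x ∈ wsp L t γ,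
    (∃ c : k, x ^ p = c • 1) ∧ ∃ f ∈ wsp L t (-γ), ⁅x, ⁅x, f⁆⁆ = (-2 : k) • x

/-- ODD1 (paper S4) -/
def S_odd1 : Prop :=
  p ≠ 2 → ∀ (n : Type) [Fintype n] [DecidableEq n] (L : LieSubalgebra k (Matrix n n k))
    (π : Matrix n n k →ₗ[k] Matrix n n k) (t : Submodule k (n → k)), Rich L π → Diag L t →
    Odd1 p L t

/-- the vanishing of `S_p` -/
def Odd2 {k : Type u} [Field k] (p : ℕ) {n : Type} [Fintype n] [DecidableEq n]
    (L : LieSubalgebra k (Matrix n n k)) (t : Submodule k (n → k)) : Prop :=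
  ∀ α : t →ₗ[k] k, α ≠ 0 → ∀ e ∈ wsp L t α, ∀ y ∈ L, ∀ z ∈ L,
    ∑ i ∈ Finset.Ioo 0 p, ((i.factorial : k)⁻¹ * ((p - i).factorial : k)⁻¹) •
      ⁅(adm e ^ i) y, (adm e ^ (p - i)) z⁆ = 0

/-- ODD2 (paper S5, from `In A put`) -/
def S_odd2 : Prop :=
  p ≠ 2 → ∀ (n : Type) [Fintype n] [DecidableEq n] (L : LieSubalgebra k (Matrix n n k))
    (π : Matrix n n k →ₗ[k] Matrix n n k) (t : Submodule k (n → k)), Rich L π → Diag L t →
    Odd1 p L t → Odd2 p L t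

/-- ODD3 (paper S4 last lines, S5 first lines): package the root data -/
def S_odd3 : Prop :=
  p ≠ 2 → ∀ (n : Type) [Fintype n] [DecidableEq n] (L : LieSubalgebra k (Matrix n n k))
    (π : Matrix n n k →ₗ[k] Matrix n n k) (t : Submodule k (n → k)), Rich L π → Diag L t →
    Odd1 p L t → Odd2 p L t → ∃ (Φ : Type u) (_ : Fintype Φ), Nonempty (RootData p L Φ)

/-- TWO1 (paper S6, first paragraph) -/
def S_two1 : Prop :=
  p = 2 → ∀ (n : Type) [Fintype n] [DecidableEq n] (L : LieSubalgebra k (Matrix n n k))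
    (π : Matrix n n k →ₗ[k] Matrix n n k) (t : Submodule k (n → k)), Rich L π → Diag L t →
    (∀ c : k, c • (1 : Matrix n n k) ∈ L → c = 0) →
    ∃ (Φ : Type u) (_ : Fintype Φ) (Λ : Type u) (_ : AddCommGroup Λ), Nonempty (Pre2 L Φ Λ)

/-- TWO2 (paper S6, second and third paragraph) -/
def S_two2 : Prop :=
  p = 2 → ∀ (n : Type) [Fintype n] [DecidableEq n] (L : LieSubalgebra k (Matrix n n k))
    (π : Matrix n n k →ₗ[k] Matrix n n k), Rich L π → LieAlgebra.IsSimple k L →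
    ∀ (Φ : Type u) [Fintype Φ] (Λ : Type u) [AddCommGroup Λ], Pre2 L Φ Λ →
      Nonempty (RootData p L Φ)

/-- REFL (paper S7 up to `reduced`) -/
def S_refl : Prop :=
  ∀ (n : Type) [Fintype n] [DecidableEq n] (L : LieSubalgebra k (Matrix n n k))
    (Φ : Type u) [Fintype Φ] (R : RootData p L Φ),
    ∃ (m : Φ → Φ → ℤ) (s : Φ → Φ → Φ), RefData R.toFrame m s

/-- BASE (paper S7, last three sentences) -/
def S_base : Prop :=
  ∀ (n : Type) [Fintype n] [DecidableEq n] (L : LieSubalgebra k (Matrix n n k))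
    (Φ : Type u) [Fintype Φ] (R : Frame L Φ) (m : Φ → Φ → ℤ) (s : Φ → Φ → Φ), RefData R m s →
    ∃ (Δ : Finset Φ) (co : Φ → Φ → ℤ), BaseData R Δ co

/-- NIL (paper S8, first two sentences) -/
def S_nil : Prop :=
  ∀ (n : Type) [Fintype n] [DecidableEq n] (L : LieSubalgebra k (Matrix n n k))
    (π : Matrix n n k →ₗ[k] Matrix n n k), Rich L π →
    ∀ (Φ : Type u) [Fintype Φ] (R : RootData p L Φ),
      Nil p R.toFrame ∨ ((∃ a b : Matrix n n k, ⁅a, b⁆ = 1) ∧ ∃ α, KerCond p R.toFrame α)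

/-- SL2 (paper S8, p odd) -/
def S_sl2 : Prop :=
  p ≠ 2 → ∀ (n : Type) [Fintype n] [DecidableEq n] (L : LieSubalgebra k (Matrix n n k))
    (Φ : Type u) [Fintype Φ] (R : RootData p L Φ) (Δ : Finset Φ) (co : Φ → Φ → ℤ),
    BaseData R.toFrame Δ co → ∀ α, KerCond p R.toFrame α → Nonempty (L ≃ₗ⁅k⁆ sl (Fin 2) k)

/-- SL3 (paper S8, p = 2) -/
def S_sl3 : Prop :=
  p = 2 → ∀ (n : Type) [Fintype n] [DecidableEq n] (L : LieSubalgebra k (Matrix n n k))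
    (Φ : Type u) [Fintype Φ] (R : RootData p L Φ) (Δ : Finset Φ) (co : Φ → Φ → ℤ),
    BaseData R.toFrame Δ co → ∀ α, KerCond p R.toFrame α → Nonempty (L ≃ₗ⁅k⁆ sl (Fin 3) k)

/-- FAM (paper S9, from `B=algebra generated`) -/
def S_fam : Prop :=
  ∀ (n : Type) [Fintype n] [DecidableEq n] (L : LieSubalgebra k (Matrix n n k)),
    Algebra.adjoin k (L : Set (Matrix n n k)) = ⊤ →
    ∀ F : Matrix n n k →ₗ[k] Matrix n n (LaurentPolynomial k), (∀ x ∈ L, evM 1 (F x) = x) →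
      (∀ s, ∀ x ∈ L, ∀ y ∈ L, evM s (F ⁅x, y⁆) = ⁅evM s (F x), evM s (F y)⁆) →
      (∀ s, ∀ y ∈ L, ∃ x ∈ L, evM s (F x) = y) →
      L.toSubmodule ≤ Submodule.span k
        {x | x ∈ L ∧ ∃ P : Polynomial k, P ≠ 0 ∧ ∀ s, Polynomial.aeval (evM s (F x)) P = 0} →
      ∃ Θ : Matrix n n k →ₐ[k] Matrix n n (LaurentPolynomial k),
        (∀ a, evM 1 (Θ a) = a) ∧ ∀ x ∈ L, Θ x = F x

/-- THETA (paper S9, the two families) -/
def S_theta : Prop :=
  ∀ (n : Type) [Fintype n] [DecidableEq n] (L : LieSubalgebra k (Matrix n n k))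
    (π : Matrix n n k →ₗ[k] Matrix n n k), Rich L π →
    ∀ (Φ : Type u) [Fintype Φ] (R : RootData p L Φ), Nil p R.toFrame → Thetas R.toFrame

/-- GOOD (paper S9, last paragraph) -/
def S_good : Prop :=
  ∀ (n : Type) [Fintype n] [DecidableEq n] (L : LieSubalgebra k (Matrix n n k))
    (π : Matrix n n k →ₗ[k] Matrix n n k), Rich L π →
    ∀ (Φ : Type u) [Fintype Φ] (R : RootData p L Φ) (Δ : Finset Φ) (co : Φ → Φ → ℤ),
      BaseData R.toFrame Δ co → Thetas R.toFrame →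
      ∀ θ, ∀ α ∈ Δ, co θ α ≠ 0 → ¬ (p : ℤ) ∣ co θ α

/-- ZAR (paper S10): closures of monoids, irreducibility -/
def S_zar : Prop :=
  ∀ (m : Type) [Fintype m] [DecidableEq m],
    (∀ M : Submonoid (GL m k), ∃ G : Subgroup (GL m k), IsZClosed (G : Set (GL m k)) ∧
      vanish (G : Set (GL m k)) = vanish (M : Set (GL m k)) ∧ (M : Set (GL m k)) ⊆ G ∧
      ∀ S : Set (GL m k), IsZClosed S → (M : Set (GL m k)) ⊆ S → (G : Set (GL m k)) ⊆ S) ∧
    ∀ C : Set (Matrix m m (LaurentPolynomial k)), (∀ U ∈ C, evM 1 U = 1) →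
      (vanish (Submonoid.closure (⋃ U ∈ C, pts U) : Set (GL m k))).IsPrime

/-- KOL (paper S10, `Reductive`) -/
def S_kol : Prop :=
  ∀ (n : Type) [Fintype n] [DecidableEq n] (L : LieSubalgebra k (Matrix n n k)),
    Algebra.adjoin k (L : Set (Matrix n n k)) = ⊤ →
    ∀ (Γ : Subgroup (Matrix n n k ≃ₐ[k] Matrix n n k)) (S : Set (Matrix n n k ≃ₐ[k] Matrix n n k)),
      (∀ γ ∈ Γ, IsNilpotent (γ.toLinearMap - 1 : Module.End k (Matrix n n k))) →
      (∀ σ ∈ S, ∀ γ ∈ Γ, σ * γ * σ⁻¹ ∈ Γ) →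
      (∀ J : Submodule k (Matrix n n k), (∀ σ ∈ S, ∀ a ∈ J, σ a ∈ J) →
        ∀ x ∈ L, ∀ a ∈ J, ⁅x, a⁆ ∈ J) → Γ = ⊥

/-- MOD1 (paper S10, case I) -/
def S_mod1 : Prop :=
  ∀ (n : Type) [Fintype n] [DecidableEq n] (L : LieSubalgebra k (Matrix n n k))
    (π : Matrix n n k →ₗ[k] Matrix n n k), Rich L π → (1 : Matrix n n k) ∈ L →
    Nonempty (Model L n)

/-- MOD2 (paper S10, case II) -/
def S_mod2 : Prop :=
  ∀ (n : Type) [Fintype n] [DecidableEq n] (L : LieSubalgebra k (Matrix n n k))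
    (π : Matrix n n k →ₗ[k] Matrix n n k), Rich L π → (1 : Matrix n n k) ∉ L →
    ∃ M : Model L (n × n), M.r 1 = 0 ∧ ∀ x, M.r (x ^ p) = M.r x ^ p

/-- GRP (paper S10, first two paragraphs) -/
def S_grp : Prop :=
  ∀ (n : Type) [Fintype n] [DecidableEq n] (L : LieSubalgebra k (Matrix n n k))
    (π : Matrix n n k →ₗ[k] Matrix n n k), Rich L π →
    ∀ (Φ : Type u) [Fintype Φ] (R : RootData p L Φ) (Δ : Finset Φ) (co : Φ → Φ → ℤ),
      BaseData R.toFrame Δ co → Thetas R.toFrame →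
      ∀ (m : Type) [Fintype m] [DecidableEq m] (M : Model L m),
        ∃ G : Subgroup (GL m k), GData R.toFrame Δ co M G

/-- the torus of paper S10 -/
structure TData {k : Type u} [Field k] {n : Type} [Fintype n] [DecidableEq n]
    {L : LieSubalgebra k (Matrix n n k)} {Φ : Type u} [Fintype Φ] (R : Frame L Φ)
    (Δ : Finset Φ) (co : Φ → Φ → ℤ) {m : Type} [Fintype m] [DecidableEq m] (M : Model L m)
    (G T : Subgroup (GL m k)) (χ : Φ → T →* kˣ) : Prop where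
  le : T ≤ G
  torus : IsTorus T
  mem : ∀ w : M.N, (w : GL m k) ∈ G →
    (∀ d : R.t, M.act w (diagonal d.1) = diagonal d.1) →
    (∀ β, ∃ c : k, M.act w (R.e β) = c • R.e β) → (w : GL m k) ∈ T
  act : ∀ w : T, ∃ hw : (w : GL m k) ∈ M.N,
    (∀ d : R.t, M.act ⟨w, hw⟩ (diagonal d.1) = diagonal d.1) ∧
    ∀ β, M.act ⟨w, hw⟩ (R.e β) = (χ β w : k) • R.e β
  lin : ∀ β, χ β = ∏ α ∈ Δ, χ α ^ co β α
  indep : ∀ c : Φ → ℤ, ∏ α ∈ Δ, χ α ^ c α = 1 → ∀ α ∈ Δ, c α = 0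

/-- TOR1 (paper S10, last paragraph up to `semisimple`) -/
def S_tor1 : Prop :=
  ∀ (n : Type) [Fintype n] [DecidableEq n] (L : LieSubalgebra k (Matrix n n k))
    (π : Matrix n n k →ₗ[k] Matrix n n k), Rich L π →
    ∀ (Φ : Type u) [Fintype Φ] (R : RootData p L Φ) (Δ : Finset Φ) (co : Φ → Φ → ℤ),
      BaseData R.toFrame Δ co → ∀ (m : Type) [Fintype m] [DecidableEq m] (M : Model L m)
        (G : Subgroup (GL m k)), GData R.toFrame Δ co M G →
        ∃ (T : Subgroup (GL m k)) (χ : Φ → T →* kˣ), TData R.toFrame Δ co M G T χ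

/-- TOR2 (paper S10, last two sentences) -/
def S_tor2 : Prop :=
  ∀ (n : Type) [Fintype n] [DecidableEq n] (L : LieSubalgebra k (Matrix n n k))
    (π : Matrix n n k →ₗ[k] Matrix n n k), Rich L π →
    ∀ (Φ : Type u) [Fintype Φ] (R : RootData p L Φ) (Δ : Finset Φ) (co : Φ → Φ → ℤ),
      BaseData R.toFrame Δ co → (∀ θ, ∀ α ∈ Δ, co θ α ≠ 0 → ¬ (p : ℤ) ∣ co θ α) →
      ∀ (m : Type) [Fintype m] [DecidableEq m] (M : Model L m)
        (G : Subgroup (GL m k)), GData R.toFrame Δ co M G →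
        ∀ (T : Subgroup (GL m k)) (χ : Φ → T →* kˣ), TData R.toFrame Δ co M G T χ → IsGood p G

/-- EX2 (the complement in characteristic two) -/
def S_ex2 : Prop :=
  p = 2 → ∀ (b : Type u) [LieRing b] [LieAlgebra k b] (h e : b), Module.finrank k b = 2 →
    e ≠ 0 → ⁅h, e⁆ = e → HasRichardson k b

end Pool.Agent.Lib.MP_3a0263_al.R
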