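import Mathlib

namespace Pool.Agent.Lib.MP_3a0263_al.R

attribute [local instance 100] LieRing.ofAssociativeRing

universe u

/-- The Richardson property: a finite dimensional faithful simple module `Y` and a subspace `R` of
`gl(Y)` complementary to the image of `g` and stable under bracketing with that image. -/
def HasRichardson (k g : Type u) [Field k] [LieRing g] [LieAlgebra k g] : Prop :=
  ∃ (Y : Type u) (_ : AddCommGroup Y) (_ : Module k Y) (_ : LieRingModule g Y)
    (_ : LieModule k g Y),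
    FiniteDimensional k Y ∧ LieModule.IsFaithful k g Y ∧ LieModule.IsIrreducible k g Y ∧
      ∃ R : Submodule k (Module.End k Y),
        IsCompl (LinearMap.range (LieModule.toEnd k g Y : g →ₗ[k] Module.End k Y)) R ∧
        ∀ x : g, ∀ r ∈ R, ⁅LieModule.toEnd k g Y x, r⁆ ∈ R

variable {k : Type u} [Field k] {n : Type} [Fintype n] [DecidableEq n]

/-- The matrix entries of an invertible matrix, as a point of affine space. -/
def entries (g : GL n k) : n × n → k := fun ij => (g : Matrix n n k) ij.1 ij.2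

/-- The ideal of polynomials in the matrix entries that vanish on `S`. -/
def vanish (S : Set (GL n k)) : Ideal (MvPolynomial (n × n) k) :=
  MvPolynomial.vanishingIdeal k (entries '' S)

/-- `S` is Zariski closed in `GL n k`. -/
def IsZClosed (S : Set (GL n k)) : Prop :=
  ∀ g : GL n k, (∀ f ∈ vanish S, MvPolynomial.aeval (entries g) f = 0) → g ∈ S

/-- A connected linear algebraic group: a Zariski closed, irreducible subgroup of `GL n k`. -/
def IsConnAlg (G : Subgroup (GL n k)) : Prop :=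
  IsZClosed (G : Set (GL n k)) ∧ (vanish (G : Set (GL n k))).IsPrime

/-- The Lie algebra of `G`, the tangent space at `1`: the matrices `x` such that `1 + ε x` is a
point of `G` over the dual numbers. -/
def lie (G : Subgroup (GL n k)) : Set (Matrix n n k) :=
  {x | ∀ f ∈ vanish (G : Set (GL n k)), MvPolynomial.aeval (fun ij : n × n =>
    (TrivSqZeroExt.inl ((1 : Matrix n n k) ij.1 ij.2) + TrivSqZeroExt.inr (x ij.1 ij.2) :
      DualNumber k)) f = 0}

/-- A connected reductive group: every closed connected normal unipotent subgroup is trivial. -/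
def IsReductive (G : Subgroup (GL n k)) : Prop :=
  IsConnAlg G ∧ ∀ N : Subgroup (GL n k), N ≤ G → IsConnAlg N →
    (∀ g ∈ G, ∀ u ∈ N, g * u * g⁻¹ ∈ N) →
    (∀ u ∈ N, IsNilpotent ((u : Matrix n n k) - 1)) → N = ⊥

/-- A torus: a connected commutative algebraic group consisting of semisimple elements. -/
def IsTorus (T : Subgroup (GL n k)) : Prop :=
  IsConnAlg T ∧ (∀ s ∈ T, ∀ t ∈ T, s * t = t * s) ∧
    ∀ t ∈ T, Module.End.IsSemisimple (Matrix.toLin' (t : Matrix n n k))

/-- A maximal torus of `G`. -/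
def IsMaxTorus (G T : Subgroup (GL n k)) : Prop :=
  T ≤ G ∧ IsTorus T ∧ ∀ T' : Subgroup (GL n k), T ≤ T' → T' ≤ G → IsTorus T' → T' = T

/-- A root of `G` relative to `T`: a nontrivial character of `T` with a nonzero weight vector in
the adjoint representation on `Lie G`. -/
def IsRoot (G T : Subgroup (GL n k)) (χ : T →* kˣ) : Prop :=
  χ ≠ 1 ∧ ∃ x ∈ lie G, x ≠ 0 ∧ ∀ t : T,
    ((t : GL n k) : Matrix n n k) * x * (((t : GL n k)⁻¹ : GL n k) : Matrix n n k) = (χ t : k) • x

/-- A base of the root system (characters are written multiplicatively). -/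
def IsBase (G T : Subgroup (GL n k)) (Δ : Finset (T →* kˣ)) : Prop :=
  (∀ α ∈ Δ, IsRoot G T α) ∧
  (∀ c : (T →* kˣ) → ℤ, ∏ α ∈ Δ, α ^ c α = 1 → ∀ α ∈ Δ, c α = 0) ∧
  ∀ β, IsRoot G T β → ∃ c : (T →* kˣ) → ℕ, β = ∏ α ∈ Δ, α ^ c α ∨ β⁻¹ = ∏ α ∈ Δ, α ^ c α

/-- The highest roots of the irreducible components: the roots that are maximal for the order
defined by the base `Δ`. -/
def IsHighest (G T : Subgroup (GL n k)) (Δ : Finset (T →* kˣ)) (θ : T →* kˣ) : Prop :=
  IsRoot G T θ ∧ ∀ c : (T →* kˣ) → ℕ, IsRoot G T (θ * ∏ α ∈ Δ, α ^ c α) → ∀ α ∈ Δ, c α = 0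

/-- `p` is good for `G`: it divides no (nonzero) coefficient of a highest root. -/
def IsGood (p : ℕ) (G : Subgroup (GL n k)) : Prop :=
  ∃ T : Subgroup (GL n k), IsMaxTorus G T ∧ ∃ Δ : Finset (T →* kˣ), IsBase G T Δ ∧
    ∀ θ, IsHighest G T Δ θ → ∀ c : (T →* kˣ) → ℕ, θ = ∏ α ∈ Δ, α ^ c α →
      ∀ α ∈ Δ, c α ≠ 0 → ¬ p ∣ c α

end Pool.Agent.Lib.MP_3a0263_al.R
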